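import Pool.Agent.HG.MDefs

set_option autoImplicit false

/-!
# Blocks, coordinates of plaques: definitions
-/

namespace Pool.Agent.HG

open Pool.Agent.HD MeasureTheory Set

/-- block of states with uniform constants and good windows -/
def Bk (b c C h r : ℝ) (N0 : ℕ) : Set (E2 × E2) :=
  {s | s ∈ GS b c ∧ RS b c C s ∧
    Win {n | RS b c C (sn b c s n) ∧ Iso b c h r (sn b c s n)} N0}

/-- the point with height `Y` and transversal coordinate `X` in the frame of `V0` at `z0` -/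
noncomputable def pt (V0 z0 : E2) (Y X : ℝ) : E2 := z0 + Y • V0 + X • nv V0

/-- height of a point -/
noncomputable def hgt (V0 z0 w : E2) : ℝ := wd (w - z0) (nv V0)

/-- transversal coordinate of a point -/
noncomputable def hor (V0 z0 w : E2) : ℝ := wd V0 (w - z0)

/-- a set of regular points close to `z0` with direction close to `V0` -/
def QQ (b c ρ δ C : ℝ) (V0 z0 : E2) (η H : ℝ) : Set E2 :=
  {z | ‖z - z0‖ ≤ H / 8 ∧ ∃ W : E2, ‖W - V0‖ ≤ η ∧ Reg 1 b c ρ δ (|c| + 4) C z W}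

/-- `ξ` describes the local stable curves of the points of `QQ` as graphs over the heights
`|Y| ≤ H` -/
structure Plq (b c ρ δ C : ℝ) (V0 z0 : E2) (η H : ℝ) (ξ : E2 → ℝ → ℝ) : Prop where
  cont : ∀ Y : ℝ, |Y| ≤ H → ContinuousOn (fun z => ξ z Y) (QQ b c ρ δ C V0 z0 η H)
  lip : ∀ z ∈ QQ b c ρ δ C V0 z0 η H, ∀ Y Y' : ℝ, |ξ z Y - ξ z Y'| ≤ 1 / 5 * |Y - Y'|
  base : ∀ z ∈ QQ b c ρ δ C V0 z0 η H, |hgt V0 z0 z| ≤ H / 4 ∧ |hor V0 z0 z| ≤ H / 4 ∧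
    ξ z (hgt V0 z0 z) = hor V0 z0 z
  stab : ∀ z ∈ QQ b c ρ δ C V0 z0 η H, ∀ Y : ℝ, |Y| ≤ H →
    ExpC (G 1 b c) z (pt V0 z0 Y (ξ z Y))
  arc : ∀ z ∈ QQ b c ρ δ C V0 z0 η H, ∀ W : E2, ‖W - V0‖ ≤ η →
    Reg 1 b c ρ δ (|c| + 4) C z W → ∀ (t : ℝ) (q : E2), |t| ≤ H / 4 → Asym 1 b c ρ z W t q →
      ∃ Y : ℝ, |Y| < H ∧ q = pt V0 z0 Y (ξ z Y) ∧ (0 ≤ t → hgt V0 z0 z ≤ Y) ∧
        (t ≤ 0 → Y ≤ hgt V0 z0 z)

end Pool.Agent.HG
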