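import Pool.Agent.HD.Defs

set_option autoImplicit false

/-!
# Mild dissipation of real Henon maps, nonatomic measures with zero exponent: definitions

Interface of the project HG (paper proof /team-store/hg_proof.md). The contraction rate is
`el b = log (1 / |b|)`, the errors of the exponents are `dl b = el b / 1000`, all orbits are in
the ball of radius `|c| + 4`. A state is a pair `s = (p, V)`, `V` a contracted unit vector at `p`.
-/

namespace Pool.Agent.HG

open Pool.Agent.HD MeasureTheory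

/-- the contraction rate `log (1 / |b|)` -/
noncomputable def el (b : ℝ) : ℝ := -Real.log |b|

/-- the error of the exponents -/
noncomputable def dl (b : ℝ) : ℝ := el b / 1000

/-- the vector orthogonal to `V` with `wd V (nv V) = 1` -/
noncomputable def nv (V : E2) : E2 := (-V.2 / (V.1 ^ 2 + V.2 ^ 2), V.1 / (V.1 ^ 2 + V.2 ^ 2))

/-- the points whose full orbit stays in the ball of radius `|c| + 4` -/
def KK (b c : ℝ) : Set E2 :=
  {q | (∀ n : ℕ, ‖(G 1 b c)^[n] q‖ ≤ |c| + 4) ∧ ∀ n : ℕ, ‖(Gi 1 b c)^[n] q‖ ≤ |c| + 4}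

/-- regular state with constant `C` -/
def RS (b c C : ℝ) (s : E2 × E2) : Prop := Reg 1 b c (el b) (dl b) (|c| + 4) C s.1 s.2

/-- `q` is the point with parameter `t` of the stable curve of the state `s` -/
def Cu (b c : ℝ) (s : E2 × E2) (t : ℝ) (q : E2) : Prop := Asym 1 b c (el b) s.1 s.2 t q

/-- the image of the vector of the state at time `n` -/
def vn (b c : ℝ) (s : E2 × E2) (n : ℕ) : E2 := act (co 1 b c s.1 n) s.2

/-- its norm -/
noncomputable def lam (b c : ℝ) (s : E2 × E2) (n : ℕ) : ℝ := ‖vn b c s n‖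

/-- the state at time `n` -/
noncomputable def sn (b c : ℝ) (s : E2 × E2) (n : ℕ) : E2 × E2 :=
  ((G 1 b c)^[n] s.1, (lam b c s n)⁻¹ • vn b c s n)

/-- the branch `t ≥ h` stays at distance at least `r` from the base point -/
def Iso (b c h r : ℝ) (s : E2 × E2) : Prop :=
  ∀ (t : ℝ) (q : E2), h ≤ t → Cu b c s t q → r ≤ ‖q - s.1‖

/-- the branch of the stable curve in the direction of the state -/
def Brn (b c : ℝ) (s : E2 × E2) : Set E2 := {q | ∃ t : ℝ, 0 ≤ t ∧ Cu b c s t q}

/-- the limit set of the branch -/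
def Lim (b c : ℝ) (s : E2 × E2) : Set E2 :=
  {z | ∀ T ε : ℝ, 0 < ε → ∃ (t : ℝ) (q : E2), T ≤ t ∧ Cu b c s t q ∧ ‖q - z‖ < ε}

/-- at least 98 percent of the times below `N` are in `S`, for all `N ≥ N0` -/
def Win (S : Set ℕ) (N0 : ℕ) : Prop := ∀ N : ℕ, N0 ≤ N → 50 * {n : ℕ | n < N ∧ n ∉ S}.ncard ≤ N

open Classical in
/-- the stable curve of a regular state, as a function of the parameter -/
noncomputable def cuf (b c : ℝ) (s : E2 × E2) (t : ℝ) : E2 :=
  if h : (∃ C : ℝ, RS b c C s) ∧ ∃ q : E2, Cu b c s t q then h.2.choose else 0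

/-- the space of the full orbits in the ball -/
abbrev Kt (b c : ℝ) : Type := ↥(KK b c)

/-- the space of states -/
abbrev St (b c : ℝ) : Type := ↥{s : E2 × E2 | s.1 ∈ KK b c ∧ ‖s.2‖ = 1}

end Pool.Agent.HG
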