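import Pool.Agent.HD.Bnd
import Pool.Agent.HD.Filt
import Pool.Agent.HG.Defs

set_option autoImplicit false

/-!
# Bounded branches consist of points with bounded full orbit, also for zero exponent

By recurrence almost every point returns for the inverse map infinitely often to the set of the points with a
bounded branch with given constants, so the backward orbit of every point of the branch is bounded along a
subsequence; the forward orbit is bounded, and `filt` (HD/Filt) gives the two halves of the definition of `KK`.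
-/

namespace Pool.Agent.HG

open Pool.Agent.HD MeasureTheory

private def bn0Z1 (b c ρ δ R : ℝ) (C M : ℕ) : Set E2 :=
  {p | ∃ V, Reg 1 b c ρ δ R C p V ∧ Br 1 b c ρ (Metric.closedBall 0 M) p V}

private def bn0Z2 (b c ρ δ R : ℝ) (C M : ℕ) : Set E2 :=
  {p | ∃ V, Reg 1 b c ρ δ R C p V ∧ Br 1 b c ρ (Metric.closedBall 0 M) p V ∧
    Br 1 b c ρ (Metric.closedBall 0 M) p (-V)}

private theorem bn0_Z1_meas {b c ρ δ : ℝ} (hb : b ≠ 0) (hδ : 0 < δ) (hρ : 100 * δ ≤ ρ) (R : ℝ)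
    (C M : ℕ) : MeasurableSet (bn0Z1 b c ρ δ R C M) := by
  have h := br_compact (a := 1) (c := c) hb hδ hρ R C
    (F := Metric.closedBall (0 : E2) (M : ℝ)) Metric.isClosed_closedBall
  have h2 : bn0Z1 b c ρ δ R C M = Prod.fst '' {x : E2 × E2 | Reg 1 b c ρ δ R C x.1 x.2 ∧
      Br 1 b c ρ (Metric.closedBall 0 M) x.1 x.2} := by
    ext p
    constructor
    · rintro ⟨V, hV⟩
      exact ⟨(p, V), hV, rfl⟩
    · rintro ⟨⟨p', V⟩, hV, rfl⟩
      exact ⟨V, hV⟩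
  rw [h2]
  exact (h.image continuous_fst).isClosed.measurableSet

private theorem bn0_Z2_meas {b c ρ δ : ℝ} (hb : b ≠ 0) (hδ : 0 < δ) (hρ : 100 * δ ≤ ρ) (R : ℝ)
    (C M : ℕ) : MeasurableSet (bn0Z2 b c ρ δ R C M) := by
  have h := br_compact (a := 1) (c := c) hb hδ hρ R C
    (F := Metric.closedBall (0 : E2) (M : ℝ)) Metric.isClosed_closedBall
  have hφ : Continuous fun x : E2 × E2 => ((x.1, -x.2) : E2 × E2) :=
    continuous_fst.prodMk continuous_snd.neg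
  have h2 : bn0Z2 b c ρ δ R C M = Prod.fst '' ({x : E2 × E2 | Reg 1 b c ρ δ R C x.1 x.2 ∧
      Br 1 b c ρ (Metric.closedBall 0 M) x.1 x.2} ∩ (fun x : E2 × E2 => ((x.1, -x.2) : E2 × E2)) ⁻¹'
      {x : E2 × E2 | Reg 1 b c ρ δ R C x.1 x.2 ∧
      Br 1 b c ρ (Metric.closedBall 0 M) x.1 x.2}) := by
    ext p
    constructor
    · rintro ⟨V, hV1, hV2, hV3⟩
      exact ⟨(p, V), ⟨⟨hV1, hV2⟩, ⟨hV1.neg, hV3⟩⟩, rfl⟩
    · rintro ⟨⟨p', V⟩, ⟨⟨hV1, hV2⟩, ⟨_, hV3⟩⟩, rfl⟩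
      exact ⟨V, hV1, hV2, hV3⟩
  rw [h2]
  exact ((h.inter_right (h.isClosed.preimage hφ)).image continuous_fst).isClosed.measurableSet

private def bn0P (b c ρ δ R : ℝ) (C M : ℕ) : Set E2 :=
  bn0Z2 b c ρ δ R C M ∪ (bn0Z1 b c ρ δ R C M \ ⋃ C' : ℕ, ⋃ M' : ℕ, bn0Z2 b c ρ δ R C' M')

private theorem bn0_P_meas {b c ρ δ : ℝ} (hb : b ≠ 0) (hδ : 0 < δ) (hρ : 100 * δ ≤ ρ) (R : ℝ)
    (C M : ℕ) : MeasurableSet (bn0P b c ρ δ R C M) :=
  (bn0_Z2_meas hb hδ hρ R C M).union ((bn0_Z1_meas hb hδ hρ R C M).diff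
    (MeasurableSet.iUnion fun C' => MeasurableSet.iUnion fun M' => bn0_Z2_meas hb hδ hρ R C' M'))

private theorem bn0_Br_mono {a b c ρ : ℝ} {S S' : Set E2} (h : S ⊆ S') {p V : E2}
    (hS : Br a b c ρ S p V) : Br a b c ρ S' p V :=
  fun s hs q hq => h (hS s hs q hq)

private theorem bn0_dir {b c ρ δ R : ℝ} (hb : b ≠ 0) (hρ : 0 < 2 * ρ - 6 * δ + Real.log |b|)
    {p V W : E2} {C C' : ℝ} (hV : Reg 1 b c ρ δ R C p V) (hW : Reg 1 b c ρ δ R C' p W) :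
    V = W ∨ V = -W :=
  uniq_dir hb hW.unit hV.unit hW.con hV.con (by linarith)

/-- a bounded branch of a point of `bn0P C M` is in the ball of radius `M` -/
private theorem bn0_P_branch {b c ρ δ R : ℝ} (hb : b ≠ 0)
    (hρ : 0 < 2 * ρ - 6 * δ + Real.log |b|) {C M : ℕ} {p V : E2} (hp : p ∈ bn0P b c ρ δ R C M)
    {C' M' : ℝ} (hV : Reg 1 b c ρ δ R C' p V) (hB : Br 1 b c ρ (Metric.closedBall 0 M') p V) :
    Br 1 b c ρ (Metric.closedBall 0 M) p V := by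
  rcases hp with ⟨W, hW1, hW2, hW3⟩ | ⟨⟨W, hW1, hW2⟩, hn⟩
  · rcases bn0_dir hb hρ hV hW1 with h | h
    · rw [h]; exact hW2
    · rw [h]; exact hW3
  · rcases bn0_dir hb hρ hV hW1 with h | h
    · rw [h]; exact hW2
    · exfalso
      apply hn
      obtain ⟨N, hN⟩ := exists_nat_ge (max (M : ℝ) M')
      rw [Set.mem_iUnion₂]
      refine ⟨C, N, W, hW1, ?_, ?_⟩
      · exact bn0_Br_mono (Metric.closedBall_subset_closedBall ((le_max_left _ _).trans hN)) hW2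
      · rw [← h]
        exact bn0_Br_mono (Metric.closedBall_subset_closedBall ((le_max_right _ _).trans hN)) hB

private theorem bn0_mem_P {b c ρ δ R : ℝ} {p V : E2} {C M : ℝ}
    (hV : Reg 1 b c ρ δ R C p V) (hB : Br 1 b c ρ (Metric.closedBall 0 M) p V) :
    ∃ C' M' : ℕ, p ∈ bn0P b c ρ δ R C' M' := by
  by_cases h : p ∈ ⋃ C' : ℕ, ⋃ M' : ℕ, bn0Z2 b c ρ δ R C' M'
  · rw [Set.mem_iUnion₂] at h
    obtain ⟨C', M', h'⟩ := h
    exact ⟨C', M', Or.inl h'⟩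
  · obtain ⟨C', hC'⟩ := exists_nat_ge C
    obtain ⟨M', hM'⟩ := exists_nat_ge M
    exact ⟨C', M', Or.inr ⟨⟨V, hV.mono hC' le_rfl,
      bn0_Br_mono (Metric.closedBall_subset_closedBall hM') hB⟩, h⟩⟩

theorem bnd0 {b c ρ δ : ℝ} (hb0 : b ≠ 0) (hb1 : |b| < 1) (hδ : 0 < δ) (hρ : 100 * δ ≤ ρ)
    (hρ' : -Real.log |b| ≤ ρ) {μ : Measure E2} [IsProbabilityMeasure μ]
    (hμ : MeasurePreserving (G 1 b c) μ μ) :
    ∀ᵐ p ∂μ, ∀ (C : ℝ) (V : E2), Reg 1 b c ρ δ (|c| + 4) C p V → ∀ M : ℝ,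
      Br 1 b c ρ (Metric.closedBall 0 M) p V → Br 1 b c ρ (KK b c) p V := by
  have hρ2 : 0 < 2 * ρ - 6 * δ + Real.log |b| := by linarith
  have hcons := (mp_Gi hb0 hμ).conservative
  have hret : ∀ᵐ p ∂μ, ∀ C M : ℕ, p ∈ bn0P b c ρ δ (|c| + 4) C M →
      ∃ᶠ n in Filter.atTop, (Gi 1 b c)^[n] p ∈ bn0P b c ρ δ (|c| + 4) C M := by
    rw [ae_all_iff]
    intro C
    rw [ae_all_iff]
    intro M
    exact hcons.ae_mem_imp_frequently_image_mem
      (bn0_P_meas hb0 hδ hρ (|c| + 4) C M).nullMeasurableSet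
  filter_upwards [hret, supp hb0 hb1 hμ] with p hp hsupp
  intro C V hReg M hBr s hs q hq
  obtain ⟨C', M', hP⟩ := bn0_mem_P hReg hBr
  have hfr := hp C' M' hP
  have h2 : ∃ᶠ n : ℕ in Filter.atTop, ‖(Gi 1 b c)^[n] q‖ ≤ M' := by
    refine hfr.mono ?_
    intro n hn
    obtain ⟨C1, V1, M1, hR1, hB1, hS1⟩ := Reg.back_bdd hb0 hδ hReg hsupp.2 hBr n
    have h3 := hS1 _ (bn0_P_branch hb0 hρ2 hn hR1 hB1) s hs q hq
    rwa [mem_closedBall_zero_iff] at h3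
  have hE := (Asym.expC hρ hδ hReg hq).tendsto
  have h1 : ∃ᶠ n : ℕ in Filter.atTop, ‖(G 1 b c)^[n] q‖ ≤ |c| + 4 + 1 := by
    refine Filter.Eventually.frequently ?_
    filter_upwards [hE.eventually (gt_mem_nhds (zero_lt_one' ℝ))] with n hn
    have h4 : ‖(G 1 b c)^[n] q‖ ≤ ‖(G 1 b c)^[n] q - (G 1 b c)^[n] p‖ + ‖(G 1 b c)^[n] p‖ := by
      have := norm_add_le ((G 1 b c)^[n] q - (G 1 b c)^[n] p) ((G 1 b c)^[n] p)
      rwa [sub_add_cancel] at this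
    rw [dist_eq_norm] at hn
    have h5 := hsupp.1 n
    linarith
  exact filt hb0 hb1 (q := q) (M := max (|c| + 4 + 1) M')
    (h1.mono fun n hn => hn.trans (le_max_left _ _)) (h2.mono fun n hn => hn.trans (le_max_right _ _))

end Pool.Agent.HG
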