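import Pool.Agent.HG.Od

set_option autoImplicit false

/-!
# Barriers on both sides in a measurable family of disjoint graphs

For `|Y| ≤ H` the law of `ω ↦ ξ ω Y` has no atoms, so by `one_side` almost every value is approached by mass from
both sides. Two such graphs close to the graph of `ω`, one at the height `Y1`, the other at the height `Y2`, are
ordered, and the one nearer to the graph of `ω` is a barrier.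
-/

namespace Pool.Agent.HG

open MeasureTheory Set Filter

private theorem ord {a b : ℝ → ℝ} (ha : Continuous a) (hb : Continuous b) {H Y0 : ℝ}
    (hY0 : |Y0| ≤ H) (hne : ∀ Y : ℝ, |Y| ≤ H → a Y ≠ b Y) (h : a Y0 < b Y0) :
    ∀ Y : ℝ, |Y| ≤ H → a Y < b Y := by
  intro Y hY
  by_contra hc
  have hc' : b Y ≤ a Y := not_lt.1 hc
  obtain ⟨x, hx, hxe⟩ := isPreconnected_Icc.intermediate_value₂ (s := Icc (-H) H)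
    (abs_le.1 hY0) (abs_le.1 hY) ha.continuousOn hb.continuousOn h.le hc'
  exact hne x (abs_le.2 hx) hxe

private theorem leftb {Ω : Type*} [MeasurableSpace Ω] {κ : Measure Ω}
    {ξ : Ω → ℝ → ℝ} {H : ℝ} {S : Set Ω} (hS : ∀ᵐ ω ∂κ, ω ∈ S)
    (hcont : ∀ ω ∈ S, Continuous (ξ ω))
    (hdis : ∀ ω ∈ S, ∀ᵐ ω' ∂κ, ∀ Y : ℝ, |Y| ≤ H → ξ ω Y ≠ ξ ω' Y) {R : Ω → Ω → Prop}
    {ω : Ω} (hω : ω ∈ S) (hR : ∀ᵐ ω' ∂κ, R ω ω') {Y1 Y2 ε : ℝ} (h1 : |Y1| ≤ H) (h2 : |Y2| ≤ H)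
    (p1 : κ {ω' | ξ ω' Y1 ∈ Ioo (ξ ω Y1 - ε) (ξ ω Y1)} ≠ 0)
    (p2 : κ {ω' | ξ ω' Y2 ∈ Ioo (ξ ω Y2 - ε) (ξ ω Y2)} ≠ 0) :
    ∃ ω1 ∈ S, R ω ω1 ∧ (∀ Y : ℝ, |Y| ≤ H → ξ ω1 Y < ξ ω Y) ∧
      ξ ω Y1 - ε < ξ ω1 Y1 ∧ ξ ω Y2 - ε < ξ ω1 Y2 := by
  obtain ⟨ω', ⟨ha, hb⟩, hS', hR', hd'⟩ := ((frequently_ae_iff.2 p1).and_eventually
    (hS.and (hR.and (hdis ω hω)))).exists
  obtain ⟨ω'', ⟨ha2, hb2⟩, hS'', hR'', hd'', he''⟩ := ((frequently_ae_iff.2 p2).and_eventually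
    (hS.and (hR.and ((hdis ω hω).and (hdis ω' hS'))))).exists
  have o1 : ∀ Y : ℝ, |Y| ≤ H → ξ ω' Y < ξ ω Y :=
    ord (hcont ω' hS') (hcont ω hω) h1 (fun Y hY => (hd' Y hY).symm) hb
  have o2 : ∀ Y : ℝ, |Y| ≤ H → ξ ω'' Y < ξ ω Y :=
    ord (hcont ω'' hS'') (hcont ω hω) h2 (fun Y hY => (hd'' Y hY).symm) hb2
  rcases lt_or_gt_of_ne (he'' Y1 h1) with hlt | hgt
  · have o3 : ∀ Y : ℝ, |Y| ≤ H → ξ ω' Y < ξ ω'' Y :=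
      ord (hcont ω' hS') (hcont ω'' hS'') h1 he'' hlt
    exact ⟨ω'', hS'', hR'', o2, ha.trans (o3 Y1 h1), ha2⟩
  · have o3 : ∀ Y : ℝ, |Y| ≤ H → ξ ω'' Y < ξ ω' Y :=
      ord (hcont ω'' hS'') (hcont ω' hS') h1 (fun Y hY => (he'' Y hY).symm) hgt
    exact ⟨ω', hS', hR', o1, ha, ha2.trans (o3 Y2 h2)⟩

theorem barrier {Ω : Type*} [MeasurableSpace Ω] {κ : Measure Ω} [IsFiniteMeasure κ]
    {ξ : Ω → ℝ → ℝ} {H : ℝ} (hH : 0 < H) {S : Set Ω} (hS : ∀ᵐ ω ∂κ, ω ∈ S)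
    (hm : ∀ Y : ℝ, |Y| ≤ H → AEMeasurable (fun ω => ξ ω Y) κ)
    (hcont : ∀ ω ∈ S, Continuous (ξ ω))
    (hdis : ∀ ω ∈ S, ∀ᵐ ω' ∂κ, ∀ Y : ℝ, |Y| ≤ H → ξ ω Y ≠ ξ ω' Y) {R : Ω → Ω → Prop}
    (hR : ∀ᵐ ω ∂κ, ∀ᵐ ω' ∂κ, R ω ω') :
    ∀ᵐ ω ∂κ, ∀ Y1 Y2 : ℚ, |(Y1 : ℝ)| ≤ H → |(Y2 : ℝ)| ≤ H → ∀ ε : ℝ, 0 < ε →
      ∃ ω1 ∈ S, ∃ ω2 ∈ S, R ω ω1 ∧ R ω ω2 ∧
        (∀ Y : ℝ, |Y| ≤ H → ξ ω1 Y < ξ ω Y ∧ ξ ω Y < ξ ω2 Y) ∧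
        ξ ω Y1 - ε < ξ ω1 Y1 ∧ ξ ω Y2 - ε < ξ ω1 Y2 ∧
        ξ ω2 Y1 < ξ ω Y1 + ε ∧ ξ ω2 Y2 < ξ ω Y2 + ε := by
  have key : ∀ᵐ ω ∂κ, ∀ Y : ℚ, |(Y : ℝ)| ≤ H → ∀ ε : ℝ, 0 < ε →
      κ {ω' | ξ ω' Y ∈ Ioo (ξ ω Y - ε) (ξ ω Y)} ≠ 0 ∧
      κ {ω' | ξ ω' Y ∈ Ioo (ξ ω Y) (ξ ω Y + ε)} ≠ 0 := by
    rw [ae_all_iff]
    intro Y
    by_cases hY : |(Y : ℝ)| ≤ H
    · have hna : ∀ t, (κ.map (fun ω => ξ ω Y)) {t} = 0 := by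
        intro t
        rw [Measure.map_apply_of_aemeasurable (hm Y hY) (measurableSet_singleton t)]
        by_contra h0
        have hfr : ∃ᵐ ω ∂κ, ω ∈ (fun ω => ξ ω (Y : ℝ)) ⁻¹' {t} := frequently_ae_mem_iff.2 h0
        obtain ⟨ω, hω1, hω2⟩ := (hfr.and_eventually hS).exists
        refine h0 ?_
        have h3 := hdis ω hω2
        rw [ae_iff] at h3
        refine measure_mono_null ?_ h3
        intro ω' hω'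
        simp only [mem_preimage, mem_singleton_iff] at hω1 hω'
        simp only [mem_ofPred_eq]
        intro hall
        exact hall Y hY (hω1.trans hω'.symm)
      have h1 := ae_of_ae_map (hm Y hY) (one_side hna)
      filter_upwards [h1] with ω hω _ ε hε
      obtain ⟨a1, a2⟩ := hω ε hε
      rw [Measure.map_apply_of_aemeasurable (hm Y hY) measurableSet_Ioo] at a1 a2
      exact ⟨a1.ne', a2.ne'⟩
    · exact Eventually.of_forall fun ω h => absurd h hY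
  filter_upwards [hS, hR, key] with ω hωS hωR hk Y1 Y2 h1 h2 ε hε
  obtain ⟨ω1, hω1, r1, o1, e1, e2⟩ := leftb hS hcont hdis hωS hωR h1 h2 (hk Y1 h1 ε hε).1
    (hk Y2 h2 ε hε).1
  have hset : ∀ Y : ℝ, {ω' | -ξ ω' Y ∈ Ioo (-ξ ω Y - ε) (-ξ ω Y)} =
      {ω' | ξ ω' Y ∈ Ioo (ξ ω Y) (ξ ω Y + ε)} := by
    intro Y
    ext ω'
    simp only [mem_ofPred_eq, mem_Ioo]
    constructor
    · rintro ⟨x1, x2⟩
      constructor <;> linarith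
    · rintro ⟨x1, x2⟩
      constructor <;> linarith
  obtain ⟨ω2, hω2, r2, o2, e3, e4⟩ := leftb (ξ := fun ω Y => -ξ ω Y) (H := H) (ε := ε) hS
    (fun ω' h' => (hcont ω' h').neg)
    (fun ω' h' => by
      filter_upwards [hdis ω' h'] with ω'' h'' Y hY he
      exact h'' Y hY (neg_injective he))
    hωS hωR h1 h2
    (by
      rw [hset]
      exact (hk Y1 h1 ε hε).2)
    (by
      rw [hset]
      exact (hk Y2 h2 ε hε).2)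
  refine ⟨ω1, hω1, ω2, hω2, r1, r2, fun Y hY => ⟨o1 Y hY, ?_⟩, e1, e2, ?_, ?_⟩
  · have := o2 Y hY
    linarith
  · linarith
  · linarith

end Pool.Agent.HG
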