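import Pool.Agent.HG.Bt1
import Pool.Agent.HD.Lit

set_option autoImplicit false

/-!
# Points of the stable set are on the stable curve, also for zero exponent

An exponential rate `r` of convergence improves to `3 / 2 * r` until the coordinate along the contracted
direction converges.
-/

namespace Pool.Agent.HG

open Pool.Agent.HD

variable {a b c ρ δ R C : ℝ} {p V q : E2}

private lemma grow {α : ℕ → ℝ} {D σ δ : ℝ} (hD : 0 ≤ D) (hσ : 0 ≤ σ) (hδ : 0 < δ)
    (h : ∀ k : ℕ, |α (k + 1) - α k| ≤ D * Real.exp (σ * k)) (k : ℕ) :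
    |α k| ≤ (|α 0| + D / δ) * Real.exp ((σ + δ) * k) := by
  induction k with
  | zero =>
    have h0 : 0 ≤ D / δ := by positivity
    simp only [Nat.cast_zero, mul_zero, Real.exp_zero, mul_one]
    linarith
  | succ k ih =>
    have h1 : |α (k + 1)| ≤ |α k| + D * Real.exp (σ * k) := by
      have h2 : α (k + 1) = α k + (α (k + 1) - α k) := by ring
      rw [h2]
      exact (abs_add_le _ _).trans (by have := h k; linarith)
    have hE : Real.exp ((σ + δ) * ((k + 1 : ℕ) : ℝ)) =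
        Real.exp (σ + δ) * Real.exp ((σ + δ) * k) := by
      rw [← Real.exp_add]
      congr 1
      push_cast
      ring
    have h3 : 1 + δ ≤ Real.exp (σ + δ) := by
      have := Real.add_one_le_exp (σ + δ)
      linarith
    have h4 : Real.exp (σ * k) ≤ Real.exp ((σ + δ) * k) := by
      apply Real.exp_le_exp.2
      have : 0 ≤ δ * (k : ℝ) := by positivity
      linarith
    have hK : 0 ≤ |α 0| + D / δ := by positivity
    have hE0 : 0 < Real.exp ((σ + δ) * k) := Real.exp_pos _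
    have h5 : D ≤ (|α 0| + D / δ) * δ := by
      have : D / δ * δ = D := by field_simp
      nlinarith [abs_nonneg (α 0)]
    rw [hE]
    calc |α (k + 1)| ≤ |α k| + D * Real.exp (σ * k) := h1
      _ ≤ (|α 0| + D / δ) * Real.exp ((σ + δ) * k) + D * Real.exp ((σ + δ) * k) :=
          add_le_add ih (mul_le_mul_of_nonneg_left h4 hD)
      _ ≤ (|α 0| + D / δ) * Real.exp ((σ + δ) * k) +
          (|α 0| + D / δ) * δ * Real.exp ((σ + δ) * k) := by
          gcongr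
      _ = (|α 0| + D / δ) * ((1 + δ) * Real.exp ((σ + δ) * k)) := by ring
      _ ≤ (|α 0| + D / δ) * (Real.exp (σ + δ) * Real.exp ((σ + δ) * k)) := by
          gcongr

private lemma conv {α : ℕ → ℝ} {D κ : ℝ} (hD : 0 ≤ D) (hκ : 0 < κ)
    (h : ∀ k : ℕ, |α (k + 1) - α k| ≤ D * Real.exp (-κ * k)) :
    ∃ s K : ℝ, 0 ≤ K ∧ ∀ k : ℕ, |α k - s| ≤ K * Real.exp (-κ * k) := by
  have hr : Real.exp (-κ) < 1 := by
    rw [Real.exp_lt_one_iff]
    linarith
  have hp : ∀ k : ℕ, Real.exp (-κ * k) = Real.exp (-κ) ^ k := by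
    intro k
    rw [← Real.exp_nat_mul]
    congr 1
    ring
  have hu : ∀ n, dist (α n) (α (n + 1)) ≤ D * Real.exp (-κ) ^ n := by
    intro n
    rw [dist_comm, Real.dist_eq, ← hp]
    exact h n
  obtain ⟨s, hs⟩ := cauchySeq_tendsto_of_complete (cauchySeq_of_le_geometric _ _ hr hu)
  refine ⟨s, D / (1 - Real.exp (-κ)), div_nonneg hD (by linarith), fun k => ?_⟩
  have := dist_le_of_le_geometric_of_tendsto _ _ hr hu hs k
  rw [Real.dist_eq] at this
  rw [hp]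
  calc |α k - s| ≤ D * Real.exp (-κ) ^ k / (1 - Real.exp (-κ)) := this
    _ = D / (1 - Real.exp (-κ)) * Real.exp (-κ) ^ k := by ring

private lemma exp_mono {x y : ℝ} (h : y ≤ x) (k : ℕ) :
    Real.exp (-x * k) ≤ Real.exp (-y * k) := by
  apply Real.exp_le_exp.2
  have : 0 ≤ (x - y) * (k : ℝ) := mul_nonneg (by linarith) (by positivity)
  linarith

/-- combination of a decomposition with a bound of the coordinate -/
private lemma comb {z v : E2} {t A C D x y w r : ℝ} {k : ℕ} (hA : 0 ≤ A) (hD : 0 ≤ D)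
    (h1 : ‖z - t • v‖ ≤ D * Real.exp (-x * k)) (h2 : |t| ≤ A * Real.exp (-y * k))
    (h3 : ‖v‖ ≤ C * Real.exp (-w * k)) (hC : 0 ≤ C) (hx : r ≤ x) (hyw : r ≤ y + w) :
    ‖z‖ ≤ (D + A * C) * Real.exp (-r * k) := by
  have h4 : ‖z‖ ≤ ‖z - t • v‖ + |t| * ‖v‖ := by
    have h5 : z = (z - t • v) + t • v := by abel
    calc ‖z‖ = ‖(z - t • v) + t • v‖ := by rw [← h5]
      _ ≤ ‖z - t • v‖ + ‖t • v‖ := norm_add_le _ _
      _ = ‖z - t • v‖ + |t| * ‖v‖ := by rw [norm_smul, Real.norm_eq_abs]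
  have h6 : |t| * ‖v‖ ≤ (A * Real.exp (-y * k)) * (C * Real.exp (-w * k)) :=
    mul_le_mul h2 h3 (norm_nonneg _) (by positivity)
  have h7 : (A * Real.exp (-y * k)) * (C * Real.exp (-w * k)) =
      A * C * Real.exp (-(y + w) * k) := by
    have : Real.exp (-(y + w) * k) = Real.exp (-y * k) * Real.exp (-w * k) := by
      rw [← Real.exp_add]
      congr 1
      ring
    rw [this]
    ring
  have h8 : A * C * Real.exp (-(y + w) * k) ≤ A * C * Real.exp (-r * k) :=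
    mul_le_mul_of_nonneg_left (exp_mono hyw k) (by positivity)
  have h9 : D * Real.exp (-x * k) ≤ D * Real.exp (-r * k) :=
    mul_le_mul_of_nonneg_left (exp_mono hx k) hD
  calc ‖z‖ ≤ ‖z - t • v‖ + |t| * ‖v‖ := h4
    _ ≤ D * Real.exp (-r * k) + A * C * Real.exp (-r * k) := by linarith
    _ = (D + A * C) * Real.exp (-r * k) := by ring

private lemma nonneg_of_zero {D x y : ℝ} (hx : 0 ≤ x)
    (h : x ≤ D * Real.exp (y * ((0 : ℕ) : ℝ))) : 0 ≤ D := by
  simp only [Nat.cast_zero, mul_zero, Real.exp_zero, mul_one] at h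
  linarith

private theorem improve0 (hb : b ≠ 0) (hδ : 0 < δ) (hτ : 0 ≤ ρ + Real.log |b|)
    (h : Reg a b c ρ δ R C p V) {r D : ℝ} (hr : 20 * δ ≤ r) (hr' : 0 ≤ ρ - 2 * r + 6 * δ)
    (hq : ∀ k : ℕ, ‖(G a b c)^[k] q - (G a b c)^[k] p‖ ≤ D * Real.exp (-r * k)) :
    ∃ D' : ℝ, ∀ k : ℕ, ‖(G a b c)^[k] q - (G a b c)^[k] p‖ ≤
      D' * Real.exp (-(3 / 2 * r) * k) := by
  have hr0 : 0 < r := by linarith
  obtain ⟨α, D', h1, h2⟩ := decomp0 hb hδ h hr0 (by linarith) hq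
  have hD' : 0 ≤ D' := nonneg_of_zero (norm_nonneg _) (h1 0)
  have hC : 0 ≤ C := le_trans zero_le_one h.one_le
  refine ⟨D' + (|α 0| + D' / δ) * C, fun k => ?_⟩
  refine comb (t := α k) (y := -(ρ - 2 * r + 6 * δ + δ)) (w := ρ - 3 * δ) (x := 2 * r - 5 * δ)
    (by positivity) hD' (h1 k) ?_ (h.con k) hC (by linarith) (by linarith)
  rw [neg_neg]
  exact grow hD' hr' hδ h2 k

theorem expC_asym0 (hb : b ≠ 0) (hρ : 0 < ρ) (hτ : 0 ≤ ρ + Real.log |b|) {δ0 : ℝ} (h0 : 0 < δ0)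
    (h : ∀ δ : ℝ, 0 < δ → δ ≤ δ0 → ∃ C : ℝ, Reg a b c ρ δ R C p V)
    (hq : ExpC (G a b c) p q) : ∃ s : ℝ, Asym a b c ρ p V s q := by
  obtain ⟨r0, hr0, D0, hD0⟩ := hq
  have hz0 : ∀ k : ℕ, ‖(G a b c)^[k] q - (G a b c)^[k] p‖ ≤ D0 * Real.exp (-r0 * k) := by
    intro k
    rw [← dist_eq_norm]
    exact hD0 k
  obtain ⟨δ, hδ, hδ1, hδ2, hδ3⟩ : ∃ δ : ℝ, 0 < δ ∧ δ ≤ δ0 ∧ 20 * δ ≤ r0 ∧
      100 * δ ≤ ρ := by
    refine ⟨min (min δ0 (r0 / 20)) (ρ / 100), ?_, ?_, ?_, ?_⟩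
    · refine lt_min (lt_min h0 (by positivity)) (by positivity)
    · exact (min_le_left _ _).trans (min_le_left _ _)
    · have := (min_le_left (min δ0 (r0 / 20)) (ρ / 100)).trans (min_le_right _ _)
      linarith
    · have := min_le_right (min δ0 (r0 / 20)) (ρ / 100)
      linarith
  obtain ⟨C, hR⟩ := h δ hδ hδ1
  have hC : 0 ≤ C := le_trans zero_le_one hR.one_le
  -- the rate improves until the coordinate converges
  have key : ∀ n : ℕ, (∃ D : ℝ, ∀ k : ℕ, ‖(G a b c)^[k] q - (G a b c)^[k] p‖ ≤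
      D * Real.exp (-((3 / 2) ^ n * r0) * k)) ∨ ∃ r : ℝ, 20 * δ ≤ r ∧ ρ - 2 * r + 6 * δ < 0 ∧
      ∃ D : ℝ, ∀ k : ℕ, ‖(G a b c)^[k] q - (G a b c)^[k] p‖ ≤ D * Real.exp (-r * k) := by
    intro n
    induction n with
    | zero =>
      left
      refine ⟨D0, fun k => ?_⟩
      rw [pow_zero, one_mul]
      exact hz0 k
    | succ n ih =>
      rcases ih with ⟨D, hD⟩ | h3
      · have h20 : 20 * δ ≤ (3 / 2 : ℝ) ^ n * r0 := by
          have h1 : (1 : ℝ) ≤ (3 / 2 : ℝ) ^ n := one_le_pow₀ (by norm_num)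
          nlinarith
        by_cases h4 : ρ - 2 * ((3 / 2 : ℝ) ^ n * r0) + 6 * δ < 0
        · right
          exact ⟨_, h20, h4, D, hD⟩
        · left
          obtain ⟨D1, hD1⟩ := improve0 hb hδ hτ hR h20 (not_lt.1 h4) hD
          refine ⟨D1, fun k => ?_⟩
          have := hD1 k
          have e : (3 / 2 : ℝ) ^ (n + 1) * r0 = 3 / 2 * ((3 / 2) ^ n * r0) := by
            rw [pow_succ]
            ring
          rw [e]
          exact this
      · right
        exact h3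
  obtain ⟨r, hr20, hr, D, hD⟩ : ∃ r : ℝ, 20 * δ ≤ r ∧ ρ - 2 * r + 6 * δ < 0 ∧
      ∃ D : ℝ, ∀ k : ℕ, ‖(G a b c)^[k] q - (G a b c)^[k] p‖ ≤ D * Real.exp (-r * k) := by
    obtain ⟨n, hn⟩ := pow_unbounded_of_one_lt (2 * ρ / r0) (by norm_num : (1 : ℝ) < 3 / 2)
    have hn' : 2 * ρ < (3 / 2 : ℝ) ^ n * r0 := by
      rw [div_lt_iff₀ hr0] at hn
      exact hn
    rcases key n with ⟨D, hD⟩ | h3
    · exact ⟨_, by linarith, by linarith, D, hD⟩
    · exact h3
  have hr0' : 0 < r := by linarith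
  -- the rate `ρ - 3 δ`
  obtain ⟨α, D1, h1, h2⟩ := decomp0 hb hδ hR hr0' (by linarith) hD
  have hD1 : 0 ≤ D1 := nonneg_of_zero (norm_nonneg _) (h1 0)
  obtain ⟨s1, K1, hK1, hs1⟩ := conv (κ := 2 * r - ρ - 6 * δ) hD1 (by linarith) (fun k => by
    have e : (ρ - 2 * r + 6 * δ) = -(2 * r - ρ - 6 * δ) := by ring
    rw [← e]
    exact h2 k)
  have hα : ∀ k : ℕ, |α k| ≤ (|s1| + K1) * Real.exp (-0 * k) := by
    intro k
    have h3 := hs1 k
    have h4 : Real.exp (-(2 * r - ρ - 6 * δ) * k) ≤ 1 := by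
      rw [Real.exp_le_one_iff]
      have : 0 ≤ (2 * r - ρ - 6 * δ) * (k : ℝ) := mul_nonneg (by linarith) (by positivity)
      linarith
    have h5 : |α k| ≤ |s1| + |α k - s1| := by
      have : α k = s1 + (α k - s1) := by ring
      calc |α k| = |s1 + (α k - s1)| := by rw [← this]
        _ ≤ _ := abs_add_le _ _
    have h6 : K1 * Real.exp (-(2 * r - ρ - 6 * δ) * k) ≤ K1 * 1 :=
      mul_le_mul_of_nonneg_left h4 hK1
    simp only [neg_zero, zero_mul, Real.exp_zero, mul_one]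
    linarith
  have hz : ∀ k : ℕ, ‖(G a b c)^[k] q - (G a b c)^[k] p‖ ≤
      (D1 + (|s1| + K1) * C) * Real.exp (-(ρ - 3 * δ) * k) := fun k =>
    comb (t := α k) (y := 0) (w := ρ - 3 * δ) (x := 2 * r - 5 * δ) (by positivity) hD1 (h1 k)
      (hα k) (hR.con k) hC (by linarith) (by linarith)
  -- convergence of the coordinate
  obtain ⟨β, D2, h3, h4⟩ := decomp0 hb hδ hR (by linarith : 0 < ρ - 3 * δ) (by linarith) hz
  have hD2 : 0 ≤ D2 := nonneg_of_zero (norm_nonneg _) (h3 0)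
  obtain ⟨s, K, hK, hs⟩ := conv (κ := ρ - 12 * δ) hD2 (by linarith) (fun k => by
    have e : (ρ - 2 * (ρ - 3 * δ) + 6 * δ) = -(ρ - 12 * δ) := by ring
    rw [← e]
    exact h4 k)
  refine ⟨s, D2 + K * C, fun k => ?_⟩
  refine comb (t := β k - s) (v := act (co a b c p k) V) (y := ρ - 12 * δ) (w := ρ - 3 * δ)
    (x := 2 * (ρ - 3 * δ) - 5 * δ) hK hD2 ?_ (hs k) (hR.con k) hC (by linarith) (by linarith)
  have e : (G a b c)^[k] q - (G a b c)^[k] p - s • act (co a b c p k) V -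
      (β k - s) • act (co a b c p k) V =
      (G a b c)^[k] q - (G a b c)^[k] p - β k • act (co a b c p k) V := by
    rw [sub_smul]
    abel
  rw [e]
  exact h3 k

end Pool.Agent.HG
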