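import Pool.Agent.HG.Defs

set_option autoImplicit false

/-!
# Good times in windows

A window `[u, v)` whose length is more than `v / 50` contains a good time, and one whose length is more than
`v / 25` contains a time which is good for two sets (counting of the bad times below `v`).
-/

namespace Pool.Agent.HG

private theorem wn_fin (S : Set ℕ) (v : ℕ) : {n : ℕ | n < v ∧ n ∉ S}.Finite :=
  (Set.finite_lt_nat v).subset fun _ hn => hn.1

theorem win_one {S : Set ℕ} {N0 : ℕ} (h : Win S N0) {u v : ℕ} (huv : u < v) (hN : N0 ≤ v)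
    (hl : v < 50 * (v - u)) : ∃ n : ℕ, u ≤ n ∧ n < v ∧ n ∈ S := by
  by_contra hc
  push Not at hc
  have h1 : ((Finset.Ico u v : Finset ℕ) : Set ℕ) ⊆ {n : ℕ | n < v ∧ n ∉ S} := by
    intro n hn
    rw [Finset.mem_coe, Finset.mem_Ico] at hn
    exact ⟨hn.2, hc n hn.1 hn.2⟩
  have h2 := Set.ncard_le_ncard h1 (wn_fin S v)
  rw [Set.ncard_coe_finset, Nat.card_Ico] at h2
  have h3 := h v hN
  omega

theorem win_two {S S' : Set ℕ} {N0 : ℕ} (h : Win S N0) (h' : Win S' N0) {u v : ℕ} (huv : u < v)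
    (hN : N0 ≤ v) (hl : v < 25 * (v - u)) : ∃ n : ℕ, u ≤ n ∧ n < v ∧ n ∈ S ∧ n ∈ S' := by
  by_contra hc
  push Not at hc
  have h1 : ((Finset.Ico u v : Finset ℕ) : Set ℕ) ⊆
      {n : ℕ | n < v ∧ n ∉ S} ∪ {n : ℕ | n < v ∧ n ∉ S'} := by
    intro n hn
    rw [Finset.mem_coe, Finset.mem_Ico] at hn
    by_cases hS : n ∈ S
    · exact Or.inr ⟨hn.2, hc n hn.1 hn.2 hS⟩
    · exact Or.inl ⟨hn.2, hS⟩
  have h2 := Set.ncard_le_ncard h1 ((wn_fin S v).union (wn_fin S' v))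
  rw [Set.ncard_coe_finset, Nat.card_Ico] at h2
  have h4 := Set.ncard_union_le {n : ℕ | n < v ∧ n ∉ S} {n : ℕ | n < v ∧ n ∉ S'}
  have h3 := h v hN
  have h5 := h' v hN
  omega

theorem win_mono {S S' : Set ℕ} {N0 N1 : ℕ} (h : Win S N0) (hS : S ⊆ S') (hN : N0 ≤ N1) :
    Win S' N1 := by
  intro N hN'
  have h1 := h N (hN.trans hN')
  have h2 := Set.ncard_le_ncard (s := {n : ℕ | n < N ∧ n ∉ S'}) (t := {n : ℕ | n < N ∧ n ∉ S})
    (fun n hn => ⟨hn.1, fun hs => hn.2 (hS hs)⟩) (wn_fin S N)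
  omega

end Pool.Agent.HG
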