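import Pool.Agent.HG.Sb
import Pool.Agent.HG.Wn

set_option autoImplicit false

/-!
# Non-recurrence of bounded branches

If the base point of a branch in `KK` were in its limit set, `nonrec_step` would give configurations `(i, k, T_i)` with arbitrarily
large `i`, bounded `T_i` and `h ≤ lam i T_i`, which contradicts `lam i → 0`. A configuration consists of good times `i`, `i + k` with
`i ≤ 8 k` and of a point `γ T` of the branch which at the time `i` is nonlocal and `exp (-10 δ k)`-close to the base point.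
-/

namespace Pool.Agent.HG

open Pool.Agent.HD Set

private theorem sc_step {b c : ℝ} (hb0 : b ≠ 0) (hb1 : |b| < 1) {C h : ℝ} {s : E2 × E2}
    {k0 N0 : ℕ}
    (hstep : ∀ (i k : ℕ) (T : ℝ), k0 ≤ k →
      RS b c C (sn b c s i) → RS b c C (sn b c s (i + k)) → h ≤ lam b c s i * T →
      ‖(G 1 b c)^[i] (cuf b c s T) - (G 1 b c)^[i] s.1‖ * Real.exp (10 * dl b * k) ≤ 1 →
      ∃ T' : ℝ, T' ≤ T ∧ ∀ n : ℕ, k ≤ 2 * n → n ≤ 2 * k → RS b c C (sn b c s (i + k + n)) →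
        h ≤ lam b c s (i + k + n) * T' ∧
        ‖(G 1 b c)^[i + k + n] (cuf b c s T') - (G 1 b c)^[i + k + n] s.1‖ *
          Real.exp (40 * dl b * k) ≤ 1)
    (hw : Win {n | RS b c C (sn b c s n)} N0) {i k : ℕ} {T : ℝ}
    (h1 : RS b c C (sn b c s i)) (h2 : RS b c C (sn b c s (i + k))) (h3 : k0 ≤ k) (h4 : N0 ≤ k)
    (h5 : 1 ≤ k) (h6 : i ≤ 8 * k) (h7 : h ≤ lam b c s i * T)
    (h8 : ‖(G 1 b c)^[i] (cuf b c s T) - (G 1 b c)^[i] s.1‖ * Real.exp (10 * dl b * k) ≤ 1) :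
    ∃ (i' k' : ℕ) (T' : ℝ), i < i' ∧ T' ≤ T ∧ RS b c C (sn b c s i') ∧
      RS b c C (sn b c s (i' + k')) ∧ k0 ≤ k' ∧ N0 ≤ k' ∧ 1 ≤ k' ∧ i' ≤ 8 * k' ∧
      h ≤ lam b c s i' * T' ∧
      ‖(G 1 b c)^[i'] (cuf b c s T') - (G 1 b c)^[i'] s.1‖ * Real.exp (10 * dl b * k') ≤ 1 := by
  obtain ⟨T', hT', hn⟩ := hstep i k T h3 h1 h2 h7 h8
  obtain ⟨m, hm1, hm2, hm3⟩ := win_one hw (u := i + k + (k + 1) / 2) (v := i + 3 * k)
    (by omega) (by omega) (by omega)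
  obtain ⟨n, rfl⟩ : ∃ n, m = i + k + n := ⟨m - (i + k), by omega⟩
  obtain ⟨m', hm1', hm2', hm3'⟩ := win_one hw (u := i + k + n + 2 * k)
    (v := i + k + n + 4 * k) (by omega) (by omega) (by omega)
  obtain ⟨k', rfl⟩ : ∃ k', m' = i + k + n + k' := ⟨m' - (i + k + n), by omega⟩
  obtain ⟨h9, h10⟩ := hn n (by omega) (by omega) hm3
  refine ⟨i + k + n, k', T', by omega, hT', hm3, hm3', by omega, by omega, by omega, by omega,
    h9, ?_⟩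
  refine (mul_le_mul_of_nonneg_left ?_ (norm_nonneg _)).trans h10
  rw [Real.exp_le_exp]
  have h11 : (k' : ℝ) ≤ 4 * k := by
    have h12 : k' ≤ 4 * k := by omega
    exact_mod_cast h12
  have h13 := dl_pos hb0 hb1
  nlinarith

private theorem sc_iter {b c : ℝ} (hb0 : b ≠ 0) (hb1 : |b| < 1) {C h : ℝ} {s : E2 × E2}
    {k0 N0 : ℕ}
    (hstep : ∀ (i k : ℕ) (T : ℝ), k0 ≤ k →
      RS b c C (sn b c s i) → RS b c C (sn b c s (i + k)) → h ≤ lam b c s i * T →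
      ‖(G 1 b c)^[i] (cuf b c s T) - (G 1 b c)^[i] s.1‖ * Real.exp (10 * dl b * k) ≤ 1 →
      ∃ T' : ℝ, T' ≤ T ∧ ∀ n : ℕ, k ≤ 2 * n → n ≤ 2 * k → RS b c C (sn b c s (i + k + n)) →
        h ≤ lam b c s (i + k + n) * T' ∧
        ‖(G 1 b c)^[i + k + n] (cuf b c s T') - (G 1 b c)^[i + k + n] s.1‖ *
          Real.exp (40 * dl b * k) ≤ 1)
    (hw : Win {n | RS b c C (sn b c s n)} N0) {i k : ℕ} {T : ℝ}
    (h1 : RS b c C (sn b c s i)) (h2 : RS b c C (sn b c s (i + k))) (h3 : k0 ≤ k) (h4 : N0 ≤ k)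
    (h5 : 1 ≤ k) (h6 : i ≤ 8 * k) (h7 : h ≤ lam b c s i * T)
    (h8 : ‖(G 1 b c)^[i] (cuf b c s T) - (G 1 b c)^[i] s.1‖ * Real.exp (10 * dl b * k) ≤ 1)
    (N : ℕ) :
    ∃ (i' k' : ℕ) (T' : ℝ), N ≤ i' ∧ T' ≤ T ∧ RS b c C (sn b c s i') ∧
      RS b c C (sn b c s (i' + k')) ∧ k0 ≤ k' ∧ N0 ≤ k' ∧ 1 ≤ k' ∧ i' ≤ 8 * k' ∧
      h ≤ lam b c s i' * T' ∧
      ‖(G 1 b c)^[i'] (cuf b c s T') - (G 1 b c)^[i'] s.1‖ * Real.exp (10 * dl b * k') ≤ 1 := by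
  induction N with
  | zero => exact ⟨i, k, T, Nat.zero_le _, le_rfl, h1, h2, h3, h4, h5, h6, h7, h8⟩
  | succ N ih =>
    obtain ⟨i', k', T', g0, gT, g1, g2, g3, g4, g5, g6, g7, g8⟩ := ih
    obtain ⟨i'', k'', T'', f0, fT, f⟩ := sc_step hb0 hb1 hstep hw g1 g2 g3 g4 g5 g6 g7 g8
    exact ⟨i'', k'', T'', by omega, fT.trans gT, f⟩

private theorem sc_start {b c : ℝ} (hb0 : b ≠ 0) (hb1 : |b| < 1) {C : ℝ} {s : E2 × E2}
    (hs : s ∈ GS b c) {N0 : ℕ} (hw : Win {n | RS b c C (sn b c s n)} N0)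
    (hL : s.1 ∈ Lim b c s) (h : ℝ) (k0 : ℕ) :
    ∃ (i k : ℕ) (T : ℝ), RS b c C (sn b c s i) ∧
      RS b c C (sn b c s (i + k)) ∧ k0 ≤ k ∧ N0 ≤ k ∧ 1 ≤ k ∧ i ≤ 8 * k ∧
      h ≤ lam b c s i * T ∧
      ‖(G 1 b c)^[i] (cuf b c s T) - (G 1 b c)^[i] s.1‖ * Real.exp (10 * dl b * k) ≤ 1 := by
  obtain ⟨-, ⟨C', hC'⟩, -⟩ := hs
  have hs1 : ‖s.2‖ = 1 := hC'.unit
  obtain ⟨i, -, -, hi⟩ := win_one hw (u := N0) (v := 2 * N0 + 2) (by omega) (by omega)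
    (by omega)
  obtain ⟨n, hn1, -, hn3⟩ := win_one hw (u := i + (k0 + N0 + i + 1))
    (v := 2 * (i + (k0 + N0 + i + 1)) + 1) (by omega) (by omega) (by omega)
  obtain ⟨k, rfl⟩ : ∃ k, n = i + k := ⟨n - i, by omega⟩
  have hcont : ContinuousAt ((G 1 b c)^[i]) s.1 := (continuous_G_iter 1 b c i).continuousAt
  obtain ⟨ε, hε, hcl⟩ := Metric.continuousAt_iff.1 hcont (Real.exp (-(10 * dl b * k)))
    (Real.exp_pos _)
  have hl := lam_pos (c := c) hb0 hs1 i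
  obtain ⟨t, q, ht, hq, hqs⟩ := hL (h / lam b c s i) ε hε
  refine ⟨i, k, t, hi, hn3, by omega, by omega, by omega, by omega, ?_, ?_⟩
  · rw [div_le_iff₀ hl] at ht
    linarith
  · rw [← dist_eq_norm] at hqs
    have h1 := hcl hqs
    rw [dist_eq_norm, cuf_eq hb0 hb1 hC' hq, Real.exp_neg] at h1
    have h2 := mul_le_mul_of_nonneg_right h1.le (Real.exp_pos (10 * dl b * k)).le
    rwa [inv_mul_cancel₀ (Real.exp_pos _).ne'] at h2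

theorem non_rec {b c : ℝ} (hb0 : b ≠ 0) (hb1 : |b| < 1) {C : ℝ} {s : E2 × E2} (hs : s ∈ GS b c)
    {N0 : ℕ} (hw : Win {n | RS b c C (sn b c s n)} N0) : s.1 ∉ Lim b c s := by
  intro hL
  obtain ⟨h1, hh1, hstep0⟩ := nonrec_step (c := c) hb0 hb1 C
  obtain ⟨k0, hstep⟩ := hstep0 h1 hh1 le_rfl
  obtain ⟨i, k, T, g1, g2, g3, g4, g5, g6, g7, g8⟩ := sc_start hb0 hb1 hs hw hL h1 k0
  have hs' := hs
  obtain ⟨-, ⟨C', hC'⟩, -⟩ := hs'
  have hs1 : ‖s.2‖ = 1 := hC'.unit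
  have ht : Filter.Tendsto (fun n : ℕ => lam b c s n * T) Filter.atTop (nhds 0) := by
    have h2 := (lam_tendsto hb0 hb1 hC').mul_const T
    rwa [zero_mul] at h2
  obtain ⟨N, hN⟩ := Filter.eventually_atTop.1 (ht.eventually_lt_const hh1)
  obtain ⟨i', k', T', f0, fT, f1, f2, f3, f4, f5, f6, f7, f8⟩ :=
    sc_iter hb0 hb1 (fun i k T => hstep s hs i k T) hw g1 g2 g3 g4 g5 g6 g7 g8 N
  have h3 := hN i' f0
  have h4 := mul_le_mul_of_nonneg_left fT (lam_pos (c := c) hb0 hs1 i').le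
  exact absurd (f7.trans h4) (not_le.2 h3)

end Pool.Agent.HG
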