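import Pool.Agent.HD.Birk
import Pool.Agent.HG.Sc
import Pool.Agent.HG.BDefs

set_option autoImplicit false

/-!
# Non-recurrence almost everywhere; blocks of positive measure

By the ergodic theorem a.e. orbit visits a set of measure more than `49 / 50` at more than 98 percent of the times in
long windows. With `non_rec` this gives non-recurrence almost everywhere, hence isolation of the base point, and then blocks
of positive measure on which all constants are uniform.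
-/

namespace Pool.Agent.HG

open Pool.Agent.HD MeasureTheory Set

variable {b c : ℝ}

private theorem bw_count {X : Type*} (T : X → X) (B : Set X) (N : ℕ) (x : X) :
    {n : ℕ | n < N ∧ n ∉ {n : ℕ | T^[n] x ∈ B}}.ncard =
      ∑ k ∈ Finset.range N, Bᶜ.indicator (fun _ => (1 : ℕ)) (T^[k] x) := by
  classical
  have h1 : {n : ℕ | n < N ∧ n ∉ {n : ℕ | T^[n] x ∈ B}} =
      (((Finset.range N).filter fun n => T^[n] x ∉ B : Finset ℕ) : Set ℕ) := by
    ext n
    simp
  rw [h1, Set.ncard_coe_finset, Finset.card_filter]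
  refine Finset.sum_congr rfl fun k _ => ?_
  by_cases hk : T^[k] x ∈ B
  · rw [if_neg (not_not.2 hk), indicator_of_notMem (show T^[k] x ∉ Bᶜ from fun h => h hk)]
  · rw [if_pos hk, indicator_of_mem (show T^[k] x ∈ Bᶜ from hk)]

private theorem bw_small {X : Type*} [MeasurableSpace X] {m : Measure X} [IsProbabilityMeasure m]
    {B : ℕ → Set X} (hB : ∀ n, MeasurableSet (B n)) (hmono : Monotone B)
    (hae : ∀ᵐ x ∂m, ∃ n, x ∈ B n) {ε : ℝ} (hε : 0 < ε) : ∃ n, m.real (B n)ᶜ < ε := by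
  have h1 : Antitone fun n => (B n)ᶜ := fun i j hij => compl_subset_compl.2 (hmono hij)
  have h2 : m (⋂ n, (B n)ᶜ) = 0 := by
    rw [← compl_iUnion]
    have h3 : ∀ᵐ x ∂m, x ∈ ⋃ n, B n := by
      filter_upwards [hae] with x hx
      exact mem_iUnion.2 hx
    exact h3
  have h3 := tendsto_measure_iInter_atTop (μ := m)
    (fun n => (hB n).compl.nullMeasurableSet) h1 ⟨0, measure_ne_top m _⟩
  rw [h2] at h3
  have h4 : Filter.Tendsto (fun n => m.real (B n)ᶜ) Filter.atTop (nhds 0) := by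
    have h5 := (ENNReal.tendsto_toReal ENNReal.zero_ne_top).comp h3
    rw [ENNReal.toReal_zero] at h5
    exact h5
  exact (h4.eventually_lt_const hε).exists

private theorem bw_win {X : Type*} [MeasurableSpace X] {m : Measure X} [IsProbabilityMeasure m]
    {T : X → X} (hT : Ergodic T m) {B : Set X} (hB : MeasurableSet B) (hm : m.real Bᶜ < 1 / 50) :
    ∀ᵐ x ∂m, ∃ N0, Win {n : ℕ | T^[n] x ∈ B} N0 := by
  have hφ : Measurable (Bᶜ.indicator fun _ => (1 : ℝ) : X → ℝ) :=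
    measurable_const.indicator hB.compl
  have h1 := birk hT hφ (C := 1) (Filter.Eventually.of_forall fun x => by
    by_cases hx : x ∈ Bᶜ
    · rw [indicator_of_mem hx, abs_one]
    · rw [indicator_of_notMem hx, abs_zero]
      exact zero_le_one)
  have h2 : ∫ x, (Bᶜ.indicator fun _ => (1 : ℝ) : X → ℝ) x ∂m = m.real Bᶜ := by
    rw [integral_indicator_const _ hB.compl, smul_eq_mul, mul_one]
  rw [h2] at h1
  filter_upwards [h1] with x hx
  obtain ⟨N0, hN0⟩ := Filter.eventually_atTop.1 (hx.eventually_lt_const hm)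
  refine ⟨N0 + 1, fun N hN => ?_⟩
  have h3 := hN0 N (by omega)
  have h4 : birkhoffSum T (Bᶜ.indicator fun _ => (1 : ℝ)) N x =
      (({n : ℕ | n < N ∧ n ∉ {n : ℕ | T^[n] x ∈ B}}.ncard : ℕ) : ℝ) := by
    rw [bw_count, Nat.cast_sum]
    show ∑ k ∈ Finset.range N, (Bᶜ.indicator fun _ => (1 : ℝ)) (T^[k] x) = _
    refine Finset.sum_congr rfl fun k _ => ?_
    by_cases hk : T^[k] x ∈ Bᶜ
    · rw [indicator_of_mem hk, indicator_of_mem hk, Nat.cast_one]
    · rw [indicator_of_notMem hk, indicator_of_notMem hk, Nat.cast_zero]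
  have hN0' : (0 : ℝ) < N := by
    have : 0 < N := by omega
    exact_mod_cast this
  rw [h4, div_lt_iff₀ hN0'] at h3
  have h5 : (50 : ℝ) * (({n : ℕ | n < N ∧ n ∉ {n : ℕ | T^[n] x ∈ B}}.ncard : ℕ) : ℝ) ≤ N := by
    linarith
  exact_mod_cast h5

private theorem bw_iso_mono {h r r' : ℝ} {s : E2 × E2} (hr : r' ≤ r) (hi : Iso b c h r s) :
    Iso b c h r' s := fun t q ht hq => hr.trans (hi t q ht hq)

private theorem bw_rs (C : ℝ) : MeasurableSet {s : St b c | RS b c C (s : E2 × E2)} :=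
  measurable_subtype_coe (rs_compact b c C).measurableSet

private theorem bw_iso (hb0 : b ≠ 0) (hb1 : |b| < 1) (C h r : ℝ) :
    MeasurableSet {s : St b c | RS b c C (s : E2 × E2) ∧ Iso b c h r (s : E2 × E2)} :=
  measurable_subtype_coe (iso_compact hb0 hb1 C h r).measurableSet

private theorem bw_rs_mono {C C' : ℝ} {s : E2 × E2} (h : RS b c C s) (hC : C ≤ C') :
    RS b c C' s := Reg.mono h hC le_rfl

private theorem bw_rs_small {m : Measure (St b c)} (hm : Bad b c m) {ε : ℝ} (hε : 0 < ε) :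
    ∃ C : ℕ, m.real {s : St b c | RS b c C (s : E2 × E2)}ᶜ < ε := by
  have := hm.prob
  refine bw_small (B := fun n : ℕ => {s : St b c | RS b c n (s : E2 × E2)}) (fun n => bw_rs _)
    (fun i j hij s hs => bw_rs_mono hs (by exact_mod_cast hij)) ?_ hε
  filter_upwards [hm.gs] with s hs
  obtain ⟨-, ⟨C, hC⟩, -⟩ := hs
  obtain ⟨n, hn⟩ := exists_nat_ge C
  exact ⟨n, bw_rs_mono hC hn⟩

theorem ae_non_rec (hb0 : b ≠ 0) (hb1 : |b| < 1) {m : Measure (St b c)} (hm : Bad b c m) :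
    ∀ᵐ s : St b c ∂m, s.1.1 ∉ Lim b c s.1 := by
  have := hm.prob
  obtain ⟨C, hC⟩ := bw_rs_small hm (ε := 1 / 50) (by norm_num)
  filter_upwards [hm.gs, bw_win hm.erg (bw_rs (b := b) (c := c) C) hC] with s hs hw
  obtain ⟨N0, hw⟩ := hw
  refine non_rec hb0 hb1 (C := C) hs (N0 := N0) ?_
  refine win_mono hw (fun n hn => ?_) le_rfl
  have h1 : RS b c C (((FS b c)^[n] s : St b c) : E2 × E2) := hn
  rw [fs_iter hb0] at h1
  exact h1

theorem bk_meas (hb0 : b ≠ 0) (hb1 : |b| < 1) (C h r : ℝ) (N0 : ℕ) :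
    MeasurableSet (Subtype.val ⁻¹' Bk b c C h r N0 : Set (St b c)) := by
  have hD := bw_iso (b := b) (c := c) hb0 hb1 C h r
  set D : Set (St b c) := {s : St b c | RS b c C (s : E2 × E2) ∧ Iso b c h r (s : E2 × E2)}
    with hDdef
  have h1 : (Subtype.val ⁻¹' Bk b c C h r N0 : Set (St b c)) =
      (Subtype.val ⁻¹' GS b c) ∩ {s : St b c | RS b c C (s : E2 × E2)} ∩
        ⋂ N : ℕ, {s : St b c | N0 ≤ N →
          50 * ∑ k ∈ Finset.range N, Dᶜ.indicator (fun _ => (1 : ℕ)) ((FS b c)^[k] s) ≤ N} := by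
    ext s
    have h2 : {n : ℕ | RS b c C (sn b c s n) ∧ Iso b c h r (sn b c s n)} =
        {n : ℕ | (FS b c)^[n] s ∈ D} := by
      ext n
      show _ ↔ RS b c C (((FS b c)^[n] s : St b c) : E2 × E2) ∧
        Iso b c h r (((FS b c)^[n] s : St b c) : E2 × E2)
      rw [fs_iter hb0]
      exact Iff.rfl
    have h3 : s ∈ (Subtype.val ⁻¹' Bk b c C h r N0 : Set (St b c)) ↔
        (s : E2 × E2) ∈ GS b c ∧ RS b c C (s : E2 × E2) ∧
          Win {n : ℕ | RS b c C (sn b c s n) ∧ Iso b c h r (sn b c s n)} N0 := Iff.rfl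
    rw [h3, h2]
    constructor
    · rintro ⟨g1, g2, g3⟩
      refine ⟨⟨g1, g2⟩, mem_iInter.2 fun N hN => ?_⟩
      have h4 := g3 N hN
      rw [bw_count] at h4
      exact h4
    · rintro ⟨⟨g1, g2⟩, g3⟩
      refine ⟨g1, g2, fun N hN => ?_⟩
      rw [bw_count]
      exact (mem_iInter.1 g3 N) hN
  rw [h1]
  refine ((measurable_subtype_coe (gs_meas hb0 hb1)).inter (bw_rs C)).inter
    (MeasurableSet.iInter fun N => ?_)
  by_cases hN : N0 ≤ N
  · have h5 : Measurable fun s : St b c =>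
        50 * ∑ k ∈ Finset.range N, Dᶜ.indicator (fun _ => (1 : ℕ)) ((FS b c)^[k] s) := by
      refine Measurable.const_mul (Finset.measurable_sum _ fun k _ => ?_) _
      exact (measurable_const.indicator hD.compl).comp
        (((continuous_FS hb0).iterate k).measurable)
    have h6 : {s : St b c | N0 ≤ N →
        50 * ∑ k ∈ Finset.range N, Dᶜ.indicator (fun _ => (1 : ℕ)) ((FS b c)^[k] s) ≤ N} =
        {s : St b c |
        50 * ∑ k ∈ Finset.range N, Dᶜ.indicator (fun _ => (1 : ℕ)) ((FS b c)^[k] s) ≤ N} := by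
      ext s
      exact ⟨fun h => h hN, fun h _ => h⟩
    rw [h6]
    exact measurableSet_le h5 measurable_const
  · have h6 : {s : St b c | N0 ≤ N →
        50 * ∑ k ∈ Finset.range N, Dᶜ.indicator (fun _ => (1 : ℕ)) ((FS b c)^[k] s) ≤ N} =
        Set.univ := by
      ext s
      exact ⟨fun _ => mem_univ s, fun _ h => absurd h hN⟩
    rw [h6]
    exact MeasurableSet.univ

theorem blocks (hb0 : b ≠ 0) (hb1 : |b| < 1) {m : Measure (St b c)} (hm : Bad b c m)
    (hh : ℝ → ℝ) (hp : ∀ C, 0 < hh C) : ∃ (C r : ℝ) (N0 : ℕ), 0 < r ∧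
      m (Subtype.val ⁻¹' Bk b c C (hh C) r N0) ≠ 0 := by
  have := hm.prob
  obtain ⟨C, hC⟩ := bw_rs_small hm (ε := 1 / 200) (by norm_num)
  have hh0 := hp C
  set R : Set (St b c) := {s : St b c | RS b c C (s : E2 × E2)} with hR
  have hRm : MeasurableSet R := bw_rs _
  let I : ℕ → Set (St b c) := fun j =>
    {s : St b c | RS b c C (s : E2 × E2) ∧ Iso b c (hh C) (1 / ((j : ℝ) + 1)) (s : E2 × E2)}
  have hIm : ∀ j, MeasurableSet (I j) := fun j => bw_iso hb0 hb1 _ _ _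
  have hIsub : ∀ j, I j ⊆ R := fun j s hs => hs.1
  have hImono : Monotone I := by
    intro i j hij s hs
    refine ⟨hs.1, bw_iso_mono ?_ hs.2⟩
    have h1 : (i : ℝ) ≤ j := by exact_mod_cast hij
    exact one_div_le_one_div_of_le (by positivity) (by linarith)
  obtain ⟨j, hj⟩ := bw_small (m := m) (B := fun j => Rᶜ ∪ I j)
    (fun j => hRm.compl.union (hIm j))
    (fun i j hij => union_subset_union_right _ (hImono hij)) (by
      filter_upwards [hm.gs, ae_non_rec hb0 hb1 hm] with s hs hn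
      by_cases hs1 : s ∈ R
      · obtain ⟨r, hr, hi⟩ := iso_of_not_mem hb0 hb1 hs hn hh0
        obtain ⟨j, hj⟩ := exists_nat_one_div_lt hr
        exact ⟨j, Or.inr ⟨hs1, bw_iso_mono hj.le hi⟩⟩
      · exact ⟨0, Or.inl hs1⟩) (ε := 1 / 200) (by norm_num)
  have h1 : m.real (I j)ᶜ < 1 / 50 := by
    have h2 : (I j)ᶜ ⊆ (Rᶜ ∪ I j)ᶜ ∪ Rᶜ := by
      intro s hs
      by_cases hsR : s ∈ R
      · exact Or.inl fun h => h.elim (fun h => h hsR) hs
      · exact Or.inr hsR
    have h3 : m.real (I j)ᶜ ≤ m.real (Rᶜ ∪ I j)ᶜ + m.real Rᶜ :=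
      (measureReal_mono h2).trans (measureReal_union_le _ _)
    linarith
  have h2 := bw_win hm.erg (hIm j) h1
  by_contra hcon
  push Not at hcon
  have h3 : ∀ N0 : ℕ, m (Subtype.val ⁻¹' Bk b c C (hh C) (1 / ((j : ℝ) + 1)) N0) = 0 :=
    fun N0 => hcon C _ N0 (by positivity)
  have h4 : m (⋃ N0 : ℕ, (Subtype.val ⁻¹' Bk b c C (hh C) (1 / ((j : ℝ) + 1)) N0 :
      Set (St b c))) = 0 := measure_iUnion_null h3
  have h5 : ∀ᵐ s ∂m, s ∈ Rᶜ := by
    have h6 : ∀ᵐ s ∂m, s ∉ ⋃ N0 : ℕ, (Subtype.val ⁻¹' Bk b c C (hh C) (1 / ((j : ℝ) + 1)) N0 :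
      Set (St b c)) := measure_eq_zero_iff_ae_notMem.1 h4
    filter_upwards [h2, hm.gs, h6] with s hw hs hn hsR
    obtain ⟨N0, hw⟩ := hw
    refine hn (mem_iUnion.2 ⟨N0, hs, hsR, win_mono hw (fun n hn => ?_) le_rfl⟩)
    have h7 : RS b c C (((FS b c)^[n] s : St b c) : E2 × E2) ∧
      Iso b c (hh C) (1 / ((j : ℝ) + 1)) (((FS b c)^[n] s : St b c) : E2 × E2) := hn
    rw [fs_iter hb0] at h7
    exact h7
  have h6 : m.real R = 0 := by
    have h7 : m (Rᶜ)ᶜ = 0 := h5
    rw [compl_compl] at h7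
    rw [measureReal_def, h7, ENNReal.toReal_zero]
  have h7 := probReal_compl_eq_one_sub (μ := m) hRm
  rw [h6] at h7
  linarith

/-- a.e. state is isolated at infinitely many times -/
theorem iso_freq (hb0 : b ≠ 0) (hb1 : |b| < 1) {C h r : ℝ} {N0 : ℕ} {s : E2 × E2}
    (hs : s ∈ Bk b c C h r N0) : ∃ᶠ n : ℕ in Filter.atTop, Iso b c h r (sn b c s n) := by
  obtain ⟨-, -, hw⟩ := hs
  refine Filter.frequently_atTop.2 fun N => ?_
  obtain ⟨n, h1, -, h3⟩ := win_one hw (u := N) (v := 2 * N + N0 + 1) (by omega) (by omega)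
    (by omega)
  exact ⟨n, h1, h3.2⟩

end Pool.Agent.HG
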