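import Pool.Agent.HG.BDefs

set_option autoImplicit false

/-!
# Chains of bad measures: definitions
-/

namespace Pool.Agent.HG

open Pool.Agent.HD MeasureTheory Set

/-- the dynamics on sequences of states -/
noncomputable def TS (b c : ℝ) (ω : ℕ → St b c) : ℕ → St b c := fun i => FS b c (ω i)

/-- chain law: an ergodic measure on sequences of states with bad marginals and nested limit
sets -/
structure Chain (b c : ℝ) (P : Measure (ℕ → St b c)) : Prop where
  prob : IsProbabilityMeasure P
  erg : Ergodic (TS b c) P
  bad : ∀ i : ℕ, Bad b c (P.map fun ω => ω i)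
  nest : ∀ i : ℕ, ∀ᵐ ω ∂P, Lim b c (ω (i + 1)).1 ⊆ Lim b c (ω i).1

end Pool.Agent.HG
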