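import Pool.Agent.HG.Nv

set_option autoImplicit false

/-!
# Area of a half collar

In the coordinates `(α, β)` of the frame `(V, nv V)` (determinant one) the slice of `D` over every
`α` between the coordinates of the end points contains an interval of length `ε`; Fubini.
-/

namespace Pool.Agent.HG

open Pool.Agent.HD Set MeasureTheory

private noncomputable def caL (V : E2) : E2 →ₗ[ℝ] E2 :=
  Matrix.toLin (Module.Basis.finTwoProd ℝ) (Module.Basis.finTwoProd ℝ)
    !![V.1, (nv V).1; V.2, (nv V).2]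

private theorem caL_apply (V : E2) (x : E2) : caL V x = x.1 • V + x.2 • nv V := by
  unfold caL
  rw [Matrix.toLin_finTwoProd_apply]
  ext
  · simp only [Prod.fst_add, Prod.smul_fst, smul_eq_mul]
    ring
  · simp only [Prod.snd_add, Prod.smul_snd, smul_eq_mul]
    ring

private theorem caL_det {V : E2} (hV : ‖V‖ = 1) : LinearMap.det (caL V) = 1 := by
  unfold caL
  rw [LinearMap.det_toLin, Matrix.det_fin_two_of, ← wd_nv hV]
  simp only [wd]
  ring

private theorem ca_vol {V : E2} (hV : ‖V‖ = 1) (D : Set E2) :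
    volume (caL V ⁻¹' D) = volume D := by
  have h1 := Measure.addHaar_preimage_linearMap (volume : Measure E2) (f := caL V)
    (by rw [caL_det hV]; exact one_ne_zero) D
  rw [h1, caL_det hV]
  simp

private theorem ca_aux {V : E2} (hV : ‖V‖ = 1) {g : ℝ → E2} {a1 a2 ε : ℝ} (h12 : a1 < a2)
    (hε : 0 < ε)
    (hg : ∀ u ∈ Icc a1 a2, ∀ v ∈ Icc a1 a2, ‖g u - g v - (u - v) • V‖ ≤ 1 / 20 * |u - v|)
    {D : Set E2} (hD : IsOpen D) (s : ℝ)
    (h : ∀ u ∈ Ioo a1 a2, ∀ β : ℝ, s < β → β < s + ε → g u + β • nv V ∈ D) :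
    ENNReal.ofReal (ε * (a2 - a1) / 2) ≤ volume D := by
  set al : ℝ → ℝ := fun u => wd (g u) (nv V) with hal
  have hlip : ∀ u ∈ Icc a1 a2, ∀ v ∈ Icc a1 a2, |al u - al v - (u - v)| ≤ 1 / 10 * |u - v| := by
    intro u hu v hv
    have h1 : al u - al v - (u - v) = wd (g u - g v - (u - v) • V) (nv V) := by
      rw [wd_sub_left, wd_sub_left, wd_smul_left, wd_nv hV, mul_one]
    rw [h1]
    have h2 := abs_wd_nv_le hV (g u - g v - (u - v) • V)
    have h3 := hg u hu v hv
    linarith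
  have hcont : ContinuousOn al (Icc a1 a2) := by
    have h2 : LipschitzOnWith 2 al (Icc a1 a2) := by
      apply LipschitzOnWith.of_dist_le_mul
      intro u hu v hv
      rw [Real.dist_eq, Real.dist_eq]
      have h3 := abs_le.1 (hlip u hu v hv)
      have h4 := abs_nonneg (u - v)
      have h5 := neg_abs_le (u - v)
      have h6 := le_abs_self (u - v)
      push_cast
      apply abs_le.2
      constructor <;> linarith [h3.1, h3.2]
    exact h2.continuousOn
  have hinc : 9 / 10 * (a2 - a1) ≤ al a2 - al a1 := by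
    have h3 := (abs_le.1 (hlip a2 ⟨h12.le, le_refl _⟩ a1 ⟨le_refl _, h12.le⟩)).1
    rw [abs_of_pos (sub_pos.2 h12)] at h3
    linarith
  have hivt : Ioo (al a1) (al a2) ⊆ al '' Ioo a1 a2 := intermediate_value_Ioo h12.le hcont
  have hcL : Continuous (caL V) := LinearMap.continuous_of_finiteDimensional _
  have hDo : IsOpen (caL V ⁻¹' D) := hD.preimage hcL
  have hslice : ∀ x ∈ Ioo (al a1) (al a2),
      ENNReal.ofReal ε ≤ volume (Prod.mk x ⁻¹' (caL V ⁻¹' D)) := by
    intro x hx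
    obtain ⟨u, hu, rfl⟩ := hivt hx
    have h1 : Ioo (wd V (g u) + s) (wd V (g u) + (s + ε)) ⊆
        Prod.mk (al u) ⁻¹' (caL V ⁻¹' D) := by
      intro y hy
      rw [mem_preimage, mem_preimage, caL_apply]
      have h2 := frame hV (g u)
      have h3 := h u hu (y - wd V (g u)) (by linarith [hy.1]) (by linarith [hy.2])
      have h4 : (al u, y).1 • V + (al u, y).2 • nv V = g u + (y - wd V (g u)) • nv V := by
        conv_rhs => rw [h2]
        simp only [hal]
        rw [wd_add_right, wd_smul_right, wd_smul_right, wd_self, wd_nv hV]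
        simp only [mul_zero, mul_one, zero_add]
        module
      rw [h4]
      exact h3
    calc ENNReal.ofReal ε = volume (Ioo (wd V (g u) + s) (wd V (g u) + (s + ε))) := by
          rw [Real.volume_Ioo]
          congr 1
          ring
      _ ≤ _ := measure_mono h1
  rw [← ca_vol hV D]
  have hprod : volume (caL V ⁻¹' D) = ∫⁻ x : ℝ, volume (Prod.mk x ⁻¹' (caL V ⁻¹' D)) := by
    rw [Measure.volume_eq_prod, Measure.prod_apply hDo.measurableSet]
  rw [hprod]
  calc ENNReal.ofReal (ε * (a2 - a1) / 2)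
      ≤ ENNReal.ofReal (ε * (al a2 - al a1)) := by
        apply ENNReal.ofReal_le_ofReal
        nlinarith
    _ = ∫⁻ _x in Ioo (al a1) (al a2), ENNReal.ofReal ε := by
        rw [setLIntegral_const, Real.volume_Ioo, ENNReal.ofReal_mul hε.le]
    _ ≤ ∫⁻ x in Ioo (al a1) (al a2), volume (Prod.mk x ⁻¹' (caL V ⁻¹' D)) :=
        setLIntegral_mono' measurableSet_Ioo hslice
    _ ≤ ∫⁻ x : ℝ, volume (Prod.mk x ⁻¹' (caL V ⁻¹' D)) := setLIntegral_le_lintegral _ _

theorem collar_area {V : E2} (hV : ‖V‖ = 1) {g : ℝ → E2} {a1 a2 ε : ℝ} (h12 : a1 < a2)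
    (hε : 0 < ε)
    (hg : ∀ u ∈ Icc a1 a2, ∀ v ∈ Icc a1 a2, ‖g u - g v - (u - v) • V‖ ≤ 1 / 20 * |u - v|)
    {D : Set E2} (hD : IsOpen D)
    (h : (∀ u ∈ Ioo a1 a2, ∀ β : ℝ, 0 < β → β < ε → g u + β • nv V ∈ D) ∨
      (∀ u ∈ Ioo a1 a2, ∀ β : ℝ, 0 < β → β < ε → g u - β • nv V ∈ D)) :
    ENNReal.ofReal (ε * (a2 - a1) / 2) ≤ volume D := by
  rcases h with h | h
  · exact ca_aux hV h12 hε hg hD 0 (fun u hu β h1 h2 => h u hu β h1 (by linarith))
  · refine ca_aux hV h12 hε hg hD (-ε) (fun u hu β h1 h2 => ?_)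
    have h3 := h u hu (-β) (by linarith) (by linarith)
    rwa [neg_smul, sub_neg_eq_add] at h3

end Pool.Agent.HG
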