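import Pool.Agent.HG.Lc
import Pool.Agent.HD.Cpt

set_option autoImplicit false

/-!
# Close regular states: directions and transversal intersection

`close_dir`: the pairs of regular states whose directions differ by at least `ε` up to the sign form a compact set, on
which the distance of the base points is positive (`uniq_dir`).
`foot2`: along the curve of `s'` the coordinate `wd (γ σ - s.1) (nv s.2)` is `φ 0 ± σ` up to `3 / 20 |σ|`, hence it has a zero with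
`|σ| ≤ 4 ‖s.1 - s'.1‖` (intermediate value theorem).
-/

namespace Pool.Agent.HG

open Pool.Agent.HD

variable {b c : ℝ}

theorem close_dir (hb0 : b ≠ 0) (hb1 : |b| < 1) (C : ℝ) {ε : ℝ} (hε : 0 < ε) :
    ∃ d : ℝ, 0 < d ∧ ∀ s s' : E2 × E2, RS b c C s → RS b c C s' → ‖s.1 - s'.1‖ ≤ d →
      ‖s.2 - s'.2‖ ≤ ε ∨ ‖s.2 + s'.2‖ ≤ ε := by
  have h1 : IsCompact ({x : E2 × E2 | RS b c C x} ×ˢ {x : E2 × E2 | RS b c C x}) :=
    (reg_compact 1 b c (el b) (dl b) (|c| + 4) C).prod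
      (reg_compact 1 b c (el b) (dl b) (|c| + 4) C)
  have hK : IsCompact (({x : E2 × E2 | RS b c C x} ×ˢ {x : E2 × E2 | RS b c C x}) ∩
      ({x : (E2 × E2) × (E2 × E2) | ε ≤ ‖x.1.2 - x.2.2‖} ∩
        {x : (E2 × E2) × (E2 × E2) | ε ≤ ‖x.1.2 + x.2.2‖})) := by
    refine h1.inter_right (IsClosed.inter ?_ ?_)
    · exact isClosed_le continuous_const
        ((continuous_snd.comp continuous_fst).sub (continuous_snd.comp continuous_snd)).norm
    · exact isClosed_le continuous_const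
        ((continuous_snd.comp continuous_fst).add (continuous_snd.comp continuous_snd)).norm
  have hf : Continuous fun x : (E2 × E2) × (E2 × E2) => ‖x.1.1 - x.2.1‖ :=
    ((continuous_fst.comp continuous_fst).sub (continuous_fst.comp continuous_snd)).norm
  obtain ⟨m, hm, hmin⟩ := hK.exists_forall_le' (f := fun x => ‖x.1.1 - x.2.1‖) (a := 0)
    hf.continuousOn (by
    rintro ⟨s, s'⟩ ⟨⟨hs, hs'⟩, h2, h3⟩
    have hs : RS b c C s := hs
    have hs' : RS b c C s' := hs'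
    have h2 : ε ≤ ‖s.2 - s'.2‖ := h2
    have h3 : ε ≤ ‖s.2 + s'.2‖ := h3
    show 0 < ‖s.1 - s'.1‖
    rcases (norm_nonneg (s.1 - s'.1)).lt_or_eq with h4 | h4
    · exact h4
    · exfalso
      have h5 : s.1 = s'.1 := sub_eq_zero.1 (norm_eq_zero.1 h4.symm)
      have h6 := hs'.con
      rw [← h5] at h6
      rcases uniq_dir hb0 hs.unit hs'.unit hs.con h6 (by
        have h7 := el_pos hb0 hb1
        have h8 : Real.log |b| = -el b := by unfold el; ring
        have h9 := el_eq b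
        rw [h8]
        linarith) with h7 | h7
      · rw [h7, sub_self, norm_zero] at h2
        linarith
      · rw [h7, add_neg_cancel, norm_zero] at h3
        linarith)
  refine ⟨m / 2, by linarith, fun s s' hs hs' hd => ?_⟩
  by_contra hcon
  rw [not_or, not_le, not_le] at hcon
  have h2 := hmin (s, s') ⟨⟨hs, hs'⟩, hcon.1.le, hcon.2.le⟩
  have h3 : m ≤ ‖s.1 - s'.1‖ := h2
  linarith

theorem foot2 (hb0 : b ≠ 0) (hb1 : |b| < 1) (C : ℝ) : ∃ d0 : ℝ, 0 < d0 ∧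
    ∀ s s' : E2 × E2, RS b c C s → RS b c C s' → ‖s.1 - s'.1‖ ≤ d0 →
      ∃ (σ : ℝ) (q : E2) (β : ℝ), |σ| ≤ 4 * ‖s.1 - s'.1‖ ∧ Cu b c s' σ q ∧
        q - s.1 = β • nv s.2 ∧ |β| ≤ 20 * ‖s.1 - s'.1‖ := by
  obtain ⟨h0, hh0, hlc⟩ := lc (c := c) hb0 hb1 C
  obtain ⟨d, hd, hcl⟩ := close_dir (c := c) hb0 hb1 C (ε := 1 / 40) (by norm_num)
  refine ⟨min d (h0 / 4), lt_min hd (by positivity), fun s s' hs hs' hD => ?_⟩
  have hD1 : ‖s.1 - s'.1‖ ≤ d := hD.trans (min_le_left _ _)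
  have hD2 : ‖s.1 - s'.1‖ ≤ h0 / 4 := hD.trans (min_le_right _ _)
  have hV : ‖s.2‖ = 1 := hs.unit
  have hV' : ‖s'.2‖ = 1 := hs'.unit
  obtain ⟨γ, hγc, -, hγ0, hγ⟩ := exists_curve hb0 (dl_pos hb0 hb1) (dl_le hb0 hb1) hs'
  obtain ⟨e, he, hw⟩ : ∃ e : ℝ, (e = 1 ∨ e = -1) ∧ ‖s'.2 - e • s.2‖ ≤ 1 / 40 := by
    rcases hcl s s' hs hs' hD1 with h | h
    · refine ⟨1, Or.inl rfl, ?_⟩
      rw [one_smul, norm_sub_rev]
      exact h
    · refine ⟨-1, Or.inr rfl, ?_⟩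
      rw [neg_smul, one_smul, sub_neg_eq_add, add_comm]
      exact h
  have hee : e * e = 1 := by
    rcases he with rfl | rfl
    · norm_num
    · norm_num
  have hea : |e| = 1 := by
    rcases he with rfl | rfl
    · norm_num
    · norm_num
  obtain ⟨D, hDdef⟩ : ∃ D, D = ‖s.1 - s'.1‖ := ⟨_, rfl⟩
  rw [← hDdef] at hD2 ⊢
  have hD0 : 0 ≤ D := by
    rw [hDdef]
    exact norm_nonneg _
  have hγe : ∀ t : ℝ, |t| ≤ h0 → ‖γ t - s'.1 - t • s'.2‖ ≤ 1 / 20 * |t| := by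
    intro t ht
    have h1 := (hlc s' hs' t 0 (γ t) s'.1 ht (by rw [abs_zero]; exact hh0.le) (hγ t)
      (asym_zero 1 b c (el b) s'.1 s'.2)).1
    rwa [sub_zero] at h1
  have hφ : ∀ t : ℝ, |t| ≤ h0 →
      |wd (γ t - s.1) (nv s.2) - wd (s'.1 - s.1) (nv s.2) - t * e| ≤ 3 / 20 * |t| := by
    intro t ht
    have h1 : wd (γ t - s.1) (nv s.2) - wd (s'.1 - s.1) (nv s.2) - t * e =
        wd (γ t - s'.1 - t • s'.2) (nv s.2) + t * wd (s'.2 - e • s.2) (nv s.2) := by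
      simp only [wd_sub_left, wd_smul_left, wd_nv hV]
      ring
    rw [h1]
    have h2 := abs_wd_nv_le hV (γ t - s'.1 - t • s'.2)
    have h3 := abs_wd_nv_le hV (s'.2 - e • s.2)
    have h4 := hγe t ht
    have h5 := abs_add_le (wd (γ t - s'.1 - t • s'.2) (nv s.2)) (t * wd (s'.2 - e • s.2) (nv s.2))
    rw [abs_mul] at h5
    have h6 : |t| * |wd (s'.2 - e • s.2) (nv s.2)| ≤ |t| * (1 / 20) :=
      mul_le_mul_of_nonneg_left (by linarith) (abs_nonneg t)
    linarith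
  have hφ0 : |wd (s'.1 - s.1) (nv s.2)| ≤ 2 * D := by
    have h1 := abs_wd_nv_le hV (s'.1 - s.1)
    rwa [norm_sub_rev, ← hDdef] at h1
  have hψc : Continuous fun τ : ℝ => wd (γ (e * τ) - s.1) (nv s.2) :=
    continuous_wd.comp (((hγc.comp (continuous_const.mul continuous_id)).sub
      continuous_const).prodMk continuous_const)
  have hψ : ∀ τ : ℝ, |τ| ≤ 4 * D → |wd (γ (e * τ) - s.1) (nv s.2) -
      wd (s'.1 - s.1) (nv s.2) - τ| ≤ 3 / 20 * |τ| := by
    intro τ hτ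
    have h1 : |e * τ| = |τ| := by rw [abs_mul, hea, one_mul]
    have h2 := hφ (e * τ) (by rw [h1]; linarith)
    have h3 : e * τ * e = τ := by
      calc e * τ * e = e * e * τ := by ring
        _ = τ := by rw [hee, one_mul]
    rwa [h1, h3] at h2
  have h4D : |4 * D| = 4 * D := abs_of_nonneg (by linarith)
  have h4D' : |-(4 * D)| = 4 * D := by rw [abs_neg, h4D]
  have hup := hψ (4 * D) h4D.le
  have hlo := hψ (-(4 * D)) h4D'.le
  rw [h4D] at hup
  rw [h4D'] at hlo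
  have hup' := abs_le.1 hup
  have hlo' := abs_le.1 hlo
  have hφ0' := abs_le.1 hφ0
  have hiv := intermediate_value_Icc (show -(4 * D) ≤ 4 * D by linarith) hψc.continuousOn
  obtain ⟨τ, hτ, hτ0⟩ := hiv (show (0 : ℝ) ∈ Set.Icc (wd (γ (e * -(4 * D)) - s.1) (nv s.2))
    (wd (γ (e * (4 * D)) - s.1) (nv s.2)) from ⟨by linarith, by linarith⟩)
  have hτa : |τ| ≤ 4 * D := abs_le.2 hτ
  have hτ0 : wd (γ (e * τ) - s.1) (nv s.2) = 0 := hτ0
  have hσa : |e * τ| = |τ| := by rw [abs_mul, hea, one_mul]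
  refine ⟨e * τ, γ (e * τ), wd s.2 (γ (e * τ) - s.1), by rw [hσa]; exact hτa, hγ _, ?_, ?_⟩
  · have h1 := frame hV (γ (e * τ) - s.1)
    rw [hτ0, zero_smul, zero_add] at h1
    exact h1
  · have h1 := abs_wd_le s.2 (γ (e * τ) - s.1)
    rw [hV, mul_one] at h1
    have h2 := hγe (e * τ) (by rw [hσa]; linarith)
    rw [hσa] at h2
    have h3 : γ (e * τ) - s.1 = (γ (e * τ) - s'.1 - (e * τ) • s'.2) + (s'.1 - s.1) +
        (e * τ) • s'.2 := by abel
    have h4 : ‖γ (e * τ) - s.1‖ ≤ 1 / 20 * |τ| + D + |τ| := by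
      rw [h3]
      refine norm_add₃_le.trans ?_
      rw [norm_smul, hV', mul_one, Real.norm_eq_abs, hσa, norm_sub_rev s'.1 s.1, ← hDdef]
      linarith
    linarith

end Pool.Agent.HG
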