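import Pool.Agent.HD.Alg
import Pool.Agent.HG.Defs

set_option autoImplicit false

/-!
# The frame `(V, nv V)` of a unit vector
-/

namespace Pool.Agent.HG

open Pool.Agent.HD

private theorem c1 (v : E2) : |v.1| ≤ ‖v‖ := norm_fst_le v

private theorem c2 (v : E2) : |v.2| ≤ ‖v‖ := norm_snd_le v

theorem nv_sq {V : E2} (hV : ‖V‖ = 1) : 1 ≤ V.1 ^ 2 + V.2 ^ 2 ∧ V.1 ^ 2 + V.2 ^ 2 ≤ 2 := by
  have h1 := c1 V
  have h2 := c2 V
  rw [hV] at h1 h2
  have h3 : V.1 ^ 2 ≤ 1 := by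
    rw [← sq_abs]; nlinarith [abs_nonneg V.1]
  have h4 : V.2 ^ 2 ≤ 1 := by
    rw [← sq_abs]; nlinarith [abs_nonneg V.2]
  refine ⟨?_, by linarith⟩
  have h5 : ‖V‖ = max |V.1| |V.2| := by
    rw [Prod.norm_def]; simp [Real.norm_eq_abs]
  rw [hV] at h5
  rcases max_choice |V.1| |V.2| with h | h
  · rw [h] at h5
    have : V.1 ^ 2 = 1 := by rw [← sq_abs, ← h5]; norm_num
    nlinarith [sq_nonneg V.2]
  · rw [h] at h5
    have : V.2 ^ 2 = 1 := by rw [← sq_abs, ← h5]; norm_num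
    nlinarith [sq_nonneg V.1]

theorem wd_nv {V : E2} (hV : ‖V‖ = 1) : wd V (nv V) = 1 := by
  have h := (nv_sq hV).1
  have h0 : V.1 ^ 2 + V.2 ^ 2 ≠ 0 := by linarith
  simp only [wd, nv]
  field_simp
  ring

theorem norm_nv_le {V : E2} (hV : ‖V‖ = 1) : ‖nv V‖ ≤ 1 := by
  have h := (nv_sq hV).1
  have h1 := c1 V
  have h2 := c2 V
  rw [hV] at h1 h2
  have h0 : 0 < V.1 ^ 2 + V.2 ^ 2 := by linarith
  rw [Prod.norm_def, Real.norm_eq_abs, Real.norm_eq_abs]
  refine max_le ?_ ?_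
  · simp only [nv]
    rw [abs_div, abs_neg, abs_of_pos h0, div_le_one h0]
    linarith
  · simp only [nv]
    rw [abs_div, abs_of_pos h0, div_le_one h0]
    linarith

theorem le_norm_nv {V : E2} (hV : ‖V‖ = 1) : 1 / 2 ≤ ‖nv V‖ := by
  have h1 : |wd V (nv V)| ≤ 2 * ‖V‖ * ‖nv V‖ := abs_wd_le V (nv V)
  rw [wd_nv hV, hV, abs_one] at h1
  linarith

theorem wd_self (V : E2) : wd V V = 0 := by
  simp only [wd]; ring

theorem wd_add_right (u v w : E2) : wd u (v + w) = wd u v + wd u w := by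
  simp only [wd, Prod.fst_add, Prod.snd_add]; ring

theorem wd_sub_right (u v w : E2) : wd u (v - w) = wd u v - wd u w := by
  simp only [wd, Prod.fst_sub, Prod.snd_sub]; ring

theorem wd_add_left (u v w : E2) : wd (u + v) w = wd u w + wd v w := by
  simp only [wd, Prod.fst_add, Prod.snd_add]; ring

theorem wd_sub_left (u v w : E2) : wd (u - v) w = wd u w - wd v w := by
  simp only [wd, Prod.fst_sub, Prod.snd_sub]; ring

theorem wd_smul_right (u v : E2) (t : ℝ) : wd u (t • v) = t * wd u v := by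
  simp only [wd, Prod.smul_fst, Prod.smul_snd, smul_eq_mul]; ring

theorem wd_smul_left (u v : E2) (t : ℝ) : wd (t • u) v = t * wd u v := by
  simp only [wd, Prod.smul_fst, Prod.smul_snd, smul_eq_mul]; ring

/-- decomposition in the frame -/
theorem frame {V : E2} (hV : ‖V‖ = 1) (w : E2) : w = wd w (nv V) • V + wd V w • nv V := by
  have h := (nv_sq hV).1
  have h0 : V.1 ^ 2 + V.2 ^ 2 ≠ 0 := by linarith
  ext
  · simp only [wd, nv, Prod.fst_add, Prod.smul_fst, smul_eq_mul]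
    field_simp
    ring
  · simp only [wd, nv, Prod.snd_add, Prod.smul_snd, smul_eq_mul]
    field_simp
    ring

theorem abs_wd_nv_le {V : E2} (hV : ‖V‖ = 1) (w : E2) : |wd w (nv V)| ≤ 2 * ‖w‖ := by
  have h1 := abs_wd_le w (nv V)
  have h2 := norm_nv_le hV
  have h3 := norm_nonneg w
  nlinarith

theorem el_pos {b : ℝ} (hb0 : b ≠ 0) (hb1 : |b| < 1) : 0 < el b := by
  unfold el
  have := Real.log_neg (abs_pos.2 hb0) hb1
  linarith

theorem dl_pos {b : ℝ} (hb0 : b ≠ 0) (hb1 : |b| < 1) : 0 < dl b := by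
  unfold dl
  have := el_pos hb0 hb1
  linarith

theorem dl_le {b : ℝ} (hb0 : b ≠ 0) (hb1 : |b| < 1) : 100 * dl b ≤ el b := by
  unfold dl
  have := el_pos hb0 hb1
  linarith

theorem el_eq (b : ℝ) : el b = 1000 * dl b := by
  unfold dl; ring

theorem pow_eq {b : ℝ} (hb0 : b ≠ 0) (n : ℕ) : |b| ^ n = Real.exp (-(el b) * n) := by
  unfold el
  rw [neg_neg, mul_comm, Real.exp_nat_mul, Real.exp_log (abs_pos.2 hb0)]

end Pool.Agent.HG
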