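import Pool.Agent.HD.Orb
import Pool.Agent.HG.Nv

set_option autoImplicit false

/-!
# The dynamics on the spaces of orbits and of states; bad measures
-/

namespace Pool.Agent.HG

open Pool.Agent.HD MeasureTheory Set

variable {b c : ℝ}

theorem kk_G (hb : b ≠ 0) {q : E2} (h : q ∈ KK b c) : G 1 b c q ∈ KK b c := by
  refine ⟨fun n => ?_, fun n => ?_⟩
  · have := h.1 (n + 1)
    rwa [Function.iterate_succ_apply] at this
  · cases n with
    | zero => simpa using h.1 1
    | succ n =>
      rw [Function.iterate_succ_apply, Gi_G hb]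
      exact h.2 n

theorem kk_Gi (hb : b ≠ 0) {q : E2} (h : q ∈ KK b c) : Gi 1 b c q ∈ KK b c := by
  refine ⟨fun n => ?_, fun n => ?_⟩
  · cases n with
    | zero => simpa using h.2 1
    | succ n =>
      rw [Function.iterate_succ_apply, G_Gi hb]
      exact h.1 n
  · have := h.2 (n + 1)
    rwa [Function.iterate_succ_apply] at this

theorem kk_G_iff (hb : b ≠ 0) {q : E2} : G 1 b c q ∈ KK b c ↔ q ∈ KK b c := by
  refine ⟨fun h => ?_, kk_G hb⟩
  have := kk_Gi hb h
  rwa [Gi_G hb] at this

theorem kk_G_iter (hb : b ≠ 0) {q : E2} (n : ℕ) : (G 1 b c)^[n] q ∈ KK b c ↔ q ∈ KK b c := by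
  induction n with
  | zero => simp
  | succ n ih => rw [Function.iterate_succ_apply', kk_G_iff hb, ih]

theorem kk_closed (b c : ℝ) : IsClosed (KK b c) := by
  have : KK b c = (⋂ n : ℕ, {q : E2 | ‖(G 1 b c)^[n] q‖ ≤ |c| + 4}) ∩
      ⋂ n : ℕ, {q : E2 | ‖(Gi 1 b c)^[n] q‖ ≤ |c| + 4} := by
    ext q; simp [KK]
  rw [this]
  refine IsClosed.inter (isClosed_iInter fun n => ?_) (isClosed_iInter fun n => ?_)
  · exact isClosed_le (continuous_G_iter 1 b c n).norm continuous_const
  · exact isClosed_le (continuous_Gi_iter 1 b c n).norm continuous_const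

theorem kk_compact (b c : ℝ) : IsCompact (KK b c) := by
  refine Metric.isCompact_of_isClosed_isBounded (kk_closed b c) ?_
  refine (Metric.isBounded_closedBall (x := (0 : E2)) (r := |c| + 4)).subset fun q hq => ?_
  simpa using hq.1 0

theorem act_der_ne (hb : b ≠ 0) {p v : E2} (hv : v ≠ 0) : act (der 1 b p) v ≠ 0 := by
  intro h
  apply hv
  have h2 : v.1 = 0 := by
    have := congrArg Prod.snd h
    simpa [act, der] using this
  have h1 : v.2 = 0 := by
    have := congrArg Prod.fst h
    simp only [act, der, h2, mul_zero, zero_add, Prod.fst_zero] at this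
    rcases mul_eq_zero.1 this with h3 | h3
    · exact absurd (neg_eq_zero.1 h3) hb
    · exact h3
  exact Prod.ext h2 h1

/-- one step of the dynamics of states -/
noncomputable def F1 (b c : ℝ) (s : E2 × E2) : E2 × E2 :=
  (G 1 b c s.1, ‖act (der 1 b s.1) s.2‖⁻¹ • act (der 1 b s.1) s.2)

theorem sn_one (b c : ℝ) (s : E2 × E2) : sn b c s 1 = F1 b c s := by
  simp only [sn, F1, lam, vn, co_one, Function.iterate_one]

theorem continuous_der (b : ℝ) : Continuous fun p : E2 => der 1 b p := by
  unfold der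
  fun_prop

theorem F1_mem (hb : b ≠ 0) {s : E2 × E2} (h : s.1 ∈ KK b c ∧ ‖s.2‖ = 1) :
    (F1 b c s).1 ∈ KK b c ∧ ‖(F1 b c s).2‖ = 1 := by
  refine ⟨kk_G hb h.1, ?_⟩
  have h0 : s.2 ≠ 0 := by
    intro h'; rw [h', norm_zero] at h; exact zero_ne_one h.2
  have h1 := norm_ne_zero_iff.2 (act_der_ne (p := s.1) hb h0)
  simp only [F1]
  rw [norm_smul, norm_inv, norm_norm, inv_mul_cancel₀ h1]

open Classical in
/-- the dynamics on the space of states -/
noncomputable def FS (b c : ℝ) (s : St b c) : St b c :=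
  if hb : b ≠ 0 then ⟨F1 b c s, F1_mem hb s.2⟩ else s

open Classical in
/-- the dynamics on the space of full orbits -/
noncomputable def fK (b c : ℝ) (q : Kt b c) : Kt b c :=
  if hb : b ≠ 0 then ⟨G 1 b c q, kk_G hb q.2⟩ else q

theorem FS_val (hb : b ≠ 0) (s : St b c) : ((FS b c s : St b c) : E2 × E2) = F1 b c s := by
  unfold FS; rw [dif_pos hb]

theorem fK_val (hb : b ≠ 0) (q : Kt b c) : ((fK b c q : Kt b c) : E2) = G 1 b c q := by
  unfold fK; rw [dif_pos hb]

theorem continuous_FS (hb : b ≠ 0) : Continuous (FS b c) := by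
  rw [Topology.IsInducing.subtypeVal.continuous_iff]
  have : (Subtype.val ∘ FS b c) = fun s : St b c => F1 b c (s : E2 × E2) := by
    funext s; exact FS_val hb s
  rw [this]
  have h1 : Continuous fun s : St b c => act (der 1 b (s : E2 × E2).1) (s : E2 × E2).2 := by
    have h2 : Continuous fun s : St b c => (der 1 b (s : E2 × E2).1, (s : E2 × E2).2) :=
      ((continuous_der b).comp (continuous_fst.comp continuous_subtype_val)).prodMk
        (continuous_snd.comp continuous_subtype_val)
    exact continuous_act.comp h2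
  refine Continuous.prodMk ?_ ?_
  · exact (continuous_G 1 b c).comp (continuous_fst.comp continuous_subtype_val)
  · refine Continuous.smul (h1.norm.inv₀ fun s => ?_) h1
    refine norm_ne_zero_iff.2 (act_der_ne hb ?_)
    intro h'
    have := s.2.2
    rw [h', norm_zero] at this
    exact zero_ne_one this

theorem continuous_fK (hb : b ≠ 0) : Continuous (fK b c) := by
  rw [Topology.IsInducing.subtypeVal.continuous_iff]
  have : (Subtype.val ∘ fK b c) = fun q : Kt b c => G 1 b c (q : E2) := by
    funext q; exact fK_val hb q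
  rw [this]
  exact (continuous_G 1 b c).comp continuous_subtype_val

instance compact_Kt (b c : ℝ) : CompactSpace (Kt b c) :=
  isCompact_iff_compactSpace.1 (kk_compact b c)

theorem st_compact (b c : ℝ) : IsCompact {s : E2 × E2 | s.1 ∈ KK b c ∧ ‖s.2‖ = 1} := by
  have : {s : E2 × E2 | s.1 ∈ KK b c ∧ ‖s.2‖ = 1} = KK b c ×ˢ Metric.sphere (0 : E2) 1 := by
    ext s; simp
  rw [this]
  exact (kk_compact b c).prod (isCompact_sphere _ _)

instance compact_St (b c : ℝ) : CompactSpace (St b c) :=
  isCompact_iff_compactSpace.1 (st_compact b c)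

/-- the good (measurable, invariant) set of states: regular, branch in `KK` -/
def GS (b c : ℝ) : Set (E2 × E2) :=
  {s | s.1 ∈ KK b c ∧ (∃ C : ℝ, RS b c C s) ∧ Brn b c s ⊆ KK b c}

/-- bad measure: an ergodic measure on the states, without atoms in the plane, whose states are
regular (zero exponent) with a branch in `KK` -/
structure Bad (b c : ℝ) (m : Measure (St b c)) : Prop where
  prob : IsProbabilityMeasure m
  erg : Ergodic (FS b c) m
  na : ∀ p : E2, m ((fun s : St b c => s.1.1) ⁻¹' {p}) = 0
  gs : ∀ᵐ s : St b c ∂m, (s : E2 × E2) ∈ GS b c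

end Pool.Agent.HG
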