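import Pool.Agent.HD.Cpt
import Pool.Agent.HD.Uni
import Pool.Agent.HG.MDefs

set_option autoImplicit false

/-!
# The stable curve as a function of the state: continuity and measurability
-/

namespace Pool.Agent.HG

open Pool.Agent.HD MeasureTheory Set

variable {b c : ℝ}

private theorem cm_ex (hb0 : b ≠ 0) (hb1 : |b| < 1) {C : ℝ} {s : E2 × E2} (h : RS b c C s)
    (t : ℝ) : ∃ q : E2, Cu b c s t q := by
  obtain ⟨γ, -, -, -, hγ⟩ := exists_curve hb0 (dl_pos hb0 hb1) (dl_le hb0 hb1) h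
  exact ⟨γ t, hγ t⟩

theorem cuf_spec (hb0 : b ≠ 0) (hb1 : |b| < 1) {C : ℝ} {s : E2 × E2} (h : RS b c C s) (t : ℝ) :
    Cu b c s t (cuf b c s t) := by
  have h1 : (∃ C : ℝ, RS b c C s) ∧ ∃ q : E2, Cu b c s t q := ⟨⟨C, h⟩, cm_ex hb0 hb1 h t⟩
  unfold cuf
  rw [dif_pos h1]
  exact h1.2.choose_spec

theorem cuf_eq (hb0 : b ≠ 0) (hb1 : |b| < 1) {C : ℝ} {s : E2 × E2} (h : RS b c C s) {t : ℝ}
    {q : E2} (hq : Cu b c s t q) : q = cuf b c s t :=
  asym_unique hb0 (dl_pos hb0 hb1) (dl_le hb0 hb1) h hq (cuf_spec hb0 hb1 h t)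

theorem cuf_curve (hb0 : b ≠ 0) (hb1 : |b| < 1) {C : ℝ} {s : E2 × E2} (h : RS b c C s) :
    Continuous (cuf b c s) ∧ Function.Injective (cuf b c s) ∧ cuf b c s 0 = s.1 := by
  obtain ⟨γ, h1, h2, h3, hγ⟩ := exists_curve hb0 (dl_pos hb0 hb1) (dl_le hb0 hb1) h
  have h4 : cuf b c s = γ := funext fun t => (cuf_eq hb0 hb1 h (hγ t)).symm
  rw [h4]
  exact ⟨h1, h2, h3⟩

theorem rs_compact (b c C : ℝ) : IsCompact {s : E2 × E2 | RS b c C s} :=
  reg_compact 1 b c (el b) (dl b) (|c| + 4) C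

open Filter Topology in
theorem cuf_contOn (hb0 : b ≠ 0) (hb1 : |b| < 1) (C : ℝ) :
    ContinuousOn (fun x : (E2 × E2) × ℝ => cuf b c x.1 x.2) ({s | RS b c C s} ×ˢ univ) := by
  rw [continuousOn_iff_continuous_restrict, continuous_iff_seqContinuous]
  intro u x hu
  have hu' : Tendsto (fun i => (u i : (E2 × E2) × ℝ)) atTop (𝓝 (x : (E2 × E2) × ℝ)) :=
    (continuous_subtype_val.tendsto x).comp hu
  have hu1 : Tendsto (fun i => (u i : (E2 × E2) × ℝ).1) atTop (𝓝 (x : (E2 × E2) × ℝ).1) :=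
    (continuous_fst.tendsto _).comp hu'
  have hu2 : Tendsto (fun i => (u i : (E2 × E2) × ℝ).2) atTop (𝓝 (x : (E2 × E2) × ℝ).2) :=
    (continuous_snd.tendsto _).comp hu'
  have hx : RS b c C (x : (E2 × E2) × ℝ).1 := x.2.1
  have hui : ∀ i, RS b c C (u i : (E2 × E2) × ℝ).1 := fun i => (u i).2.1
  obtain ⟨S, hS⟩ : ∃ S : ℝ, ∀ i, |(u i : (E2 × E2) × ℝ).2| ≤ S := by
    obtain ⟨S, hS⟩ := (Metric.isBounded_range_of_tendsto _ hu2).exists_norm_le
    exact ⟨S, fun i => hS _ ⟨i, rfl⟩⟩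
  apply tendsto_of_subseq_tendsto
  intro ns hns
  obtain ⟨z, hz, φ, hφ, hlim⟩ := (asym_compact (a := 1) (c := c) hb0 (dl_pos hb0 hb1)
    (dl_le hb0 hb1) (|c| + 4) C S).tendsto_subseq
    (x := fun i => ((u (ns i) : (E2 × E2) × ℝ).1, ((u (ns i) : (E2 × E2) × ℝ).2,
      cuf b c (u (ns i) : (E2 × E2) × ℝ).1 (u (ns i) : (E2 × E2) × ℝ).2)))
    fun i => ⟨hui _, hS _, cuf_spec hb0 hb1 (hui _) _⟩
  refine ⟨φ, ?_⟩
  have h3 : Tendsto (fun i => (u (ns (φ i)) : (E2 × E2) × ℝ).1) atTop (𝓝 z.1) :=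
    (continuous_fst.tendsto z).comp hlim
  have h4 : z.1 = (x : (E2 × E2) × ℝ).1 :=
    tendsto_nhds_unique h3 (hu1.comp (hns.comp hφ.tendsto_atTop))
  have h5 : Tendsto (fun i => (u (ns (φ i)) : (E2 × E2) × ℝ).2) atTop (𝓝 z.2.1) :=
    ((continuous_fst.comp continuous_snd).tendsto z).comp hlim
  have h6 : z.2.1 = (x : (E2 × E2) × ℝ).2 :=
    tendsto_nhds_unique h5 (hu2.comp (hns.comp hφ.tendsto_atTop))
  have h7 : Tendsto (fun i => cuf b c (u (ns (φ i)) : (E2 × E2) × ℝ).1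
      (u (ns (φ i)) : (E2 × E2) × ℝ).2) atTop (𝓝 z.2.2) :=
    ((continuous_snd.comp continuous_snd).tendsto z).comp hlim
  have h8 : Cu b c (x : (E2 × E2) × ℝ).1 (x : (E2 × E2) × ℝ).2 z.2.2 := by
    have := hz.2.2
    rw [h4, h6] at this
    exact this
  have h9 := cuf_eq hb0 hb1 hx h8
  rw [h9] at h7
  exact h7

private theorem cm_contOn (hb0 : b ≠ 0) (hb1 : |b| < 1) (C t : ℝ) :
    ContinuousOn (fun s : E2 × E2 => cuf b c s t) {s | RS b c C s} := by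
  have h1 : ContinuousOn (fun s : E2 × E2 => ((s, t) : (E2 × E2) × ℝ)) {s | RS b c C s} :=
    (Continuous.prodMk continuous_id continuous_const).continuousOn
  exact (cuf_contOn hb0 hb1 C).comp h1 fun s hs => ⟨hs, mem_univ _⟩

private theorem cm_union (b c : ℝ) :
    {s : E2 × E2 | ∃ C : ℝ, RS b c C s} = ⋃ n : ℕ, {s : E2 × E2 | RS b c n s} := by
  ext s
  simp only [mem_setOf_eq, mem_iUnion]
  constructor
  · rintro ⟨C, h⟩
    obtain ⟨n, hn⟩ := exists_nat_ge C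
    exact ⟨n, Reg.mono h hn le_rfl⟩
  · rintro ⟨n, h⟩
    exact ⟨n, h⟩

theorem rs_meas (b c : ℝ) : MeasurableSet {s : E2 × E2 | ∃ C : ℝ, RS b c C s} := by
  rw [cm_union]
  exact MeasurableSet.iUnion fun n => (rs_compact b c n).isClosed.measurableSet

theorem cuf_meas (hb0 : b ≠ 0) (hb1 : |b| < 1) (t : ℝ) :
    Measurable fun s : E2 × E2 => cuf b c s t := by
  refine measurable_of_isClosed fun F hF => ?_
  have key : (fun s : E2 × E2 => cuf b c s t) ⁻¹' F =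
      (⋃ n : ℕ, ({s : E2 × E2 | RS b c n s} ∩ (fun s : E2 × E2 => cuf b c s t) ⁻¹' F)) ∪
        ({s : E2 × E2 | ∃ C : ℝ, RS b c C s}ᶜ ∩ {_s : E2 × E2 | (0 : E2) ∈ F}) := by
    rw [← iUnion_inter, ← cm_union]
    ext s
    by_cases hs : ∃ C : ℝ, RS b c C s
    · simp [hs]
    · have h0 : cuf b c s t = 0 := by
        unfold cuf
        rw [dif_neg]
        exact fun h => hs h.1
      simp [hs, h0]
  rw [key]
  refine MeasurableSet.union (MeasurableSet.iUnion fun n => ?_)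
    ((rs_meas b c).compl.inter (MeasurableSet.const _))
  exact ((cm_contOn hb0 hb1 n t).preimage_isClosed_of_isClosed
    (rs_compact b c n).isClosed hF).measurableSet

theorem brn_compact (hb0 : b ≠ 0) (hb1 : |b| < 1) (C : ℝ) {S : Set E2} (hS : IsClosed S) :
    IsCompact {s : E2 × E2 | RS b c C s ∧ Brn b c s ⊆ S} := by
  have h := br_compact (a := 1) (c := c) hb0 (dl_pos hb0 hb1) (dl_le hb0 hb1) (|c| + 4) C hS
  have e : {s : E2 × E2 | RS b c C s ∧ Brn b c s ⊆ S} =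
      {x : E2 × E2 | Reg 1 b c (el b) (dl b) (|c| + 4) C x.1 x.2 ∧
        Br 1 b c (el b) S x.1 x.2} := by
    ext s
    refine and_congr_right fun _ => ⟨fun h t ht q hq => h ⟨t, ht, hq⟩, ?_⟩
    rintro h q ⟨t, ht, hq⟩
    exact h t ht q hq
  rw [e]
  exact h

theorem gs_meas (hb0 : b ≠ 0) (hb1 : |b| < 1) : MeasurableSet (GS b c) := by
  have e : GS b c = {s : E2 × E2 | s.1 ∈ KK b c} ∩
      ⋃ n : ℕ, {s : E2 × E2 | RS b c n s ∧ Brn b c s ⊆ KK b c} := by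
    ext s
    simp only [GS, mem_setOf_eq, mem_inter_iff, mem_iUnion]
    refine and_congr_right fun _ => ?_
    constructor
    · rintro ⟨⟨C, h⟩, h2⟩
      obtain ⟨n, hn⟩ := exists_nat_ge C
      exact ⟨n, Reg.mono h hn le_rfl, h2⟩
    · rintro ⟨n, h, h2⟩
      exact ⟨⟨n, h⟩, h2⟩
  rw [e]
  refine MeasurableSet.inter ?_ (MeasurableSet.iUnion fun n =>
    (brn_compact hb0 hb1 n (kk_closed b c)).isClosed.measurableSet)
  exact ((kk_closed b c).preimage continuous_fst).measurableSet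

theorem iso_compact (hb0 : b ≠ 0) (hb1 : |b| < 1) (C h r : ℝ) :
    IsCompact {s : E2 × E2 | RS b c C s ∧ Iso b c h r s} := by
  have e : {s : E2 × E2 | RS b c C s ∧ Iso b c h r s} = {s : E2 × E2 | RS b c C s} ∩
      ⋂ t : Ici h, ({s : E2 × E2 | RS b c C s} ∩
        (fun s : E2 × E2 => ‖cuf b c s t - s.1‖) ⁻¹' Ici r) := by
    ext s
    simp only [mem_setOf_eq, mem_inter_iff, mem_iInter, mem_preimage, mem_Ici]
    constructor
    · rintro ⟨h1, h2⟩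
      exact ⟨h1, fun t => ⟨h1, h2 t _ t.2 (cuf_spec hb0 hb1 h1 t)⟩⟩
    · rintro ⟨h1, h2⟩
      refine ⟨h1, fun t q ht hq => ?_⟩
      rw [cuf_eq hb0 hb1 h1 hq]
      exact (h2 ⟨t, ht⟩).2
  refine IsCompact.of_isClosed_subset (rs_compact b c C) ?_ fun s hs => hs.1
  rw [e]
  refine (rs_compact b c C).isClosed.inter (isClosed_iInter fun t => ?_)
  have h1 : ContinuousOn (fun s : E2 × E2 => ‖cuf b c s t - s.1‖) {s | RS b c C s} :=
    ((cm_contOn hb0 hb1 C t).sub continuous_fst.continuousOn).norm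
  exact h1.preimage_isClosed_of_isClosed (rs_compact b c C).isClosed isClosed_Ici

end Pool.Agent.HG
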