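import Pool.Agent.HG.Ct
import Pool.Agent.HG.Ca
import Pool.Agent.HD.Area
import Pool.Agent.HD.Orb

set_option autoImplicit false

/-!
# Collar lemma

The image `Y` under the `k`-th iterate of a compact set `Y0` in the ball of radius `M` cannot contain an arc over `[a1, a2]`
with an empty collar of width `ε`, unless `ε (a2 - a1) ≤ 16 M² |b|^k`: the half collar would be in a bounded open set `D`
with frontier in `Y`, whose preimage under the `k`-th iterate is in the ball of radius `M` and has area `|b|^(-k) vol D`.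
-/

namespace Pool.Agent.HG

open Pool.Agent.HD Set MeasureTheory

private theorem co_image_Gi {b c : ℝ} (hb : b ≠ 0) (S : Set E2) :
    Gi 1 b c '' S = G 1 b c ⁻¹' S := by
  rw [Set.image_eq_preimage_of_inverse (fun p => G_Gi hb p) (fun p => Gi_G hb p)]

private theorem co_image_Gi_iter {b c : ℝ} (hb : b ≠ 0) (n : ℕ) (S : Set E2) :
    (Gi 1 b c)^[n] '' S = (G 1 b c)^[n] ⁻¹' S := by
  rw [Set.image_eq_preimage_of_inverse (fun p => G_iter_Gi_iter hb n p)
    (fun p => Gi_iter_G_iter hb n p)]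

private theorem co_vol_Gi_iter {b c : ℝ} (hb : b ≠ 0) {U : Set E2} (hU : IsOpen U) (n : ℕ) :
    volume ((Gi 1 b c)^[n] '' U) = ENNReal.ofReal |b|⁻¹ ^ n * volume U := by
  induction n with
  | zero => simp
  | succ n ih =>
    have h1 : IsOpen ((Gi 1 b c)^[n] '' U) := by
      rw [co_image_Gi_iter hb]
      exact hU.preimage (continuous_G_iter 1 b c n)
    rw [Function.iterate_succ', Set.image_comp, vol_Gi hb h1.measurableSet, ih, pow_succ']
    ring

private theorem co_norm_le_max {b c : ℝ} (hb : b ≠ 0) {U : Set E2} (hU : IsOpen U)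
    (hne : U.Nonempty) (hbd : Bornology.IsBounded U) {M : ℝ} (n : ℕ)
    (h : ∀ z ∈ frontier U, ‖(Gi 1 b c)^[n] z‖ ≤ M) :
    ∀ z ∈ U, ‖(Gi 1 b c)^[n] z‖ ≤ max M 0 := by
  have hc : IsCompact (closure U) := hbd.isCompact_closure
  have hcont : ContinuousOn (fun z => ‖(Gi 1 b c)^[n] z‖) (closure U) :=
    (continuous_norm.comp (continuous_Gi_iter 1 b c n)).continuousOn
  obtain ⟨z0, hz0, hmax⟩ := hc.exists_isMaxOn hne.closure hcont
  have hmax' : ∀ z ∈ closure U, ‖(Gi 1 b c)^[n] z‖ ≤ ‖(Gi 1 b c)^[n] z0‖ := hmax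
  have key : ‖(Gi 1 b c)^[n] z0‖ ≤ max M 0 := by
    by_cases hzU : z0 ∈ U
    · refine le_trans ?_ (le_max_right M 0)
      have hop : IsOpen ((Gi 1 b c)^[n] '' U) := by
        rw [co_image_Gi_iter hb]
        exact hU.preimage (continuous_G_iter 1 b c n)
      have hw : (Gi 1 b c)^[n] z0 ∈ (Gi 1 b c)^[n] '' U := ⟨z0, hzU, rfl⟩
      have ht : Filter.Tendsto (fun ε : ℝ => (1 + ε) • (Gi 1 b c)^[n] z0)
          (nhdsWithin 0 (Set.Ioi 0)) (nhds ((Gi 1 b c)^[n] z0)) := by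
        have h1 : Continuous (fun ε : ℝ => (1 + ε) • (Gi 1 b c)^[n] z0) := by fun_prop
        have h2 := h1.tendsto 0
        rw [add_zero, one_smul] at h2
        exact h2.mono_left nhdsWithin_le_nhds
      have hev := ht.eventually (hop.mem_nhds hw)
      obtain ⟨ε, hε1, hε2⟩ := (hev.and self_mem_nhdsWithin).exists
      obtain ⟨z1, hz1, hz1'⟩ := hε1
      have hε : (0 : ℝ) < ε := hε2
      have h3 := hmax' z1 (subset_closure hz1)
      have h4 : (Gi 1 b c)^[n] z1 = (1 + ε) • (Gi 1 b c)^[n] z0 := hz1'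
      rw [h4, norm_smul, Real.norm_of_nonneg (by linarith)] at h3
      have h5 := norm_nonneg ((Gi 1 b c)^[n] z0)
      nlinarith
    · have hf : z0 ∈ frontier U := by
        rw [hU.frontier_eq]
        exact ⟨hz0, hzU⟩
      exact (h z0 hf).trans (le_max_left M 0)
  exact fun z hz => (hmax' z (subset_closure hz)).trans key

private theorem co_vol_ball (M : ℝ) :
    volume (Metric.closedBall (0 : E2) M) = ENNReal.ofReal (2 * M) * ENNReal.ofReal (2 * M) := by
  have h1 : Metric.closedBall (0 : E2) M =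
      Metric.closedBall (0 : ℝ) M ×ˢ Metric.closedBall (0 : ℝ) M :=
    (closedBall_prod_same (0 : ℝ) (0 : ℝ) M).symm
  rw [h1, Measure.volume_eq_prod, Measure.prod_prod, Real.volume_closedBall]

theorem collar {b c : ℝ} (hb0 : b ≠ 0) {M : ℝ} {k : ℕ} {Y0 : Set E2} (hY0 : IsCompact Y0)
    (hM : ∀ z ∈ Y0, ‖z‖ ≤ M) {V : E2} (hV : ‖V‖ = 1) {g : ℝ → E2} {a1 a2 ε : ℝ} (h12 : a1 < a2)
    (hε : 0 < ε)
    (hg : ∀ u ∈ Icc a1 a2, ∀ v ∈ Icc a1 a2, ‖g u - g v - (u - v) • V‖ ≤ 1 / 20 * |u - v|)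
    (hmem : ∀ u ∈ Icc a1 a2, g u ∈ (G 1 b c)^[k] '' Y0)
    (hstrip : ∀ u ∈ Ioo a1 a2, ∀ β : ℝ, |β| < ε → β ≠ 0 →
      g u + β • nv V ∉ (G 1 b c)^[k] '' Y0)
    {u0 : ℝ} (hu0 : u0 ∈ Ioo a1 a2) (hpre : IsPreconnected (((G 1 b c)^[k] '' Y0) \ {g u0})) :
    ε * (a2 - a1) ≤ 16 * M ^ 2 * |b| ^ k := by
  have hcomp : IsCompact ((G 1 b c)^[k] '' Y0) := hY0.image (continuous_G_iter 1 b c k)
  obtain ⟨D, hDo, hDb, hDf, hD⟩ := collar_top hcomp hV hε hg hmem hstrip hu0 hpre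
  have harea := collar_area hV h12 hε hg hDo hD
  have hne : D.Nonempty := by
    rcases hD with h | h
    · exact ⟨_, h u0 hu0 (ε / 2) (by linarith) (by linarith)⟩
    · exact ⟨_, h u0 hu0 (ε / 2) (by linarith) (by linarith)⟩
  have hM0 : 0 ≤ M := by
    obtain ⟨y, hy, -⟩ := hmem u0 (Ioo_subset_Icc_self hu0)
    exact (norm_nonneg y).trans (hM y hy)
  have hfr : ∀ z ∈ frontier D, ‖(Gi 1 b c)^[k] z‖ ≤ M := by
    intro z hz
    obtain ⟨y, hy, rfl⟩ := hDf hz
    rw [Gi_iter_G_iter hb0]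
    exact hM y hy
  have hball : (Gi 1 b c)^[k] '' D ⊆ Metric.closedBall (0 : E2) M := by
    rintro w ⟨z, hz, rfl⟩
    rw [mem_closedBall_zero_iff]
    have h1 := co_norm_le_max hb0 hDo hne hDb k hfr z hz
    rwa [max_eq_left hM0] at h1
  have h1 := measure_mono (μ := volume) hball
  rw [co_vol_Gi_iter hb0 hDo k, co_vol_ball] at h1
  have h2 : ENNReal.ofReal |b|⁻¹ ^ k * ENNReal.ofReal (ε * (a2 - a1) / 2) ≤
      ENNReal.ofReal (2 * M) * ENNReal.ofReal (2 * M) :=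
    (mul_le_mul_right harea _).trans h1
  rw [← ENNReal.ofReal_pow (by positivity), ← ENNReal.ofReal_mul (by positivity),
    ← ENNReal.ofReal_mul (by positivity), ENNReal.ofReal_le_ofReal_iff (by positivity)] at h2
  have hb : 0 < |b| ^ k := pow_pos (abs_pos.2 hb0) k
  have h3 : ε * (a2 - a1) / 2 ≤ |b| ^ k * (2 * M * (2 * M)) := by
    have h4 := mul_le_mul_of_nonneg_left h2 hb.le
    rwa [← mul_assoc, ← mul_pow, mul_inv_cancel₀ (abs_pos.2 hb0).ne', one_pow, one_mul] at h4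
  have h5 : 0 ≤ |b| ^ k * M ^ 2 := by positivity
  nlinarith

end Pool.Agent.HG
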