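import Pool.Agent.HG.Nv
import Pool.Agent.HE.Jump
import Pool.Agent.HE.Unb

set_option autoImplicit false

/-!
# Collar lemma, topological part

`Y` is a compact set which contains the arc `g` and is disjoint from the two half collars of width `ε` of the arc; if
`Y \ {g u0}` is connected for one point then one of the half collars is in a bounded component of the complement.

In the affine chart `Φ z = wd V (z - g u0) + i wd (z - g u0) (nv V)` the lemma `HE.jump` shows that the two half collars are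
in different components of the complement of `Φ '' Y`, so one of these components is bounded.
-/

namespace Pool.Agent.HG

open Pool.Agent.HD Set Filter Topology

/-- the affine chart of the frame `(V, nv V)` at `p` -/
private noncomputable def chart {V : E2} (hV : ‖V‖ = 1) (p : E2) : E2 ≃ₜ ℂ where
  toFun z := ⟨wd V (z - p), wd (z - p) (nv V)⟩
  invFun w := p + (w.im • V + w.re • nv V)
  left_inv z := by
    have h := frame hV (z - p)
    show p + (wd (z - p) (nv V) • V + wd V (z - p) • nv V) = z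
    rw [← h]
    abel
  right_inv w := by
    have e : p + (w.im • V + w.re • nv V) - p = w.im • V + w.re • nv V := by abel
    show (⟨wd V (p + (w.im • V + w.re • nv V) - p),
      wd (p + (w.im • V + w.re • nv V) - p) (nv V)⟩ : ℂ) = w
    rw [e, wd_add_right, wd_smul_right, wd_smul_right, wd_self, wd_nv hV, wd_add_left,
      wd_smul_left, wd_smul_left, wd_nv hV, wd_self]
    apply Complex.ext <;> simp
  continuous_toFun := by
    have h1 : Continuous fun z : E2 => wd V (z - p) := by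
      unfold wd
      fun_prop
    have h2 : Continuous fun z : E2 => wd (z - p) (nv V) := by
      unfold wd
      fun_prop
    have h3 : (fun z : E2 => (⟨wd V (z - p), wd (z - p) (nv V)⟩ : ℂ)) =
        fun z : E2 => ((wd V (z - p) : ℝ) : ℂ) + ((wd (z - p) (nv V) : ℝ) : ℂ) * Complex.I := by
      funext z
      apply Complex.ext <;> simp
    show Continuous fun z : E2 => (⟨wd V (z - p), wd (z - p) (nv V)⟩ : ℂ)
    rw [h3]
    exact (Complex.continuous_ofReal.comp h1).add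
      ((Complex.continuous_ofReal.comp h2).mul continuous_const)
  continuous_invFun := by
    have h1 : Continuous fun w : ℂ => w.im := Complex.continuous_im
    have h2 : Continuous fun w : ℂ => w.re := Complex.continuous_re
    exact continuous_const.add ((h1.smul continuous_const).add (h2.smul continuous_const))

private theorem chart_re {V : E2} (hV : ‖V‖ = 1) (p z : E2) :
    (chart hV p z).re = wd V (z - p) := rfl

private theorem chart_im {V : E2} (hV : ‖V‖ = 1) (p z : E2) :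
    (chart hV p z).im = wd (z - p) (nv V) := rfl

private theorem chart_self {V : E2} (hV : ‖V‖ = 1) (p : E2) : chart hV p p = 0 := by
  apply Complex.ext
  · rw [chart_re, sub_self]
    simp [wd]
  · rw [chart_im, sub_self]
    simp [wd]

private theorem chart_nv {V : E2} (hV : ‖V‖ = 1) (p : E2) (t : ℝ) :
    chart hV p (p + t • nv V) = t := by
  have e : p + t • nv V - p = t • nv V := by abel
  apply Complex.ext
  · rw [chart_re, e, wd_smul_right, wd_nv hV]
    simp
  · rw [chart_im, e, wd_smul_left, wd_self]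
    simp

/-- if the component of the half collar is bounded then it pulls back to the required set -/
private theorem side (Φ : E2 ≃ₜ ℂ) {Y : Set E2} (hY : IsCompact Y) {N : E2} {g : ℝ → E2}
    {a1 a2 ε : ℝ} (hε : 0 < ε) (hgc : ContinuousOn g (Ioo a1 a2))
    (hst : ∀ u ∈ Ioo a1 a2, ∀ β : ℝ, 0 < β → β < ε → g u + β • N ∉ Y)
    {u0 : ℝ} (hu0 : u0 ∈ Ioo a1 a2) {w : ℂ} (hw : Φ (g u0 + (ε / 2) • N) = w)
    (hb : Bornology.IsBounded (HE.Cmp (Φ '' Y) w)) :
    ∃ D : Set E2, IsOpen D ∧ Bornology.IsBounded D ∧ frontier D ⊆ Y ∧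
      ∀ u ∈ Ioo a1 a2, ∀ β : ℝ, 0 < β → β < ε → g u + β • N ∈ D := by
  have hYc : IsClosed (Φ '' Y) := (hY.image Φ.continuous).isClosed
  have hmem : ∀ z : E2, Φ z ∈ Φ '' Y ↔ z ∈ Y := fun z => Φ.injective.mem_set_image
  have hwY : w ∉ Φ '' Y := by
    rw [← hw, hmem]
    exact hst u0 hu0 _ (by positivity) (by linarith)
  refine ⟨Φ ⁻¹' (HE.Cmp (Φ '' Y) w), (HE.cmp_open hYc w).preimage Φ.continuous, ?_, ?_, ?_⟩
  · obtain ⟨R, hR⟩ := hb.subset_closedBall 0
    have h1 : IsCompact (Φ.symm '' Metric.closedBall (0 : ℂ) R) :=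
      (isCompact_closedBall (0 : ℂ) R).image Φ.symm.continuous
    refine h1.isBounded.subset ?_
    intro z hz
    exact ⟨Φ z, hR hz, Φ.symm_apply_apply z⟩
  · rw [← Φ.preimage_frontier]
    intro z hz
    exact (hmem z).1 (HE.cmp_frontier hYc hwY hz)
  · have hS : IsPreconnected ((fun x : ℝ × ℝ => Φ (g x.1 + x.2 • N)) ''
        (Ioo a1 a2 ×ˢ Ioo 0 ε)) := by
      refine (isPreconnected_Ioo.prod isPreconnected_Ioo).image _ ?_
      refine Φ.continuous.comp_continuousOn ?_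
      refine ContinuousOn.add (hgc.comp continuousOn_fst fun x hx => hx.1) ?_
      exact (continuous_snd.smul continuous_const).continuousOn
    have hd : Disjoint ((fun x : ℝ × ℝ => Φ (g x.1 + x.2 • N)) '' (Ioo a1 a2 ×ˢ Ioo 0 ε))
        (Φ '' Y) := by
      rw [disjoint_left]
      rintro _ ⟨⟨u, β⟩, ⟨hu, hβ⟩, rfl⟩ h2
      exact hst u hu β hβ.1 hβ.2 ((hmem _).1 h2)
    have h3 := HE.sub_cmp (a := w) hS hd ⟨w, ⟨(u0, ε / 2), ⟨hu0, by
      constructor
      · show 0 < ε / 2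
        positivity
      · show ε / 2 < ε
        linarith⟩, hw⟩, HE.mem_cmp hwY⟩
    intro u hu β hβ0 hβε
    exact h3 ⟨(u, β), ⟨hu, hβ0, hβε⟩, rfl⟩

theorem collar_top {Y : Set E2} (hY : IsCompact Y) {V : E2} (hV : ‖V‖ = 1) {g : ℝ → E2}
    {a1 a2 ε : ℝ} (hε : 0 < ε)
    (hg : ∀ u ∈ Icc a1 a2, ∀ v ∈ Icc a1 a2, ‖g u - g v - (u - v) • V‖ ≤ 1 / 20 * |u - v|)
    (hmem : ∀ u ∈ Icc a1 a2, g u ∈ Y)
    (hstrip : ∀ u ∈ Ioo a1 a2, ∀ β : ℝ, |β| < ε → β ≠ 0 → g u + β • nv V ∉ Y)
    {u0 : ℝ} (hu0 : u0 ∈ Ioo a1 a2) (hpre : IsPreconnected (Y \ {g u0})) :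
    ∃ D : Set E2, IsOpen D ∧ Bornology.IsBounded D ∧ frontier D ⊆ Y ∧
      ((∀ u ∈ Ioo a1 a2, ∀ β : ℝ, 0 < β → β < ε → g u + β • nv V ∈ D) ∨
        (∀ u ∈ Ioo a1 a2, ∀ β : ℝ, 0 < β → β < ε → g u - β • nv V ∈ D)) := by
  have hu0c : u0 ∈ Icc a1 a2 := Ioo_subset_Icc_self hu0
  -- continuity of the arc
  have hlip : ∀ u ∈ Icc a1 a2, ∀ v ∈ Icc a1 a2, ‖g u - g v‖ ≤ 2 * |u - v| := by
    intro u hu v hv
    have h1 := hg u hu v hv
    have h2 : g u - g v = (g u - g v - (u - v) • V) + (u - v) • V := by abel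
    have h3 : ‖(u - v) • V‖ = |u - v| := by
      rw [norm_smul, hV, mul_one, Real.norm_eq_abs]
    rw [h2]
    refine (norm_add_le _ _).trans ?_
    rw [h3]
    linarith [abs_nonneg (u - v)]
  have hgc : ContinuousOn g (Icc a1 a2) := by
    rw [Metric.continuousOn_iff]
    intro v hv δ hδ
    refine ⟨δ / 2, by positivity, fun u hu huv => ?_⟩
    rw [dist_eq_norm]
    rw [Real.dist_eq] at huv
    have := hlip u hu v hv
    linarith
  set Φ := chart hV (g u0) with hΦ
  have hmemΦ : ∀ z : E2, Φ z ∈ Φ '' Y ↔ z ∈ Y := fun z => Φ.injective.mem_set_image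
  have hΦ0 : Φ (g u0) = 0 := chart_self hV (g u0)
  -- the imaginary part along the arc
  have him : ∀ u ∈ Icc a1 a2, |(Φ (g u)).im - (u - u0)| ≤ 1 / 10 * |u - u0| := by
    intro u hu
    have h1 := hg u hu u0 hu0c
    have h2 : (Φ (g u)).im - (u - u0) = wd (g u - g u0 - (u - u0) • V) (nv V) := by
      rw [wd_sub_left, wd_smul_left, wd_nv hV, mul_one]
      rfl
    rw [h2]
    have h3 := abs_wd_nv_le hV (g u - g u0 - (u - u0) • V)
    linarith
  have hneigh : ∀ᶠ u in 𝓝 u0, u ∈ Icc a1 a2 :=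
    Filter.mem_of_superset (Ioo_mem_nhds hu0.1 hu0.2) Ioo_subset_Icc_self
  have htend : Tendsto (fun u => Φ (g u)) (𝓝 u0) (𝓝 0) := by
    have h1 : ContinuousAt g u0 := hgc.continuousAt hneigh
    have h2 : ContinuousAt (fun u => Φ (g u)) u0 := Φ.continuous.continuousAt.comp h1
    have h3 := h2.tendsto
    rw [hΦ0] at h3
    exact h3
  have h1 : ∀ t : ℝ, |t| ≤ ε / 2 → t ≠ 0 → (0 : ℂ) + t * 1 ∉ Φ '' Y := by
    intro t ht ht0
    have e : (0 : ℂ) + t * 1 = Φ (g u0 + t • nv V) := by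
      rw [hΦ, chart_nv hV (g u0) t]
      ring
    rw [e, hmemΦ]
    exact hstrip u0 hu0 t (by linarith) ht0
  have h2 : IsPreconnected (Φ '' Y \ {0}) := by
    have e : Φ '' Y \ {0} = Φ '' (Y \ {g u0}) := by
      rw [image_diff Φ.injective, image_singleton, hΦ0]
    rw [e]
    exact hpre.image _ Φ.continuous.continuousOn
  have h3 : ∃ᶠ z in 𝓝[Φ '' Y \ {0}] (0 : ℂ), 0 < ((z - 0) / 1).im := by
    have hev : ∀ᶠ u in 𝓝[>] u0, u ∈ Icc a1 a2 ∧ 0 < (Φ (g u)).im := by
      filter_upwards [nhdsWithin_le_nhds hneigh, self_mem_nhdsWithin] with u hu hu'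
      have hu'' : u0 < u := hu'
      have h5 := him u hu
      rw [abs_of_pos (show 0 < u - u0 by linarith)] at h5
      have h6 := (abs_le.1 h5).1
      exact ⟨hu, by linarith⟩
    have ht : Tendsto (fun u => Φ (g u)) (𝓝[>] u0) (𝓝[Φ '' Y \ {0}] 0) := by
      refine tendsto_nhdsWithin_iff.2 ⟨htend.mono_left nhdsWithin_le_nhds, ?_⟩
      filter_upwards [hev] with u hu
      refine ⟨(hmemΦ _).2 (hmem u hu.1), fun h0 => ?_⟩
      have h7 : Φ (g u) = 0 := h0
      have h8 := hu.2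
      rw [h7] at h8
      simp at h8
    refine ht.frequently (Filter.Eventually.frequently ?_)
    filter_upwards [hev] with u hu
    simpa using hu.2
  have h4 : ∃ᶠ z in 𝓝[Φ '' Y \ {0}] (0 : ℂ), ((z - 0) / 1).im < 0 := by
    have hev : ∀ᶠ u in 𝓝[<] u0, u ∈ Icc a1 a2 ∧ (Φ (g u)).im < 0 := by
      filter_upwards [nhdsWithin_le_nhds hneigh, self_mem_nhdsWithin] with u hu hu'
      have hu'' : u < u0 := hu'
      have h5 := him u hu
      rw [abs_of_neg (show u - u0 < 0 by linarith)] at h5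
      have h6 := (abs_le.1 h5).2
      exact ⟨hu, by linarith⟩
    have ht : Tendsto (fun u => Φ (g u)) (𝓝[<] u0) (𝓝[Φ '' Y \ {0}] 0) := by
      refine tendsto_nhdsWithin_iff.2 ⟨htend.mono_left nhdsWithin_le_nhds, ?_⟩
      filter_upwards [hev] with u hu
      refine ⟨(hmemΦ _).2 (hmem u hu.1), fun h0 => ?_⟩
      have h7 : Φ (g u) = 0 := h0
      have h8 := hu.2
      rw [h7] at h8
      simp at h8
    refine ht.frequently (Filter.Eventually.frequently ?_)
    filter_upwards [hev] with u hu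
    simpa using hu.2
  have hYΦ : IsCompact (Φ '' Y) := hY.image Φ.continuous
  have hjump := HE.jump hYΦ (q := 0) (v := 1) one_ne_zero
    (by rw [← hΦ0]; exact (hmemΦ _).2 (hmem u0 hu0c)) (show 0 < ε / 2 by positivity) h1 h2 h3 h4
  have eP : Φ (g u0 + (ε / 2) • nv V) = 0 + ((ε / 2 : ℝ) : ℂ) * 1 := by
    rw [hΦ, chart_nv hV (g u0) (ε / 2)]
    ring
  have eM : Φ (g u0 + (ε / 2) • (-nv V)) = 0 - ((ε / 2 : ℝ) : ℂ) * 1 := by
    have e : g u0 + (ε / 2) • (-nv V) = g u0 + (-(ε / 2)) • nv V := by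
      rw [smul_neg, neg_smul]
    rw [hΦ, e, chart_nv hV (g u0) (-(ε / 2))]
    push_cast
    ring
  have hstP : ∀ u ∈ Ioo a1 a2, ∀ β : ℝ, 0 < β → β < ε → g u + β • nv V ∉ Y := by
    intro u hu β hβ0 hβε
    exact hstrip u hu β (by rw [abs_of_pos hβ0]; exact hβε) hβ0.ne'
  have hstM : ∀ u ∈ Ioo a1 a2, ∀ β : ℝ, 0 < β → β < ε → g u + β • (-nv V) ∉ Y := by
    intro u hu β hβ0 hβε
    have e : g u + β • (-nv V) = g u + (-β) • nv V := by
      rw [smul_neg, neg_smul]
    rw [e]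
    exact hstrip u hu (-β) (by rw [abs_neg, abs_of_pos hβ0]; exact hβε) (neg_ne_zero.2 hβ0.ne')
  have hgo : ContinuousOn g (Ioo a1 a2) := hgc.mono Ioo_subset_Icc_self
  have hPY : (0 : ℂ) + ((ε / 2 : ℝ) : ℂ) * 1 ∉ Φ '' Y :=
    h1 (ε / 2) (by rw [abs_of_pos (by positivity)]) (by positivity)
  by_cases hb : Bornology.IsBounded (HE.Cmp (Φ '' Y) (0 + ((ε / 2 : ℝ) : ℂ) * 1))
  · obtain ⟨D, d1, d2, d3, d4⟩ := side Φ hY hε hgo hstP hu0 eP hb
    exact ⟨D, d1, d2, d3, Or.inl d4⟩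
  · have hb' : Bornology.IsBounded (HE.Cmp (Φ '' Y) (0 - ((ε / 2 : ℝ) : ℂ) * 1)) := by
      by_contra hcon
      obtain ⟨R, hR⟩ := hYΦ.isBounded.exists_norm_le
      have h5 := HE.unb_eq (R := max R 0) (le_max_right _ _)
        (fun z hz => (hR z hz).trans (le_max_left _ _)) hb hcon
      apply hjump
      rw [← h5]
      exact HE.mem_cmp hPY
    obtain ⟨D, d1, d2, d3, d4⟩ := side Φ hY hε hgo hstM hu0 eM hb'
    refine ⟨D, d1, d2, d3, Or.inr fun u hu β hβ0 hβε => ?_⟩
    have h6 := d4 u hu β hβ0 hβε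
    have e : g u + β • (-nv V) = g u - β • nv V := by
      rw [smul_neg, sub_eq_add_neg]
    rw [e] at h6
    exact h6

end Pool.Agent.HG
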