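import Pool.Agent.HG.Cm

set_option autoImplicit false

/-!
# Measurable choice of the contracted direction

The contracted direction in the half circle is unique (`uniq_dir`); its graph is a countable union of compact sets, so
the choice is measurable.
-/

namespace Pool.Agent.HG

open Pool.Agent.HD MeasureTheory Set

variable {b c : ℝ}

open Classical in
/-- the contracted direction in the half circle (`(0, 1)` if there is none) -/
noncomputable def dirp (b c : ℝ) (z : E2) : E2 :=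
  if h : ∃ V : E2, (0 < V.1 ∨ (V.1 = 0 ∧ 0 < V.2)) ∧ ∃ C : ℝ, RS b c C (z, V) then h.choose
  else (0, 1)

private theorem dp_uniq (hb0 : b ≠ 0) (hb1 : |b| < 1) {C C' : ℝ} {z V V' : E2} (h : RS b c C (z, V))
    (h' : RS b c C' (z, V')) : V' = V ∨ V' = -V := by
  have h1 := dl_pos hb0 hb1
  have h2 := dl_le hb0 hb1
  refine uniq_dir (a := 1) (c := c) (p := z) hb0 h.unit h'.unit (C := C) (C' := C')
    (r := el b - 3 * dl b) (r' := el b - 3 * dl b) h.con h'.con ?_
  have h3 : Real.log |b| = -el b := by unfold el; ring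
  rw [h3]
  linarith

private theorem dp_eq (hb0 : b ≠ 0) (hb1 : |b| < 1) {C : ℝ} {z V : E2} (hH : 0 < V.1 ∨ (V.1 = 0 ∧ 0 < V.2))
    (h : RS b c C (z, V)) : dirp b c z = V := by
  have hex : ∃ V : E2, (0 < V.1 ∨ (V.1 = 0 ∧ 0 < V.2)) ∧ ∃ C : ℝ, RS b c C (z, V) := ⟨V, hH, C, h⟩
  unfold dirp
  rw [dif_pos hex]
  obtain ⟨h1, C', h2⟩ := hex.choose_spec
  rcases dp_uniq hb0 hb1 h h2 with h3 | h3
  · exact h3
  · exfalso
    rw [h3] at h1
    simp only [Prod.fst_neg, Prod.snd_neg] at h1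
    rcases h1 with h1 | h1 <;> rcases hH with hH | hH
    · linarith
    · linarith [hH.1]
    · linarith [h1.1]
    · linarith [h1.2, hH.2]

theorem dirp_norm (z : E2) : ‖dirp b c z‖ = 1 := by
  unfold dirp
  split_ifs with h
  · obtain ⟨-, C, h2⟩ := h.choose_spec
    exact h2.unit
  · simp [Prod.norm_def]

private theorem dp_half {V : E2} (hV : ‖V‖ = 1) :
    (0 < V.1 ∨ (V.1 = 0 ∧ 0 < V.2)) ∨ (0 < (-V).1 ∨ ((-V).1 = 0 ∧ 0 < (-V).2)) := by
  rcases lt_trichotomy V.1 0 with h | h | h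
  · right; left; simpa using h
  · rcases lt_trichotomy V.2 0 with h' | h' | h'
    · right; right; exact ⟨by simpa using h, by simpa using h'⟩
    · exfalso
      have : V = 0 := Prod.ext h h'
      rw [this, norm_zero] at hV
      exact zero_ne_one hV
    · left; right; exact ⟨h, h'⟩
  · left; left; exact h

theorem dirp_spec (hb0 : b ≠ 0) (hb1 : |b| < 1) {C : ℝ} {z V : E2} (h : RS b c C (z, V)) :
    V = dirp b c z ∨ V = -dirp b c z := by
  rcases dp_half h.unit with h1 | h1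
  · left; exact (dp_eq hb0 hb1 h1 h).symm
  · right
    have h2 : RS b c C (z, -V) := Reg.neg h
    rw [dp_eq hb0 hb1 h1 h2, neg_neg]

/-- compact pieces of the graph. -/
private def dp_P (b c : ℝ) (n m : ℕ) : Set (E2 × E2) :=
  {x | RS b c n x} ∩ {x | 1 / ((m : ℝ) + 1) ≤ x.2.1 ∨ (x.2.1 = 0 ∧ 0 ≤ x.2.2)}

private theorem dp_compact (b c : ℝ) (n m : ℕ) : IsCompact (dp_P b c n m) := by
  refine (rs_compact b c n).inter_right ?_
  refine IsClosed.union ?_ (IsClosed.inter ?_ ?_)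
  · exact isClosed_le continuous_const (continuous_fst.comp continuous_snd)
  · exact isClosed_eq (continuous_fst.comp continuous_snd) continuous_const
  · exact isClosed_le continuous_const (continuous_snd.comp continuous_snd)

private theorem dp_mem {n m : ℕ} {x : E2 × E2} (h : x ∈ dp_P b c n m) :
    (0 < x.2.1 ∨ (x.2.1 = 0 ∧ 0 < x.2.2)) ∧ RS b c n x := by
  obtain ⟨h1, h2⟩ := h
  refine ⟨?_, h1⟩
  rcases h2 with h2 | ⟨h2, h3⟩
  · left
    have : (0 : ℝ) < 1 / ((m : ℝ) + 1) := by positivity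
    linarith
  · right
    refine ⟨h2, lt_of_le_of_ne h3 fun h4 => ?_⟩
    have h5 : ‖x.2‖ = 1 := Reg.unit h1
    have h6 : x.2 = 0 := Prod.ext h2 h4.symm
    rw [h6, norm_zero] at h5
    exact zero_ne_one h5

private theorem dp_ex {C : ℝ} {z V : E2} (hH : 0 < V.1 ∨ (V.1 = 0 ∧ 0 < V.2)) (h : RS b c C (z, V)) :
    ∃ n m : ℕ, (z, V) ∈ dp_P b c n m := by
  obtain ⟨n, hn⟩ := exists_nat_ge C
  have h1 : RS b c n (z, V) := Reg.mono h hn le_rfl
  rcases hH with hH | hH
  · obtain ⟨m, hm⟩ := exists_nat_one_div_lt hH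
    exact ⟨n, m, h1, Or.inl hm.le⟩
  · exact ⟨n, 0, h1, Or.inr ⟨hH.1, hH.2.le⟩⟩

theorem dirp_meas (hb0 : b ≠ 0) (hb1 : |b| < 1) : Measurable (dirp b c) := by
  classical
  refine measurable_of_isClosed fun S hS => ?_
  have hset : dirp b c ⁻¹' S = (⋃ n : ℕ, ⋃ m : ℕ, Prod.fst '' (dp_P b c n m ∩ Prod.snd ⁻¹' S)) ∪
      (if ((0, 1) : E2) ∈ S then (⋃ n : ℕ, ⋃ m : ℕ, Prod.fst '' (dp_P b c n m))ᶜ else ∅) := by
    ext z
    by_cases hex : ∃ V : E2, (0 < V.1 ∨ (V.1 = 0 ∧ 0 < V.2)) ∧ ∃ C : ℝ, RS b c C (z, V)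
    · obtain ⟨V, hH, C, hC⟩ := hex
      have hd := dp_eq hb0 hb1 hH hC
      obtain ⟨n, m, hnm⟩ := dp_ex hH hC
      constructor
      · intro hz
        left
        rw [mem_preimage, hd] at hz
        exact mem_iUnion.2 ⟨n, mem_iUnion.2 ⟨m, ⟨(z, V), ⟨hnm, hz⟩, rfl⟩⟩⟩
      · rintro (hz | hz)
        · obtain ⟨n', hz⟩ := mem_iUnion.1 hz
          obtain ⟨m', hz⟩ := mem_iUnion.1 hz
          obtain ⟨⟨z', V'⟩, ⟨h1, h2⟩, h3⟩ := hz
          have h3' : z' = z := h3
          subst h3'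
          obtain ⟨h4, h5⟩ := dp_mem h1
          rw [mem_preimage, dp_eq hb0 hb1 h4 h5]
          exact h2
        · exfalso
          split_ifs at hz with h0
          · exact hz (mem_iUnion.2 ⟨n, mem_iUnion.2 ⟨m, ⟨(z, V), hnm, rfl⟩⟩⟩)
          · exact hz
    · have hd : dirp b c z = (0, 1) := by unfold dirp; rw [dif_neg hex]
      have hno : z ∉ ⋃ n : ℕ, ⋃ m : ℕ, Prod.fst '' (dp_P b c n m) := by
        intro hz
        obtain ⟨n', hz⟩ := mem_iUnion.1 hz
        obtain ⟨m', hz⟩ := mem_iUnion.1 hz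
        obtain ⟨⟨z', V'⟩, h1, h3⟩ := hz
        have h3' : z' = z := h3
        subst h3'
        obtain ⟨h4, h5⟩ := dp_mem h1
        exact hex ⟨V', h4, n', h5⟩
      constructor
      · intro hz
        right
        rw [mem_preimage, hd] at hz
        rw [if_pos hz]
        exact hno
      · rintro (hz | hz)
        · exfalso
          apply hno
          obtain ⟨n', hz⟩ := mem_iUnion.1 hz
          obtain ⟨m', hz⟩ := mem_iUnion.1 hz
          obtain ⟨x, ⟨h1, h2⟩, h3⟩ := hz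
          exact mem_iUnion.2 ⟨n', mem_iUnion.2 ⟨m', ⟨x, h1, h3⟩⟩⟩
        · split_ifs at hz with h0
          · rw [mem_preimage, hd]; exact h0
          · exact hz.elim
  rw [hset]
  have hm1 : MeasurableSet (⋃ n : ℕ, ⋃ m : ℕ, Prod.fst '' (dp_P b c n m ∩ Prod.snd ⁻¹' S)) := by
    refine MeasurableSet.iUnion fun n => MeasurableSet.iUnion fun m => ?_
    exact (((dp_compact b c n m).inter_right (hS.preimage continuous_snd)).image continuous_fst).measurableSet
  have hm2 : MeasurableSet (⋃ n : ℕ, ⋃ m : ℕ, Prod.fst '' (dp_P b c n m)) := by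
    refine MeasurableSet.iUnion fun n => MeasurableSet.iUnion fun m => ?_
    exact ((dp_compact b c n m).image continuous_fst).measurableSet
  refine hm1.union ?_
  split_ifs
  · exact hm2.compl
  · exact MeasurableSet.empty

end Pool.Agent.HG
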