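import Pool.Agent.HG.Em

set_option autoImplicit false

/-!
# Existence of ergodic measures in compact sets of measures which are closed under conditioning

Plan. `C(Y, ℝ)` is separable (`Y` compact metrizable): let `g i` be a dense sequence, `J ν = ∑' i, 2⁻ⁱ (∫ g i dν)² / (1 + ‖g i‖)²`, a continuous
function of `ν : ProbabilityMeasure Y` (uniform convergence, `ProbabilityMeasure.continuous_integral_boundedContinuousFunction`-type lemma). The
space `ProbabilityMeasure Y` is compact (Mathlib/MeasureTheory/Measure/Prokhorov.lean), so `J` has a maximum on `LL` at some `ν`. If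
`ν` is not ergodic, there is a measurable `E` with `T ⁻¹' E = E`, `ν E ≠ 0`, `ν Eᶜ ≠ 0`; `ν' = cond ν E` and `ν'' = cond ν Eᶜ` are in `LL`,
`ν = t ν' + (1 - t) ν''` with `t = ν E ∈ (0, 1)`, and for `a = ∫ g dν'`, `b = ∫ g dν''`: `(t a + (1-t) b)² = t a² + (1-t) b² - t (1-t) (a-b)²`. So
`J ν = t J ν' + (1-t) J ν'' - t (1-t) ∑ 2⁻ⁱ (a_i - b_i)² / (1 + ‖g i‖)² ≤ J ν - ...`, hence all `∫ g i dν' = ∫ g i dν''`, by density for all
continuous functions, hence `ν' = ν''` (`ext_of_forall_integral_eq_of_IsFiniteMeasure`), but `ν' E = 1`, `ν'' E = 0`.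
`Ergodic` from `PreErgodic`: for measurable `E` with `T ⁻¹' E = E`.
-/

namespace Pool.Agent.HG

open MeasureTheory


private theorem int_bdd {Y : Type*} [TopologicalSpace Y] [CompactSpace Y]
    [MeasurableSpace Y] [BorelSpace Y] (μ : Measure Y) [IsProbabilityMeasure μ] (f : C(Y, ℝ)) :
    |∫ y, f y ∂μ| ≤ ‖f‖ := by
  have h := norm_integral_le_of_norm_le_const (μ := μ) (f := fun y => f y) (C := ‖f‖)
    (Filter.Eventually.of_forall fun y => f.norm_coe_le_norm y)
  simpa using h

private theorem int_integrable {Y : Type*} [TopologicalSpace Y] [CompactSpace Y]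
    [MeasurableSpace Y] [BorelSpace Y] (μ : Measure Y) [IsProbabilityMeasure μ] (f : C(Y, ℝ)) :
    Integrable (fun y => f y) μ := by
  refine Integrable.of_bound (C := ‖f‖) ?_ (Filter.Eventually.of_forall fun y => f.norm_coe_le_norm y)
  exact f.continuous.measurable.aestronglyMeasurable

private noncomputable def tm {Y : Type*} [TopologicalSpace Y] [CompactSpace Y]
    [MeasurableSpace Y] (g : ℕ → C(Y, ℝ)) (μ : Measure Y) (i : ℕ) : ℝ :=
  (1 / 2 : ℝ) ^ i * ((∫ y, g i y ∂μ) / (1 + ‖g i‖)) ^ 2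

private theorem tm_bd {Y : Type*} [TopologicalSpace Y] [CompactSpace Y]
    [MeasurableSpace Y] [BorelSpace Y] (g : ℕ → C(Y, ℝ)) (μ : Measure Y) [IsProbabilityMeasure μ]
    (i : ℕ) : ‖tm g μ i‖ ≤ (1 / 2 : ℝ) ^ i := by
  unfold tm
  have h := int_bdd μ (g i)
  have h0 : 0 ≤ ‖g i‖ := norm_nonneg _
  rw [Real.norm_of_nonneg (by positivity)]
  have h1 : |(∫ y, g i y ∂μ) / (1 + ‖g i‖)| ≤ 1 := by
    rw [abs_div, abs_of_pos (show (0 : ℝ) < 1 + ‖g i‖ by positivity), div_le_one (by positivity)]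
    linarith
  have h2 : ((∫ y, g i y ∂μ) / (1 + ‖g i‖)) ^ 2 ≤ 1 := by
    rw [sq_le_one_iff_abs_le_one]; exact h1
  have h3 : (0:ℝ) ≤ (1 / 2) ^ i := by positivity
  nlinarith

private theorem tm_sum {Y : Type*} [TopologicalSpace Y] [CompactSpace Y]
    [MeasurableSpace Y] [BorelSpace Y] (g : ℕ → C(Y, ℝ)) (μ : Measure Y)
    [IsProbabilityMeasure μ] : Summable (tm g μ) :=
  Summable.of_norm_bounded (summable_geometric_two) (tm_bd g μ)

private theorem sep {Y : Type*} [TopologicalSpace Y] [CompactSpace Y]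
    [TopologicalSpace.MetrizableSpace Y] [MeasurableSpace Y] [BorelSpace Y]
    {μ ν : Measure Y} [IsProbabilityMeasure μ] [IsProbabilityMeasure ν] {g : ℕ → C(Y, ℝ)}
    (hg : DenseRange g) (h : ∀ i, ∫ y, g i y ∂μ = ∫ y, g i y ∂ν) : μ = ν := by
  have hcont : ∀ (ρ : Measure Y) [IsProbabilityMeasure ρ],
      Continuous (fun f : C(Y, ℝ) => ∫ y, f y ∂ρ) := by
    intro ρ _
    have : LipschitzWith 1 (fun f : C(Y, ℝ) => ∫ y, f y ∂ρ) := by
      refine LipschitzWith.of_dist_le_mul fun f f' => ?_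
      rw [dist_eq_norm, dist_eq_norm, ← integral_sub (int_integrable ρ f) (int_integrable ρ f')]
      have := int_bdd ρ (f - f')
      simpa using this
    exact this.continuous
  have h2 : (fun f : C(Y, ℝ) => ∫ y, f y ∂μ) = fun f : C(Y, ℝ) => ∫ y, f y ∂ν :=
    hg.equalizer (hcont μ) (hcont ν) (funext h)
  apply ext_of_forall_integral_eq_of_IsFiniteMeasure
  intro f
  exact congrFun h2 f.toContinuousMap

theorem exists_ergodic {Y : Type*} [TopologicalSpace Y] [CompactSpace Y]
    [TopologicalSpace.MetrizableSpace Y] [MeasurableSpace Y] [BorelSpace Y] {T : Y → Y}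
    {LL : Set (ProbabilityMeasure Y)} (hne : LL.Nonempty) (hcl : IsClosed LL)
    (hinv : ∀ ν ∈ LL, MeasurePreserving T (ν : Measure Y) (ν : Measure Y))
    (hcond : ∀ ν ∈ LL, ∀ E : Set Y, MeasurableSet E → T ⁻¹' E = E → (ν : Measure Y) E ≠ 0 →
      ∃ ν' ∈ LL, (ν' : Measure Y) = ProbabilityTheory.cond (ν : Measure Y) E) :
    ∃ ν ∈ LL, Ergodic T (ν : Measure Y) := by
  let _ : MetricSpace Y := TopologicalSpace.metrizableSpaceMetric Y
  let g : ℕ → C(Y, ℝ) := TopologicalSpace.denseSeq C(Y, ℝ)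
  have hg : DenseRange g := TopologicalSpace.denseRange_denseSeq _
  have hJ : Continuous (fun ν : ProbabilityMeasure Y => ∑' i, tm g (ν : Measure Y) i) := by
    refine continuous_tsum (u := fun i => (1 / 2 : ℝ) ^ i) (fun i => ?_) summable_geometric_two
      (fun i ν => tm_bd g _ i)
    unfold tm
    have : Continuous (fun ν : ProbabilityMeasure Y => ∫ y, g i y ∂(ν : Measure Y)) :=
      ProbabilityMeasure.continuous_integral_boundedContinuousFunction
        (BoundedContinuousFunction.mkOfCompact (g i))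
    fun_prop
  obtain ⟨ν, hν, hmax⟩ := hcl.isCompact.exists_isMaxOn hne hJ.continuousOn
  refine ⟨ν, hν, hinv ν hν, ⟨fun E hE hTE => ?_⟩⟩
  rw [Filter.eventuallyConst_set']
  by_contra hcon
  push Not at hcon
  have h1 : (ν : Measure Y) E ≠ 0 := fun h => hcon.1 (ae_eq_empty.2 h)
  have h2 : (ν : Measure Y) Eᶜ ≠ 0 := fun h => hcon.2 (ae_eq_univ.2 h)
  obtain ⟨ν', hν', e'⟩ := hcond ν hν E hE hTE h1
  obtain ⟨ν'', hν'', e''⟩ := hcond ν hν Eᶜ hE.compl (by rw [Set.preimage_compl, hTE]) h2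
  set t : ℝ := (ν : Measure Y).real E with ht
  have ht0 : 0 < t := by
    rw [ht, Measure.real]
    exact ENNReal.toReal_pos h1 (measure_ne_top _ _)
  have ht1 : (ν : Measure Y).real Eᶜ = 1 - t := by
    rw [probReal_compl_eq_one_sub hE]
  have ht2 : 0 < 1 - t := by
    rw [← ht1, Measure.real]
    exact ENNReal.toReal_pos h2 (measure_ne_top _ _)
  have hsplit : ∀ f : C(Y, ℝ), ∫ y, f y ∂(ν : Measure Y) =
      t * ∫ y, f y ∂(ν' : Measure Y) + (1 - t) * ∫ y, f y ∂(ν'' : Measure Y) := by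
    intro f
    rw [← integral_add_compl hE (int_integrable (ν : Measure Y) f), e', e'',
      ProbabilityTheory.cond, ProbabilityTheory.cond, integral_smul_measure,
      integral_smul_measure, ENNReal.toReal_inv, ENNReal.toReal_inv]
    change _ = t * ((t)⁻¹ • _) + (1 - t) * (((ν : Measure Y).real Eᶜ)⁻¹ • _)
    rw [ht1, smul_eq_mul, smul_eq_mul, mul_inv_cancel_left₀ ht0.ne', mul_inv_cancel_left₀ ht2.ne']
  let D : ℕ → ℝ := fun i => (1 / 2 : ℝ) ^ i *
    ((∫ y, g i y ∂(ν' : Measure Y)) / (1 + ‖g i‖) -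
      (∫ y, g i y ∂(ν'' : Measure Y)) / (1 + ‖g i‖)) ^ 2
  have hid : ∀ i, t * (1 - t) * D i = t * tm g (ν' : Measure Y) i +
      (1 - t) * tm g (ν'' : Measure Y) i - tm g (ν : Measure Y) i := by
    intro i
    simp only [D, tm]
    rw [hsplit (g i), add_div, mul_div_assoc, mul_div_assoc]
    ring
  have s0 := tm_sum g (ν : Measure Y)
  have s1 := tm_sum g (ν' : Measure Y)
  have s2 := tm_sum g (ν'' : Measure Y)
  have hsum : HasSum (fun i => t * (1 - t) * D i)
      (t * (∑' i, tm g (ν' : Measure Y) i) + (1 - t) * (∑' i, tm g (ν'' : Measure Y) i) -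
        ∑' i, tm g (ν : Measure Y) i) := by
    simp only [hid]
    exact ((s1.hasSum.mul_left t).add (s2.hasSum.mul_left (1 - t))).sub s0.hasSum
  have m1 := hmax hν'
  have m2 := hmax hν''
  simp only [Set.mem_ofPred_eq] at m1 m2
  have hle : (t * (∑' i, tm g (ν' : Measure Y) i) + (1 - t) * (∑' i, tm g (ν'' : Measure Y) i) -
        ∑' i, tm g (ν : Measure Y) i) ≤ 0 := by
    nlinarith
  have hD0 : ∀ i, 0 ≤ t * (1 - t) * D i := fun i => by
    have : 0 ≤ D i := by simp only [D]; positivity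
    positivity
  have hall : ∀ i, t * (1 - t) * D i = 0 := by
    intro i
    have h3 := le_hasSum hsum i (fun j _ => hD0 j)
    exact le_antisymm (h3.trans hle) (hD0 i)
  have hab : ∀ i, ∫ y, g i y ∂(ν' : Measure Y) = ∫ y, g i y ∂(ν'' : Measure Y) := by
    intro i
    have h3 := hall i
    have h4 : D i = 0 := by
      rcases mul_eq_zero.1 h3 with h | h
      · exact absurd h (mul_pos ht0 ht2).ne'
      · exact h
    simp only [D] at h4
    have h5 : ((∫ y, g i y ∂(ν' : Measure Y)) / (1 + ‖g i‖) -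
      (∫ y, g i y ∂(ν'' : Measure Y)) / (1 + ‖g i‖)) ^ 2 = 0 := by
      rcases mul_eq_zero.1 h4 with h | h
      · exact absurd h (by positivity)
      · exact h
    have h6 := sub_eq_zero.1 (pow_eq_zero_iff (two_ne_zero) |>.1 h5)
    have h7 : (1 + ‖g i‖) ≠ 0 := by positivity
    field_simp at h6
    exact h6
  have heq : (ν' : Measure Y) = (ν'' : Measure Y) := sep hg hab
  have hE1 : (ν' : Measure Y) E = 1 := by
    rw [e']
    rw [ProbabilityTheory.cond_apply hE, Set.inter_self]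
    exact ENNReal.inv_mul_cancel h1 (measure_ne_top _ _)
  have hE2 : (ν'' : Measure Y) E = 0 := by
    rw [e'', ProbabilityTheory.cond_apply hE.compl]
    simp
  rw [heq, hE2] at hE1
  exact zero_ne_one hE1

end Pool.Agent.HG
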