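import Mathlib

set_option autoImplicit false

/-!
# Factors of ergodic systems; invariant measures absolutely continuous to an ergodic one

A factor of an ergodic system is ergodic; an invariant probability measure absolutely continuous with respect to an
ergodic one is equal to it; conditioning on an invariant set preserves invariance.
-/

namespace Pool.Agent.HG

open MeasureTheory

theorem ergodic_map {X Y : Type*} [MeasurableSpace X] [MeasurableSpace Y] {T : Y → Y} {S : X → X}
    {π : Y → X} (hπ : Measurable π) (hS : Measurable S) (hc : ∀ y, π (T y) = S (π y))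
    {ν : Measure Y} (h : Ergodic T ν) : Ergodic S (ν.map π) :=
  (hπ.measurePreserving ν).ergodic_of_ergodic_semiconj h hS hc

theorem eq_of_ac {X : Type*} [MeasurableSpace X] {T : X → X} {μ ν : Measure X}
    [IsProbabilityMeasure μ] [IsProbabilityMeasure ν] (hμ : Ergodic T μ)
    (hν : MeasurePreserving T ν ν) (h : ν ≪ μ) : ν = μ :=
  hμ.eq_of_absolutelyContinuous hν h

theorem cond_inv {X : Type*} [MeasurableSpace X] {T : X → X} {ν : Measure X}
    [IsProbabilityMeasure ν] (hν : MeasurePreserving T ν ν) {E : Set X} (hE : MeasurableSet E)
    (hT : T ⁻¹' E = E) (h0 : ν E ≠ 0) :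
    IsProbabilityMeasure (ProbabilityTheory.cond ν E) ∧
      MeasurePreserving T (ProbabilityTheory.cond ν E) (ProbabilityTheory.cond ν E) ∧
      ProbabilityTheory.cond ν E ≪ ν := by
  refine ⟨ProbabilityTheory.cond_isProbabilityMeasure h0, ?_, ProbabilityTheory.cond_absolutelyContinuous⟩
  have h1 : MeasurePreserving T (ν.restrict E) (ν.restrict E) := by
    have h2 := hν.restrict_preimage hE
    rw [hT] at h2
    exact h2
  exact h1.smul_measure _

end Pool.Agent.HG
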