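import Pool.Agent.HG.Lm

set_option autoImplicit false

/-!
# Measurability of the limit set

For good states the distance of a point to the limit set of the branch is expressed by countable
infima and suprema of the distances to the points of the curve with rational parameters
(`lg_meas`). `meas_sub`: for a measurable family of closed sets `B ω` the set of the pairs
`(ω, s)` such that `s` is regular and the branch of `s` is in `B ω` is measurable.
-/

namespace Pool.Agent.HG

open Pool.Agent.HD MeasureTheory Set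

variable {b c : ℝ}

open Classical in
/-- the limit set of the branch, for good states, empty otherwise -/
noncomputable def LG (b c : ℝ) (s : E2 × E2) : Set E2 := if s ∈ GS b c then Lim b c s else ∅

private theorem im_lt_iff (hb0 : b ≠ 0) (hb1 : |b| < 1) (a : E2) {s : E2 × E2}
    (hs : s ∈ GS b c) (r : ℝ) :
    Metric.infDist a (Lim b c s) < r ↔
      ∃ r' : ℚ, (r' : ℝ) < r ∧ ∀ T : ℕ, ∃ t : ℚ, (T : ℝ) ≤ t ∧ dist (cuf b c s t) a < r' := by
  obtain ⟨hne, hcomp, hsub⟩ := lim_compact hb0 hb1 hs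
  obtain ⟨hs1, ⟨C, hC⟩, hs3⟩ := hs
  obtain ⟨hcont, -, -⟩ := cuf_curve hb0 hb1 hC
  have hbr := brn_eq hb0 hb1 hC
  constructor
  · intro h
    obtain ⟨z, hz, hza⟩ := (Metric.infDist_lt_iff hne).1 h
    obtain ⟨r', h1, h2⟩ := exists_rat_btwn hza
    refine ⟨r', h2, fun T => ?_⟩
    obtain ⟨t, q, ht, hq, hqz⟩ := hz ((T : ℝ) + 1) ((r' : ℝ) - dist a z) (by linarith)
    have hq' := cuf_eq hb0 hb1 hC hq
    have hd : dist (cuf b c s t) a < r' := by
      rw [← hq']
      have h3 : dist q z < (r' : ℝ) - dist a z := by rw [dist_eq_norm]; exact hqz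
      have h4 := dist_triangle q z a
      rw [dist_comm z a] at h4
      linarith
    have hopen : IsOpen {u : ℝ | dist (cuf b c s u) a < r'} :=
      isOpen_lt (hcont.dist continuous_const) continuous_const
    obtain ⟨ε, hε, hball⟩ := Metric.isOpen_iff.1 hopen t hd
    obtain ⟨u, hu1, hu2⟩ := exists_rat_btwn (show t < t + ε by linarith)
    refine ⟨u, by linarith, ?_⟩
    have : (u : ℝ) ∈ Metric.ball t ε := by
      rw [Metric.mem_ball, Real.dist_eq, abs_of_pos (by linarith)]
      linarith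
    exact hball this
  · rintro ⟨r', hr', h⟩
    choose t ht1 ht2 using h
    have hmem : ∀ T : ℕ, cuf b c s (t T : ℝ) ∈ KK b c := by
      intro T
      apply hs3
      rw [hbr]
      exact ⟨t T, le_trans (Nat.cast_nonneg T) (ht1 T), rfl⟩
    obtain ⟨z, -, φ, hφ, hlim⟩ := (kk_compact b c).tendsto_subseq hmem
    have hz : z ∈ Lim b c s := by
      intro T ε hε
      have h1 := (Metric.tendsto_atTop.1 hlim) ε hε
      obtain ⟨N, hN⟩ := h1
      obtain ⟨M, hM⟩ := exists_nat_ge T
      refine ⟨t (φ (max N M)), cuf b c s (t (φ (max N M))), ?_, cuf_spec hb0 hb1 hC _, ?_⟩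
      · have h2 : (φ (max N M) : ℝ) ≤ t (φ (max N M)) := ht1 _
        have h3 : M ≤ φ (max N M) := le_trans (le_max_right N M) (hφ.id_le _)
        have h4 : (M : ℝ) ≤ (φ (max N M) : ℝ) := by exact_mod_cast h3
        linarith
      · have := hN (max N M) (le_max_left _ _)
        rw [dist_eq_norm] at this
        exact this
    have hd : dist z a ≤ r' := by
      have h1 : Filter.Tendsto (fun n => dist (cuf b c s (t (φ n) : ℝ)) a) Filter.atTop
          (nhds (dist z a)) := Filter.Tendsto.dist hlim tendsto_const_nhds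
      exact le_of_tendsto h1 (Filter.Eventually.of_forall fun n => (ht2 (φ n)).le)
    have h5 := Metric.infDist_le_dist_of_mem (x := a) hz
    rw [dist_comm] at h5
    linarith

theorem lg_meas (hb0 : b ≠ 0) (hb1 : |b| < 1) (a : E2) :
    Measurable fun s : E2 × E2 => Metric.infDist a (LG b c s) := by
  refine measurable_of_Iio fun r => ?_
  have hset : (fun s : E2 × E2 => Metric.infDist a (LG b c s)) ⁻¹' Iio r =
      (GS b c ∩ ⋃ r' : ℚ, ⋃ (_ : (r' : ℝ) < r), ⋂ T : ℕ, ⋃ t : ℚ, ⋃ (_ : (T : ℝ) ≤ t),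
        {s : E2 × E2 | dist (cuf b c s t) a < r'}) ∪ ((GS b c)ᶜ ∩ {_s : E2 × E2 | 0 < r}) := by
    ext s
    by_cases hs : s ∈ GS b c
    · have h1 : LG b c s = Lim b c s := by unfold LG; rw [if_pos hs]
      rw [mem_preimage, mem_Iio, h1, im_lt_iff hb0 hb1 a hs r]
      simp only [mem_union, mem_inter_iff, hs, true_and, mem_iUnion, mem_iInter, mem_compl_iff,
        not_true_eq_false, false_and, or_false, exists_prop]
      rfl
    · have h1 : LG b c s = ∅ := by unfold LG; rw [if_neg hs]
      rw [mem_preimage, mem_Iio, h1, Metric.infDist_empty]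
      simp only [mem_union, mem_inter_iff, hs, false_and, mem_compl_iff,
        not_false_eq_true, true_and, false_or]
      rfl
  rw [hset]
  refine MeasurableSet.union ((gs_meas hb0 hb1).inter ?_)
    ((gs_meas hb0 hb1).compl.inter (MeasurableSet.const _))
  refine MeasurableSet.iUnion fun r' => MeasurableSet.iUnion fun _ =>
    MeasurableSet.iInter fun T => MeasurableSet.iUnion fun t => MeasurableSet.iUnion fun _ => ?_
  exact measurableSet_lt ((cuf_meas hb0 hb1 (t : ℝ)).dist measurable_const) measurable_const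

theorem meas_sub (hb0 : b ≠ 0) (hb1 : |b| < 1) {Ω : Type*} [MeasurableSpace Ω] {B : Ω → Set E2}
    (hB : ∀ ω, IsClosed (B ω)) (hne : MeasurableSet {ω | (B ω).Nonempty})
    (hm : ∀ a : E2, Measurable fun ω => Metric.infDist a (B ω)) :
    MeasurableSet {x : Ω × (E2 × E2) | (∃ C : ℝ, RS b c C x.2) ∧ Brn b c x.2 ⊆ B x.1} := by
  have hset : {x : Ω × (E2 × E2) | (∃ C : ℝ, RS b c C x.2) ∧ Brn b c x.2 ⊆ B x.1} =
      (Prod.snd ⁻¹' {s : E2 × E2 | ∃ C : ℝ, RS b c C s}) ∩
        ((Prod.fst ⁻¹' {ω | (B ω).Nonempty}) ∩ ⋂ t : ℚ, ⋂ (_ : (0 : ℝ) ≤ t),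
          {x : Ω × (E2 × E2) | Metric.infDist (cuf b c x.2 t) (B x.1) = 0}) := by
    ext ⟨ω, s⟩
    constructor
    · rintro ⟨⟨C, hC⟩, hsub⟩
      have hmem : ∀ t : ℝ, 0 ≤ t → cuf b c s t ∈ B ω := by
        intro t ht
        apply hsub
        rw [brn_eq hb0 hb1 hC]
        exact ⟨t, ht, rfl⟩
      refine ⟨⟨C, hC⟩, ⟨_, hmem 0 le_rfl⟩, ?_⟩
      refine mem_iInter.2 fun t => mem_iInter.2 fun ht => ?_
      exact Metric.infDist_zero_of_mem (hmem t ht)
    · rintro ⟨⟨C, hC⟩, hn, hall⟩
      refine ⟨⟨C, hC⟩, ?_⟩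
      obtain ⟨hcont, -, -⟩ := cuf_curve hb0 hb1 hC
      have hrat : ∀ t : ℚ, (0 : ℝ) ≤ t → cuf b c s t ∈ B ω := by
        intro t ht
        have h1 := mem_iInter.1 (mem_iInter.1 hall t) ht
        exact ((hB ω).mem_iff_infDist_zero hn).2 h1
      show Brn b c s ⊆ B ω
      rw [brn_eq hb0 hb1 hC]
      rintro _ ⟨t, ht, rfl⟩
      by_contra hcon
      have hopen : IsOpen {u : ℝ | cuf b c s u ∈ (B ω)ᶜ} := (hB ω).isOpen_compl.preimage hcont
      obtain ⟨ε, hε, hball⟩ := Metric.isOpen_iff.1 hopen t hcon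
      obtain ⟨u, hu1, hu2⟩ := exists_rat_btwn (show t < t + ε by linarith)
      have hu : (u : ℝ) ∈ Metric.ball t ε := by
        rw [Metric.mem_ball, Real.dist_eq, abs_of_pos (by linarith)]
        linarith
      exact hball hu (hrat u (le_trans ht hu1.le))
  rw [hset]
  refine ((rs_meas b c).preimage measurable_snd).inter ((hne.preimage measurable_fst).inter
    (MeasurableSet.iInter fun t => MeasurableSet.iInter fun _ => ?_))
  have hj : Measurable (Function.uncurry fun (z : E2) (ω : Ω) => Metric.infDist z (B ω)) :=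
    measurable_uncurry_of_continuous_of_measurable
      (fun ω => Metric.continuous_infDist_pt (B ω)) hm
  have h1 : Measurable fun x : Ω × (E2 × E2) => Metric.infDist (cuf b c x.2 t) (B x.1) :=
    hj.comp (((cuf_meas hb0 hb1 (t : ℝ)).comp measurable_snd).prodMk measurable_fst)
  exact measurableSet_eq_fun h1 measurable_const

end Pool.Agent.HG
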