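import Pool.Agent.HG.Le

set_option autoImplicit false

/-!
# Ergodic lifts to random compact sets

For an equivariant family of nonempty compact sets `B ω` (not continuous in `ω`) there is an ergodic measure on the pairs
`(ω, z)`, `z ∈ B ω`, which projects to the given one: record the distances of a dense sequence to the sets `B (T^n ω)`
(a measurable factor map `Θ`), apply `ergodic_lift` to the closed set `F` of the points with at least these distances.
-/

namespace Pool.Agent.HG

open MeasureTheory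

private theorem mem_of_infDist_le {K : Type*} [MetricSpace K] {a : ℕ → K} (ha : DenseRange a) {s : Set K}
    (hs : s.Nonempty) (hc : IsClosed s) {z : K} (h : ∀ i, Metric.infDist (a i) s ≤ dist (a i) z) :
    z ∈ s := by
  rw [hc.mem_iff_infDist_zero hs]
  refine le_antisymm ?_ Metric.infDist_nonneg
  refine le_of_forall_pos_lt_add fun ε hε => ?_
  obtain ⟨i, hi⟩ := ha.exists_dist_lt z (half_pos hε)
  have h1 : Metric.infDist z s ≤ Metric.infDist (a i) s + dist z (a i) :=
    Metric.infDist_le_infDist_add_dist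
  have h2 := h i
  rw [dist_comm] at h2
  linarith

theorem random_lift {Ω : Type*} [TopologicalSpace Ω] [CompactSpace Ω]
    [TopologicalSpace.MetrizableSpace Ω] [MeasurableSpace Ω] [BorelSpace Ω] {T : Ω → Ω}
    (hT : Continuous T) {P : Measure Ω} [IsProbabilityMeasure P] (hP : Ergodic T P) {K : Type*}
    [MetricSpace K] [CompactSpace K] [MeasurableSpace K] [BorelSpace K] {f : K → K}
    (hf : Continuous f) {B : Ω → Set K} (hBm : ∀ a : K, Measurable fun ω => Metric.infDist a (B ω))
    (hB : ∀ᵐ ω ∂P, (B ω).Nonempty ∧ IsClosed (B ω) ∧ Set.MapsTo f (B ω) (B (T ω))) :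
    ∃ ν : Measure (Ω × K), IsProbabilityMeasure ν ∧ Ergodic (Prod.map T f) ν ∧
      ν.map Prod.fst = P ∧ ∀ᵐ x ∂ν, x.2 ∈ B x.1 := by
  classical
  have hKne : Nonempty K := by
    obtain ⟨ω, h, -⟩ := hB.exists
    exact ⟨h.some⟩
  obtain ⟨a, ha⟩ := TopologicalSpace.exists_dense_seq K
  obtain ⟨D, hD⟩ : ∃ D : ℝ, D = Metric.diam (Set.univ : Set K) := ⟨_, rfl⟩
  have hdist : ∀ x y : K, dist x y ≤ D := fun x y => by
    rw [hD]
    exact Metric.dist_le_diam_of_mem isCompact_univ.isBounded (Set.mem_univ _) (Set.mem_univ _)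
  have hD0 : 0 ≤ D := by
    rw [hD]
    exact Metric.diam_nonneg
  have hinf : ∀ (x : K) (s : Set K), Metric.infDist x s ∈ Set.Icc (0 : ℝ) D := by
    intro x s
    refine ⟨Metric.infDist_nonneg, ?_⟩
    rcases s.eq_empty_or_nonempty with rfl | ⟨y, hy⟩
    · rw [Metric.infDist_empty]
      exact hD0
    · exact (Metric.infDist_le_dist_of_mem hy).trans (hdist _ _)
  -- the map `Θ`
  let Θ : Ω → Ω × (ℕ → ℕ → Set.Icc (0 : ℝ) D) := fun ω =>
    (ω, fun n i => ⟨Metric.infDist (a i) (B (T^[n] ω)), hinf _ _⟩)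
  have hΘm : Measurable Θ := by
    refine measurable_id.prodMk ?_
    refine measurable_pi_lambda _ fun n => measurable_pi_lambda _ fun i => ?_
    exact Measurable.subtype_mk ((hBm (a i)).comp (hT.measurable.iterate n))
  let S : Ω × (ℕ → ℕ → Set.Icc (0 : ℝ) D) → Ω × (ℕ → ℕ → Set.Icc (0 : ℝ) D) := fun x =>
    (T x.1, fun n i => x.2 (n + 1) i)
  have hS : Continuous S := by
    refine (hT.comp continuous_fst).prodMk ?_
    refine continuous_pi fun n => continuous_pi fun i => ?_
    exact (continuous_apply i).comp ((continuous_apply (n + 1)).comp continuous_snd)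
  have hΘS : ∀ ω, Θ (T ω) = S (Θ ω) := fun ω => rfl
  have hm : Ergodic S (P.map Θ) := ergodic_map hΘm hS.measurable hΘS hP
  have hmp : IsProbabilityMeasure (P.map Θ) := Measure.isProbabilityMeasure_map hΘm.aemeasurable
  -- the closed set `F`
  let F : Set ((Ω × (ℕ → ℕ → Set.Icc (0 : ℝ) D)) × K) :=
    {y | ∀ n i, ((y.1.2 n i : Set.Icc (0 : ℝ) D) : ℝ) ≤ dist (a i) (f^[n] y.2)}
  have hF : IsClosed F := by
    have hFe : F = ⋂ n, ⋂ i, {y : (Ω × (ℕ → ℕ → Set.Icc (0 : ℝ) D)) × K |
        ((y.1.2 n i : Set.Icc (0 : ℝ) D) : ℝ) ≤ dist (a i) (f^[n] y.2)} := by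
      ext y
      simp only [F, Set.mem_iInter]
      exact Iff.rfl
    rw [hFe]
    refine isClosed_iInter fun n => isClosed_iInter fun i => isClosed_le ?_ ?_
    · exact continuous_subtype_val.comp ((continuous_apply i).comp ((continuous_apply n).comp
        (continuous_snd.comp continuous_fst)))
    · exact continuous_const.dist ((hf.iterate n).comp continuous_snd)
  have hTF : Set.MapsTo (Prod.map S f) F F := by
    intro y hy n i
    have h1 := hy (n + 1) i
    rw [Function.iterate_succ_apply] at h1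
    exact h1
  have hsur : ∀ᵐ x ∂(P.map Θ), ∃ y ∈ F, Prod.fst y = x := by
    have hmeas : MeasurableSet {x | ∃ y ∈ F, Prod.fst y = x} :=
      (hF.isCompact.image continuous_fst).isClosed.measurableSet
    rw [ae_map_iff hΘm.aemeasurable hmeas]
    have hall : ∀ᵐ ω ∂P, ∀ n, (B (T^[n] ω)).Nonempty ∧ IsClosed (B (T^[n] ω)) ∧
        Set.MapsTo f (B (T^[n] ω)) (B (T (T^[n] ω))) := by
      rw [ae_all_iff]
      intro n
      exact (hP.toMeasurePreserving.iterate n).quasiMeasurePreserving.ae hB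
    filter_upwards [hall] with ω hω
    obtain ⟨z, hz⟩ := (hω 0).1
    have hz' : ∀ n, f^[n] z ∈ B (T^[n] ω) := by
      intro n
      induction n with
      | zero => exact hz
      | succ n ih =>
        rw [Function.iterate_succ_apply', Function.iterate_succ_apply']
        exact (hω n).2.2 ih
    exact ⟨(Θ ω, z), fun n i => Metric.infDist_le_dist_of_mem (hz' n), rfl⟩
  obtain ⟨ν, hν, hνe, hνm, hνF⟩ := ergodic_lift (T := Prod.map S f) (S := S) (π := Prod.fst)
    (hS.prodMap hf) hS continuous_fst (fun y => rfl) hm hF hTF hsur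
  -- projection to `Ω × K`
  let q : (Ω × (ℕ → ℕ → Set.Icc (0 : ℝ) D)) × K → Ω × K := fun y => (y.1.1, y.2)
  have hq : Measurable q := (measurable_fst.comp measurable_fst).prodMk measurable_snd
  have hqc : ∀ y, q (Prod.map S f y) = Prod.map T f (q y) := fun y => rfl
  have hmap : (ν.map q).map Prod.fst = P := by
    rw [Measure.map_map measurable_fst hq]
    have h1 : (Prod.fst ∘ q : (Ω × (ℕ → ℕ → Set.Icc (0 : ℝ) D)) × K → Ω) = Prod.fst ∘ Prod.fst := rfl
    rw [h1, ← Measure.map_map measurable_fst measurable_fst, hνm, Measure.map_map measurable_fst hΘm]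
    have h2 : (Prod.fst ∘ Θ : Ω → Ω) = id := rfl
    rw [h2, Measure.map_id]
  refine ⟨ν.map q, Measure.isProbabilityMeasure_map hq.aemeasurable,
    ergodic_map hq (hT.measurable.prodMap hf.measurable) hqc hνe, hmap, ?_⟩
  -- the points of `B`
  have hG : MeasurableSet {x : Ω × K | ∀ i, Metric.infDist (a i) (B x.1) ≤ dist (a i) x.2} := by
    have hGe : {x : Ω × K | ∀ i, Metric.infDist (a i) (B x.1) ≤ dist (a i) x.2} =
        ⋂ i, {x : Ω × K | Metric.infDist (a i) (B x.1) ≤ dist (a i) x.2} := by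
      ext x
      rw [Set.mem_iInter]
      exact Iff.rfl
    rw [hGe]
    refine MeasurableSet.iInter fun i => measurableSet_le ((hBm (a i)).comp measurable_fst) ?_
    exact (continuous_const.dist continuous_id).measurable.comp measurable_snd
  have hH : MeasurableSet {x : Ω × (ℕ → ℕ → Set.Icc (0 : ℝ) D) |
      ∀ i, ((x.2 0 i : Set.Icc (0 : ℝ) D) : ℝ) = Metric.infDist (a i) (B x.1)} := by
    have hHe : {x : Ω × (ℕ → ℕ → Set.Icc (0 : ℝ) D) |
        ∀ i, ((x.2 0 i : Set.Icc (0 : ℝ) D) : ℝ) = Metric.infDist (a i) (B x.1)} =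
        ⋂ i, {x : Ω × (ℕ → ℕ → Set.Icc (0 : ℝ) D) |
          ((x.2 0 i : Set.Icc (0 : ℝ) D) : ℝ) = Metric.infDist (a i) (B x.1)} := by
      ext x
      rw [Set.mem_iInter]
      exact Iff.rfl
    rw [hHe]
    refine MeasurableSet.iInter fun i => measurableSet_eq_fun ?_ ((hBm (a i)).comp measurable_fst)
    exact measurable_subtype_coe.comp ((measurable_pi_apply i).comp ((measurable_pi_apply 0).comp
      measurable_snd))
  have hH' : ∀ᵐ y ∂ν, ∀ i, ((y.1.2 0 i : Set.Icc (0 : ℝ) D) : ℝ) = Metric.infDist (a i) (B y.1.1) := by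
    have h1 : ∀ᵐ x ∂(ν.map Prod.fst), ∀ i, ((x.2 0 i : Set.Icc (0 : ℝ) D) : ℝ) =
        Metric.infDist (a i) (B x.1) := by
      rw [hνm, ae_map_iff hΘm.aemeasurable hH]
      exact Filter.Eventually.of_forall fun ω i => rfl
    exact ae_of_ae_map measurable_fst.aemeasurable h1
  have hG' : ∀ᵐ x ∂(ν.map q), ∀ i, Metric.infDist (a i) (B x.1) ≤ dist (a i) x.2 := by
    rw [ae_map_iff hq.aemeasurable hG]
    have hFae : ∀ᵐ y ∂ν, y ∈ F := (mem_ae_iff_prob_eq_one hF.measurableSet).2 hνF
    filter_upwards [hFae, hH'] with y hy1 hy2 i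
    have h1 := hy1 0 i
    rw [hy2 i] at h1
    exact h1
  have hB' : ∀ᵐ x ∂(ν.map q), (B x.1).Nonempty ∧ IsClosed (B x.1) ∧
      Set.MapsTo f (B x.1) (B (T x.1)) := by
    refine ae_of_ae_map (f := Prod.fst) (p := fun ω => (B ω).Nonempty ∧ IsClosed (B ω) ∧
      Set.MapsTo f (B ω) (B (T ω))) measurable_fst.aemeasurable ?_
    rw [hmap]
    exact hB
  filter_upwards [hG', hB'] with x hx1 hx2
  exact mem_of_infDist_le ha hx2.1 hx2.2.1 hx1

end Pool.Agent.HG
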