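import Pool.Agent.HG.CDefs
import Pool.Agent.HG.Lf
import Pool.Agent.HG.Im

set_option autoImplicit false

/-!
# Lifting a chain law to a point of all limit sets

`random_lift` for the intersections of the nested limit sets.
-/

namespace Pool.Agent.HG

open Pool.Agent.HD MeasureTheory Set

variable {b c : ℝ}

/-- good sequences -/
private def Gd (b c : ℝ) (ω : ℕ → St b c) : Prop :=
  (∀ i, (ω i : E2 × E2) ∈ GS b c) ∧
    ∀ i, Lim b c (ω (i + 1) : E2 × E2) ⊆ Lim b c (ω i : E2 × E2)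

private theorem lg_eq {s : E2 × E2} (h : s ∈ GS b c) : LG b c s = Lim b c s := by
  unfold LG
  rw [if_pos h]

private theorem sub_of_infDist {a : ℕ → E2} (ha : DenseRange a) {S S' : Set E2}
    (hS : S.Nonempty) (hSc : IsClosed S)
    (h : ∀ n, Metric.infDist (a n) S ≤ Metric.infDist (a n) S') : S' ⊆ S := by
  intro z hz
  rw [hSc.mem_iff_infDist_zero hS]
  refine le_antisymm ?_ Metric.infDist_nonneg
  refine le_of_forall_pos_lt_add fun ε hε => ?_
  obtain ⟨n, hn⟩ := ha.exists_dist_lt z (half_pos hε)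
  have h1 : Metric.infDist z S ≤ Metric.infDist (a n) S + dist z (a n) :=
    Metric.infDist_le_infDist_add_dist
  have h2 := h n
  have h3 : Metric.infDist (a n) S' ≤ dist (a n) z := Metric.infDist_le_dist_of_mem hz
  rw [dist_comm] at h3
  linarith

private theorem gd_meas (hb0 : b ≠ 0) (hb1 : |b| < 1) :
    MeasurableSet {ω : ℕ → St b c | Gd b c ω} := by
  obtain ⟨a, ha⟩ := TopologicalSpace.exists_dense_seq E2
  have hset : {ω : ℕ → St b c | Gd b c ω} =
      (⋂ i : ℕ, {ω : ℕ → St b c | (ω i : E2 × E2) ∈ GS b c}) ∩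
        ⋂ i : ℕ, ⋂ n : ℕ, {ω : ℕ → St b c | Metric.infDist (a n) (LG b c (ω i : E2 × E2)) ≤
          Metric.infDist (a n) (LG b c (ω (i + 1) : E2 × E2))} := by
    ext ω
    constructor
    · rintro ⟨h1, h2⟩
      refine ⟨mem_iInter.2 h1, mem_iInter.2 fun i => mem_iInter.2 fun n => ?_⟩
      show Metric.infDist (a n) (LG b c (ω i : E2 × E2)) ≤
        Metric.infDist (a n) (LG b c (ω (i + 1) : E2 × E2))
      rw [lg_eq (h1 i), lg_eq (h1 (i + 1))]
      exact Metric.infDist_le_infDist_of_subset (h2 i) (lim_compact hb0 hb1 (h1 (i + 1))).1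
    · rintro ⟨h1, h2⟩
      have h1' := mem_iInter.1 h1
      refine ⟨h1', fun i => ?_⟩
      obtain ⟨n1, n2, -⟩ := lim_compact hb0 hb1 (h1' i)
      refine sub_of_infDist ha n1 n2.isClosed fun n => ?_
      have h3 : Metric.infDist (a n) (LG b c (ω i : E2 × E2)) ≤
        Metric.infDist (a n) (LG b c (ω (i + 1) : E2 × E2)) :=
        mem_iInter.1 (mem_iInter.1 h2 i) n
      rwa [lg_eq (h1' i), lg_eq (h1' (i + 1))] at h3
  rw [hset]
  have hm : ∀ i : ℕ, Measurable fun ω : ℕ → St b c => (ω i : E2 × E2) := fun i =>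
    measurable_subtype_coe.comp (measurable_pi_apply i)
  refine MeasurableSet.inter (MeasurableSet.iInter fun i => (gs_meas hb0 hb1).preimage (hm i))
    (MeasurableSet.iInter fun i => MeasurableSet.iInter fun n => ?_)
  exact measurableSet_le ((lg_meas hb0 hb1 (a n)).comp (hm i))
    ((lg_meas hb0 hb1 (a n)).comp (hm (i + 1)))

open Classical in
/-- the common points of the limit sets -/
private noncomputable def BB (b c : ℝ) (ω : ℕ → St b c) : Set (Kt b c) :=
  if Gd b c ω then {z | ∀ i, (z : E2) ∈ Lim b c (ω i : E2 × E2)} else ∅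

private theorem bb_eq {ω : ℕ → St b c} (h : Gd b c ω) :
    BB b c ω = {z : Kt b c | ∀ i, (z : E2) ∈ Lim b c (ω i : E2 × E2)} := by
  unfold BB
  rw [if_pos h]

/-- nested compact sets which meet a closed set -/
private theorem cantor (hb0 : b ≠ 0) (hb1 : |b| < 1) {ω : ℕ → St b c} (h : Gd b c ω)
    {F : Set E2} (hF : IsClosed F) (hne : ∀ i, (Lim b c (ω i : E2 × E2) ∩ F).Nonempty) :
    ∃ z ∈ BB b c ω, (z : E2) ∈ F := by
  have h1 : (⋂ i, Lim b c (ω i : E2 × E2) ∩ F).Nonempty := by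
    refine IsCompact.nonempty_iInter_of_sequence_nonempty_isCompact_isClosed _ (fun i => ?_) hne
      ?_ (fun i => ?_)
    · exact Set.inter_subset_inter_left _ (h.2 i)
    · exact (lim_compact hb0 hb1 (h.1 0)).2.1.inter_right hF
    · exact (lim_compact hb0 hb1 (h.1 i)).2.1.isClosed.inter hF
  obtain ⟨z, hz⟩ := h1
  rw [mem_iInter] at hz
  refine ⟨⟨z, (lim_compact hb0 hb1 (h.1 0)).2.2 (hz 0).1⟩, ?_, (hz 0).2⟩
  rw [bb_eq h]
  exact fun i => (hz i).1

private theorem bb_ne (hb0 : b ≠ 0) (hb1 : |b| < 1) {ω : ℕ → St b c} (h : Gd b c ω) :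
    (BB b c ω).Nonempty := by
  obtain ⟨z, hz, -⟩ := cantor hb0 hb1 h isClosed_univ fun i => by
    rw [Set.inter_univ]
    exact (lim_compact hb0 hb1 (h.1 i)).1
  exact ⟨z, hz⟩

private theorem bb_infDist (hb0 : b ≠ 0) (hb1 : |b| < 1) {ω : ℕ → St b c} (h : Gd b c ω)
    (a : Kt b c) : Metric.infDist a (BB b c ω) =
      ⨆ i : ℕ, Metric.infDist (a : E2) (Lim b c (ω i : E2 × E2)) := by
  have hne := bb_ne hb0 hb1 h
  have hle : ∀ i, Metric.infDist (a : E2) (Lim b c (ω i : E2 × E2)) ≤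
      Metric.infDist a (BB b c ω) := by
    intro i
    refine (Metric.le_infDist hne).2 fun z hz => ?_
    rw [bb_eq h] at hz
    exact Metric.infDist_le_dist_of_mem (hz i)
  have hbdd : BddAbove (range fun i : ℕ =>
      Metric.infDist (a : E2) (Lim b c (ω i : E2 × E2))) := by
    refine ⟨Metric.infDist a (BB b c ω), ?_⟩
    rintro _ ⟨i, rfl⟩
    exact hle i
  refine le_antisymm ?_ (ciSup_le hle)
  refine le_of_forall_gt fun r hr => ?_
  obtain ⟨r', h1, h2⟩ := exists_between hr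
  obtain ⟨z, hz, hzr⟩ := cantor hb0 hb1 h (F := Metric.closedBall (a : E2) r')
    Metric.isClosed_closedBall fun i => by
      have h3 := (le_ciSup hbdd i).trans_lt h1
      obtain ⟨y, hy, hay⟩ := (Metric.infDist_lt_iff (lim_compact hb0 hb1 (h.1 i)).1).1 h3
      refine ⟨y, hy, ?_⟩
      rw [Metric.mem_closedBall, dist_comm]
      exact hay.le
  have h4 : dist a z ≤ r' := by
    rw [Metric.mem_closedBall, dist_comm] at hzr
    exact hzr
  exact ((Metric.infDist_le_dist_of_mem hz).trans h4).trans_lt h2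

private theorem bb_meas (hb0 : b ≠ 0) (hb1 : |b| < 1) (a : Kt b c) :
    Measurable fun ω : ℕ → St b c => Metric.infDist a (BB b c ω) := by
  classical
  have hm : ∀ i : ℕ, Measurable fun ω : ℕ → St b c =>
      Metric.infDist (a : E2) (LG b c (ω i : E2 × E2)) := fun i =>
    (lg_meas hb0 hb1 (a : E2)).comp (measurable_subtype_coe.comp (measurable_pi_apply i))
  have hfun : (fun ω : ℕ → St b c => Metric.infDist a (BB b c ω)) = fun ω =>
      if Gd b c ω then ⨆ i : ℕ, Metric.infDist (a : E2) (LG b c (ω i : E2 × E2)) else 0 := by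
    funext ω
    by_cases h : Gd b c ω
    · rw [if_pos h, bb_infDist hb0 hb1 h]
      exact iSup_congr fun i => by rw [lg_eq (h.1 i)]
    · rw [if_neg h]
      unfold BB
      rw [if_neg h, Metric.infDist_empty]
  rw [hfun]
  exact Measurable.ite (gd_meas hb0 hb1) (Measurable.iSup hm) measurable_const

private theorem gd_shift (hb0 : b ≠ 0) (hb1 : |b| < 1) {ω : ℕ → St b c} (h : Gd b c ω) :
    Gd b c (TS b c ω) ∧ ∀ i, Lim b c (TS b c ω i : E2 × E2) =
      G 1 b c '' Lim b c (ω i : E2 × E2) := by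
  have hval : ∀ i, (TS b c ω i : E2 × E2) = sn b c (ω i : E2 × E2) 1 := fun i => by
    unfold TS
    rw [FS_val hb0, sn_one]
  have hlim : ∀ i, Lim b c (TS b c ω i : E2 × E2) = G 1 b c '' Lim b c (ω i : E2 × E2) := by
    intro i
    rw [hval, lim_shift hb0 hb1 (ω i).2.2 1, Function.iterate_one]
  refine ⟨⟨fun i => ?_, fun i => ?_⟩, hlim⟩
  · rw [hval, gs_shift hb0 hb1 (ω i).2.2 1]
    exact h.1 i
  · rw [hlim, hlim]
    exact Set.image_mono (h.2 i)

theorem ext_z (hb0 : b ≠ 0) (hb1 : |b| < 1) {P : Measure (ℕ → St b c)} (hP : Chain b c P) :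
    ∃ ν : Measure ((ℕ → St b c) × Kt b c), IsProbabilityMeasure ν ∧
      Ergodic (Prod.map (TS b c) (fK b c)) ν ∧ ν.map Prod.fst = P ∧
      ∀ᵐ x ∂ν, ∀ i : ℕ, x.2.1 ∈ Lim b c (x.1 i).1 := by
  have hprob := hP.prob
  have hT : Continuous (TS b c) := continuous_pi fun i =>
    (continuous_FS hb0).comp (continuous_apply i)
  have hgood : ∀ᵐ ω ∂P, Gd b c ω := by
    have h1 : ∀ᵐ ω ∂P, ∀ i, (ω i : E2 × E2) ∈ GS b c := by
      rw [ae_all_iff]
      intro i
      exact ae_of_ae_map (measurable_pi_apply i).aemeasurable (hP.bad i).gs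
    have h2 : ∀ᵐ ω ∂P, ∀ i, Lim b c (ω (i + 1)).1 ⊆ Lim b c (ω i).1 := by
      rw [ae_all_iff]
      exact hP.nest
    filter_upwards [h1, h2] with ω h3 h4
    exact ⟨h3, h4⟩
  have hB : ∀ᵐ ω ∂P, (BB b c ω).Nonempty ∧ IsClosed (BB b c ω) ∧
      MapsTo (fK b c) (BB b c ω) (BB b c (TS b c ω)) := by
    filter_upwards [hgood] with ω hω
    refine ⟨bb_ne hb0 hb1 hω, ?_, ?_⟩
    · rw [bb_eq hω]
      have h1 : {z : Kt b c | ∀ i, (z : E2) ∈ Lim b c (ω i : E2 × E2)} =
          ⋂ i, (Subtype.val : Kt b c → E2) ⁻¹' Lim b c (ω i : E2 × E2) := by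
        ext z
        rw [mem_iInter]
        exact Iff.rfl
      rw [h1]
      exact isClosed_iInter fun i =>
        (lim_compact hb0 hb1 (hω.1 i)).2.1.isClosed.preimage continuous_subtype_val
    · intro z hz
      obtain ⟨h1, h2⟩ := gd_shift hb0 hb1 hω
      rw [bb_eq hω] at hz
      rw [bb_eq h1]
      intro i
      rw [h2 i, fK_val hb0]
      exact ⟨(z : E2), hz i, rfl⟩
  obtain ⟨ν, h1, h2, h3, h4⟩ := random_lift hT hP.erg (continuous_fK hb0)
    (bb_meas hb0 hb1) hB
  refine ⟨ν, h1, h2, h3, ?_⟩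
  filter_upwards [h4] with x hx i
  by_cases hg : Gd b c x.1
  · rw [bb_eq hg] at hx
    exact hx i
  · unfold BB at hx
    rw [if_neg hg] at hx
    exact absurd hx (Set.notMem_empty _)

end Pool.Agent.HG
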