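import Pool.Agent.HD.Uq
import Pool.Agent.HD.Uni
import Pool.Agent.HD.Orb
import Pool.Agent.HG.Nv

set_option autoImplicit false

/-!
# The state at time `n`

`sn b c s n` is the state `(Gⁿ p, Vₙ / ‖Vₙ‖)`, `lam b c s n = ‖Vₙ‖`: the semigroup property, the stable curve of the state
at time `n`, bounds for `lam`, and regularity of the state at time `n`.
-/

namespace Pool.Agent.HG

open Pool.Agent.HD

variable {b c : ℝ}

private theorem fr_el (b : ℝ) (hb0 : b ≠ 0) (hb1 : |b| < 1) : 0 < el b - 3 * dl b := by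
  have h1 := el_pos hb0 hb1
  have h2 := el_eq b
  linarith

/-- finitely many times do not matter -/
private theorem fr_fin {f : ℕ → ℝ} (r K : ℝ) (n : ℕ) (hf : ∀ k, 0 ≤ f k) (hK : 0 ≤ K)
    (h : ∀ m : ℕ, f (n + m) ≤ K * Real.exp (-r * m)) :
    ∃ D : ℝ, 0 ≤ D ∧ ∀ k : ℕ, f k ≤ D * Real.exp (-r * k) := by
  have h0 : ∀ k : ℕ, 0 ≤ f k * Real.exp (r * k) := fun k => mul_nonneg (hf k) (Real.exp_pos _).le
  have h1 : 0 ≤ ∑ k ∈ Finset.range n, f k * Real.exp (r * k) := Finset.sum_nonneg fun k _ => h0 k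
  refine ⟨K * Real.exp (r * n) + ∑ k ∈ Finset.range n, f k * Real.exp (r * k),
    add_nonneg (mul_nonneg hK (Real.exp_pos _).le) h1, fun k => ?_⟩
  rcases lt_or_ge k n with hk | hk
  · have h2 : f k * Real.exp (r * k) ≤ ∑ k ∈ Finset.range n, f k * Real.exp (r * k) :=
      Finset.single_le_sum (f := fun k : ℕ => f k * Real.exp (r * k)) (fun k _ => h0 k)
        (Finset.mem_range.2 hk)
    have h3 : f k = f k * Real.exp (r * k) * Real.exp (-r * k) := by
      rw [mul_assoc, ← Real.exp_add]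
      have : r * (k : ℝ) + -r * k = 0 := by ring
      rw [this, Real.exp_zero, mul_one]
    rw [h3]
    refine mul_le_mul_of_nonneg_right ?_ (Real.exp_pos _).le
    exact h2.trans (le_add_of_nonneg_left (mul_nonneg hK (Real.exp_pos _).le))
  · obtain ⟨m, rfl⟩ := Nat.exists_eq_add_of_le hk
    refine (h m).trans ?_
    have h3 : K * Real.exp (-r * m) = K * Real.exp (r * n) * Real.exp (-r * ((n + m : ℕ) : ℝ)) := by
      rw [mul_assoc, ← Real.exp_add]
      congr 2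
      push_cast
      ring
    rw [h3]
    refine mul_le_mul_of_nonneg_right ?_ (Real.exp_pos _).le
    exact le_add_of_nonneg_right h1

theorem lam_pos (hb : b ≠ 0) {s : E2 × E2} (hs : ‖s.2‖ = 1) (n : ℕ) : 0 < lam b c s n := by
  have hd : dt (co 1 b c s.1 n) ≠ 0 := by
    rw [dt_co]
    exact pow_ne_zero n hb
  have h1 := norm_le_of_act (co 1 b c s.1 n) s.2 hd
  rw [hs] at h1
  have h2 : 0 ≤ lam b c s n := norm_nonneg _
  rcases h2.eq_or_lt with h3 | h3
  · have h4 : ‖act (co 1 b c s.1 n) s.2‖ = 0 := h3.symm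
    rw [h4, mul_zero] at h1
    linarith
  · exact h3

theorem sn_unit (hb : b ≠ 0) {s : E2 × E2} (hs : ‖s.2‖ = 1) (n : ℕ) : ‖(sn b c s n).2‖ = 1 := by
  have h1 := lam_pos (c := c) hb hs n
  show ‖(lam b c s n)⁻¹ • vn b c s n‖ = 1
  rw [norm_smul, norm_inv, Real.norm_eq_abs, abs_of_pos h1]
  exact inv_mul_cancel₀ h1.ne'

theorem sn_zero {s : E2 × E2} (hs : ‖s.2‖ = 1) : sn b c s 0 = s ∧ lam b c s 0 = 1 := by
  have h1 : vn b c s 0 = s.2 := act_one s.2
  have h2 : lam b c s 0 = 1 := by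
    show ‖vn b c s 0‖ = 1
    rw [h1, hs]
  refine ⟨?_, h2⟩
  show ((G 1 b c)^[0] s.1, (lam b c s 0)⁻¹ • vn b c s 0) = s
  rw [h1, h2, inv_one, one_smul]
  rfl

theorem vn_eq (hb : b ≠ 0) {s : E2 × E2} (hs : ‖s.2‖ = 1) (n : ℕ) :
    vn b c s n = lam b c s n • (sn b c s n).2 := by
  have h1 := lam_pos (c := c) hb hs n
  show vn b c s n = lam b c s n • ((lam b c s n)⁻¹ • vn b c s n)
  rw [smul_smul, mul_inv_cancel₀ h1.ne', one_smul]

private theorem fr_vn (s : E2 × E2) (m n : ℕ) :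
    vn b c (sn b c s m) n = (lam b c s m)⁻¹ • vn b c s (m + n) := by
  show act (co 1 b c ((G 1 b c)^[m] s.1) n) ((lam b c s m)⁻¹ • vn b c s m) =
    (lam b c s m)⁻¹ • act (co 1 b c s.1 (m + n)) s.2
  rw [act_smul, co_add, act_mm]
  rfl

private theorem fr_vn' (hb : b ≠ 0) {s : E2 × E2} (hs : ‖s.2‖ = 1) (m n : ℕ) :
    vn b c s (m + n) = lam b c s m • vn b c (sn b c s m) n := by
  rw [fr_vn, smul_smul, mul_inv_cancel₀ (lam_pos (c := c) hb hs m).ne', one_smul]

theorem sn_add (hb : b ≠ 0) {s : E2 × E2} (hs : ‖s.2‖ = 1) (m n : ℕ) :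
    sn b c (sn b c s m) n = sn b c s (m + n) ∧
      lam b c s (m + n) = lam b c s m * lam b c (sn b c s m) n := by
  have h0 := lam_pos (c := c) hb hs m
  have h1 := fr_vn (b := b) (c := c) s m n
  have h2 : lam b c (sn b c s m) n = (lam b c s m)⁻¹ * lam b c s (m + n) := by
    show ‖vn b c (sn b c s m) n‖ = _
    rw [h1, norm_smul, norm_inv, Real.norm_eq_abs, abs_of_pos h0]
    rfl
  refine ⟨?_, by rw [h2, ← mul_assoc, mul_inv_cancel₀ h0.ne', one_mul]⟩
  show ((G 1 b c)^[n] ((G 1 b c)^[m] s.1), (lam b c (sn b c s m) n)⁻¹ • vn b c (sn b c s m) n) =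
    ((G 1 b c)^[m + n] s.1, (lam b c s (m + n))⁻¹ • vn b c s (m + n))
  rw [h2, h1, smul_smul, ← Function.iterate_add_apply, Nat.add_comm n m, mul_inv, inv_inv]
  congr 2
  field_simp

private theorem fr_dev (hb : b ≠ 0) {s : E2 × E2} (hs : ‖s.2‖ = 1) (t : ℝ) (q : E2) (n m : ℕ) :
    (G 1 b c)^[m] ((G 1 b c)^[n] q) - (G 1 b c)^[m] (sn b c s n).1 -
      (lam b c s n * t) • act (co 1 b c (sn b c s n).1 m) (sn b c s n).2 =
    (G 1 b c)^[n + m] q - (G 1 b c)^[n + m] s.1 - t • act (co 1 b c s.1 (n + m)) s.2 := by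
  have h1 : act (co 1 b c s.1 (n + m)) s.2 =
      lam b c s n • act (co 1 b c (sn b c s n).1 m) (sn b c s n).2 := fr_vn' hb hs n m
  have h2 : (G 1 b c)^[m] (sn b c s n).1 = (G 1 b c)^[n + m] s.1 := by
    show (G 1 b c)^[m] ((G 1 b c)^[n] s.1) = _
    rw [← Function.iterate_add_apply, Nat.add_comm m n]
  rw [h1, h2, smul_smul, ← Function.iterate_add_apply, Nat.add_comm m n, mul_comm t]

theorem cu_shift (hb0 : b ≠ 0) (hb1 : |b| < 1) {s : E2 × E2} (hs : ‖s.2‖ = 1) {t : ℝ} {q : E2}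
    (h : Cu b c s t q) (n : ℕ) :
    Cu b c (sn b c s n) (lam b c s n * t) ((G 1 b c)^[n] q) := by
  obtain ⟨D, hD⟩ := h
  refine ⟨|D|, fun m => ?_⟩
  rw [fr_dev hb0 hs]
  refine (hD (n + m)).trans (mul_le_mul (le_abs_self D) (Real.exp_le_exp.2 ?_) (Real.exp_pos _).le
    (abs_nonneg D))
  have h1 := el_pos hb0 hb1
  have h2 : (0 : ℝ) ≤ n := Nat.cast_nonneg n
  push_cast
  nlinarith [mul_nonneg h1.le h2]

theorem cu_unshift (hb0 : b ≠ 0) (hb1 : |b| < 1) {s : E2 × E2} (hs : ‖s.2‖ = 1) {t : ℝ} {q : E2}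
    (n : ℕ) (h : Cu b c (sn b c s n) (lam b c s n * t) ((G 1 b c)^[n] q)) : Cu b c s t q := by
  obtain ⟨D, hD⟩ := h
  obtain ⟨D', -, hD'⟩ := fr_fin (f := fun k : ℕ => ‖(G 1 b c)^[k] q - (G 1 b c)^[k] s.1 -
    t • act (co 1 b c s.1 k) s.2‖) (3 / 2 * el b) |D| n (fun k => norm_nonneg _) (abs_nonneg D)
    (fun m => by
      have h1 := hD m
      rw [fr_dev hb0 hs] at h1
      exact h1.trans (mul_le_mul_of_nonneg_right (le_abs_self D) (Real.exp_pos _).le))
  exact ⟨D', hD'⟩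

theorem lam_le {C : ℝ} {s : E2 × E2} (h : RS b c C s) (n : ℕ) :
    lam b c s n ≤ C * Real.exp (-(el b - 3 * dl b) * n) := by
  exact h.con n

theorem lam_ge (hb : b ≠ 0) {C : ℝ} {s : E2 × E2} (h : RS b c C s) (n : ℕ) :
    Real.exp (-(el b + dl b) * n) ≤ 2 * C * lam b c s n := by
  exact Reg.low hb h n

theorem lam_tendsto (hb0 : b ≠ 0) (hb1 : |b| < 1) {C : ℝ} {s : E2 × E2} (h : RS b c C s) :
    Filter.Tendsto (fun n : ℕ => lam b c s n) Filter.atTop (nhds 0) := by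
  have h1 := fr_el b hb0 hb1
  have h2 : Filter.Tendsto (fun n : ℕ => Real.exp (-(el b - 3 * dl b) * n)) Filter.atTop
      (nhds 0) := by
    refine Real.tendsto_exp_atBot.comp ?_
    exact tendsto_natCast_atTop_atTop.const_mul_atTop_of_neg (by linarith)
  have h3 : Filter.Tendsto (fun n : ℕ => C * Real.exp (-(el b - 3 * dl b) * n)) Filter.atTop
      (nhds 0) := by
    simpa using h2.const_mul C
  exact squeeze_zero (fun n => norm_nonneg _) (fun n => lam_le h n) h3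

/-- a state which is regular at time `n` is regular (with a larger constant) -/
theorem rs_unshift (hb0 : b ≠ 0) (hb1 : |b| < 1) {C : ℝ} {s : E2 × E2} (hs : ‖s.2‖ = 1)
    (hK : s.1 ∈ KK b c) (n : ℕ) (h : RS b c C (sn b c s n)) : ∃ C' : ℝ, RS b c C' s := by
  have hd := dl_pos hb0 hb1
  have hC : 1 ≤ C := Reg.one_le h
  have hC0 : 0 ≤ C := zero_le_one.trans hC
  have hτ : el b + Real.log |b| = 0 := by
    unfold el
    ring
  obtain ⟨C₁, hC₁, h1⟩ := fr_fin (f := fun k : ℕ => ‖act (co 1 b c s.1 k) s.2‖)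
    (el b - 3 * dl b) (lam b c s n * C) n (fun k => norm_nonneg _)
    (mul_nonneg (norm_nonneg _) hC0) (fun m => by
      have h2 : act (co 1 b c s.1 (n + m)) s.2 =
        lam b c s n • act (co 1 b c (sn b c s n).1 m) (sn b c s n).2 := fr_vn' hb0 hs n m
      show ‖act (co 1 b c s.1 (n + m)) s.2‖ ≤ _
      rw [h2, norm_smul, Real.norm_eq_abs, abs_of_pos (lam_pos (c := c) hb0 hs n), mul_assoc]
      exact mul_le_mul_of_nonneg_left (h.con m) (lam_pos (c := c) hb0 hs n).le)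
  set A : ℝ := ∑ k ∈ Finset.range (n + 1), ∑ j ∈ Finset.range (n + 1),
    ‖co 1 b c ((G 1 b c)^[k] s.1) j‖ with hA
  have hA1 : ∀ k j : ℕ, k ≤ n → j ≤ n → ‖co 1 b c ((G 1 b c)^[k] s.1) j‖ ≤ A := by
    intro k j hk hj
    have h2 : ‖co 1 b c ((G 1 b c)^[k] s.1) j‖ ≤ ∑ j ∈ Finset.range (n + 1),
        ‖co 1 b c ((G 1 b c)^[k] s.1) j‖ :=
      Finset.single_le_sum (f := fun j : ℕ => ‖co 1 b c ((G 1 b c)^[k] s.1) j‖)
        (fun j _ => norm_nonneg _) (Finset.mem_range.2 (by omega))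
    have h3 : ∑ j ∈ Finset.range (n + 1), ‖co 1 b c ((G 1 b c)^[k] s.1) j‖ ≤ A :=
      Finset.single_le_sum (f := fun k : ℕ => ∑ j ∈ Finset.range (n + 1),
        ‖co 1 b c ((G 1 b c)^[k] s.1) j‖)
        (fun k _ => Finset.sum_nonneg fun j _ => norm_nonneg _) (Finset.mem_range.2 (by omega))
    exact h2.trans h3
  have hA0 : 0 ≤ A := (norm_nonneg _).trans (hA1 0 0 (Nat.zero_le n) (Nat.zero_le n))
  have h4 : ∀ k m : ℕ, ‖co 1 b c ((G 1 b c)^[k] s.1) m‖ ≤
      (A + 2 * C * A + C) * Real.exp (dl b * m + dl b * k) := by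
    intro k m
    have e0 : ∀ x : ℝ, 0 ≤ x → (1 : ℝ) ≤ Real.exp x := fun x hx => Real.one_le_exp hx
    have k0 : (0 : ℝ) ≤ k := Nat.cast_nonneg k
    have m0 : (0 : ℝ) ≤ m := Nat.cast_nonneg m
    have n0 : (0 : ℝ) ≤ n := Nat.cast_nonneg n
    have e1 : (1 : ℝ) ≤ Real.exp (dl b * m + dl b * k) :=
      e0 _ (add_nonneg (mul_nonneg hd.le m0) (mul_nonneg hd.le k0))
    have c1 : 0 ≤ 2 * C * A := mul_nonneg (mul_nonneg zero_le_two hC0) hA0
    rcases le_or_gt n k with hk | hk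
    · obtain ⟨k', rfl⟩ := Nat.exists_eq_add_of_le hk
      have h5 := h.up k' m
      have h6 : (G 1 b c)^[k'] (sn b c s n).1 = (G 1 b c)^[n + k'] s.1 := by
        show (G 1 b c)^[k'] ((G 1 b c)^[n] s.1) = _
        rw [← Function.iterate_add_apply, Nat.add_comm k' n]
      rw [h6, hτ] at h5
      refine h5.trans (mul_le_mul (by linarith) (Real.exp_le_exp.2 ?_) (Real.exp_pos _).le
        (by linarith))
      push_cast
      nlinarith [mul_nonneg hd.le n0]
    · rcases le_or_gt (n - k) m with hm | hm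
      · obtain ⟨m', rfl⟩ := Nat.exists_eq_add_of_le hm
        rw [co_add]
        have h6 : (G 1 b c)^[n - k] ((G 1 b c)^[k] s.1) = (G 1 b c)^[0] (sn b c s n).1 := by
          show _ = (G 1 b c)^[0] ((G 1 b c)^[n] s.1)
          rw [← Function.iterate_add_apply, Nat.sub_add_cancel hk.le]
          rfl
        have h7 := h.up 0 m'
        rw [← h6, hτ] at h7
        have h8 := hA1 k (n - k) hk.le (Nat.sub_le n k)
        refine (norm_mm_le _ _).trans ?_
        have h9 : 2 * ‖co 1 b c ((G 1 b c)^[n - k] ((G 1 b c)^[k] s.1)) m'‖ *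
            ‖co 1 b c ((G 1 b c)^[k] s.1) (n - k)‖ ≤
            2 * (C * Real.exp ((0 + dl b) * m' + dl b * ((0 : ℕ) : ℝ))) * A :=
          mul_le_mul (mul_le_mul_of_nonneg_left h7 zero_le_two) h8 (norm_nonneg _)
            (mul_nonneg zero_le_two (mul_nonneg hC0 (Real.exp_pos _).le))
        refine h9.trans ?_
        have h10 : 2 * (C * Real.exp ((0 + dl b) * m' + dl b * ((0 : ℕ) : ℝ))) * A =
            2 * C * A * Real.exp ((0 + dl b) * m' + dl b * ((0 : ℕ) : ℝ)) := by ring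
        rw [h10]
        refine mul_le_mul (by linarith) (Real.exp_le_exp.2 ?_) (Real.exp_pos _).le
          (by linarith)
        have h11 : (0 : ℝ) ≤ ((n - k : ℕ) : ℝ) := Nat.cast_nonneg _
        push_cast [Nat.cast_add]
        nlinarith [mul_nonneg hd.le h11, mul_nonneg hd.le k0]
      · have h5 := hA1 k m hk.le (by omega)
        have h6 : A ≤ (A + 2 * C * A + C) * 1 := by linarith
        exact h5.trans (h6.trans (mul_le_mul_of_nonneg_left e1 (by linarith)))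
  refine ⟨C₁ + (A + 2 * C * A + C), hs, hK.1, fun k => ?_, fun k m => ?_⟩
  · refine (h1 k).trans (mul_le_mul_of_nonneg_right ?_ (Real.exp_pos _).le)
    have c1 : 0 ≤ 2 * C * A := mul_nonneg (mul_nonneg zero_le_two hC0) hA0
    linarith
  · rw [hτ, zero_add]
    refine (h4 k m).trans (mul_le_mul_of_nonneg_right ?_ (Real.exp_pos _).le)
    linarith

/-- a regular state is regular at all later times (with a larger constant) -/
theorem rs_shift (hb0 : b ≠ 0) (hb1 : |b| < 1) {C : ℝ} {s : E2 × E2} (h : RS b c C s) (n : ℕ) :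
    ∃ C' : ℝ, RS b c C' (sn b c s n) := by
  have hs : ‖s.2‖ = 1 := h.unit
  have hC : 1 ≤ C := Reg.one_le h
  have hC0 : 0 ≤ C := zero_le_one.trans hC
  have hl := lam_pos (c := c) hb0 hs n
  have c1 : 0 ≤ (lam b c s n)⁻¹ * C := mul_nonneg (inv_nonneg.2 hl.le) hC0
  have c2 : 0 ≤ C * Real.exp (dl b * n) := mul_nonneg hC0 (Real.exp_pos _).le
  refine ⟨(lam b c s n)⁻¹ * C + C * Real.exp (dl b * n), sn_unit hb0 hs n, fun m => ?_,
    fun m => ?_, fun k m => ?_⟩
  · have h1 := h.bdd (m + n)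
    rw [Function.iterate_add_apply] at h1
    exact h1
  · have h1 : act (co 1 b c (sn b c s n).1 m) (sn b c s n).2 =
        (lam b c s n)⁻¹ • act (co 1 b c s.1 (n + m)) s.2 := fr_vn s n m
    rw [h1, norm_smul, norm_inv, Real.norm_eq_abs, abs_of_pos hl]
    have h2 := mul_le_mul_of_nonneg_left (h.con (n + m)) (inv_nonneg.2 hl.le)
    refine h2.trans ?_
    rw [← mul_assoc]
    refine mul_le_mul (by linarith) (Real.exp_le_exp.2 ?_) (Real.exp_pos _).le (by linarith)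
    have h3 := fr_el b hb0 hb1
    have h4 : (0 : ℝ) ≤ n := Nat.cast_nonneg n
    push_cast
    nlinarith [mul_nonneg h3.le h4]
  · have h1 := up_shift h.up n k m
    refine h1.trans (mul_le_mul_of_nonneg_right ?_ (Real.exp_pos _).le)
    linarith

end Pool.Agent.HG
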