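import Pool.Agent.HG.Cm
import Pool.Agent.HG.Fr

set_option autoImplicit false

/-!
# Branches and their limit sets

Shift of the good set, of the branches and of their limit sets; compactness; isolation of the base
point.
-/

namespace Pool.Agent.HG

open Pool.Agent.HD MeasureTheory Set

variable {b c : ℝ}

private theorem cont_eps {f : E2 → E2} (hf : Continuous f) (z : E2) {ε : ℝ} (hε : 0 < ε) :
    ∃ δ : ℝ, 0 < δ ∧ ∀ q : E2, ‖q - z‖ < δ → ‖f q - f z‖ < ε := by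
  obtain ⟨δ, hδ, h⟩ := Metric.continuousAt_iff.1 hf.continuousAt ε hε
  refine ⟨δ, hδ, fun q hq => ?_⟩
  rw [← dist_eq_norm] at hq ⊢
  exact h hq

private theorem not_lim {s : E2 × E2} {z : E2} (h : z ∉ Lim b c s) : ∃ T ε : ℝ, 0 < ε ∧
    ∀ (t : ℝ) (q : E2), T ≤ t → Cu b c s t q → ε ≤ ‖q - z‖ := by
  by_contra hcon
  apply h
  intro T ε hε
  by_contra hc2
  apply hcon
  refine ⟨T, ε, hε, fun t q ht hq => ?_⟩
  by_contra hlt
  exact hc2 ⟨t, q, ht, hq, not_le.1 hlt⟩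

theorem fs_iter (hb : b ≠ 0) (s : St b c) (n : ℕ) :
    (((FS b c)^[n] s : St b c) : E2 × E2) = sn b c (s : E2 × E2) n := by
  have hs : ‖(s : E2 × E2).2‖ = 1 := s.2.2
  induction n with
  | zero => exact (sn_zero hs).1.symm
  | succ n ih =>
    rw [Function.iterate_succ_apply', FS_val hb, ih, ← sn_one, (sn_add hb hs n 1).1]

theorem gs_shift (hb0 : b ≠ 0) (hb1 : |b| < 1) {s : E2 × E2} (hs : ‖s.2‖ = 1) (n : ℕ) :
    sn b c s n ∈ GS b c ↔ s ∈ GS b c := by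
  have hmem : ∀ q ∈ Brn b c s, (G 1 b c)^[n] q ∈ Brn b c (sn b c s n) := by
    rintro q ⟨t, ht, hq⟩
    exact ⟨lam b c s n * t, mul_nonneg (lam_pos hb0 hs n).le ht, cu_shift hb0 hb1 hs hq n⟩
  constructor
  · rintro ⟨h1, ⟨C, h2⟩, h3⟩
    have h1' : s.1 ∈ KK b c := (kk_G_iter hb0 n).1 h1
    refine ⟨h1', rs_unshift hb0 hb1 hs h1' n h2, fun q hq => ?_⟩
    exact (kk_G_iter hb0 n).1 (h3 (hmem q hq))
  · rintro ⟨h1, ⟨C, h2⟩, h3⟩
    refine ⟨(kk_G_iter hb0 n).2 h1, rs_shift hb0 hb1 h2 n, ?_⟩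
    rintro q ⟨t, ht, hq⟩
    have hl := lam_pos (b := b) (c := c) hb0 hs n
    have h4 : (Gi 1 b c)^[n] q ∈ Brn b c s := by
      refine ⟨t / lam b c s n, div_nonneg ht hl.le, cu_unshift hb0 hb1 hs n ?_⟩
      rw [G_iter_Gi_iter hb0, mul_div_cancel₀ t hl.ne']
      exact hq
    have h5 := (kk_G_iter hb0 n).2 (h3 h4)
    rwa [G_iter_Gi_iter hb0] at h5

theorem brn_shift (hb0 : b ≠ 0) (hb1 : |b| < 1) {s : E2 × E2} (hs : ‖s.2‖ = 1) (n : ℕ) :
    Brn b c (sn b c s n) = (G 1 b c)^[n] '' Brn b c s := by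
  have hl := lam_pos (b := b) (c := c) hb0 hs n
  ext q
  constructor
  · rintro ⟨t, ht, hq⟩
    refine ⟨(Gi 1 b c)^[n] q, ⟨t / lam b c s n, div_nonneg ht hl.le, ?_⟩,
      G_iter_Gi_iter hb0 n q⟩
    refine cu_unshift hb0 hb1 hs n ?_
    rw [G_iter_Gi_iter hb0, mul_div_cancel₀ t hl.ne']
    exact hq
  · rintro ⟨q', ⟨t, ht, hq⟩, rfl⟩
    exact ⟨lam b c s n * t, mul_nonneg hl.le ht, cu_shift hb0 hb1 hs hq n⟩

theorem lim_shift (hb0 : b ≠ 0) (hb1 : |b| < 1) {s : E2 × E2} (hs : ‖s.2‖ = 1) (n : ℕ) :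
    Lim b c (sn b c s n) = (G 1 b c)^[n] '' Lim b c s := by
  have hl := lam_pos (b := b) (c := c) hb0 hs n
  ext z
  constructor
  · intro hz
    refine ⟨(Gi 1 b c)^[n] z, fun T ε hε => ?_, G_iter_Gi_iter hb0 n z⟩
    obtain ⟨δ, hδ, hd⟩ := cont_eps (continuous_Gi_iter 1 b c n) z hε
    obtain ⟨t, q, ht, hq, hqz⟩ := hz (lam b c s n * T) δ hδ
    refine ⟨t / lam b c s n, (Gi 1 b c)^[n] q, ?_, cu_unshift hb0 hb1 hs n ?_, hd q hqz⟩
    · rw [le_div_iff₀ hl, mul_comm]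
      exact ht
    · rw [G_iter_Gi_iter hb0, mul_div_cancel₀ t hl.ne']
      exact hq
  · rintro ⟨z', hz', rfl⟩
    intro T ε hε
    obtain ⟨δ, hδ, hd⟩ := cont_eps (continuous_G_iter 1 b c n) z' hε
    obtain ⟨t, q, ht, hq, hqz⟩ := hz' (T / lam b c s n) δ hδ
    refine ⟨lam b c s n * t, (G 1 b c)^[n] q, ?_, cu_shift hb0 hb1 hs hq n, hd q hqz⟩
    rw [div_le_iff₀ hl, mul_comm] at ht
    exact ht

theorem brn_eq (hb0 : b ≠ 0) (hb1 : |b| < 1) {C : ℝ} {s : E2 × E2} (h : RS b c C s) :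
    Brn b c s = cuf b c s '' Ici 0 := by
  ext q
  constructor
  · rintro ⟨t, ht, hq⟩
    exact ⟨t, ht, (cuf_eq hb0 hb1 h hq).symm⟩
  · rintro ⟨t, ht, rfl⟩
    exact ⟨t, ht, cuf_spec hb0 hb1 h t⟩

theorem lim_compact (hb0 : b ≠ 0) (hb1 : |b| < 1) {s : E2 × E2} (h : s ∈ GS b c) :
    (Lim b c s).Nonempty ∧ IsCompact (Lim b c s) ∧ Lim b c s ⊆ KK b c := by
  obtain ⟨h1, ⟨C, h2⟩, h3⟩ := h
  have hsub : Lim b c s ⊆ KK b c := by
    intro z hz
    rw [← (kk_closed b c).closure_eq, Metric.mem_closure_iff]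
    intro ε hε
    obtain ⟨t, q, ht, hq, hqz⟩ := hz 0 ε hε
    refine ⟨q, h3 ⟨t, ht, hq⟩, ?_⟩
    rw [dist_comm, dist_eq_norm]
    exact hqz
  have hcl : IsClosed (Lim b c s) := by
    rw [← closure_subset_iff_isClosed]
    intro z hz T ε hε
    obtain ⟨z', hz', hd⟩ := Metric.mem_closure_iff.1 hz (ε / 2) (half_pos hε)
    obtain ⟨t, q, ht, hq, hqz⟩ := hz' T (ε / 2) (half_pos hε)
    refine ⟨t, q, ht, hq, ?_⟩
    rw [dist_comm, dist_eq_norm] at hd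
    calc ‖q - z‖ = ‖(q - z') + (z' - z)‖ := by rw [sub_add_sub_cancel]
      _ ≤ ‖q - z'‖ + ‖z' - z‖ := norm_add_le _ _
      _ < ε / 2 + ε / 2 := add_lt_add hqz hd
      _ = ε := add_halves ε
  refine ⟨?_, (kk_compact b c).of_isClosed_subset hcl hsub, hsub⟩
  have h4 : ∀ n : ℕ, cuf b c s n ∈ KK b c := fun n =>
    h3 ⟨n, Nat.cast_nonneg n, cuf_spec hb0 hb1 h2 n⟩
  obtain ⟨a, -, φ, hφ, hlim⟩ := (kk_compact b c).tendsto_subseq h4
  refine ⟨a, fun T ε hε => ?_⟩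
  obtain ⟨N, hN⟩ := Metric.tendsto_atTop.1 hlim ε hε
  obtain ⟨m, hm⟩ := exists_nat_ge T
  have h5 := hN (max N m) (le_max_left _ _)
  rw [dist_eq_norm] at h5
  refine ⟨(φ (max N m) : ℕ), _, ?_, cuf_spec hb0 hb1 h2 _, h5⟩
  have h6 : m ≤ φ (max N m) := (le_max_right N m).trans (hφ.id_le _)
  exact hm.trans (Nat.cast_le.2 h6)

theorem clo_brn (hb0 : b ≠ 0) (hb1 : |b| < 1) {s : E2 × E2} (h : s ∈ GS b c) :
    closure (Brn b c s) = Brn b c s ∪ Lim b c s ∧ IsCompact (closure (Brn b c s)) ∧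
      IsConnected (closure (Brn b c s)) := by
  obtain ⟨h1, ⟨C, h2⟩, h3⟩ := h
  obtain ⟨hc1, -, -⟩ := cuf_curve hb0 hb1 h2
  have hB := brn_eq hb0 hb1 h2
  refine ⟨?_, ?_, ?_⟩
  · apply Set.Subset.antisymm
    · intro z hz
      by_cases hzL : z ∈ Lim b c s
      · exact Or.inr hzL
      · left
        obtain ⟨T, ε, hε, hT⟩ := not_lim hzL
        have hK1 : IsClosed (cuf b c s '' Icc 0 (max T 0)) :=
          (isCompact_Icc.image hc1).isClosed
        have hK2 : IsClosed {q : E2 | ε ≤ ‖q - z‖} :=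
          isClosed_le continuous_const (continuous_id.sub continuous_const).norm
        have hsub : Brn b c s ⊆ cuf b c s '' Icc 0 (max T 0) ∪ {q : E2 | ε ≤ ‖q - z‖} := by
          rintro q ⟨t, ht, hq⟩
          rcases le_total t (max T 0) with h | h
          · exact Or.inl ⟨t, ⟨ht, h⟩, (cuf_eq hb0 hb1 h2 hq).symm⟩
          · exact Or.inr (hT t q ((le_max_left T 0).trans h) hq)
        rcases closure_minimal hsub (hK1.union hK2) hz with h | h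
        · rw [hB]
          exact Set.image_mono (fun t ht => ht.1) h
        · have h' : ε ≤ ‖z - z‖ := h
          rw [sub_self, norm_zero] at h'
          exact absurd h' (not_le.2 hε)
    · rintro z (hz | hz)
      · exact subset_closure hz
      · rw [Metric.mem_closure_iff]
        intro ε hε
        obtain ⟨t, q, ht, hq, hqz⟩ := hz 0 ε hε
        refine ⟨q, ⟨t, ht, hq⟩, ?_⟩
        rw [dist_comm, dist_eq_norm]
        exact hqz
  · exact (kk_compact b c).of_isClosed_subset isClosed_closure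
      (closure_minimal h3 (kk_closed b c))
  · rw [hB]
    exact (isConnected_Ici.image _ hc1.continuousOn).closure

theorem iso_of_not_mem (hb0 : b ≠ 0) (hb1 : |b| < 1) {s : E2 × E2} (h : s ∈ GS b c)
    (hn : s.1 ∉ Lim b c s) {h0 : ℝ} (hh : 0 < h0) : ∃ r : ℝ, 0 < r ∧ Iso b c h0 r s := by
  obtain ⟨h1, ⟨C, h2⟩, h3⟩ := h
  obtain ⟨hc1, hc2, hc3⟩ := cuf_curve hb0 hb1 h2
  obtain ⟨T, ε, hε, hT⟩ := not_lim hn
  obtain ⟨t0, ht0, hmin⟩ := (isCompact_Icc (a := h0) (b := max T h0)).exists_isMinOn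
    ⟨h0, le_rfl, le_max_right T h0⟩
    (f := fun t => ‖cuf b c s t - s.1‖) (hc1.sub continuous_const).norm.continuousOn
  have hpos : 0 < ‖cuf b c s t0 - s.1‖ := by
    rw [norm_pos_iff, sub_ne_zero, ← hc3]
    intro he
    have h4 := hc2 he
    have h5 := ht0.1
    rw [h4] at h5
    exact absurd h5 (not_le.2 hh)
  refine ⟨min ε ‖cuf b c s t0 - s.1‖, lt_min hε hpos, fun t q ht hq => ?_⟩
  rcases le_total t (max T h0) with h | h
  · have h6 := hmin (a := t) ⟨ht, h⟩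
    rw [cuf_eq hb0 hb1 h2 hq]
    exact (min_le_right _ _).trans h6
  · exact (min_le_left _ _).trans (hT t q ((le_max_left T h0).trans h) hq)

theorem lim_far {h0 r : ℝ} {s : E2 × E2} (h : Iso b c h0 r s) :
    ∀ z ∈ Lim b c s, r ≤ ‖z - s.1‖ := by
  intro z hz
  by_contra hlt
  rw [not_le] at hlt
  obtain ⟨t, q, ht, hq, hqz⟩ := hz h0 (r - ‖z - s.1‖) (sub_pos.2 hlt)
  have h1 := h t q ht hq
  have h2 : ‖q - s.1‖ ≤ ‖q - z‖ + ‖z - s.1‖ := by
    calc ‖q - s.1‖ = ‖(q - z) + (z - s.1)‖ := by rw [sub_add_sub_cancel]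
      _ ≤ _ := norm_add_le _ _
  linarith

end Pool.Agent.HG
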