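import Pool.Agent.HG.Fg
import Pool.Agent.HG.Lm
import Pool.Agent.HG.Em

set_option autoImplicit false

/-!
# From a piece of the stable curve to a half of the stable curve, by returns

By ergodicity almost every point has infinitely many return times to `D`; at such a time a piece of fixed length of one
of the two halves of the stable curve is in the limit set; it comes from a piece of length tending to infinity at time
zero, and one of the two halves occurs infinitely often.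
-/

namespace Pool.Agent.HG

open Pool.Agent.HD MeasureTheory Set

variable {b c : ℝ}

/-- infinitely many return times -/
private theorem ae_returns {X : Type*} [MeasurableSpace X] {T : X → X} {ν : Measure X}
    [IsProbabilityMeasure ν] (hν : Ergodic T ν) {D : Set X} (hD : MeasurableSet D) (hD0 : ν D ≠ 0) :
    ∀ᵐ x ∂ν, ∃ᶠ n in Filter.atTop, T^[n] x ∈ D := by
  have hmT : Measurable T := hν.toMeasurePreserving.measurable
  set A : Set X := {x | ∃ᶠ n in Filter.atTop, T^[n] x ∈ D} with hA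
  have hAm : MeasurableSet A := by
    have e : A = ⋂ N : ℕ, ⋃ n : ℕ, ⋃ _ : N ≤ n, (T^[n]) ⁻¹' D := by
      ext x
      simp only [hA, Set.mem_iInter, Set.mem_iUnion, Set.mem_preimage]
      constructor
      · intro h N
        obtain ⟨n, hn, hx⟩ := Filter.frequently_atTop.1 h N
        exact ⟨n, hn, hx⟩
      · intro h
        refine Filter.frequently_atTop.2 fun N => ?_
        obtain ⟨n, hn, hx⟩ := h N
        exact ⟨n, hn, hx⟩
    rw [e]
    exact MeasurableSet.iInter fun N => MeasurableSet.iUnion fun n => MeasurableSet.iUnion fun _ =>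
      (hmT.iterate n) hD
  have hinv : T ⁻¹' A = A := by
    ext x
    simp only [hA, Set.mem_preimage]
    constructor
    · intro h
      refine Filter.frequently_atTop.2 fun N => ?_
      obtain ⟨n, hn, hx⟩ := Filter.frequently_atTop.1 h N
      exact ⟨n + 1, hn.trans (Nat.le_succ n), by rwa [Function.iterate_succ_apply]⟩
    · intro h
      refine Filter.frequently_atTop.2 fun N => ?_
      obtain ⟨n, hn, hx⟩ := Filter.frequently_atTop.1 h (N + 1)
      obtain ⟨k, rfl⟩ : ∃ k, n = k + 1 := ⟨n - 1, by omega⟩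
      exact ⟨k, by omega, by rwa [Function.iterate_succ_apply] at hx⟩
  have hcons : Conservative T ν := hν.toMeasurePreserving.conservative
  have hsub : ∀ᵐ x ∂ν, x ∈ D → x ∈ A := hcons.ae_mem_imp_frequently_image_mem hD.nullMeasurableSet
  rcases hν.toPreErgodic.ae_empty_or_univ hAm hinv with h | h
  · exfalso
    apply hD0
    have h1 : ∀ᵐ x ∂ν, x ∉ A := by
      filter_upwards [h] with x hx
      intro hxA
      have : (x ∈ A) = (x ∈ (∅ : Set X)) := hx
      rw [this] at hxA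
      exact hxA
    have h2 : ∀ᵐ x ∂ν, x ∉ D := by
      filter_upwards [hsub, h1] with x h3 h4 h5
      exact h4 (h3 h5)
    exact measure_eq_zero_iff_ae_notMem.2 h2
  · filter_upwards [h] with x hx
    have : (x ∈ A) = (x ∈ (univ : Set X)) := hx
    have h2 : x ∈ A := by rw [this]; trivial
    exact h2

private theorem fK_iter (hb : b ≠ 0) (q : Kt b c) (n : ℕ) :
    (((fK b c)^[n] q : Kt b c) : E2) = (G 1 b c)^[n] (q : E2) := by
  induction n with
  | zero => rfl
  | succ n ih => rw [Function.iterate_succ_apply', Function.iterate_succ_apply', fK_val hb, ih]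

theorem whole_arc (hb0 : b ≠ 0) (hb1 : |b| < 1)
    {ν : Measure (St b c × Kt b c)} [IsProbabilityMeasure ν]
    (hν : Ergodic (Prod.map (FS b c) (fK b c)) ν)
    (hgs : ∀ᵐ x : St b c × Kt b c ∂ν, x.1.1 ∈ GS b c)
    {ρ δ C : ℝ} (hδ : 0 < δ) (hρ : 100 * δ ≤ ρ) (hρ' : -Real.log |b| ≤ ρ)
    (hreg : ∀ᵐ x : St b c × Kt b c ∂ν, ∃ C' V, Reg 1 b c ρ δ (|c| + 4) C' x.2.1 V)
    {D : Set (St b c × Kt b c)} (hD : MeasurableSet D) (hD0 : ν D ≠ 0) {τ : ℝ} (hτ : 0 < τ)
    (hh : ∀ᵐ x : St b c × Kt b c ∂ν, x ∈ D → ∃ W : E2, Reg 1 b c ρ δ (|c| + 4) C x.2.1 W ∧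
      ∀ (t : ℝ) (q : E2), 0 ≤ t → t ≤ τ → Asym 1 b c ρ x.2.1 W t q → q ∈ Lim b c x.1.1) :
    ∀ᵐ x : St b c × Kt b c ∂ν, ∃ C' V, Reg 1 b c ρ δ (|c| + 4) C' x.2.1 V ∧
      ∀ (t : ℝ) (q : E2), 0 ≤ t → Asym 1 b c ρ x.2.1 V t q → q ∈ Lim b c x.1.1 := by
  have hρ0 : 0 < ρ := by linarith
  have hret := ae_returns hν hD hD0
  have hall : ∀ᵐ x : St b c × Kt b c ∂ν, ∀ n : ℕ,
      (Prod.map (FS b c) (fK b c))^[n] x ∈ D → ∃ W : E2, Reg 1 b c ρ δ (|c| + 4) C
        ((Prod.map (FS b c) (fK b c))^[n] x).2.1 W ∧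
      ∀ (t : ℝ) (q : E2), 0 ≤ t → t ≤ τ → Asym 1 b c ρ ((Prod.map (FS b c) (fK b c))^[n] x).2.1 W t q →
        q ∈ Lim b c ((Prod.map (FS b c) (fK b c))^[n] x).1.1 :=
    ae_all_iff.2 fun n => (hν.toMeasurePreserving.iterate n).quasiMeasurePreserving.ae hh
  filter_upwards [hret, hall, hreg] with x hx1 hx2 hx3
  obtain ⟨C', V, hV⟩ := hx3
  have hVu : ‖V‖ = 1 := hV.unit
  have hs : ‖(x.1 : E2 × E2).2‖ = 1 := x.1.2.2
  have hlam := as_lam_tendsto hδ hρ hV
  have hinj : ∀ n, Function.Injective ((G 1 b c)^[n]) := fun n => (G_injective hb0).iterate n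
  have hfreq : ∃ᶠ n in Filter.atTop,
      (∀ (t : ℝ) (q : E2), 0 ≤ t → t ≤ τ →
        Asym 1 b c ρ ((G 1 b c)^[n] x.2.1) (sn b c (x.2.1, V) n).2 t q →
          q ∈ (G 1 b c)^[n] '' Lim b c x.1.1) ∨
      (∀ (t : ℝ) (q : E2), 0 ≤ t → t ≤ τ →
        Asym 1 b c ρ ((G 1 b c)^[n] x.2.1) (-(sn b c (x.2.1, V) n).2) t q →
          q ∈ (G 1 b c)^[n] '' Lim b c x.1.1) := by
    refine hx1.mono fun n hn => ?_
    obtain ⟨W, hW, hq⟩ := hx2 n hn
    have e1 : ((Prod.map (FS b c) (fK b c))^[n] x).2.1 = (G 1 b c)^[n] x.2.1 := by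
      rw [Prod.map_iterate]
      exact fK_iter hb0 x.2 n
    have e2 : Lim b c ((Prod.map (FS b c) (fK b c))^[n] x).1.1 =
        (G 1 b c)^[n] '' Lim b c x.1.1 := by
      rw [Prod.map_iterate, ← lim_shift hb0 hb1 hs n]
      show Lim b c (((FS b c)^[n] x.1 : St b c) : E2 × E2) = _
      rw [fs_iter hb0 x.1 n]
    rw [e1] at hW hq
    rw [e2] at hq
    rcases as_dir hb0 hδ hρ hρ' hV n hW with h | h
    · left
      rw [h] at hq
      exact hq
    · right
      rw [h] at hq
      exact hq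
  rcases Filter.frequently_or_distrib.1 hfreq with h | h
  · refine ⟨C', V, hV, fun t q ht hq => ?_⟩
    have hev : ∀ᶠ n in Filter.atTop, lam b c (x.2.1, V) n * t ≤ τ := by
      have h1 := hlam.mul_const t
      rw [zero_mul] at h1
      exact (h1.eventually_lt_const hτ).mono fun n hn => hn.le
    obtain ⟨n, hn1, hn2⟩ := (h.and_eventually hev).exists
    have h3 := as_shift hb0 hρ0 hVu hq n
    obtain ⟨q', hq', he⟩ := hn1 _ _ (mul_nonneg (as_lam_pos hb0 hVu n).le ht) hn2 h3
    rw [← hinj n he]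
    exact hq'
  · refine ⟨C', -V, hV.neg, fun t q ht hq => ?_⟩
    have hev : ∀ᶠ n in Filter.atTop, lam b c (x.2.1, V) n * t ≤ τ := by
      have h1 := hlam.mul_const t
      rw [zero_mul] at h1
      exact (h1.eventually_lt_const hτ).mono fun n hn => hn.le
    obtain ⟨n, hn1, hn2⟩ := (h.and_eventually hev).exists
    have hq2 : Asym 1 b c ρ x.2.1 V (-t) q := by
      have := hq.neg
      rwa [neg_neg] at this
    have h3 := (as_shift hb0 hρ0 hVu hq2 n).neg
    have e3 : -(lam b c (x.2.1, V) n * -t) = lam b c (x.2.1, V) n * t := by ring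
    rw [e3] at h3
    obtain ⟨q', hq', he⟩ := hn1 _ _ (mul_nonneg (as_lam_pos hb0 hVu n).le ht) hn2 h3
    rw [← hinj n he]
    exact hq'

end Pool.Agent.HG
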