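import Pool.Agent.HG.Jb
import Pool.Agent.HG.Jc

set_option autoImplicit false

/-!
# Joined limit points: a half of the stable curve is in the limit set (general rate)
-/

namespace Pool.Agent.HG

open Pool.Agent.HD MeasureTheory Set

variable {b c : ℝ}

private theorem jd_cover {X : Type*} [MeasurableSpace X] (μ : Measure X) (f : X → E2) {ε : ℝ}
    (hε : 0 < ε) {A : Set X} (hA : μ A ≠ 0) :
    ∃ p : E2, μ (A ∩ {x | ‖f x - p‖ < ε}) ≠ 0 := by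
  by_contra hcon
  push Not at hcon
  apply hA
  have hsub : A ⊆ ⋃ n : ℕ, A ∩ {x | ‖f x - TopologicalSpace.denseSeq E2 n‖ < ε} := by
    intro x hx
    obtain ⟨n, hn⟩ := (TopologicalSpace.denseRange_denseSeq E2).exists_dist_lt (f x) hε
    refine mem_iUnion.2 ⟨n, hx, ?_⟩
    change ‖f x - TopologicalSpace.denseSeq E2 n‖ < ε
    rw [← dist_eq_norm]
    exact hn
  refine measure_mono_null hsub ?_
  exact measure_iUnion_null fun n => hcon _

theorem join_half (hb0 : b ≠ 0) (hb1 : |b| < 1) {m : Measure (St b c)} (hm : Bad b c m)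
    {ν : Measure (St b c × Kt b c)} [IsProbabilityMeasure ν]
    (hν : Ergodic (Prod.map (FS b c) (fK b c)) ν) (h1 : ν.map Prod.fst = m)
    (h2 : ∀ᵐ x : St b c × Kt b c ∂ν, x.2.1 ∈ Lim b c x.1.1)
    {ρ δ : ℝ} (hδ : 0 < δ) (hρ : 100 * δ ≤ ρ) (hρ' : -Real.log |b| ≤ ρ)
    (hreg : ∀ᵐ x : St b c × Kt b c ∂ν, ∃ C' V, Reg 1 b c ρ δ (|c| + 4) C' x.2.1 V) :
    ∀ᵐ x : St b c × Kt b c ∂ν, ∃ C' V, Reg 1 b c ρ δ (|c| + 4) C' x.2.1 V ∧
      ∀ (t : ℝ) (q : E2), 0 ≤ t → Asym 1 b c ρ x.2.1 V t q → q ∈ Lim b c x.1.1 := by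
  classical
  choose h1f h1p h1d using bk_disj (b := b) (c := c) hb0 hb1
  choose h0f h0p h0d using lc (b := b) (c := c) hb0 hb1
  obtain ⟨C1, r, N0, hr, hB0⟩ := blocks hb0 hb1 hm (fun C => min (h1f C) (h0f C))
    (fun C => lt_min (h1p C) (h0p C))
  obtain ⟨h, hh⟩ : ∃ h : ℝ, h = min (h1f C1) (h0f C1) := ⟨_, rfl⟩
  rw [← hh] at hB0
  have hpos : 0 < h := by rw [hh]; exact lt_min (h1p C1) (h0p C1)
  have hle1 : h ≤ h1f C1 := by rw [hh]; exact min_le_left _ _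
  have hle0 : h ≤ h0f C1 := by rw [hh]; exact min_le_right _ _
  obtain ⟨d0, hd0, hdd⟩ := h1d C1 h hpos hle1 r hr N0
  obtain ⟨p, hp⟩ := jd_cover m (fun s : St b c => s.1.1) (half_pos hd0) hB0
  obtain ⟨Q, hQ⟩ : ∃ Q : Set (St b c), Q = (Subtype.val ⁻¹' Bk b c C1 h r N0) ∩
    {s | ‖s.1.1 - p‖ < d0 / 2} := ⟨_, rfl⟩
  have hQm : MeasurableSet Q := by
    rw [hQ]
    refine (bk_meas hb0 hb1 C1 h r N0).inter ?_
    have hop : IsOpen {s : St b c | ‖s.1.1 - p‖ < d0 / 2} :=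
      isOpen_lt (((continuous_fst.comp continuous_subtype_val).sub continuous_const).norm)
        continuous_const
    exact hop.measurableSet
  have hQ0 : m Q ≠ 0 := by rw [hQ]; exact hp
  have hQB : ∀ s ∈ Q, s.1 ∈ Bk b c C1 h r N0 := by
    intro s hs
    rw [hQ] at hs
    exact hs.1
  have hdis : ∀ s ∈ Q, ∀ s' ∈ Q, ¬ ExpC (G 1 b c) s.1.1 s'.1.1 →
      Disjoint (closure (Brn b c s.1)) (closure (Brn b c s'.1)) := by
    intro s hs s' hs' hne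
    refine hdd s.1 (hQB s hs) s'.1 (hQB s' hs') ?_ hne
    rw [hQ] at hs hs'
    have e1 : ‖s.1.1 - p‖ < d0 / 2 := hs.2
    have e2 : ‖s'.1.1 - p‖ < d0 / 2 := hs'.2
    have e3 : s.1.1 - s'.1.1 = (s.1.1 - p) - (s'.1.1 - p) := by abel
    rw [e3]
    refine (norm_sub_le _ _).trans ?_
    linarith
  have hgs : ∀ᵐ x : St b c × Kt b c ∂ν, x.1.1 ∈ GS b c := by
    have := hm.gs
    rw [← h1] at this
    exact ae_of_ae_map measurable_fst.aemeasurable this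
  have hn0 : ν (Prod.fst ⁻¹' Q) ≠ 0 := by
    rw [← Measure.map_apply measurable_fst hQm, h1]
    exact hQ0
  -- the constant of the regular directions
  obtain ⟨n, hn⟩ : ∃ n : ℕ, ν {x : St b c × Kt b c | x.1 ∈ Q ∧
      ∃ W : E2, Reg 1 b c ρ δ (|c| + 4) n x.2.1 W} ≠ 0 := by
    by_contra hcon
    push Not at hcon
    apply hn0
    have hsub : Prod.fst ⁻¹' Q ⊆ {x : St b c × Kt b c | ¬ ∃ C' V,
        Reg 1 b c ρ δ (|c| + 4) C' x.2.1 V} ∪ ⋃ n : ℕ, {x : St b c × Kt b c | x.1 ∈ Q ∧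
      ∃ W : E2, Reg 1 b c ρ δ (|c| + 4) n x.2.1 W} := by
      intro x hx
      by_cases hx2 : ∃ C' V, Reg 1 b c ρ δ (|c| + 4) C' x.2.1 V
      · right
        obtain ⟨C', V, hV⟩ := hx2
        obtain ⟨n, hn⟩ := exists_nat_ge C'
        exact mem_iUnion.2 ⟨n, hx, V, Reg.mono hV hn le_rfl⟩
      · left
        exact hx2
    refine measure_mono_null hsub (measure_union_null ?_ (measure_iUnion_null hcon))
    exact hreg
  obtain ⟨C, hC⟩ : ∃ C : ℝ, C = (n : ℝ) := ⟨_, rfl⟩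
  rw [← hC] at hn
  have hplq := fun (V0 : E2) (hV0 : ‖V0‖ = 1) =>
    plaques (b := b) (c := c) (C := C) hb0 hδ hρ hρ' hV0
  choose! η H1 hη hH1 hP using hplq
  obtain ⟨V0, hV0, hA2⟩ : ∃ V0 : E2, ‖V0‖ = 1 ∧ ν {x : St b c × Kt b c | x.1 ∈ Q ∧
      ∃ W : E2, ‖W - V0‖ ≤ η V0 ∧ Reg 1 b c ρ δ (|c| + 4) C x.2.1 W} ≠ 0 := by
    by_contra hcon
    push Not at hcon
    apply hn
    obtain ⟨t, ht, htc⟩ := (isCompact_sphere (0 : E2) 1).elim_nhds_subcover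
      (fun V0 => Metric.ball V0 (η V0)) (fun V0 hV0 => Metric.ball_mem_nhds V0
        (hη V0 (by simpa using hV0)))
    have hsub : {x : St b c × Kt b c | x.1 ∈ Q ∧
        ∃ W : E2, Reg 1 b c ρ δ (|c| + 4) C x.2.1 W} ⊆ ⋃ V0 ∈ (t : Set E2),
        {x : St b c × Kt b c | x.1 ∈ Q ∧
          ∃ W : E2, ‖W - V0‖ ≤ η V0 ∧ Reg 1 b c ρ δ (|c| + 4) C x.2.1 W} := by
      rintro x ⟨hx1, W, hW⟩
      have hWs : W ∈ Metric.sphere (0 : E2) 1 := by
        rw [mem_sphere_zero_iff_norm]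
        exact hW.unit
      obtain ⟨V0, hV0, hV1⟩ := mem_iUnion₂.1 (htc hWs)
      refine mem_iUnion₂.2 ⟨V0, hV0, hx1, W, ?_, hW⟩
      rw [Metric.mem_ball, dist_eq_norm] at hV1
      exact hV1.le
    refine measure_mono_null hsub ?_
    refine (measure_biUnion_null_iff t.countable_toSet).2 fun V0 hV0 => ?_
    refine hcon V0 ?_
    have := ht V0 hV0
    rwa [mem_sphere_zero_iff_norm] at this
  obtain ⟨H, hHd⟩ : ∃ H : ℝ, H = min (H1 V0) (h / 13) := ⟨_, rfl⟩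
  have hH : 0 < H := by
    rw [hHd]
    exact lt_min (hH1 V0 hV0) (by positivity)
  have hH13 : 13 * H ≤ h := by
    have : H ≤ h / 13 := by rw [hHd]; exact min_le_right _ _
    linarith
  obtain ⟨z0, hz0⟩ := jd_cover ν (fun x : St b c × Kt b c => x.2.1)
    (show (0 : ℝ) < H / 8 by positivity) hA2
  obtain ⟨ξ, hξ⟩ := hP V0 hV0 H hH (by rw [hHd]; exact min_le_left _ _) z0
  have hD0 : ν {x : St b c × Kt b c | x.1 ∈ Q ∧ x.2.1 ∈ QQ b c ρ δ C V0 z0 (η V0) H} ≠ 0 := by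
    intro h0
    apply hz0
    refine measure_mono_null ?_ h0
    rintro x ⟨⟨hx1, W, hW1, hW2⟩, hx3⟩
    exact ⟨hx1, le_of_lt hx3, W, hW1, hW2⟩
  have hDm : MeasurableSet {x : St b c × Kt b c | x.1 ∈ Q ∧
      x.2.1 ∈ QQ b c ρ δ C V0 z0 (η V0) H} := by
    refine (measurable_fst hQm).inter ?_
    exact (measurable_subtype_coe.comp measurable_snd)
      (qq_compact b c ρ δ C V0 z0 (η V0) H).isClosed.measurableSet
  have hsm : ∀ s ∈ Q, ∃ w ∈ closure (Brn b c s.1), 3 * H ≤ ‖w - z0‖ := by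
    intro s hs
    have hR : RS b c C1 s.1 := (hQB s hs).2.1
    have hc0 : Cu b c s.1 0 (cuf b c s.1 0) := cuf_spec hb0 hb1 hR 0
    have hch : Cu b c s.1 h (cuf b c s.1 h) := cuf_spec hb0 hb1 hR h
    have hlc := (h0d C1 s.1 hR h 0 (cuf b c s.1 h) (cuf b c s.1 0)
      (by rw [abs_of_pos hpos]; exact hle0) (by rw [abs_zero]; exact (h0p C1).le) hch hc0).2.2.1
    rw [sub_zero, abs_of_pos hpos] at hlc
    by_cases hw : 3 * H ≤ ‖cuf b c s.1 0 - z0‖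
    · exact ⟨_, subset_closure ⟨0, le_rfl, hc0⟩, hw⟩
    · refine ⟨_, subset_closure ⟨h, hpos.le, hch⟩, ?_⟩
      push Not at hw
      have e3 : cuf b c s.1 h - cuf b c s.1 0 =
        (cuf b c s.1 h - z0) - (cuf b c s.1 0 - z0) := by abel
      have e4 := norm_sub_le (cuf b c s.1 h - z0) (cuf b c s.1 0 - z0)
      rw [← e3] at e4
      linarith
  have hmain := half_arc hb0 hb1 hm hν h1 h2 hδ hρ hρ' hV0 hH hξ hr hQm hQB hdis hsm
  refine whole_arc hb0 hb1 hν hgs hδ hρ hρ' hreg hDm hD0 (C := C) (τ := H / 4) (by positivity) ?_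
  filter_upwards [hmain] with x hx hxD
  exact hx hxD.1 hxD.2

end Pool.Agent.HG
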