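import Pool.Agent.HD.Null
import Pool.Agent.HD.Orb
import Pool.Agent.HD.Alg

set_option autoImplicit false

/-!
# A nonatomic ergodic measure has a nonnegative upper exponent

If the exponent is negative, small balls around almost all points are contained in stable sets, which
are null sets.
-/

namespace Pool.Agent.HG

open Pool.Agent.HD MeasureTheory

/-- variation of constants for the differences of two orbits -/
private theorem ng_duhamel (b c : ℝ) (p q : E2) (n : ℕ) :
    (G 1 b c)^[n] q - (G 1 b c)^[n] p = act (co 1 b c p n) (q - p) +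
      ∑ i ∈ Finset.range n, act (co 1 b c ((G 1 b c)^[i + 1] p) (n - 1 - i))
        ((((G 1 b c)^[i] q - (G 1 b c)^[i] p).1 ^ 2, 0) : E2) := by
  induction n with
  | zero =>
    rw [Function.iterate_zero, id, id, Finset.range_zero, Finset.sum_empty, add_zero]
    exact (act_one (q - p)).symm
  | succ n ih =>
    have h1 : (G 1 b c)^[n + 1] q = (G 1 b c)^[n + 1] p +
        act (der 1 b ((G 1 b c)^[n] p)) ((G 1 b c)^[n] q - (G 1 b c)^[n] p) +
        ((((G 1 b c)^[n] q - (G 1 b c)^[n] p).1 ^ 2, 0) : E2) := by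
      have h2 := G_add 1 b c ((G 1 b c)^[n] p) ((G 1 b c)^[n] q - (G 1 b c)^[n] p)
      rw [add_sub_cancel, one_mul] at h2
      rw [Function.iterate_succ_apply', Function.iterate_succ_apply']
      exact h2
    have hact : ∀ (s : Finset ℕ) (M : M2) (f : ℕ → E2),
        act M (∑ i ∈ s, f i) = ∑ i ∈ s, act M (f i) := by
      intro s M f
      induction s using Finset.induction_on with
      | empty => rw [Finset.sum_empty, Finset.sum_empty, act_zero]
      | insert a s ha ih' => rw [Finset.sum_insert ha, Finset.sum_insert ha, act_add, ih']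
    have h3 : (G 1 b c)^[n + 1] q - (G 1 b c)^[n + 1] p =
        act (der 1 b ((G 1 b c)^[n] p)) ((G 1 b c)^[n] q - (G 1 b c)^[n] p) +
        ((((G 1 b c)^[n] q - (G 1 b c)^[n] p).1 ^ 2, 0) : E2) := by
      rw [h1]
      abel
    rw [h3, Finset.sum_range_succ, ← add_assoc]
    congr 1
    · conv_lhs => rw [ih]
      rw [act_add, hact, act_co_succ]
      congr 1
      refine Finset.sum_congr rfl fun i hi => ?_
      have hi' := Finset.mem_range.1 hi
      have e1 : n + 1 - 1 - i = (n - 1 - i) + 1 := by omega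
      rw [e1, act_co_succ, ← Function.iterate_add_apply]
      have e2 : n - 1 - i + (i + 1) = n := by omega
      rw [e2]
    · have e1 : n + 1 - 1 - n = 0 := by omega
      rw [e1]
      exact (act_one _).symm

private theorem ng_norm (v : E2) : ‖((v.1 ^ 2, 0) : E2)‖ ≤ ‖v‖ ^ 2 := by
  have h1 : |v.1| ≤ ‖v‖ := norm_fst_le v
  rw [Prod.norm_mk, norm_zero, max_le_iff]
  refine ⟨?_, sq_nonneg _⟩
  rw [Real.norm_eq_abs, abs_pow]
  exact pow_le_pow_left₀ (abs_nonneg _) h1 2

private theorem ng_geom {x : ℝ} (h0 : 0 ≤ x) (h1 : x < 1) (n : ℕ) :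
    ∑ i ∈ Finset.range n, x ^ i ≤ (1 - x)⁻¹ := by
  have h2 := geom_sum_mul_neg x n
  have h3 : 0 < 1 - x := by linarith
  rw [← one_div, le_div_iff₀ h3, h2]
  have := pow_nonneg h0 n
  linarith

private theorem ng_one_le {b c χ δ C : ℝ} {p : E2} (h : Up 1 b c χ δ C p) : 1 ≤ C := by
  have h1 := h 0 0
  have h2 : ‖co 1 b c ((G 1 b c)^[0] p) 0‖ = 1 := by
    show ‖(((1, 0), (0, 1)) : M2)‖ = 1
    simp [Prod.norm_def]
  rw [h2] at h1
  simpa using h1

/-- the main estimate -/
private theorem ng_main {b c δ C : ℝ} {p : E2} (hδ : 0 < δ) (h : Up 1 b c (-8 * δ) δ C p)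
    {q : E2} (hq : 16 * C ^ 2 * (Real.exp (8 * δ) * (1 - Real.exp (-6 * δ))⁻¹) * ‖q - p‖ ≤ 1)
    (n : ℕ) : ‖(G 1 b c)^[n] q - (G 1 b c)^[n] p‖ ≤
      4 * C * Real.exp (-(7 * δ) * n) * ‖q - p‖ := by
  have hC := ng_one_le h
  have hC0 : 0 < C := by linarith
  have hx1 : Real.exp (-6 * δ) < 1 := by
    rw [Real.exp_lt_one_iff]
    linarith
  have hx0 := (Real.exp_pos (-6 * δ)).le
  induction n using Nat.strong_induction_on with
  | _ n ih =>
    rw [ng_duhamel]
    refine (norm_add_le _ _).trans ?_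
    have h1 : ‖act (co 1 b c p n) (q - p)‖ ≤ 2 * C * Real.exp (-(7 * δ) * n) * ‖q - p‖ := by
      refine (norm_act_le _ _).trans ?_
      have h2 := h 0 n
      have e1 : (-8 * δ + δ) * (n : ℝ) + δ * ((0 : ℕ) : ℝ) = -(7 * δ) * n := by
        push_cast
        ring
      rw [e1] at h2
      have h3 : ‖co 1 b c p n‖ ≤ C * Real.exp (-(7 * δ) * n) := h2
      calc 2 * ‖co 1 b c p n‖ * ‖q - p‖ ≤ 2 * (C * Real.exp (-(7 * δ) * n)) * ‖q - p‖ := by
            gcongr
        _ = _ := by ring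
    have h2 : ‖∑ i ∈ Finset.range n, act (co 1 b c ((G 1 b c)^[i + 1] p) (n - 1 - i))
        ((((G 1 b c)^[i] q - (G 1 b c)^[i] p).1 ^ 2, 0) : E2)‖ ≤
        2 * C * Real.exp (-(7 * δ) * n) * ‖q - p‖ := by
      calc ‖∑ i ∈ Finset.range n, act (co 1 b c ((G 1 b c)^[i + 1] p) (n - 1 - i))
            ((((G 1 b c)^[i] q - (G 1 b c)^[i] p).1 ^ 2, 0) : E2)‖
          ≤ ∑ i ∈ Finset.range n, ‖act (co 1 b c ((G 1 b c)^[i + 1] p) (n - 1 - i))
            ((((G 1 b c)^[i] q - (G 1 b c)^[i] p).1 ^ 2, 0) : E2)‖ := norm_sum_le _ _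
        _ ≤ ∑ i ∈ Finset.range n, 32 * C ^ 3 * ‖q - p‖ ^ 2 * Real.exp (-(7 * δ) * n) *
            Real.exp (8 * δ) * Real.exp (-6 * δ) ^ i := by
            refine Finset.sum_le_sum fun i hi => ?_
            have hi' := Finset.mem_range.1 hi
            have g1 := h (i + 1) (n - 1 - i)
            have g2 := ih i hi'
            have g3 : ‖((((G 1 b c)^[i] q - (G 1 b c)^[i] p).1 ^ 2, 0) : E2)‖ ≤
                (4 * C * Real.exp (-(7 * δ) * i) * ‖q - p‖) ^ 2 :=
              (ng_norm _).trans (pow_le_pow_left₀ (norm_nonneg _) g2 2)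
            refine (norm_act_le _ _).trans ?_
            calc 2 * ‖co 1 b c ((G 1 b c)^[i + 1] p) (n - 1 - i)‖ *
                  ‖((((G 1 b c)^[i] q - (G 1 b c)^[i] p).1 ^ 2, 0) : E2)‖
                ≤ 2 * (C * Real.exp ((-8 * δ + δ) * ((n - 1 - i : ℕ) : ℝ) + δ * ((i + 1 : ℕ) : ℝ))) *
                  (4 * C * Real.exp (-(7 * δ) * i) * ‖q - p‖) ^ 2 := by
                  gcongr
              _ = 32 * C ^ 3 * ‖q - p‖ ^ 2 * (Real.exp ((-8 * δ + δ) * ((n - 1 - i : ℕ) : ℝ) +
                    δ * ((i + 1 : ℕ) : ℝ)) * Real.exp (-(7 * δ) * i) ^ 2) := by ring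
              _ = 32 * C ^ 3 * ‖q - p‖ ^ 2 * (Real.exp (-(7 * δ) * n) *
                    Real.exp (8 * δ) * Real.exp (-6 * δ) ^ i) := by
                  congr 1
                  rw [← Real.exp_nat_mul, ← Real.exp_nat_mul, ← Real.exp_add, ← Real.exp_add,
                    ← Real.exp_add]
                  congr 1
                  have e3 : ((n - 1 - i : ℕ) : ℝ) = n - 1 - i := by
                    rw [Nat.cast_sub (by omega), Nat.cast_sub (by omega)]
                    push_cast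
                    ring
                  rw [e3]
                  push_cast
                  ring
              _ = _ := by ring
        _ = 32 * C ^ 3 * ‖q - p‖ ^ 2 * Real.exp (-(7 * δ) * n) *
            Real.exp (8 * δ) * ∑ i ∈ Finset.range n, Real.exp (-6 * δ) ^ i := by
            rw [Finset.mul_sum]
        _ ≤ 32 * C ^ 3 * ‖q - p‖ ^ 2 * Real.exp (-(7 * δ) * n) *
            Real.exp (8 * δ) * (1 - Real.exp (-6 * δ))⁻¹ := by
            gcongr
            exact ng_geom hx0 hx1 n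
        _ = 2 * C * Real.exp (-(7 * δ) * n) * ‖q - p‖ * (16 * C ^ 2 * (Real.exp (8 * δ) *
            (1 - Real.exp (-6 * δ))⁻¹) * ‖q - p‖) := by ring
        _ ≤ 2 * C * Real.exp (-(7 * δ) * n) * ‖q - p‖ * 1 := by
            gcongr
        _ = _ := by ring
    calc _ ≤ 2 * C * Real.exp (-(7 * δ) * n) * ‖q - p‖ +
          2 * C * Real.exp (-(7 * δ) * n) * ‖q - p‖ := add_le_add h1 h2
      _ = _ := by ring

theorem exp_nonneg {b c χ : ℝ} {μ : Measure E2} [IsProbabilityMeasure μ]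
    (hμ : MeasurePreserving (G 1 b c) μ μ) (hna : ∀ p, μ {p} = 0)
    (h : ∀ δ : ℝ, 0 < δ → ∀ᵐ p ∂μ, ∃ C : ℝ, Up 1 b c χ δ C p) : 0 ≤ χ := by
  by_contra hχ
  rw [not_le] at hχ
  obtain ⟨δ, hδ⟩ : ∃ δ : ℝ, δ = -χ / 8 := ⟨_, rfl⟩
  have hδ0 : 0 < δ := by
    rw [hδ]
    linarith
  have hχδ : χ = -8 * δ := by
    rw [hδ]
    ring
  have hae := h δ hδ0
  rw [hχδ] at hae
  have hnull : μ {p : E2 | ∃ C : ℝ, Up 1 b c (-8 * δ) δ C p} = 0 := by
    refine measure_null_of_locally_null _ fun p hp => ?_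
    obtain ⟨C, hC⟩ := hp
    have h1 := ng_one_le hC
    have hx1 : Real.exp (-6 * δ) < 1 := by
      rw [Real.exp_lt_one_iff]
      linarith
    obtain ⟨K, hK⟩ : ∃ K : ℝ, K = 16 * C ^ 2 *
        (Real.exp (8 * δ) * (1 - Real.exp (-6 * δ))⁻¹) := ⟨_, rfl⟩
    have hK0 : 0 < K := by
      rw [hK]
      have h2 : 0 < (1 - Real.exp (-6 * δ))⁻¹ := inv_pos.2 (by linarith)
      have h3 := Real.exp_pos (8 * δ)
      have h4 : 0 < C := by linarith
      positivity
    refine ⟨Metric.ball p K⁻¹, mem_nhdsWithin_of_mem_nhds (Metric.ball_mem_nhds p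
      (inv_pos.2 hK0)), ?_⟩
    refine measure_mono_null (fun q hq => ?_) (null (continuous_G 1 b c) hμ hna p)
    rw [Metric.mem_ball, dist_eq_norm] at hq
    have hq2 : K * ‖q - p‖ ≤ 1 := by
      have := mul_le_mul_of_nonneg_left hq.le hK0.le
      rwa [mul_inv_cancel₀ hK0.ne'] at this
    rw [hK] at hq2
    refine ⟨7 * δ, by linarith, 4 * C * ‖q - p‖, fun n => ?_⟩
    rw [dist_eq_norm]
    refine (ng_main hδ0 hC hq2 n).trans (le_of_eq (by ring))
  have h2 : μ Set.univ = 0 := by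
    refine measure_mono_null (fun p _ => ?_) (measure_union_null hnull (ae_iff.1 hae))
    by_cases hp : ∃ C : ℝ, Up 1 b c (-8 * δ) δ C p
    · exact Or.inl hp
    · exact Or.inr hp
  rw [measure_univ] at h2
  exact one_ne_zero h2

end Pool.Agent.HG
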