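import Pool.Agent.HD.Main
import Pool.Agent.HG.Jd
import Pool.Agent.HG.Gd0
import Pool.Agent.HG.Ng

set_option autoImplicit false

/-!
# Joinings of bad measures with their limit sets

The second marginal of the joining is an ergodic measure without atoms; its exponent is zero
(otherwise `join_half` contradicts `pig`), so that the rate of its stable curves is `el b`, and
`join_half` gives the branches in the limit set.
-/

namespace Pool.Agent.HG

open Pool.Agent.HD MeasureTheory Set Filter Topology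

variable {b c : ℝ}

/-- the growth rate of the operator norm of the derivative -/
private theorem je_lim {χ : ℝ} (hb : b ≠ 0) {p : E2}
    (hp : Tendsto (fun n : ℕ => Real.log ‖co 1 b c p n‖ / n) atTop (𝓝 χ)) :
    Tendsto (fun n : ℕ => Real.log ‖fderiv ℝ ((G 1 b c)^[n]) p‖ / n) atTop (𝓝 χ) := by
  have hup : Tendsto (fun n : ℕ => Real.log 2 / n + Real.log ‖co 1 b c p n‖ / n) atTop (𝓝 χ) := by
    have h0 : Tendsto (fun n : ℕ => Real.log 2 / (n : ℝ)) atTop (𝓝 0) :=
      tendsto_const_div_atTop_nhds_zero_nat _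
    simpa using h0.add hp
  refine tendsto_of_tendsto_of_tendsto_of_le_of_le hp hup (fun n => ?_) (fun n => ?_)
  · have := Real.log_le_log (co_ne_zero hb p n) (norm_co_le_fderiv 1 b c n p)
    exact div_le_div_of_nonneg_right this (Nat.cast_nonneg n)
  · have h1 : 0 < ‖fderiv ℝ ((G 1 b c)^[n]) p‖ :=
      (co_ne_zero hb p n).trans_le (norm_co_le_fderiv 1 b c n p)
    have h2 := Real.log_le_log h1 (norm_fderiv_le_co 1 b c n p)
    rw [Real.log_mul two_ne_zero (co_ne_zero hb p n).ne'] at h2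
    have h3 := div_le_div_of_nonneg_right h2 (Nat.cast_nonneg n : (0 : ℝ) ≤ n)
    rw [add_div] at h3
    exact h3

private theorem je_meas : Measurable fun x : St b c × Kt b c => (x.2 : E2) :=
  measurable_subtype_coe.comp measurable_snd

/-- the second marginal has no atoms -/
private theorem je_na (hb0 : b ≠ 0) (hb1 : |b| < 1) {m : Measure (St b c)} (hm : Bad b c m)
    {ν : Measure (St b c × Kt b c)} [IsProbabilityMeasure ν]
    (hν : Ergodic (Prod.map (FS b c) (fK b c)) ν) (h1 : ν.map Prod.fst = m)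
    (h2 : ∀ᵐ x : St b c × Kt b c ∂ν, x.2.1 ∈ Lim b c x.1.1) (p : E2) :
    (ν.map fun x : St b c × Kt b c => (x.2 : E2)) {p} = 0 := by
  rw [Measure.map_apply je_meas (measurableSet_singleton p)]
  by_cases hp : p ∈ KK b c
  · refine measure_mono_null (fun x hx => ?_) (join_na hb0 hb1 hm hν h1 h2 ⟨p, hp⟩)
    exact Subtype.ext hx
  · refine measure_mono_null (t := ∅) (fun x hx => ?_) measure_empty
    have hx' : (x.2 : E2) = p := hx
    exact hp (hx' ▸ x.2.2)

/-- the second marginal is ergodic -/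
private theorem je_erg (hb0 : b ≠ 0) {ν : Measure (St b c × Kt b c)}
    (hν : Ergodic (Prod.map (FS b c) (fK b c)) ν) :
    Ergodic (G 1 b c) (ν.map fun x : St b c × Kt b c => (x.2 : E2)) :=
  ergodic_map je_meas (continuous_G 1 b c).measurable (fun y => fK_val hb0 y.2) hν

/-- the limit sets are in the square of the bounded orbits -/
private theorem je_sub (hb0 : b ≠ 0) (hb1 : |b| < 1) {m : Measure (St b c)} (hm : Bad b c m)
    {ν : Measure (St b c × Kt b c)} (h1 : ν.map Prod.fst = m) :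
    ∀ᵐ x : St b c × Kt b c ∂ν, Lim b c x.1.1 ⊆ KK b c := by
  have h := hm.gs
  rw [← h1] at h
  filter_upwards [ae_of_ae_map measurable_fst.aemeasurable h] with x hx
  exact (lim_compact hb0 hb1 hx).2.2

/-- the exponent of the second marginal is zero -/
private theorem je_zero (hb0 : b ≠ 0) (hb1 : |b| < 1) {m : Measure (St b c)} (hm : Bad b c m)
    {ν : Measure (St b c × Kt b c)} [IsProbabilityMeasure ν]
    (hν : Ergodic (Prod.map (FS b c) (fK b c)) ν) (h1 : ν.map Prod.fst = m)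
    (h2 : ∀ᵐ x : St b c × Kt b c ∂ν, x.2.1 ∈ Lim b c x.1.1) {χ : ℝ}
    (hlim : ∀ᵐ p ∂(ν.map fun x : St b c × Kt b c => (x.2 : E2)),
      Tendsto (fun n : ℕ => Real.log ‖co 1 b c p n‖ / n) atTop (𝓝 χ)) : ¬ 0 < χ := by
  intro hχ
  have hmeas := je_meas (b := b) (c := c)
  have : IsProbabilityMeasure (ν.map fun x : St b c × Kt b c => (x.2 : E2)) :=
    Measure.isProbabilityMeasure_map hmeas.aemeasurable
  have hμ := je_erg hb0 hν
  have hna := je_na hb0 hb1 hm hν h1 h2
  have hpos : (ν.map fun x : St b c × Kt b c => (x.2 : E2))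
      {p | 0 < limsup (fun n : ℕ => Real.log ‖fderiv ℝ ((G 1 b c)^[n]) p‖ / n) atTop} ≠ 0 := by
    have h3 : ∀ᵐ p ∂(ν.map fun x : St b c × Kt b c => (x.2 : E2)),
        p ∈ {p | 0 < limsup (fun n : ℕ => Real.log ‖fderiv ℝ ((G 1 b c)^[n]) p‖ / n) atTop} := by
      filter_upwards [hlim] with p hp
      show 0 < limsup _ _
      rw [(je_lim hb0 hp).limsup_eq]
      exact hχ
    intro h4
    have h6 : ∀ᵐ p ∂(ν.map fun x : St b c × Kt b c => (x.2 : E2)), False := by
      filter_upwards [h3, measure_eq_zero_iff_ae_notMem.1 h4] with p hp hp'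
      exact hp' hp
    obtain ⟨p, hp⟩ := h6.exists
    exact hp
  obtain ⟨χ', hχ', hgood⟩ := good hb0 hb1 hμ hpos
  have hpig := ae_of_ae_map hmeas.aemeasurable (pig hb0 hb1 hχ' hμ hna hgood)
  have hgood' := ae_of_ae_map hmeas.aemeasurable hgood
  have hlog : Real.log |b| < 0 := Real.log_neg (abs_pos.2 hb0) hb1
  have hreg : ∀ᵐ x : St b c × Kt b c ∂ν, ∃ C' V,
      Reg 1 b c (χ' - Real.log |b|) (χ' / 100) (|c| + 4) C' x.2.1 V := by
    filter_upwards [hgood'] with x hx
    obtain ⟨V, U, hVU⟩ := hx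
    obtain ⟨C, hC, -⟩ := hVU (χ' / 100) (by positivity) (by linarith)
    exact ⟨C, V, hC⟩
  have hj := join_half hb0 hb1 hm hν h1 h2 (by positivity) (by linarith) (by linarith) hreg
  have hF : ∀ᵐ x : St b c × Kt b c ∂ν, False := by
    filter_upwards [hj, hpig, je_sub hb0 hb1 hm h1] with x hx hx' hs
    obtain ⟨C, V, hCV, hb⟩ := hx
    refine hx' C V hCV (|c| + 4) fun t ht q hq => ?_
    rw [mem_closedBall_zero_iff]
    simpa using (hs (hb t q ht hq)).1 0
  obtain ⟨x, hx⟩ := hF.exists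
  exact hx

theorem join (hb0 : b ≠ 0) (hb1 : |b| < 1) {m : Measure (St b c)} (hm : Bad b c m)
    {ν : Measure (St b c × Kt b c)} [IsProbabilityMeasure ν]
    (hν : Ergodic (Prod.map (FS b c) (fK b c)) ν) (h1 : ν.map Prod.fst = m)
    (h2 : ∀ᵐ x : St b c × Kt b c ∂ν, x.2.1 ∈ Lim b c x.1.1) :
    ∀ᵐ x : St b c × Kt b c ∂ν, ∃ W : E2, (x.2.1, W) ∈ GS b c ∧
      Brn b c (x.2.1, W) ⊆ Lim b c x.1.1 := by
  have hmeas := je_meas (b := b) (c := c)
  have : IsProbabilityMeasure (ν.map fun x : St b c × Kt b c => (x.2 : E2)) :=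
    Measure.isProbabilityMeasure_map hmeas.aemeasurable
  have hμ := je_erg hb0 hν
  have hna := je_na hb0 hb1 hm hν h1 h2
  obtain ⟨χ, hlim, -, hup⟩ := ergF (c := c) hb0 hb1 hμ
  have h0 : 0 ≤ χ := exp_nonneg hμ.toMeasurePreserving hna hup
  obtain rfl : χ = 0 := le_antisymm (not_lt.1 (je_zero hb0 hb1 hm hν h1 h2 hlim)) h0
  have hg := ae_of_ae_map hmeas.aemeasurable (good0 hb0 hb1 hμ le_rfl hlim hup)
  have hel : el b = 0 - Real.log |b| := by
    unfold el
    ring
  have hreg : ∀ᵐ x : St b c × Kt b c ∂ν, ∃ C' V,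
      Reg 1 b c (el b) (dl b) (|c| + 4) C' x.2.1 V := by
    filter_upwards [hg] with x hx
    obtain ⟨-, V, hV⟩ := hx
    obtain ⟨C, hC⟩ := hV (dl b) (dl_pos hb0 hb1) (by
      rw [← hel]
      exact dl_le hb0 hb1)
    rw [← hel] at hC
    exact ⟨C, V, hC⟩
  have hj := join_half hb0 hb1 hm hν h1 h2 (dl_pos hb0 hb1) (dl_le hb0 hb1)
    (by rw [hel]; linarith) hreg
  filter_upwards [hj, je_sub hb0 hb1 hm h1] with x hx hs
  obtain ⟨C, V, hCV, hbr⟩ := hx
  have hB : Brn b c (x.2.1, V) ⊆ Lim b c x.1.1 := by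
    rintro q ⟨t, ht, hq⟩
    exact hbr t q ht hq
  exact ⟨V, ⟨x.2.2, ⟨C, hCV⟩, hB.trans hs⟩, hB⟩

end Pool.Agent.HG
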