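import Pool.Agent.HG.Em

set_option autoImplicit false

/-!
# Ergodic lifts to extensions with one or two points in the fibres

`tpN A ω` is the number of the points of `E ∩ A` over `ω`, `Q A` its integral. `Q` is invariant (`tpN_step`), with values in
`{0, 1, 2}` on invariant sets; `ν` is the conditional measure of `Q` on an invariant set of minimal positive measure.
-/

namespace Pool.Agent.HG

open MeasureTheory Set

open Classical in
/-- the number of the points of `E ∩ A` among `a1 ω`, `a2 ω`. -/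
private noncomputable def tpN {Ω Y : Type*} (a1 a2 : Ω → Y) (E A : Set Y) (ω : Ω) : ℕ :=
  (if a1 ω ∈ E ∩ A then 1 else 0) + (if a2 ω ∈ E ∩ A then 1 else 0)

private theorem tpN_eq {Ω Y : Type*} {π : Y → Ω} {a1 a2 : Ω → Y} (h1 : ∀ ω, π (a1 ω) = ω)
    (h2 : ∀ ω, π (a2 ω) = ω) (hne : ∀ ω, a1 ω ≠ a2 ω) {E : Set Y} (A : Set Y) {ω : Ω}
    (h : ∀ y ∈ E, π y = ω → y = a1 ω ∨ y = a2 ω) :
    tpN a1 a2 E A ω = {y | y ∈ E ∧ y ∈ A ∧ π y = ω}.ncard := by
  classical
  unfold tpN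
  by_cases c1 : a1 ω ∈ E ∩ A
  · by_cases c2 : a2 ω ∈ E ∩ A
    · have e : {y | y ∈ E ∧ y ∈ A ∧ π y = ω} = {a1 ω, a2 ω} := by
        ext y
        simp only [mem_ofPred_eq, mem_insert_iff, mem_singleton_iff]
        constructor
        · rintro ⟨hy, _, hπ⟩; exact h y hy hπ
        · rintro (rfl | rfl)
          · exact ⟨c1.1, c1.2, h1 ω⟩
          · exact ⟨c2.1, c2.2, h2 ω⟩
      rw [e, if_pos c1, if_pos c2, ncard_pair (hne ω)]
    · have e : {y | y ∈ E ∧ y ∈ A ∧ π y = ω} = {a1 ω} := by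
        ext y
        simp only [mem_ofPred_eq, mem_singleton_iff]
        constructor
        · rintro ⟨hy, hA, hπ⟩
          rcases h y hy hπ with h' | h'
          · exact h'
          · exact absurd ⟨h' ▸ hy, h' ▸ hA⟩ c2
        · rintro rfl
          exact ⟨c1.1, c1.2, h1 ω⟩
      rw [e, if_pos c1, if_neg c2, ncard_singleton]
  · by_cases c2 : a2 ω ∈ E ∩ A
    · have e : {y | y ∈ E ∧ y ∈ A ∧ π y = ω} = {a2 ω} := by
        ext y
        simp only [mem_ofPred_eq, mem_singleton_iff]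
        constructor
        · rintro ⟨hy, hA, hπ⟩
          rcases h y hy hπ with h' | h'
          · exact absurd ⟨h' ▸ hy, h' ▸ hA⟩ c1
          · exact h'
        · rintro rfl
          exact ⟨c2.1, c2.2, h2 ω⟩
      rw [e, if_neg c1, if_pos c2, ncard_singleton]
    · have e : {y | y ∈ E ∧ y ∈ A ∧ π y = ω} = ∅ := by
        ext y
        simp only [mem_ofPred_eq, mem_empty_iff_false, iff_false]
        rintro ⟨hy, hA, hπ⟩
        rcases h y hy hπ with h' | h'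
        · exact c1 ⟨h' ▸ hy, h' ▸ hA⟩
        · exact c2 ⟨h' ▸ hy, h' ▸ hA⟩
      rw [e, if_neg c1, if_neg c2, ncard_empty]

private theorem tpN_step {Ω Y : Type*} {T : Ω → Ω} {S : Y → Y} {π : Y → Ω} (hc : ∀ y, π (S y) = T (π y))
    {a1 a2 : Ω → Y} (h1 : ∀ ω, π (a1 ω) = ω)
    (h2 : ∀ ω, π (a2 ω) = ω) (hne : ∀ ω, a1 ω ≠ a2 ω) {E : Set Y} (A : Set Y) {ω : Ω}
    (hb : (∃ y ∈ E, π y = ω) ∧ (∀ y ∈ E, π y = ω → y = a1 ω ∨ y = a2 ω) ∧
      (∀ y ∈ E, π y = ω → S y ∈ E) ∧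
      (∀ y ∈ E, ∀ y' ∈ E, π y = ω → π y' = ω → S y = S y' → y = y') ∧
      ∀ y' ∈ E, π y' = T ω → ∃ y ∈ E, π y = ω ∧ S y = y')
    (hb' : ∀ y ∈ E, π y = T ω → y = a1 (T ω) ∨ y = a2 (T ω)) :
    tpN a1 a2 E (S ⁻¹' A) ω = tpN a1 a2 E A (T ω) := by
  obtain ⟨-, b2, b3, b4, b5⟩ := hb
  rw [tpN_eq h1 h2 hne _ b2, tpN_eq h1 h2 hne _ hb']
  have e : {y | y ∈ E ∧ y ∈ A ∧ π y = T ω} = S '' {y | y ∈ E ∧ y ∈ S ⁻¹' A ∧ π y = ω} := by
    ext y'
    simp only [mem_ofPred_eq, mem_image, mem_preimage]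
    constructor
    · rintro ⟨hy, hA, hπ⟩
      obtain ⟨y, hyE, hyπ, hyS⟩ := b5 y' hy hπ
      exact ⟨y, ⟨hyE, by rw [hyS]; exact hA, hyπ⟩, hyS⟩
    · rintro ⟨y, ⟨hyE, hA, hyπ⟩, rfl⟩
      exact ⟨b3 y hyE hyπ, hA, by rw [hc, hyπ]⟩
  rw [e, InjOn.ncard_image]
  intro y hy y' hy' heq
  exact b4 y hy.1 y' hy'.1 hy.2.2 hy'.2.2 heq

theorem two_point {Ω Y : Type*} [MeasurableSpace Ω] [MeasurableSpace Y] {T : Ω → Ω} {S : Y → Y}
    {π : Y → Ω} (hT : Measurable T) (hS : Measurable S) (hπ : Measurable π)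
    (hc : ∀ y, π (S y) = T (π y)) {P : Measure Ω} [IsProbabilityMeasure P] (hP : Ergodic T P)
    {a1 a2 : Ω → Y} (ha1 : Measurable a1) (ha2 : Measurable a2) (h1 : ∀ ω, π (a1 ω) = ω)
    (h2 : ∀ ω, π (a2 ω) = ω) (hne : ∀ ω, a1 ω ≠ a2 ω) {E : Set Y} (hE : MeasurableSet E)
    (hb : ∀ᵐ ω ∂P, (∃ y ∈ E, π y = ω) ∧ (∀ y ∈ E, π y = ω → y = a1 ω ∨ y = a2 ω) ∧
      (∀ y ∈ E, π y = ω → S y ∈ E) ∧
      (∀ y ∈ E, ∀ y' ∈ E, π y = ω → π y' = ω → S y = S y' → y = y') ∧
      ∀ y' ∈ E, π y' = T ω → ∃ y ∈ E, π y = ω ∧ S y = y') :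
    ∃ ν : Measure Y, IsProbabilityMeasure ν ∧ Ergodic S ν ∧ ν.map π = P ∧ ∀ᵐ y ∂ν, y ∈ E := by
  classical
  set Q : Measure Y := (P.restrict (a1 ⁻¹' E)).map a1 + (P.restrict (a2 ⁻¹' E)).map a2 with hQdef
  have hQ : ∀ A : Set Y, MeasurableSet A → Q A = ∫⁻ ω, (tpN a1 a2 E A ω : ENNReal) ∂P := by
    intro A hA
    have m1 : MeasurableSet (a1 ⁻¹' (E ∩ A)) := ha1 (hE.inter hA)
    have m2 : MeasurableSet (a2 ⁻¹' (E ∩ A)) := ha2 (hE.inter hA)
    have e : ∀ ω, (tpN a1 a2 E A ω : ENNReal) =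
        (a1 ⁻¹' (E ∩ A)).indicator (fun _ => 1) ω + (a2 ⁻¹' (E ∩ A)).indicator (fun _ => 1) ω := by
      intro ω
      unfold tpN
      simp only [indicator, mem_preimage]
      push_cast
      rfl
    simp only [e]
    rw [lintegral_add_left (measurable_const.indicator m1), lintegral_indicator_const m1,
      lintegral_indicator_const m2, one_mul, one_mul, hQdef, Measure.add_apply,
      Measure.map_apply ha1 hA, Measure.map_apply ha2 hA, Measure.restrict_apply (ha1 hA),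
      Measure.restrict_apply (ha2 hA), preimage_inter, preimage_inter, inter_comm (a1 ⁻¹' E), inter_comm (a2 ⁻¹' E)]
  have hN : ∀ A : Set Y, MeasurableSet A → Measurable (tpN a1 a2 E A) := by
    intro A hA
    unfold tpN
    exact (Measurable.ite (ha1 (hE.inter hA)) measurable_const measurable_const).add
      (Measurable.ite (ha2 (hE.inter hA)) measurable_const measurable_const)
  have hstep : ∀ A : Set Y, ∀ᵐ ω ∂P, tpN a1 a2 E (S ⁻¹' A) ω = tpN a1 a2 E A (T ω) := by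
    intro A
    have hb2 := hP.quasiMeasurePreserving.ae hb
    filter_upwards [hb, hb2] with ω hω hω2
    exact tpN_step hc h1 h2 hne A hω hω2.2.1
  -- invariance
  have hinv : MeasurePreserving S Q Q := by
    refine ⟨hS, ?_⟩
    ext A hA
    rw [Measure.map_apply hS hA, hQ _ (hS hA), hQ _ hA, lintegral_congr_ae
      ((hstep A).mono fun ω hω => by rw [hω])]
    rw [← hP.lintegral_comp (f := fun ω => (tpN a1 a2 E A ω : ENNReal)) (measurable_from_nat.comp (hN A hA))]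
  -- values
  have hval : ∀ A : Set Y, MeasurableSet A → S ⁻¹' A = A → ∃ c : ℕ, c ≤ 2 ∧ Q A = c ∧
      tpN a1 a2 E A =ᵐ[P] Function.const Ω c := by
    intro A hA hSA
    have hs := hstep A
    rw [hSA] at hs
    obtain ⟨c, hc⟩ := hP.ae_eq_const_of_ae_eq_comp₀ (g := tpN a1 a2 E A) (hN A hA).nullMeasurable
      (hs.mono fun ω hω => hω.symm)
    refine ⟨c, ?_, ?_, hc⟩
    · obtain ⟨ω, hω⟩ := hc.exists
      rw [← show tpN a1 a2 E A ω = c from hω]
      unfold tpN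
      split_ifs <;> norm_num
    · rw [hQ A hA, lintegral_congr_ae (g := fun _ => (c : ENNReal)) (hc.mono fun ω hω => by rw [hω]; rfl)]
      simp
  obtain ⟨c0, hc02, hc0, hc0'⟩ := hval univ MeasurableSet.univ preimage_univ
  have hc01 : 1 ≤ c0 := by
    obtain ⟨ω, hω, hω2⟩ := (hb.and hc0').exists
    obtain ⟨⟨y, hyE, hyπ⟩, b2, -⟩ := hω
    rw [← show tpN a1 a2 E univ ω = c0 from hω2, tpN_eq h1 h2 hne _ b2, Nat.one_le_iff_ne_zero, Ne,
      ncard_eq_zero (((Set.toFinite {a1 ω, a2 ω})).subset fun z hz => b2 z hz.1 hz.2.2)]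
    exact fun h => by
      have : y ∈ (∅ : Set Y) := by rw [← h]; exact ⟨hyE, mem_univ _, hyπ⟩
      exact this
  -- a minimal invariant set
  obtain ⟨A, hA, hSA, hA0, hmin⟩ : ∃ A : Set Y, MeasurableSet A ∧ S ⁻¹' A = A ∧ Q A ≠ 0 ∧
      ∀ B : Set Y, MeasurableSet B → S ⁻¹' B = B → Q (A ∩ B) ≠ 0 → Q A ≤ Q (A ∩ B) := by
    by_cases hex : ∃ A : Set Y, MeasurableSet A ∧ S ⁻¹' A = A ∧ Q A = 1
    · obtain ⟨A, hA, hSA, hQA⟩ := hex
      refine ⟨A, hA, hSA, by rw [hQA]; exact one_ne_zero, fun B hB hSB h0 => ?_⟩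
      obtain ⟨c, -, hc, -⟩ := hval (A ∩ B) (hA.inter hB) (by rw [preimage_inter, hSA, hSB])
      rw [hc] at h0 ⊢
      rw [hQA]
      have : c ≠ 0 := by rintro rfl; exact h0 (by simp)
      exact_mod_cast Nat.one_le_iff_ne_zero.2 this
    · refine ⟨univ, MeasurableSet.univ, preimage_univ, ?_, fun B hB hSB h0 => ?_⟩
      · rw [hc0]
        have : c0 ≠ 0 := by omega
        exact_mod_cast this
      · rw [univ_inter] at h0 ⊢
        obtain ⟨c, -, hc, -⟩ := hval B hB hSB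
        rw [hc] at h0 ⊢
        rw [hc0]
        have h3 : c ≠ 0 := by rintro rfl; exact h0 (by simp)
        have h4 : c ≠ 1 := by rintro rfl; exact hex ⟨B, hB, hSB, by rw [hc]; simp⟩
        have : c0 ≤ c := by omega
        exact_mod_cast this
  have hfin : Q A ≠ ⊤ := by
    obtain ⟨c, -, hc, -⟩ := hval A hA hSA
    rw [hc]; exact ENNReal.natCast_ne_top c
  set ν : Measure Y := (Q A)⁻¹ • Q.restrict A with hν
  have hνp : IsProbabilityMeasure ν := by
    refine ⟨?_⟩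
    rw [hν, Measure.smul_apply, Measure.restrict_apply_univ, smul_eq_mul, ENNReal.inv_mul_cancel hA0 hfin]
  have hνinv : MeasurePreserving S ν ν := by
    have h := hinv.restrict_preimage hA
    rw [hSA] at h
    exact h.smul_measure _
  have hνB : ∀ B : Set Y, MeasurableSet B → ν B = (Q A)⁻¹ * Q (B ∩ A) := by
    intro B hB
    rw [hν, Measure.smul_apply, Measure.restrict_apply hB, smul_eq_mul]
  refine ⟨ν, hνp, ⟨hνinv, ⟨fun B hB hSB => ?_⟩⟩, ?_, ?_⟩
  · rw [Filter.eventuallyConst_set']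
    by_cases h0 : Q (A ∩ B) = 0
    · left
      rw [ae_eq_empty, hνB B hB, inter_comm, h0, mul_zero]
    · right
      rw [ae_eq_univ, hνB _ hB.compl]
      have h3 := hmin B hB hSB h0
      have h4 : Q (A ∩ B) + Q (Bᶜ ∩ A) = Q A := by
        rw [inter_comm Bᶜ A, show A ∩ Bᶜ = A \ B from rfl, measure_inter_add_sdiff A hB]
      have h5 : Q (Bᶜ ∩ A) = 0 := by
        have h6 : Q A + Q (Bᶜ ∩ A) ≤ Q A := by
          calc Q A + Q (Bᶜ ∩ A) ≤ Q (A ∩ B) + Q (Bᶜ ∩ A) := by gcongr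
            _ = Q A := h4
        have h7 : Q A + Q (Bᶜ ∩ A) ≤ Q A + 0 := by rw [add_zero]; exact h6
        exact le_antisymm ((ENNReal.add_le_add_iff_left hfin).1 h7) bot_le
      rw [h5, mul_zero]
  · have hpp : IsProbabilityMeasure (ν.map π) := Measure.isProbabilityMeasure_map hπ.aemeasurable
    refine eq_of_ac hP ⟨hT, ?_⟩ ?_
    · rw [Measure.map_map hT hπ]
      have e : T ∘ π = π ∘ S := by funext y; exact (hc y).symm
      rw [e, ← Measure.map_map hπ hS, hνinv.map_eq]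
    · refine Measure.AbsolutelyContinuous.mk fun B hB h0 => ?_
      rw [Measure.map_apply hπ hB, hνB _ (hπ hB)]
      have h4 : Q (π ⁻¹' B) = 0 := by
        rw [hQdef, Measure.add_apply, Measure.map_apply ha1 (hπ hB), Measure.map_apply ha2 (hπ hB)]
        have e1 : a1 ⁻¹' (π ⁻¹' B) = B := by ext ω; simp [h1]
        have e2 : a2 ⁻¹' (π ⁻¹' B) = B := by ext ω; simp [h2]
        rw [e1, e2]
        have h5 : P.restrict (a1 ⁻¹' E) B = 0 := le_antisymm (h0 ▸ Measure.restrict_apply_le _ _) bot_le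
        have h6 : P.restrict (a2 ⁻¹' E) B = 0 := le_antisymm (h0 ▸ Measure.restrict_apply_le _ _) bot_le
        rw [h5, h6, add_zero]
      rw [measure_mono_null inter_subset_left h4, mul_zero]
  · have h3 : Q Eᶜ = 0 := by
      rw [hQdef, Measure.add_apply, Measure.map_apply ha1 hE.compl, Measure.map_apply ha2 hE.compl,
        Measure.restrict_apply (ha1 hE.compl), Measure.restrict_apply (ha2 hE.compl)]
      simp
    rw [ae_iff]
    have e : {a | ¬a ∈ E} = Eᶜ := rfl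
    rw [e, hνB _ hE.compl]
    rw [measure_mono_null inter_subset_left h3, mul_zero]

end Pool.Agent.HG
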