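import Pool.Agent.HG.Ex1
import Pool.Agent.HG.Tp
import Pool.Agent.HG.Dp
import Pool.Agent.HG.Je

set_option autoImplicit false

/-!
# Extension of a chain law by a further state

A point `z` of all limit sets (`ext_z`) carries a regular direction whose branch is in all limit sets (`join`, for the
infinitely many indices with the same sign); `two_point` gives an ergodic measure on the pairs of a chain and such a state.
-/

namespace Pool.Agent.HG

open Pool.Agent.HD MeasureTheory Set

variable {b c : ℝ}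

private theorem x2_lg_sub (s : E2 × E2) : LG b c s ⊆ Lim b c s := by
  unfold LG
  split_ifs
  · exact subset_rfl
  · exact empty_subset _

private theorem x2_lg_eq {s : E2 × E2} (h : s ∈ GS b c) : LG b c s = Lim b c s := by
  unfold LG
  rw [if_pos h]

private theorem x2_lg_closed (hb0 : b ≠ 0) (hb1 : |b| < 1) (s : E2 × E2) : IsClosed (LG b c s) := by
  by_cases h : s ∈ GS b c
  · rw [x2_lg_eq h]
    exact (lim_compact hb0 hb1 h).2.1.isClosed
  · unfold LG
    rw [if_neg h]
    exact isClosed_empty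

private theorem x2_lg_kk (hb0 : b ≠ 0) (hb1 : |b| < 1) (s : E2 × E2) : LG b c s ⊆ KK b c := by
  by_cases h : s ∈ GS b c
  · rw [x2_lg_eq h]
    exact (lim_compact hb0 hb1 h).2.2
  · unfold LG
    rw [if_neg h]
    exact empty_subset _

private theorem x2_lg_ne (hb0 : b ≠ 0) (hb1 : |b| < 1) (s : E2 × E2) : (LG b c s).Nonempty ↔ s ∈ GS b c := by
  constructor
  · intro h
    by_contra hn
    unfold LG at h
    rw [if_neg hn] at h
    exact h.ne_empty rfl
  · intro h
    rw [x2_lg_eq h]
    exact (lim_compact hb0 hb1 h).1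

/-- the set of the pairs of a state and a point of its limit set -/
private theorem x2_mem_meas (hb0 : b ≠ 0) (hb1 : |b| < 1) :
    MeasurableSet {x : St b c × Kt b c | x.1.1 ∈ GS b c ∧ x.2.1 ∈ LG b c x.1.1} := by
  obtain ⟨D, hD, hDd⟩ := TopologicalSpace.exists_countable_dense E2
  have h : {x : St b c × Kt b c | x.1.1 ∈ GS b c ∧ x.2.1 ∈ LG b c x.1.1} =
      {x : St b c × Kt b c | x.1.1 ∈ GS b c} ∩
        ⋂ a ∈ D, {x : St b c × Kt b c | Metric.infDist a (LG b c x.1.1) ≤ dist a x.2.1} := by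
    ext x
    constructor
    · rintro ⟨h1, h2⟩
      refine ⟨h1, mem_iInter₂.2 fun a _ => ?_⟩
      exact Metric.infDist_le_dist_of_mem h2
    · rintro ⟨h1, h2⟩
      refine ⟨h1, ?_⟩
      have h3 := mem_iInter₂.1 h2
      have hne := (x2_lg_ne hb0 hb1 x.1.1).2 h1
      rw [← (x2_lg_closed hb0 hb1 x.1.1).closure_eq, Metric.mem_closure_iff_infDist_zero hne]
      have h4 : ∀ a : E2, Metric.infDist a (LG b c x.1.1) ≤ dist a x.2.1 := by
        have hcl : IsClosed {a : E2 | Metric.infDist a (LG b c x.1.1) ≤ dist a x.2.1} :=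
          isClosed_le (Metric.continuous_infDist_pt _) (continuous_id.dist continuous_const)
        intro a
        have h5 := hcl.closure_subset_iff.2 (fun a ha => h3 a ha)
        exact h5 (hDd a)
      have h5 := h4 x.2.1
      rw [dist_self] at h5
      exact le_antisymm h5 Metric.infDist_nonneg
  rw [h]
  refine MeasurableSet.inter ?_ (MeasurableSet.biInter hD fun a _ => ?_)
  · exact (measurable_subtype_coe.comp measurable_fst) (gs_meas hb0 hb1)
  · refine measurableSet_le ((lg_meas hb0 hb1 a).comp (measurable_subtype_coe.comp measurable_fst)) ?_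
    exact measurable_const.dist (measurable_subtype_coe.comp measurable_snd)

/-- inverse of the derivative -/
private theorem x2_inv (hb0 : b ≠ 0) {z v : E2} (hv : ‖v‖ = 1) : ∃ W : E2, ‖W‖ = 1 ∧
    ‖act (der 1 b z) W‖⁻¹ • act (der 1 b z) W = v := by
  obtain ⟨W0, hW0⟩ : ∃ W0 : E2, act (der 1 b z) W0 = v := by
    refine ⟨(v.2, (2 * z.1 * v.2 - v.1) / b), ?_⟩
    apply Prod.ext
    · simp only [act, der]
      field_simp
      ring
    · simp [act, der]
  have hne : W0 ≠ 0 := by
    rintro rfl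
    have : v = 0 := by
      rw [← hW0]
      simp [act]
    rw [this, norm_zero] at hv
    exact zero_ne_one hv
  have hn : 0 < ‖W0‖ := norm_pos_iff.2 hne
  have hact : act (der 1 b z) (‖W0‖⁻¹ • W0) = ‖W0‖⁻¹ • v := by
    rw [← hW0]
    apply Prod.ext
    · simp only [act, Prod.smul_fst, Prod.smul_snd, smul_eq_mul]
      ring
    · simp only [act, Prod.smul_fst, Prod.smul_snd, smul_eq_mul]
      ring
  refine ⟨‖W0‖⁻¹ • W0, ?_, ?_⟩
  · rw [norm_smul, norm_inv, norm_norm, inv_mul_cancel₀ hn.ne']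
  · rw [hact, norm_smul, norm_inv, norm_norm, hv, mul_one, inv_inv, smul_smul, mul_inv_cancel₀ hn.ne', one_smul]

private theorem x2_act_neg (M : M2) (v : E2) : act M (-v) = -act M v := by
  apply Prod.ext
  · simp only [act, Prod.fst_neg, Prod.snd_neg]
    ring
  · simp only [act, Prod.fst_neg, Prod.snd_neg]
    ring

/-- the projection to the chain and the base point -/
private def x2pi (b c : ℝ) (y : (ℕ → St b c) × St b c) : (ℕ → St b c) × Kt b c := (y.1, ⟨y.2.1.1, y.2.2.1⟩)

private theorem x2_pi_meas : Measurable (x2pi b c) :=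
  measurable_fst.prodMk ((measurable_fst.comp (measurable_subtype_coe.comp measurable_snd)).subtype_mk)

private noncomputable def x2a1 (b c : ℝ) (x : (ℕ → St b c) × Kt b c) : (ℕ → St b c) × St b c :=
  (x.1, ⟨(x.2.1, dirp b c x.2.1), x.2.2, dirp_norm _⟩)

private noncomputable def x2a2 (b c : ℝ) (x : (ℕ → St b c) × Kt b c) : (ℕ → St b c) × St b c :=
  (x.1, ⟨(x.2.1, -dirp b c x.2.1), x.2.2, by rw [norm_neg]; exact dirp_norm _⟩)

private theorem x2_a1_meas (hb0 : b ≠ 0) (hb1 : |b| < 1) : Measurable (x2a1 b c) := by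
  refine measurable_fst.prodMk (Measurable.subtype_mk ?_)
  exact (measurable_subtype_coe.comp measurable_snd).prodMk
    ((dirp_meas hb0 hb1).comp (measurable_subtype_coe.comp measurable_snd))

private theorem x2_a2_meas (hb0 : b ≠ 0) (hb1 : |b| < 1) : Measurable (x2a2 b c) := by
  refine measurable_fst.prodMk (Measurable.subtype_mk ?_)
  exact (measurable_subtype_coe.comp measurable_snd).prodMk
    (((dirp_meas hb0 hb1).comp (measurable_subtype_coe.comp measurable_snd)).neg)

/-- the set of good pairs -/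
private def x2E (b c : ℝ) : Set ((ℕ → St b c) × St b c) :=
  {y | (∃ C : ℝ, RS b c C y.2.1) ∧ ∀ i : ℕ, Brn b c y.2.1 ⊆ LG b c (y.1 i).1}

private theorem x2_E_meas (hb0 : b ≠ 0) (hb1 : |b| < 1) : MeasurableSet (x2E b c) := by
  have h := meas_sub (c := c) hb0 hb1 (Ω := St b c) (B := fun s => LG b c s.1) (fun s => x2_lg_closed hb0 hb1 s.1)
    (by
      have h2 : {s : St b c | (LG b c s.1).Nonempty} = {s : St b c | s.1 ∈ GS b c} := by
        ext s
        exact x2_lg_ne hb0 hb1 s.1
      rw [h2]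
      exact measurable_subtype_coe (gs_meas hb0 hb1))
    (fun a => (lg_meas hb0 hb1 a).comp measurable_subtype_coe)
  have h3 : x2E b c = ⋂ i : ℕ, (fun y : (ℕ → St b c) × St b c => (y.1 i, y.2.1)) ⁻¹'
      {x : St b c × (E2 × E2) | (∃ C : ℝ, RS b c C x.2) ∧ Brn b c x.2 ⊆ LG b c x.1.1} := by
    ext y
    simp only [x2E, mem_ofPred_eq, mem_iInter, mem_preimage]
    constructor
    · rintro ⟨h1, h2⟩ i
      exact ⟨h1, h2 i⟩
    · intro h1
      exact ⟨(h1 0).1, fun i => (h1 i).2⟩
  rw [h3]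
  refine MeasurableSet.iInter fun i => ?_
  have h4 : Measurable fun y : (ℕ → St b c) × St b c => (y.1 i, y.2.1) :=
    ((measurable_pi_apply i).comp measurable_fst).prodMk (measurable_subtype_coe.comp measurable_snd)
  exact h4 h

private theorem x2_T_meas (hb0 : b ≠ 0) : Measurable (Prod.map (TS b c) (fK b c)) := by
  refine Measurable.prodMap ?_ (continuous_fK hb0).measurable
  refine measurable_pi_iff.2 fun i => ?_
  exact (continuous_FS hb0).measurable.comp (measurable_pi_apply i)

private theorem x2_S_meas (hb0 : b ≠ 0) : Measurable (Prod.map (TS b c) (FS b c)) := by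
  refine Measurable.prodMap ?_ (continuous_FS hb0).measurable
  refine measurable_pi_iff.2 fun i => ?_
  exact (continuous_FS hb0).measurable.comp (measurable_pi_apply i)

/-- the branch and the limit set of the next state -/
private theorem x2_step (hb0 : b ≠ 0) (hb1 : |b| < 1) (s : St b c) :
    Brn b c (FS b c s).1 = G 1 b c '' Brn b c s.1 ∧ Lim b c (FS b c s).1 = G 1 b c '' Lim b c s.1 ∧
      ((FS b c s).1 ∈ GS b c ↔ s.1 ∈ GS b c) := by
  have h1 : ((FS b c s : St b c) : E2 × E2) = sn b c s.1 1 := by rw [FS_val hb0, sn_one]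
  rw [h1, brn_shift hb0 hb1 s.2.2, lim_shift hb0 hb1 s.2.2, gs_shift hb0 hb1 s.2.2]
  exact ⟨by rw [Function.iterate_one], by rw [Function.iterate_one], Iff.rfl⟩

private theorem x2_lg_step (hb0 : b ≠ 0) (hb1 : |b| < 1) {s : St b c} (hs : s.1 ∈ GS b c) :
    LG b c (FS b c s).1 = G 1 b c '' LG b c s.1 := by
  obtain ⟨-, h2, h3⟩ := x2_step hb0 hb1 s
  rw [x2_lg_eq (h3.2 hs), x2_lg_eq hs, h2]

/-- the properties of typical base points -/
private theorem x2_base (hb0 : b ≠ 0) (hb1 : |b| < 1) {P : Measure (ℕ → St b c)} (hP : Chain b c P)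
    {ν : Measure ((ℕ → St b c) × Kt b c)} [IsProbabilityMeasure ν]
    (hν : Ergodic (Prod.map (TS b c) (fK b c)) ν) (hfst : ν.map Prod.fst = P)
    (hz : ∀ᵐ x ∂ν, ∀ i : ℕ, x.2.1 ∈ Lim b c (x.1 i).1) :
    ∀ᵐ x ∂ν, (∀ i : ℕ, (x.1 i).1 ∈ GS b c) ∧
      ∃ W : E2, (x.2.1, W) ∈ GS b c ∧ ∀ i : ℕ, Brn b c (x.2.1, W) ⊆ Lim b c (x.1 i).1 := by
  have hgs : ∀ᵐ x ∂ν, ∀ i : ℕ, (x.1 i).1 ∈ GS b c := by
    have h1 : ∀ i : ℕ, ∀ᵐ ω ∂P, (ω i).1 ∈ GS b c := fun i =>
      ae_of_ae_map (measurable_pi_apply i).aemeasurable (hP.bad i).gs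
    have h2 := ae_all_iff.2 h1
    rw [← hfst] at h2
    exact ae_of_ae_map measurable_fst.aemeasurable h2
  have hnest : ∀ᵐ x ∂ν, ∀ i : ℕ, Lim b c (x.1 (i + 1)).1 ⊆ Lim b c (x.1 i).1 := by
    have h2 := ae_all_iff.2 hP.nest
    rw [← hfst] at h2
    exact ae_of_ae_map measurable_fst.aemeasurable h2
  have hjoin : ∀ᵐ x ∂ν, ∀ i : ℕ, ∃ W : E2, (x.2.1, W) ∈ GS b c ∧ Brn b c (x.2.1, W) ⊆ Lim b c (x.1 i).1 := by
    refine ae_all_iff.2 fun i => ?_
    have hm : Measurable fun x : (ℕ → St b c) × Kt b c => (x.1 i, x.2) :=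
      ((measurable_pi_apply i).comp measurable_fst).prodMk measurable_snd
    have hS : Measurable (Prod.map (FS b c) (fK b c)) :=
      Measurable.prodMap (continuous_FS hb0).measurable (continuous_fK hb0).measurable
    have herg := ergodic_map hm hS (T := Prod.map (TS b c) (fK b c)) (fun x => rfl) hν
    have hpr : IsProbabilityMeasure (ν.map fun x : (ℕ → St b c) × Kt b c => (x.1 i, x.2)) :=
      Measure.isProbabilityMeasure_map hm.aemeasurable
    have h1 : (ν.map fun x : (ℕ → St b c) × Kt b c => (x.1 i, x.2)).map Prod.fst = P.map fun ω => ω i := by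
      rw [← hfst, Measure.map_map measurable_fst hm, Measure.map_map (measurable_pi_apply i) measurable_fst]
      rfl
    have h2 : ∀ᵐ x : St b c × Kt b c ∂(ν.map fun x : (ℕ → St b c) × Kt b c => (x.1 i, x.2)),
        x.2.1 ∈ Lim b c x.1.1 := by
      have h3 : ∀ᵐ x : St b c × Kt b c ∂(ν.map fun x : (ℕ → St b c) × Kt b c => (x.1 i, x.2)),
          x.1.1 ∈ GS b c ∧ x.2.1 ∈ LG b c x.1.1 := by
        rw [ae_map_iff hm.aemeasurable (x2_mem_meas hb0 hb1)]
        filter_upwards [hgs, hz] with x hx1 hx2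
        refine ⟨hx1 i, ?_⟩
        rw [x2_lg_eq (hx1 i)]
        exact hx2 i
      filter_upwards [h3] with x hx
      exact x2_lg_sub _ hx.2
    exact ae_of_ae_map hm.aemeasurable (join hb0 hb1 (hP.bad i) herg h1 h2)
  filter_upwards [hgs, hnest, hjoin] with x hx1 hx2 hx3
  refine ⟨hx1, ?_⟩
  have hanti : ∀ i k : ℕ, Lim b c (x.1 (i + k)).1 ⊆ Lim b c (x.1 i).1 := by
    intro i k
    induction k with
    | zero => exact subset_rfl
    | succ k ih => exact (hx2 (i + k)).trans ih
  choose W hW1 hW2 using hx3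
  by_cases hinf : ∀ i : ℕ, ∃ k : ℕ, W (i + k) = dirp b c x.2.1
  · obtain ⟨k0, hk0⟩ := hinf 0
    refine ⟨dirp b c x.2.1, by rw [← hk0]; exact hW1 _, fun i => ?_⟩
    obtain ⟨k, hk⟩ := hinf i
    have h4 := hW2 (i + k)
    rw [hk] at h4
    exact h4.trans (hanti i k)
  · push Not at hinf
    obtain ⟨i0, hi0⟩ := hinf
    have hneg : ∀ k : ℕ, W (i0 + k) = -dirp b c x.2.1 := by
      intro k
      obtain ⟨-, ⟨C, hC⟩, -⟩ := hW1 (i0 + k)
      rcases dirp_spec hb0 hb1 hC with h5 | h5
      · exact absurd h5 (hi0 k)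
      · exact h5
    refine ⟨-dirp b c x.2.1, by rw [← hneg 0]; exact hW1 _, fun i => ?_⟩
    have h4 := hW2 (i0 + i)
    rw [hneg i] at h4
    have h5 := hanti i i0
    rw [add_comm i i0] at h5
    exact h4.trans h5

theorem ext_w (hb0 : b ≠ 0) (hb1 : |b| < 1) {P : Measure (ℕ → St b c)} (hP : Chain b c P) :
    ∃ Q : Measure ((ℕ → St b c) × St b c), IsProbabilityMeasure Q ∧
      Ergodic (Prod.map (TS b c) (FS b c)) Q ∧ Q.map Prod.fst = P ∧
      Bad b c (Q.map Prod.snd) ∧
      ∀ᵐ x ∂Q, ∀ i : ℕ, Brn b c x.2.1 ⊆ Lim b c (x.1 i).1 ∧ x.2.1.1 ∈ Lim b c (x.1 i).1 := by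
  obtain ⟨ν, hνp, hν, hfst, hz⟩ := ext_z hb0 hb1 hP
  have hbase := x2_base hb0 hb1 hP hν hfst hz
  have hne : ∀ x : (ℕ → St b c) × Kt b c, x2a1 b c x ≠ x2a2 b c x := by
    intro x h
    have h1 : dirp b c x.2.1 = -dirp b c x.2.1 := by
      have h2 := congrArg (fun y : (ℕ → St b c) × St b c => y.2.1.2) h
      exact h2
    have h3 : dirp b c x.2.1 = 0 := self_eq_neg.1 h1
    have h4 := dirp_norm (b := b) (c := c) x.2.1
    rw [h3, norm_zero] at h4
    exact zero_ne_one h4
  obtain ⟨Q, hQp, hQ, hQπ, hQE⟩ := two_point (x2_T_meas hb0) (x2_S_meas hb0) (x2_pi_meas (b := b) (c := c))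
    (by
      intro y
      refine Prod.ext rfl (Subtype.ext ?_)
      show (FS b c y.2).1.1 = (fK b c ⟨y.2.1.1, y.2.2.1⟩ : Kt b c).1
      rw [FS_val hb0, fK_val hb0]
      rfl)
    hν (x2_a1_meas hb0 hb1) (x2_a2_meas hb0 hb1) (fun x => rfl) (fun x => rfl) hne
    (x2_E_meas (b := b) (c := c) hb0 hb1) (by
      filter_upwards [hbase] with x hx
      obtain ⟨hgs, W, hW, hWs⟩ := hx
      have hover : ∀ y ∈ x2E b c, x2pi b c y = x → y = x2a1 b c x ∨ y = x2a2 b c x := by
        intro y hy hyx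
        obtain ⟨⟨C, hC⟩, -⟩ := hy
        have e1 : y.1 = x.1 := congrArg Prod.fst hyx
        have e2 : y.2.1.1 = x.2.1 := congrArg (fun x : (ℕ → St b c) × Kt b c => x.2.1) hyx
        have hC' : RS b c C (y.2.1.1, y.2.1.2) := hC
        rcases dirp_spec hb0 hb1 hC' with h5 | h5
        · left
          refine Prod.ext e1 (Subtype.ext (Prod.ext e2 ?_))
          show y.2.1.2 = dirp b c x.2.1
          rw [h5, e2]
        · right
          refine Prod.ext e1 (Subtype.ext (Prod.ext e2 ?_))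
          show y.2.1.2 = -dirp b c x.2.1
          rw [h5, e2]
      refine ⟨⟨(x.1, ⟨(x.2.1, W), x.2.2, ?_⟩), ?_, rfl⟩, hover, ?_, ?_, ?_⟩
      · obtain ⟨-, ⟨C, hC⟩, -⟩ := hW
        exact Reg.unit hC
      · obtain ⟨-, hC, -⟩ := hW
        refine ⟨hC, fun i => ?_⟩
        show Brn b c (x.2.1, W) ⊆ LG b c (x.1 i).1
        rw [x2_lg_eq (hgs i)]
        exact hWs i
      · intro y hy hyx
        obtain ⟨⟨C, hC⟩, hB⟩ := hy
        have e1 : y.1 = x.1 := congrArg Prod.fst hyx
        constructor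
        · show ∃ C, RS b c C (FS b c y.2).1
          rw [FS_val hb0, ← sn_one]
          exact rs_shift hb0 hb1 hC 1
        · intro i
          show Brn b c (FS b c y.2).1 ⊆ LG b c (FS b c (y.1 i)).1
          have hg : (y.1 i).1 ∈ GS b c := by rw [e1]; exact hgs i
          rw [(x2_step hb0 hb1 y.2).1, x2_lg_step hb0 hb1 hg]
          exact image_mono (hB i)
      · intro y hy y' hy' hyx hyx' hSS
        have e2 : y.2.1.1 = x.2.1 := congrArg (fun x : (ℕ → St b c) × Kt b c => x.2.1) hyx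
        have e2' : y'.2.1.1 = x.2.1 := congrArg (fun x : (ℕ → St b c) × Kt b c => x.2.1) hyx'
        have hF : F1 b c y.2.1 = F1 b c y'.2.1 := by
          have h5 := congrArg (fun y : (ℕ → St b c) × St b c => y.2.1) hSS
          have h6 : ((FS b c y.2 : St b c) : E2 × E2) = (FS b c y'.2 : St b c) := h5
          rwa [FS_val hb0, FS_val hb0] at h6
        have hF2 : ‖act (der 1 b y.2.1.1) y.2.1.2‖⁻¹ • act (der 1 b y.2.1.1) y.2.1.2 =
            ‖act (der 1 b y'.2.1.1) y'.2.1.2‖⁻¹ • act (der 1 b y'.2.1.1) y'.2.1.2 := congrArg Prod.snd hF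
        have hkey : ∀ V : E2, ‖V‖ = 1 → ‖act (der 1 b x.2.1) V‖⁻¹ • act (der 1 b x.2.1) V ≠
            ‖act (der 1 b x.2.1) (-V)‖⁻¹ • act (der 1 b x.2.1) (-V) := by
          intro V hV h6
          rw [x2_act_neg, norm_neg, smul_neg] at h6
          have h7 := self_eq_neg.1 h6
          have h8 : act (der 1 b x.2.1) V ≠ 0 := act_der_ne hb0 (by
            rintro rfl
            rw [norm_zero] at hV
            exact zero_ne_one hV)
          rcases smul_eq_zero.1 h7 with h9 | h9
          · exact norm_ne_zero_iff.2 h8 (inv_eq_zero.1 h9)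
          · exact h8 h9
        rcases hover y hy hyx with h5 | h5 <;> rcases hover y' hy' hyx' with h5' | h5'
        · rw [h5, h5']
        · exfalso
          rw [h5, h5'] at hF2
          exact hkey _ (dirp_norm _) hF2
        · exfalso
          rw [h5, h5'] at hF2
          exact hkey _ (dirp_norm _) hF2.symm
        · rw [h5, h5']
      · intro y' hy' hyx'
        obtain ⟨⟨C, hC⟩, hB⟩ := hy'
        have e1 : y'.1 = TS b c x.1 := congrArg Prod.fst hyx'
        have e2 : y'.2.1.1 = G 1 b c x.2.1 := by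
          have h5 : y'.2.1.1 = (fK b c x.2).1 := congrArg (fun x : (ℕ → St b c) × Kt b c => x.2.1) hyx'
          rw [h5, fK_val hb0]
        obtain ⟨W', hW'1, hW'2⟩ := x2_inv (z := x.2.1) hb0 y'.2.2.2
        have hFS : FS b c ⟨(x.2.1, W'), x.2.2, hW'1⟩ = y'.2 := by
          apply Subtype.ext
          rw [FS_val hb0]
          exact Prod.ext e2.symm hW'2
        refine ⟨(x.1, ⟨(x.2.1, W'), x.2.2, hW'1⟩), ⟨?_, fun i => ?_⟩, rfl, Prod.ext e1.symm hFS⟩
        · show ∃ C, RS b c C (x.2.1, W')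
          apply rs_unshift hb0 hb1 (s := (x.2.1, W')) hW'1 x.2.2 1 (C := C)
          have h6 : sn b c (x.2.1, W') 1 = y'.2.1 := by
            rw [sn_one, ← hFS, FS_val hb0]
          rw [h6]
          exact hC
        · show Brn b c (x.2.1, W') ⊆ LG b c (x.1 i).1
          have h7 := hB i
          rw [e1, ← hFS, (x2_step hb0 hb1 _).1] at h7
          have h8 : LG b c (TS b c x.1 i).1 = G 1 b c '' LG b c (x.1 i).1 := x2_lg_step hb0 hb1 (hgs i)
          rw [h8] at h7
          exact (image_subset_image_iff (G_injective hb0)).1 h7)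
  have hgood : ∀ᵐ y ∂Q, ∀ i : ℕ, y.2.1.1 ∈ Lim b c (y.1 i).1 := by
    have h1 := hz
    rw [← hQπ] at h1
    exact ae_of_ae_map x2_pi_meas.aemeasurable h1
  refine ⟨Q, hQp, hQ, ?_, ?_, ?_⟩
  · rw [← hfst, ← hQπ, Measure.map_map measurable_fst x2_pi_meas]
    rfl
  · refine ⟨Measure.isProbabilityMeasure_map measurable_snd.aemeasurable,
      ergodic_map measurable_snd (continuous_FS hb0).measurable (fun y => rfl) hQ, fun p => ?_, ?_⟩
    · have hm1 : MeasurableSet ((fun s : St b c => s.1.1) ⁻¹' {p}) :=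
        (measurable_fst.comp measurable_subtype_coe) (measurableSet_singleton p)
      rw [Measure.map_apply measurable_snd hm1]
      by_cases hp : p ∈ KK b c
      · have hm : Measurable fun x : (ℕ → St b c) × Kt b c => (x.1 0, x.2) :=
          ((measurable_pi_apply 0).comp measurable_fst).prodMk measurable_snd
        have hS : Measurable (Prod.map (FS b c) (fK b c)) :=
          Measurable.prodMap (continuous_FS hb0).measurable (continuous_fK hb0).measurable
        have herg := ergodic_map hm hS (T := Prod.map (TS b c) (fK b c)) (fun x => rfl) hν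
        have hpr : IsProbabilityMeasure (ν.map fun x : (ℕ → St b c) × Kt b c => (x.1 0, x.2)) :=
          Measure.isProbabilityMeasure_map hm.aemeasurable
        have h1 : (ν.map fun x : (ℕ → St b c) × Kt b c => (x.1 0, x.2)).map Prod.fst = P.map fun ω => ω 0 := by
          rw [← hfst, Measure.map_map measurable_fst hm, Measure.map_map (measurable_pi_apply 0) measurable_fst]
          rfl
        have h2 : ∀ᵐ x : St b c × Kt b c ∂(ν.map fun x : (ℕ → St b c) × Kt b c => (x.1 0, x.2)),
            x.2.1 ∈ Lim b c x.1.1 := by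
          have h3 : ∀ᵐ x : St b c × Kt b c ∂(ν.map fun x : (ℕ → St b c) × Kt b c => (x.1 0, x.2)),
              x.1.1 ∈ GS b c ∧ x.2.1 ∈ LG b c x.1.1 := by
            rw [ae_map_iff hm.aemeasurable (x2_mem_meas hb0 hb1)]
            filter_upwards [hbase, hz] with x hx1 hx2
            refine ⟨hx1.1 0, ?_⟩
            rw [x2_lg_eq (hx1.1 0)]
            exact hx2 0
          filter_upwards [h3] with x hx
          exact x2_lg_sub _ hx.2
        have h4 := join_na hb0 hb1 (hP.bad 0) herg h1 h2 ⟨p, hp⟩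
        have hm2 : MeasurableSet ((Prod.snd : St b c × Kt b c → Kt b c) ⁻¹' {⟨p, hp⟩}) :=
          measurable_snd (measurableSet_singleton _)
        rw [Measure.map_apply hm hm2, ← hQπ, Measure.map_apply x2_pi_meas (hm hm2)] at h4
        rw [← h4]
        congr 1
        ext y
        simp only [mem_preimage, mem_singleton_iff, x2pi]
        constructor
        · intro h5
          exact Subtype.ext h5
        · intro h5
          exact congrArg Subtype.val h5
      · have h5 : (Prod.snd : (ℕ → St b c) × St b c → St b c) ⁻¹' ((fun s : St b c => s.1.1) ⁻¹' {p}) = ∅ := by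
          ext y
          simp only [mem_preimage, mem_singleton_iff, mem_empty_iff_false, iff_false]
          intro h6
          exact hp (h6 ▸ y.2.2.1)
        rw [h5, measure_empty]
    · rw [ae_map_iff measurable_snd.aemeasurable (measurable_subtype_coe (gs_meas hb0 hb1))]
      filter_upwards [hQE] with y hy
      exact ⟨y.2.2.1, hy.1, (hy.2 0).trans (x2_lg_kk hb0 hb1 _)⟩
  · filter_upwards [hQE, hgood] with y hy hy2 i
    exact ⟨(hy.2 i).trans (x2_lg_sub _), hy2 i⟩

end Pool.Agent.HG
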