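import Pool.Agent.HG.Im

set_option autoImplicit false

/-!
# A strictly monotone functional of the limit set

`ph` is the weighted sum of `d / (1 + d)`, `d` the distance of the points of a dense sequence to the limit set
of the branch. It is measurable, bounded by `2`, decreasing in the limit set, and along states whose limit sets
contain a point outside the limit set of `s'` it is smaller than `ph s'` by a fixed amount.
-/

namespace Pool.Agent.HG

open Pool.Agent.HD MeasureTheory Set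

variable {b c : ℝ}

/-- the functional -/
noncomputable def ph (b c : ℝ) (s : E2 × E2) : ℝ :=
  ∑' i : ℕ, (1 / 2 : ℝ) ^ i *
    (Metric.infDist (TopologicalSpace.denseSeq E2 i) (LG b c s) /
      (1 + Metric.infDist (TopologicalSpace.denseSeq E2 i) (LG b c s)))

private theorem ps_mono {x y : ℝ} (hx : 0 ≤ x) (h : x ≤ y) : x / (1 + x) ≤ y / (1 + y) := by
  rw [div_le_div_iff₀ (by linarith) (by linarith)]
  nlinarith

private theorem ps_lt {x y : ℝ} (hx : 0 ≤ x) (h : x < y) : x / (1 + x) < y / (1 + y) := by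
  rw [div_lt_div_iff₀ (by linarith) (by linarith)]
  nlinarith

private theorem ps_nonneg {x : ℝ} (hx : 0 ≤ x) : 0 ≤ x / (1 + x) := div_nonneg hx (by linarith)

private theorem ps_le_one {x : ℝ} (hx : 0 ≤ x) : x / (1 + x) ≤ 1 := by
  rw [div_le_one (by linarith)]
  linarith

private noncomputable def tm (b c : ℝ) (s : E2 × E2) (i : ℕ) : ℝ := (1 / 2 : ℝ) ^ i *
    (Metric.infDist (TopologicalSpace.denseSeq E2 i) (LG b c s) /
      (1 + Metric.infDist (TopologicalSpace.denseSeq E2 i) (LG b c s)))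

private theorem tm_nonneg (s : E2 × E2) (i : ℕ) : 0 ≤ tm b c s i :=
  mul_nonneg (by positivity) (ps_nonneg Metric.infDist_nonneg)

private theorem tm_le (s : E2 × E2) (i : ℕ) : tm b c s i ≤ (1 / 2 : ℝ) ^ i := by
  unfold tm
  have h1 : (0 : ℝ) ≤ (1 / 2 : ℝ) ^ i := by positivity
  calc _ ≤ (1 / 2 : ℝ) ^ i * 1 := mul_le_mul_of_nonneg_left (ps_le_one Metric.infDist_nonneg) h1
    _ = _ := mul_one _

private theorem tm_sum (s : E2 × E2) : Summable (tm b c s) :=
  Summable.of_nonneg_of_le (tm_nonneg s) (tm_le s) summable_geometric_two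

private theorem ph_eq (s : E2 × E2) : ph b c s = ∑' i, tm b c s i := rfl

theorem ph_meas (hb0 : b ≠ 0) (hb1 : |b| < 1) : Measurable (ph b c) := by
  have h1 : ∀ i : ℕ, Measurable fun s : E2 × E2 => tm b c s i := by
    intro i
    unfold tm
    have h2 := lg_meas (c := c) hb0 hb1 (TopologicalSpace.denseSeq E2 i)
    exact (h2.div (measurable_const.add h2)).const_mul _
  apply measurable_of_tendsto_metrizable
    (f := fun (n : ℕ) (s : E2 × E2) => ∑ i ∈ Finset.range n, tm b c s i)
  · intro n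
    exact Finset.measurable_fun_sum _ fun i _ => h1 i
  · rw [tendsto_pi_nhds]
    intro s
    rw [ph_eq]
    exact (tm_sum s).hasSum.tendsto_sum_nat

theorem ph_le (s : E2 × E2) : 0 ≤ ph b c s ∧ ph b c s ≤ 2 := by
  rw [ph_eq]
  refine ⟨tsum_nonneg (tm_nonneg s), ?_⟩
  rw [← tsum_geometric_two]
  exact (tm_sum s).tsum_le_tsum (tm_le s) summable_geometric_two

private theorem lg_eq {s : E2 × E2} (h : s ∈ GS b c) : LG b c s = Lim b c s := by
  unfold LG
  rw [if_pos h]

private theorem tm_mono (hb0 : b ≠ 0) (hb1 : |b| < 1) {s s' : E2 × E2} (h : s ∈ GS b c)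
    (h' : s' ∈ GS b c) (hl : Lim b c s' ⊆ Lim b c s) (i : ℕ) : tm b c s i ≤ tm b c s' i := by
  unfold tm
  apply mul_le_mul_of_nonneg_left _ (by positivity)
  apply ps_mono Metric.infDist_nonneg
  rw [lg_eq h, lg_eq h']
  exact Metric.infDist_le_infDist_of_subset hl (lim_compact hb0 hb1 h').1

theorem ph_mono (hb0 : b ≠ 0) (hb1 : |b| < 1) {s s' : E2 × E2} (h : s ∈ GS b c)
    (h' : s' ∈ GS b c) (hl : Lim b c s' ⊆ Lim b c s) : ph b c s ≤ ph b c s' := by
  rw [ph_eq, ph_eq]
  exact (tm_sum s).tsum_le_tsum (tm_mono hb0 hb1 h h' hl) (tm_sum s')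

theorem ph_gap (hb0 : b ≠ 0) (hb1 : |b| < 1) {u : ℕ → E2 × E2} (hu : ∀ i, u i ∈ GS b c)
    {s' : E2 × E2} (hs' : s' ∈ GS b c) (hl : ∀ i, Lim b c s' ⊆ Lim b c (u i)) {z : E2}
    (hz : ∀ i, z ∈ Lim b c (u i)) (hz' : z ∉ Lim b c s') :
    ∃ γ : ℝ, 0 < γ ∧ ∀ i, ph b c (u i) + γ ≤ ph b c s' := by
  obtain ⟨hne, hcomp, -⟩ := lim_compact hb0 hb1 hs'
  set ε := Metric.infDist z (Lim b c s') with hε
  have hε0 : 0 < ε := (hcomp.isClosed.notMem_iff_infDist_pos hne).1 hz'
  obtain ⟨i0, hi0⟩ := (TopologicalSpace.denseRange_denseSeq E2).exists_dist_lt z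
    (show 0 < ε / 3 by linarith)
  refine ⟨(1 / 2 : ℝ) ^ i0 * (2 * ε / 3 / (1 + 2 * ε / 3) - ε / 3 / (1 + ε / 3)), ?_, fun j => ?_⟩
  · apply mul_pos (by positivity)
    have := ps_lt (show 0 ≤ ε / 3 by linarith) (show ε / 3 < 2 * ε / 3 by linarith)
    linarith
  · have h1 : tm b c (u j) i0 ≤ (1 / 2 : ℝ) ^ i0 * (ε / 3 / (1 + ε / 3)) := by
      unfold tm
      apply mul_le_mul_of_nonneg_left _ (by positivity)
      apply ps_mono Metric.infDist_nonneg
      rw [lg_eq (hu j)]
      have h2 := Metric.infDist_le_dist_of_mem (x := TopologicalSpace.denseSeq E2 i0) (hz j)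
      rw [dist_comm] at h2
      linarith
    have h3 : (1 / 2 : ℝ) ^ i0 * (2 * ε / 3 / (1 + 2 * ε / 3)) ≤ tm b c s' i0 := by
      unfold tm
      apply mul_le_mul_of_nonneg_left _ (by positivity)
      apply ps_mono (by linarith)
      rw [lg_eq hs']
      have h4 : Metric.infDist z (Lim b c s') ≤
          Metric.infDist (TopologicalSpace.denseSeq E2 i0) (Lim b c s') +
            dist z (TopologicalSpace.denseSeq E2 i0) := Metric.infDist_le_infDist_add_dist
      rw [← hε] at h4
      linarith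
    have h5 : Summable fun i => tm b c s' i - tm b c (u j) i := (tm_sum s').sub (tm_sum (u j))
    have h6 : ∑' i, (tm b c s' i - tm b c (u j) i) = ph b c s' - ph b c (u j) := by
      rw [ph_eq, ph_eq]
      exact (tm_sum s').tsum_sub (tm_sum (u j))
    have h7 : tm b c s' i0 - tm b c (u j) i0 ≤ ∑' i, (tm b c s' i - tm b c (u j) i) := by
      apply h5.le_tsum i0
      intro i _
      have := tm_mono hb0 hb1 (hu j) hs' (hl j) i
      linarith
    rw [h6] at h7
    rw [mul_sub]
    linarith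

end Pool.Agent.HG
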