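import Pool.Agent.HG.El

set_option autoImplicit false

/-!
# Projective limits of ergodic measures

The set of the invariant probability measures with the given projections is closed, not empty (a
limit along an ultrafilter) and closed under conditioning on invariant sets; `exists_ergodic`.
-/

namespace Pool.Agent.HG

open MeasureTheory

/-- the sequence with all terms after the index `j` replaced by the term `j` -/
def trunc {S : Type*} (j : ℕ) (ω : ℕ → S) : ℕ → S := fun i => ω (min i j)

private theorem pl_trunc {S : Type*} {i j : ℕ} (h : j ≤ i) (ω : ℕ → S) :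
    trunc j (trunc i ω) = trunc j ω := by
  funext k
  simp only [trunc]
  congr 1
  omega

private theorem pl_cont {S : Type*} [TopologicalSpace S] (j : ℕ) :
    Continuous (trunc j : (ℕ → S) → (ℕ → S)) :=
  continuous_pi fun i => continuous_apply (min i j)

private theorem pl_aux {S : Type*} [TopologicalSpace S] [CompactSpace S]
    [TopologicalSpace.MetrizableSpace S] [SecondCountableTopology S] [MeasurableSpace S]
    [BorelSpace S] {F : S → S}
    (hF : Continuous F) (P : ℕ → Measure (ℕ → S)) (hp : ∀ j, IsProbabilityMeasure (P j))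
    (hP : ∀ j, Ergodic (fun (ω : ℕ → S) (i : ℕ) => F (ω i)) (P j))
    (hc : ∀ j, (P (j + 1)).map (trunc j) = (P j).map (trunc j)) :
    ∃ Q : Measure (ℕ → S), IsProbabilityMeasure Q ∧
      Ergodic (fun (ω : ℕ → S) (i : ℕ) => F (ω i)) Q ∧
      ∀ j, Q.map (trunc j) = (P j).map (trunc j) := by
  let Tm : (ℕ → S) → (ℕ → S) := fun (ω : ℕ → S) (i : ℕ) => F (ω i)
  have hTc : Continuous Tm := continuous_pi fun i => hF.comp (continuous_apply i)
  have hTm : Measurable Tm := hTc.measurable
  have htm : ∀ j, Measurable (trunc j : (ℕ → S) → (ℕ → S)) := fun j => (pl_cont j).measurable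
  have hcomm : ∀ j ω, trunc j (Tm ω) = Tm (trunc j ω) := fun j ω => rfl
  let _ : MetricSpace (ℕ → S) := TopologicalSpace.metrizableSpaceMetric (ℕ → S)
  have hmap : ∀ j i, j ≤ i → (P i).map (trunc j) = (P j).map (trunc j) := by
    intro j i hji
    induction i, hji using Nat.le_induction with
    | base => rfl
    | succ i hji ih =>
      have h1 : ∀ Q : Measure (ℕ → S), Q.map (trunc j) = (Q.map (trunc i)).map (trunc j) := by
        intro Q
        rw [Measure.map_map (htm j) (htm i)]
        congr 1
        funext ω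
        exact (pl_trunc hji ω).symm
      rw [h1 (P (i + 1)), hc i, ← h1 (P i), ih]
  let PP : ℕ → ProbabilityMeasure (ℕ → S) := fun j => ⟨P j, hp j⟩
  let LL : Set (ProbabilityMeasure (ℕ → S)) :=
    {Q | Q.map hTm.aemeasurable = Q ∧
      ∀ j, Q.map (htm j).aemeasurable = (PP j).map (htm j).aemeasurable}
  have hcT : Continuous (fun Q : ProbabilityMeasure (ℕ → S) => Q.map hTm.aemeasurable) :=
    ProbabilityMeasure.continuous_map hTc
  have hct : ∀ j, Continuous (fun Q : ProbabilityMeasure (ℕ → S) => Q.map (htm j).aemeasurable) :=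
    fun j => ProbabilityMeasure.continuous_map (pl_cont j)
  have hcl : IsClosed LL := by
    apply IsClosed.inter
    · exact isClosed_eq hcT continuous_id
    · have : {Q : ProbabilityMeasure (ℕ → S) |
          ∀ j, Q.map (htm j).aemeasurable = (PP j).map (htm j).aemeasurable} =
          ⋂ j, {Q : ProbabilityMeasure (ℕ → S) |
            Q.map (htm j).aemeasurable = (PP j).map (htm j).aemeasurable} := by
        ext Q; simp
      change IsClosed {Q : ProbabilityMeasure (ℕ → S) |
          ∀ j, Q.map (htm j).aemeasurable = (PP j).map (htm j).aemeasurable}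
      rw [this]
      exact isClosed_iInter fun j => isClosed_eq (hct j) continuous_const
  have hTP : ∀ i, (PP i).map hTm.aemeasurable = PP i := by
    intro i
    apply Subtype.ext
    exact (hP i).map_eq
  have hPj : ∀ j i, j ≤ i →
      (PP i).map (htm j).aemeasurable = (PP j).map (htm j).aemeasurable := by
    intro j i hji
    apply Subtype.ext
    exact hmap j i hji
  have hne : LL.Nonempty := by
    let U : Ultrafilter ℕ := Filter.hyperfilter ℕ
    let V : Ultrafilter (ProbabilityMeasure (ℕ → S)) := U.map PP
    obtain ⟨Q₀, hQ₀⟩ : ∃ Q₀, (V : Filter (ProbabilityMeasure (ℕ → S))) ≤ nhds Q₀ := by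
      obtain ⟨Q₀, -, h⟩ := isCompact_univ.ultrafilter_le_nhds V (by simp)
      exact ⟨Q₀, h⟩
    have hlim : Filter.Tendsto PP (U : Filter ℕ) (nhds Q₀) := hQ₀
    refine ⟨Q₀, ?_, fun j => ?_⟩
    · have h1 : Filter.Tendsto (fun i => (PP i).map hTm.aemeasurable) (U : Filter ℕ)
          (nhds (Q₀.map hTm.aemeasurable)) := (hcT.tendsto Q₀).comp hlim
      simp only [hTP] at h1
      exact tendsto_nhds_unique h1 hlim
    · have h1 : Filter.Tendsto (fun i => (PP i).map (htm j).aemeasurable) (U : Filter ℕ)
          (nhds (Q₀.map (htm j).aemeasurable)) := ((hct j).tendsto Q₀).comp hlim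
      have h2 : Filter.Tendsto (fun i => (PP i).map (htm j).aemeasurable) (U : Filter ℕ)
          (nhds ((PP j).map (htm j).aemeasurable)) := by
        apply Filter.Tendsto.congr' _ tendsto_const_nhds
        have h3 : (U : Filter ℕ) ≤ Filter.atTop := Nat.hyperfilter_le_atTop
        filter_upwards [h3 (Filter.eventually_ge_atTop j)] with i hi
        exact (hPj j i hi).symm
      exact tendsto_nhds_unique h1 h2
  have hmp : ∀ Q : ProbabilityMeasure (ℕ → S), Q.map hTm.aemeasurable = Q →
      MeasurePreserving Tm (Q : Measure (ℕ → S)) (Q : Measure (ℕ → S)) := by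
    intro Q hQ
    exact ⟨hTm, congrArg Subtype.val hQ⟩
  obtain ⟨Q, hQ, hQe⟩ := exists_ergodic (T := Tm) hne hcl (fun Q hQ => hmp Q hQ.1) (by
    intro Q hQ E hE hTE h0
    obtain ⟨c1, c2, c3⟩ := cond_inv (hmp Q hQ.1) hE hTE h0
    refine ⟨⟨ProbabilityTheory.cond (Q : Measure (ℕ → S)) E, c1⟩, ⟨?_, fun j => ?_⟩, rfl⟩
    · apply Subtype.ext
      exact c2.map_eq
    · apply Subtype.ext
      change (ProbabilityTheory.cond (Q : Measure (ℕ → S)) E).map (trunc j) =
        (P j).map (trunc j)
      have h1 : Ergodic Tm ((P j).map (trunc j)) := ergodic_map (htm j) hTm (hcomm j) (hP j)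
      have h2 : MeasurePreserving Tm ((ProbabilityTheory.cond (Q : Measure (ℕ → S)) E).map (trunc j))
          ((ProbabilityTheory.cond (Q : Measure (ℕ → S)) E).map (trunc j)) := by
        refine ⟨hTm, ?_⟩
        rw [Measure.map_map hTm (htm j)]
        have h3 : Tm ∘ trunc j = trunc j ∘ Tm := by
          funext ω; exact (hcomm j ω).symm
        rw [h3, ← Measure.map_map (htm j) hTm, c2.map_eq]
      have h3 : (ProbabilityTheory.cond (Q : Measure (ℕ → S)) E).map (trunc j) ≪
          (P j).map (trunc j) := by
        have h4 : (Q : Measure (ℕ → S)).map (trunc j) = (P j).map (trunc j) :=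
          congrArg Subtype.val (hQ.2 j)
        rw [← h4]
        exact c3.map (htm j)
      have i1 : IsProbabilityMeasure ((P j).map (trunc j)) :=
        Measure.isProbabilityMeasure_map (htm j).aemeasurable
      have i2 : IsProbabilityMeasure
          ((ProbabilityTheory.cond (Q : Measure (ℕ → S)) E).map (trunc j)) :=
        Measure.isProbabilityMeasure_map (htm j).aemeasurable
      exact eq_of_ac h1 h2 h3)
  exact ⟨Q, inferInstance, hQe, fun j => congrArg Subtype.val (hQ.2 j)⟩

theorem proj_limit {S : Type*} [TopologicalSpace S] [CompactSpace S]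
    [TopologicalSpace.MetrizableSpace S] [MeasurableSpace S] [BorelSpace S] {F : S → S}
    (hF : Continuous F) (P : ℕ → Measure (ℕ → S)) (hp : ∀ j, IsProbabilityMeasure (P j))
    (hP : ∀ j, Ergodic (fun (ω : ℕ → S) (i : ℕ) => F (ω i)) (P j))
    (hc : ∀ j, (P (j + 1)).map (trunc j) = (P j).map (trunc j)) :
    ∃ Q : Measure (ℕ → S), IsProbabilityMeasure Q ∧
      Ergodic (fun (ω : ℕ → S) (i : ℕ) => F (ω i)) Q ∧
      ∀ j, Q.map (trunc j) = (P j).map (trunc j) := by
  have : SecondCountableTopology S := by
    let _ : MetricSpace S := TopologicalSpace.metrizableSpaceMetric S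
    infer_instance
  exact pl_aux hF P hp hP hc

end Pool.Agent.HG
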