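import Pool.Agent.HG.Ex2
import Pool.Agent.HG.Ph
import Pool.Agent.HG.Pl
import Pool.Agent.HG.Bw

set_option autoImplicit false

/-!
# Competitors of a chain law

A chain law can be continued after each place by a bad measure with a larger value of the functional.
-/

namespace Pool.Agent.HG

open Pool.Agent.HD MeasureTheory Set

variable {b c : ℝ}

private theorem ex3_sub (hb0 : b ≠ 0) (hb1 : |b| < 1) {s s' : E2 × E2} (h : s ∈ GS b c)
    (h' : s' ∈ GS b c) : Lim b c s' ⊆ Lim b c s ↔
      ∀ k : ℕ, Metric.infDist (TopologicalSpace.denseSeq E2 k) (LG b c s) ≤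
        Metric.infDist (TopologicalSpace.denseSeq E2 k) (LG b c s') := by
  have e : LG b c s = Lim b c s := if_pos h
  have e' : LG b c s' = Lim b c s' := if_pos h'
  rw [e, e']
  obtain ⟨hn, hc, _⟩ := lim_compact hb0 hb1 h
  obtain ⟨hn', _, _⟩ := lim_compact hb0 hb1 h'
  constructor
  · intro hl k
    exact Metric.infDist_le_infDist_of_subset hl hn'
  · intro hl z hz
    have h1 : ∀ x : E2, Metric.infDist x (Lim b c s) ≤ Metric.infDist x (Lim b c s') := by
      intro x
      have hcl : IsClosed {x : E2 | Metric.infDist x (Lim b c s) ≤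
          Metric.infDist x (Lim b c s')} :=
        isClosed_le (Metric.continuous_infDist_pt _) (Metric.continuous_infDist_pt _)
      have hd := TopologicalSpace.denseRange_denseSeq E2
      have : x ∈ closure (range (TopologicalSpace.denseSeq E2)) := hd x
      refine closure_minimal ?_ hcl this
      rintro _ ⟨k, rfl⟩
      exact hl k
    have h2 := h1 z
    rw [Metric.infDist_zero_of_mem hz] at h2
    rw [hc.isClosed.mem_iff_infDist_zero hn]
    exact le_antisymm h2 Metric.infDist_nonneg

private theorem ex3_fs (hb0 : b ≠ 0) : Measurable (FS b c) := (continuous_FS hb0).measurable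

private theorem ex3_ts (hb0 : b ≠ 0) : Measurable (TS b c) :=
  measurable_pi_iff.2 fun i => (ex3_fs hb0).comp (measurable_pi_apply i)

/-- continuation of a sequence after the place `j` by a constant sequence -/
private noncomputable def ex3C (j : ℕ) (x : (ℕ → St b c) × St b c) : ℕ → St b c :=
  fun i => if i ≤ j then x.1 i else x.2

private theorem ex3C_meas (j : ℕ) :
    Measurable (ex3C j : (ℕ → St b c) × St b c → (ℕ → St b c)) := by
  refine measurable_pi_iff.2 fun i => ?_
  by_cases h : i ≤ j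
  · have e : (fun x : (ℕ → St b c) × St b c => ex3C j x i) = fun x => x.1 i := by
      funext x
      exact if_pos h
    rw [e]
    exact (measurable_pi_apply i).comp measurable_fst
  · have e : (fun x : (ℕ → St b c) × St b c => ex3C j x i) = fun x => x.2 := by
      funext x
      exact if_neg h
    rw [e]
    exact measurable_snd

private theorem ex3_trunc (j : ℕ) : Measurable (trunc j : (ℕ → St b c) → (ℕ → St b c)) :=
  measurable_pi_iff.2 fun i => measurable_pi_apply (min i j)

/-- the measurable set of sequences which are nested at the place `i` -/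
private def ex3N (b c : ℝ) (i : ℕ) : Set (ℕ → St b c) :=
  {ω | (ω i).1 ∈ GS b c ∧ (ω (i + 1)).1 ∈ GS b c ∧
    ∀ k : ℕ, Metric.infDist (TopologicalSpace.denseSeq E2 k) (LG b c (ω i).1) ≤
      Metric.infDist (TopologicalSpace.denseSeq E2 k) (LG b c (ω (i + 1)).1)}

private theorem ex3N_meas (hb0 : b ≠ 0) (hb1 : |b| < 1) (i : ℕ) :
    MeasurableSet (ex3N b c i) := by
  have m1 : ∀ i : ℕ, Measurable fun ω : ℕ → St b c => ((ω i : St b c) : E2 × E2) := fun i =>
    measurable_subtype_coe.comp (measurable_pi_apply i)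
  refine ((gs_meas hb0 hb1).preimage (m1 i)).inter
    (((gs_meas hb0 hb1).preimage (m1 (i + 1))).inter ?_)
  have e : {ω : ℕ → St b c | ∀ k : ℕ, Metric.infDist (TopologicalSpace.denseSeq E2 k)
      (LG b c (ω i).1) ≤ Metric.infDist (TopologicalSpace.denseSeq E2 k)
        (LG b c (ω (i + 1)).1)} = ⋂ k : ℕ, {ω : ℕ → St b c |
      Metric.infDist (TopologicalSpace.denseSeq E2 k) (LG b c (ω i).1) ≤
        Metric.infDist (TopologicalSpace.denseSeq E2 k) (LG b c (ω (i + 1)).1)} := by
    ext ω
    simp only [mem_iInter]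
    exact Iff.rfl
  show MeasurableSet {ω : ℕ → St b c | ∀ k : ℕ, Metric.infDist (TopologicalSpace.denseSeq E2 k)
      (LG b c (ω i).1) ≤ Metric.infDist (TopologicalSpace.denseSeq E2 k)
        (LG b c (ω (i + 1)).1)}
  rw [e]
  exact MeasurableSet.iInter fun k => measurableSet_le ((lg_meas hb0 hb1 _).comp (m1 i))
    ((lg_meas hb0 hb1 _).comp (m1 (i + 1)))

private theorem ex3_ph_int (hb0 : b ≠ 0) (hb1 : |b| < 1) {Ω : Type*} [MeasurableSpace Ω]
    (μ : Measure Ω) [IsProbabilityMeasure μ] {f : Ω → E2 × E2} (hf : Measurable f) :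
    Integrable (fun ω => ph b c (f ω)) μ := by
  refine Integrable.of_bound ((ph_meas hb0 hb1).comp hf).aestronglyMeasurable 2
    (Filter.Eventually.of_forall fun ω => ?_)
  rw [Real.norm_eq_abs, abs_of_nonneg (ph_le _).1]
  exact (ph_le _).2

theorem ext_chain (hb0 : b ≠ 0) (hb1 : |b| < 1) {P : Measure (ℕ → St b c)} (hP : Chain b c P) :
    ∃ v ε : ℝ, 0 < ε ∧ (∀ i : ℕ, (∫ ω, ph b c (ω i).1 ∂P) + ε ≤ v) ∧
      ∀ j : ℕ, ∃ P' : Measure (ℕ → St b c), Chain b c P' ∧
        P'.map (trunc j) = P.map (trunc j) ∧ v ≤ ∫ ω, ph b c (ω (j + 1)).1 ∂P' := by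
  have hPp := hP.prob
  obtain ⟨Q, hQp, hQe, hQf, hQb, hQ⟩ := ext_w hb0 hb1 hP
  have mval : Measurable fun s : St b c => (s : E2 × E2) := measurable_subtype_coe
  have m1 : ∀ i : ℕ, Measurable fun x : (ℕ → St b c) × St b c => ((x.1 i : St b c) : E2 × E2) :=
    fun i => mval.comp ((measurable_pi_apply i).comp measurable_fst)
  have m2 : Measurable fun x : (ℕ → St b c) × St b c => ((x.2 : St b c) : E2 × E2) :=
    mval.comp measurable_snd
  -- almost everywhere facts
  have A1 : ∀ᵐ x ∂Q, ∀ i : ℕ, (x.1 i).1 ∈ GS b c := by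
    rw [ae_all_iff]
    intro i
    have h1 := ae_of_ae_map (measurable_pi_apply i).aemeasurable (hP.bad i).gs
    rw [← hQf] at h1
    exact ae_of_ae_map measurable_fst.aemeasurable h1
  have A2 : ∀ᵐ x ∂Q, x.2.1 ∈ GS b c := ae_of_ae_map measurable_snd.aemeasurable hQb.gs
  have A3 : ∀ᵐ x ∂Q, x.2.1.1 ∉ Lim b c x.2.1 :=
    ae_of_ae_map measurable_snd.aemeasurable (ae_non_rec hb0 hb1 hQb)
  have A4 : ∀ᵐ x ∂Q, ∀ i : ℕ, Lim b c x.2.1 ⊆ Lim b c (x.1 i).1 := by
    filter_upwards [A1, A2, hQ] with x h1 h2 h3 i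
    have hcl := (clo_brn hb0 hb1 h2).1
    have h4 : Lim b c x.2.1 ⊆ closure (Brn b c x.2.1) := by
      rw [hcl]
      exact subset_union_right
    refine h4.trans ?_
    exact closure_minimal (h3 i).1 (lim_compact hb0 hb1 (h1 i)).2.1.isClosed
  have A5 : ∀ᵐ x ∂Q, ∃ γ : ℝ, 0 < γ ∧ ∀ i, ph b c (x.1 i).1 + γ ≤ ph b c x.2.1 := by
    filter_upwards [A1, A2, A3, A4, hQ] with x h1 h2 h3 h4 h5
    exact ph_gap hb0 hb1 (u := fun i => (x.1 i).1) h1 h2 h4 (fun i => (h5 i).2) h3
  -- the supremum
  obtain ⟨g, hg⟩ : ∃ g : (ℕ → St b c) × St b c → ℝ, g = fun x => ⨆ i : ℕ, ph b c (x.1 i).1 :=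
    ⟨_, rfl⟩
  have hgm : Measurable g := by
    rw [hg]
    exact Measurable.iSup fun i => (ph_meas hb0 hb1).comp (m1 i)
  have hbdd : ∀ x : (ℕ → St b c) × St b c, BddAbove (range fun i : ℕ => ph b c (x.1 i).1) := by
    intro x
    refine ⟨2, ?_⟩
    rintro _ ⟨i, rfl⟩
    exact (ph_le _).2
  have hg1 : ∀ x i, ph b c (x.1 i).1 ≤ g x := by
    intro x i
    rw [hg]
    exact le_ciSup (hbdd x) i
  have hg2 : ∀ x, g x ≤ 2 := by
    intro x
    rw [hg]
    exact ciSup_le fun i => (ph_le _).2
  have hg0 : ∀ x, 0 ≤ g x := fun x => (ph_le _).1.trans (hg1 x 0)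
  have hgi : Integrable g Q := by
    refine Integrable.of_bound hgm.aestronglyMeasurable 2 (Filter.Eventually.of_forall fun x => ?_)
    rw [Real.norm_eq_abs, abs_of_nonneg (hg0 x)]
    exact hg2 x
  have hvi := ex3_ph_int hb0 hb1 (c := c) Q m2
  have hpos : ∀ᵐ x ∂Q, 0 < ph b c x.2.1 - g x := by
    filter_upwards [A5] with x hx
    obtain ⟨γ, hγ, h1⟩ := hx
    have h2 : g x ≤ ph b c x.2.1 - γ := by
      rw [hg]
      exact ciSup_le fun i => by linarith [h1 i]
    linarith
  have hε : 0 < ∫ x, (ph b c x.2.1 - g x) ∂Q := by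
    rw [integral_pos_iff_support_of_nonneg_ae (hpos.mono fun x hx => hx.le) (hvi.sub hgi)]
    have h1 : Q (Function.support fun x => ph b c x.2.1 - g x) = 1 := by
      rw [prob_compl_eq_zero_iff₀ ?_ |>.symm]
      · refine measure_mono_null ?_ (ae_iff.1 hpos)
        intro x hx
        have h2 : ph b c x.2.1 - g x = 0 := by
          by_contra h3
          exact hx h3
        show ¬ 0 < ph b c x.2.1 - g x
        rw [h2]
        exact lt_irrefl 0
      · exact (measurableSet_support (((ph_meas hb0 hb1).comp m2).sub hgm)).nullMeasurableSet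
    rw [h1]
    exact one_pos
  refine ⟨∫ x, ph b c x.2.1 ∂Q, ∫ x, (ph b c x.2.1 - g x) ∂Q, hε, fun i => ?_, fun j => ?_⟩
  · have h1 : ∫ ω, ph b c (ω i).1 ∂P = ∫ x, ph b c (x.1 i).1 ∂Q := by
      rw [← hQf, integral_map measurable_fst.aemeasurable]
      exact ((ph_meas hb0 hb1).comp (mval.comp (measurable_pi_apply i))).aestronglyMeasurable
    have h2 : ∫ x, ph b c (x.1 i).1 ∂Q ≤ ∫ x, g x ∂Q :=
      integral_mono (ex3_ph_int hb0 hb1 Q (m1 i)) hgi fun x => hg1 x i
    rw [integral_sub hvi hgi, h1]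
    linarith
  · have hC := ex3C_meas (b := b) (c := c) j
    have hCi : ∀ i : ℕ, i ≤ j → ∀ x : (ℕ → St b c) × St b c, ex3C j x i = x.1 i :=
      fun i hi x => if_pos hi
    have hCi' : ∀ i : ℕ, j < i → ∀ x : (ℕ → St b c) × St b c, ex3C j x i = x.2 :=
      fun i hi x => if_neg (not_le.2 hi)
    refine ⟨Q.map (ex3C j), ⟨?_, ?_, fun i => ?_, fun i => ?_⟩, ?_, ?_⟩
    · exact Measure.isProbabilityMeasure_map hC.aemeasurable
    · refine ergodic_map hC (ex3_ts hb0) (fun x => ?_) hQe
      funext i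
      by_cases hi : i ≤ j
      · rw [hCi i hi]
        show TS b c x.1 i = FS b c (ex3C j x i)
        rw [hCi i hi]
        rfl
      · rw [hCi' i (not_le.1 hi)]
        show FS b c x.2 = FS b c (ex3C j x i)
        rw [hCi' i (not_le.1 hi)]
    · rw [Measure.map_map (measurable_pi_apply i) hC]
      by_cases hi : i ≤ j
      · have e : ((fun ω : ℕ → St b c => ω i) ∘ ex3C j) =
            (fun ω : ℕ → St b c => ω i) ∘ Prod.fst := by
          funext x
          exact hCi i hi x
        rw [e, ← Measure.map_map (measurable_pi_apply i) measurable_fst, hQf]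
        exact hP.bad i
      · have e : ((fun ω : ℕ → St b c => ω i) ∘ ex3C j) = Prod.snd := by
          funext x
          exact hCi' i (not_le.1 hi) x
        rw [e]
        exact hQb
    · have h1 : ∀ᵐ ω ∂(Q.map (ex3C j)), ω ∈ ex3N b c i := by
        refine (ae_map_iff hC.aemeasurable (ex3N_meas hb0 hb1 i)).2 ?_
        have hnest : ∀ᵐ x ∂Q, Lim b c (x.1 (i + 1)).1 ⊆ Lim b c (x.1 i).1 := by
          have h2 := hP.nest i
          rw [← hQf] at h2
          exact ae_of_ae_map measurable_fst.aemeasurable h2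
        filter_upwards [A1, A2, A4, hnest] with x h3 h4 h5 h6
        rcases lt_trichotomy i j with hij | hij | hij
        · refine ⟨?_, ?_, ?_⟩
          · rw [hCi i hij.le]
            exact h3 i
          · rw [hCi (i + 1) hij]
            exact h3 (i + 1)
          · rw [hCi i hij.le, hCi (i + 1) hij]
            exact (ex3_sub hb0 hb1 (h3 i) (h3 (i + 1))).1 h6
        · refine ⟨?_, ?_, ?_⟩
          · rw [hCi i hij.le]
            exact h3 i
          · rw [hCi' (i + 1) (by omega)]
            exact h4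
          · rw [hCi i hij.le, hCi' (i + 1) (by omega)]
            exact (ex3_sub hb0 hb1 (h3 i) h4).1 (h5 i)
        · refine ⟨?_, ?_, ?_⟩
          · rw [hCi' i hij]
            exact h4
          · rw [hCi' (i + 1) (by omega)]
            exact h4
          · rw [hCi' i hij, hCi' (i + 1) (by omega)]
            exact fun k => le_rfl
      filter_upwards [h1] with ω hω
      exact (ex3_sub hb0 hb1 hω.1 hω.2.1).2 hω.2.2
    · rw [Measure.map_map (ex3_trunc j) hC]
      have e : (trunc j ∘ ex3C j : (ℕ → St b c) × St b c → (ℕ → St b c)) =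
          trunc j ∘ Prod.fst := by
        funext x i
        exact hCi (min i j) (min_le_right i j) x
      rw [e, ← Measure.map_map (ex3_trunc j) measurable_fst, hQf]
    · have h1 : ∫ ω, ph b c (ω (j + 1)).1 ∂(Q.map (ex3C j)) = ∫ x, ph b c x.2.1 ∂Q := by
        rw [integral_map hC.aemeasurable]
        · refine integral_congr_ae (Filter.Eventually.of_forall fun x => ?_)
          show ph b c (ex3C j x (j + 1)).1 = ph b c x.2.1
          rw [hCi' (j + 1) (Nat.lt_succ_self j)]
        · exact ((ph_meas hb0 hb1).comp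
            (mval.comp (measurable_pi_apply (j + 1)))).aestronglyMeasurable
      rw [h1]

end Pool.Agent.HG
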