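import Pool.Agent.HG.CDefs
import Pool.Agent.HG.Pl
import Pool.Agent.HG.Im

set_option autoImplicit false

/-!
# Limits of chain laws

A sequence of chain laws whose projections on the first coordinates are compatible has a limit chain law
(`proj_limit`); badness of the marginals and nestedness of the limit sets are seen on finitely many coordinates.
-/

namespace Pool.Agent.HG

open Pool.Agent.HD MeasureTheory Set

variable {b c : ℝ}

/-- nested limit sets, in measurable form -/
private def NA (b c : ℝ) (i : ℕ) : Set (ℕ → St b c) :=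
  {ω | (ω i).1 ∈ GS b c ∧ (ω (i + 1)).1 ∈ GS b c ∧ ∀ n : ℕ,
    Metric.infDist (TopologicalSpace.denseSeq E2 n) (LG b c (ω i).1) ≤
      Metric.infDist (TopologicalSpace.denseSeq E2 n) (LG b c (ω (i + 1)).1)}

private theorem coord_meas (b c : ℝ) (i : ℕ) : Measurable fun ω : ℕ → St b c => (ω i : E2 × E2) :=
  measurable_subtype_coe.comp (measurable_pi_apply i)

private theorem na_meas (hb0 : b ≠ 0) (hb1 : |b| < 1) (i : ℕ) : MeasurableSet (NA b c i) := by
  have h1 : NA b c i = ((fun ω : ℕ → St b c => (ω i : E2 × E2)) ⁻¹' GS b c) ∩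
      (((fun ω : ℕ → St b c => (ω (i + 1) : E2 × E2)) ⁻¹' GS b c) ∩ ⋂ n : ℕ,
        {ω : ℕ → St b c | Metric.infDist (TopologicalSpace.denseSeq E2 n) (LG b c (ω i).1) ≤
          Metric.infDist (TopologicalSpace.denseSeq E2 n) (LG b c (ω (i + 1)).1)}) := by
    ext ω
    constructor
    · rintro ⟨h1, h2, h3⟩
      exact ⟨h1, h2, mem_iInter.2 h3⟩
    · rintro ⟨h1, h2, h3⟩
      exact ⟨h1, h2, mem_iInter.1 h3⟩
  rw [h1]
  refine ((gs_meas hb0 hb1).preimage (coord_meas b c i)).inter
    (((gs_meas hb0 hb1).preimage (coord_meas b c (i + 1))).inter (MeasurableSet.iInter fun n => ?_))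
  exact measurableSet_le ((lg_meas hb0 hb1 _).comp (coord_meas b c i))
    ((lg_meas hb0 hb1 _).comp (coord_meas b c (i + 1)))

private theorem lg_eq' {s : E2 × E2} (h : s ∈ GS b c) : LG b c s = Lim b c s := by
  unfold LG
  rw [if_pos h]

private theorem na_sub (hb0 : b ≠ 0) (hb1 : |b| < 1) {i : ℕ} {ω : ℕ → St b c} (h : ω ∈ NA b c i) :
    Lim b c (ω (i + 1)).1 ⊆ Lim b c (ω i).1 := by
  obtain ⟨h1, h2, h3⟩ := h
  rw [lg_eq' h1, lg_eq' h2] at h3
  intro z hz
  obtain ⟨hne, hcomp, -⟩ := lim_compact hb0 hb1 h1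
  rw [hcomp.isClosed.mem_iff_infDist_zero hne]
  have h4 : ∀ x : E2, Metric.infDist x (Lim b c (ω i).1) ≤
      Metric.infDist x (Lim b c (ω (i + 1)).1) := by
    intro x
    have hcl : IsClosed {x : E2 | Metric.infDist x (Lim b c (ω i).1) ≤
        Metric.infDist x (Lim b c (ω (i + 1)).1)} :=
      isClosed_le (Metric.continuous_infDist_pt _) (Metric.continuous_infDist_pt _)
    have hd : DenseRange (TopologicalSpace.denseSeq E2) := TopologicalSpace.denseRange_denseSeq E2
    exact hd.induction_on x hcl h3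
  have h5 := h4 z
  rw [Metric.infDist_zero_of_mem hz] at h5
  exact le_antisymm h5 Metric.infDist_nonneg

private theorem na_trunc {i : ℕ} {ω : ℕ → St b c} : trunc (i + 1) ω ∈ NA b c i ↔ ω ∈ NA b c i := by
  have h1 : trunc (i + 1) ω i = ω i := by
    unfold trunc
    congr 1
    omega
  have h2 : trunc (i + 1) ω (i + 1) = ω (i + 1) := by
    unfold trunc
    congr 1
    omega
  unfold NA
  simp only [mem_ofPred_eq, h1, h2]

private theorem na_ae (hb0 : b ≠ 0) (hb1 : |b| < 1) {P : Measure (ℕ → St b c)} (h : Chain b c P)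
    (i : ℕ) : ∀ᵐ ω ∂P, ω ∈ NA b c i := by
  have h1 : ∀ j, ∀ᵐ ω ∂P, (ω j).1 ∈ GS b c := by
    intro j
    exact ae_of_ae_map (measurable_pi_apply j).aemeasurable (h.bad j).gs
  filter_upwards [h1 i, h1 (i + 1), h.nest i] with ω h2 h3 h4
  refine ⟨h2, h3, fun n => ?_⟩
  rw [lg_eq' h2, lg_eq' h3]
  exact Metric.infDist_le_infDist_of_subset h4 (lim_compact hb0 hb1 h3).1

private theorem trunc_meas (b c : ℝ) (j : ℕ) :
    Measurable (trunc j : (ℕ → St b c) → (ℕ → St b c)) :=
  measurable_pi_lambda _ fun i => measurable_pi_apply (min i j)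

theorem chain_limit (hb0 : b ≠ 0) (hb1 : |b| < 1) (u : ℕ → Measure (ℕ → St b c))
    (hu : ∀ j, Chain b c (u j)) (hc : ∀ j, (u (j + 1)).map (trunc j) = (u j).map (trunc j)) :
    ∃ Q : Measure (ℕ → St b c), Chain b c Q ∧ ∀ j, Q.map (trunc j) = (u j).map (trunc j) := by
  obtain ⟨Q, hQp, hQe, hQm⟩ := proj_limit (F := FS b c) (continuous_FS hb0) u
    (fun j => (hu j).prob) (fun j => (hu j).erg) hc
  refine ⟨Q, ⟨hQp, hQe, fun i => ?_, fun i => ?_⟩, hQm⟩
  · have h1 : ∀ P : Measure (ℕ → St b c), P.map (fun ω => ω i) =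
        (P.map (trunc i)).map (fun ω => ω i) := by
      intro P
      rw [Measure.map_map (measurable_pi_apply i) (trunc_meas b c i)]
      congr 1
      funext ω
      show ω i = ω (min i i)
      rw [min_self]
    rw [h1 Q, hQm i, ← h1 (u i)]
    exact (hu i).bad i
  · have h2 : ∀ᵐ y ∂((u (i + 1)).map (trunc (i + 1))), y ∈ NA b c i := by
      refine (ae_map_iff (p := fun y => y ∈ NA b c i) (trunc_meas b c (i + 1)).aemeasurable
        (na_meas hb0 hb1 i)).2 ?_
      filter_upwards [na_ae hb0 hb1 (hu (i + 1)) i] with ω hω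
      exact na_trunc.2 hω
    rw [← hQm (i + 1)] at h2
    filter_upwards [ae_of_ae_map (trunc_meas b c (i + 1)).aemeasurable h2] with ω hω
    exact na_sub hb0 hb1 (na_trunc.1 hω)

end Pool.Agent.HG
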