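import Pool.Agent.HG.Lq
import Pool.Agent.HG.Nv
import Pool.Agent.HD.Cpt

set_option autoImplicit false

/-!
# Geometry of the local stable curve in the frame `(V, nv V)` of a regular state

`lc`: near the base point the stable curve is almost the straight line of direction `V`; `foot`: foot of a
point on the local curve in the direction `nv V` (intermediate value theorem).
-/

namespace Pool.Agent.HG

open Pool.Agent.HD

variable {b c : ℝ}

theorem lc (hb0 : b ≠ 0) (hb1 : |b| < 1) (C : ℝ) : ∃ h0 : ℝ, 0 < h0 ∧ ∀ s : E2 × E2, RS b c C s →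
    ∀ (t t' : ℝ) (q q' : E2), |t| ≤ h0 → |t'| ≤ h0 → Cu b c s t q → Cu b c s t' q' →
      ‖q - q' - (t - t') • s.2‖ ≤ 1 / 20 * |t - t'| ∧
      |wd (q - q') (nv s.2) - (t - t')| ≤ 1 / 10 * |t - t'| ∧
      |t - t'| ≤ 2 * ‖q - q'‖ ∧ ‖q - q'‖ ≤ 2 * |t - t'| ∧
      ∀ n : ℕ, ‖(G 1 b c)^[n] q - (G 1 b c)^[n] q'‖ ≤
        2 * C * Real.exp (-(el b - 4 * dl b) * n) * |t - t'| := by
  obtain ⟨h0, K, hh0, hK, hmain⟩ := lq (a := 1) (b := b) (c := c) hb0 (dl_pos hb0 hb1)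
    (dl_le hb0 hb1) (|c| + 4) C
  refine ⟨min h0 (1 / (20 * K)), lt_min hh0 (by positivity), ?_⟩
  intro s hs t t' q q' ht ht' hq hq'
  have hV : ‖s.2‖ = 1 := hs.unit
  obtain ⟨h1, h2⟩ := hmain s.1 s.2 hs (min h0 (1 / (20 * K))) t t' q q' (min_le_left _ _) ht ht'
    hq hq'
  have hKm : K * min h0 (1 / (20 * K)) ≤ 1 / 20 := by
    calc K * min h0 (1 / (20 * K)) ≤ K * (1 / (20 * K)) :=
          mul_le_mul_of_nonneg_left (min_le_right _ _) hK.le
      _ = 1 / 20 := by field_simp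
  have hA : ‖q - q' - (t - t') • s.2‖ ≤ 1 / 20 * |t - t'| :=
    h1.trans (mul_le_mul_of_nonneg_right hKm (abs_nonneg _))
  have hnorm : ‖(t - t') • s.2‖ = |t - t'| := by
    rw [norm_smul, hV, mul_one, Real.norm_eq_abs]
  refine ⟨hA, ?_, ?_, ?_, h2⟩
  · have e1 : wd (q - q') (nv s.2) - (t - t') = wd (q - q' - (t - t') • s.2) (nv s.2) := by
      rw [wd_sub_left (q - q'), wd_smul_left, wd_nv hV, mul_one]
    rw [e1]
    have h3 := abs_wd_nv_le hV (q - q' - (t - t') • s.2)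
    linarith
  · have e2 : (t - t') • s.2 = (q - q') - (q - q' - (t - t') • s.2) := by abel
    have h3 : ‖(t - t') • s.2‖ ≤ ‖q - q'‖ + ‖q - q' - (t - t') • s.2‖ := by
      calc ‖(t - t') • s.2‖ = ‖(q - q') - (q - q' - (t - t') • s.2)‖ := by rw [← e2]
        _ ≤ _ := norm_sub_le _ _
    rw [hnorm] at h3
    have h4 := norm_nonneg (q - q')
    linarith
  · have e2 : q - q' = (t - t') • s.2 + (q - q' - (t - t') • s.2) := by abel
    have h3 : ‖q - q'‖ ≤ ‖(t - t') • s.2‖ + ‖q - q' - (t - t') • s.2‖ := by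
      calc ‖q - q'‖ = ‖(t - t') • s.2 + (q - q' - (t - t') • s.2)‖ := by rw [← e2]
        _ ≤ _ := norm_add_le _ _
    rw [hnorm] at h3
    have h4 := abs_nonneg (t - t')
    linarith

/-- two points of the local curve on the same transversal line are equal -/
theorem lc_eq (hb0 : b ≠ 0) (hb1 : |b| < 1) (C : ℝ) : ∃ h0 : ℝ, 0 < h0 ∧
    ∀ s : E2 × E2, RS b c C s → ∀ (t t' β : ℝ) (q q' : E2), |t| ≤ h0 → |t'| ≤ h0 →
      Cu b c s t q → Cu b c s t' q' → q - q' = β • nv s.2 → t = t' ∧ q = q' := by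
  obtain ⟨h0, hh0, hmain⟩ := lc (c := c) hb0 hb1 C
  refine ⟨h0, hh0, ?_⟩
  intro s hs t t' β q q' ht ht' hq hq' hβ
  obtain ⟨-, h2, -, h4, -⟩ := hmain s hs t t' q q' ht ht' hq hq'
  rw [hβ, wd_smul_left, wd_self, mul_zero, zero_sub, abs_neg] at h2
  have h5 : |t - t'| = 0 := by
    have := abs_nonneg (t - t')
    linarith
  rw [h5, mul_zero] at h4
  have h6 : ‖q - q'‖ = 0 := le_antisymm h4 (norm_nonneg _)
  exact ⟨sub_eq_zero.1 (abs_eq_zero.1 h5), sub_eq_zero.1 (norm_eq_zero.1 h6)⟩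

/-- the foot of a point on the local curve -/
theorem foot (hb0 : b ≠ 0) (hb1 : |b| < 1) (C : ℝ) : ∃ h0 : ℝ, 0 < h0 ∧
    ∀ s : E2 × E2, RS b c C s → ∀ (σ : ℝ) (p z : E2), |σ| ≤ h0 → Cu b c s σ p → ‖z - p‖ ≤ h0 →
      ∃ (σ' : ℝ) (p' : E2) (β : ℝ), |σ' - σ| ≤ 4 * ‖z - p‖ ∧ Cu b c s σ' p' ∧
        z - p' = β • nv s.2 ∧ |β| ≤ 20 * ‖z - p‖ := by
  obtain ⟨h0, hh0, hmain⟩ := lc (c := c) hb0 hb1 C
  refine ⟨h0 / 5, by positivity, ?_⟩
  intro s hs σ p z hσ hp hz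
  have hV : ‖s.2‖ = 1 := hs.unit
  obtain ⟨γ, hγc, -, -, hγ⟩ := exists_curve (a := 1) hb0 (dl_pos hb0 hb1) (dl_le hb0 hb1) hs
  have hγσ : γ σ = p :=
    asym_unique (a := 1) hb0 (dl_pos hb0 hb1) (dl_le hb0 hb1) hs (hγ σ) hp
  set r : ℝ := ‖z - p‖ with hr
  have hr0 : 0 ≤ r := norm_nonneg _
  have hcomp : ∀ u : ℝ, |u - σ| ≤ 4 * r → |u| ≤ h0 := by
    intro u hu
    have h1 : |u| ≤ |u - σ| + |σ| := by
      calc |u| = |(u - σ) + σ| := by rw [sub_add_cancel]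
        _ ≤ _ := abs_add_le _ _
    linarith
  have hσ0 : |σ| ≤ h0 := by linarith
  have hslope : ∀ u : ℝ, |u - σ| ≤ 4 * r →
      |wd (γ u - p) (nv s.2) - (u - σ)| ≤ 1 / 10 * |u - σ| ∧ ‖γ u - p‖ ≤ 2 * |u - σ| := by
    intro u hu
    obtain ⟨-, h2, -, h4, -⟩ := hmain s hs u σ (γ u) p (hcomp u hu) hσ0 (hγ u) hp
    exact ⟨h2, h4⟩
  have hφ : ∀ u : ℝ, wd (z - γ u) (nv s.2) = wd (z - p) (nv s.2) - wd (γ u - p) (nv s.2) := by
    intro u
    rw [← wd_sub_left]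
    congr 1
    abel
  have hcont : ContinuousOn (fun u : ℝ => wd (z - γ u) (nv s.2))
      (Set.Icc (σ - 4 * r) (σ + 4 * r)) := by
    apply Continuous.continuousOn
    unfold wd
    have h1 : Continuous fun u => (z - γ u).1 := continuous_fst.comp (continuous_const.sub hγc)
    have h2 : Continuous fun u => (z - γ u).2 := continuous_snd.comp (continuous_const.sub hγc)
    exact (h1.mul continuous_const).sub (h2.mul continuous_const)
  have hz2 : |wd (z - p) (nv s.2)| ≤ 2 * r := abs_wd_nv_le hV (z - p)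
  have hivt := intermediate_value_Icc' (by linarith : σ - 4 * r ≤ σ + 4 * r) hcont
  have h0mem : (0 : ℝ) ∈ Set.Icc (wd (z - γ (σ + 4 * r)) (nv s.2))
      (wd (z - γ (σ - 4 * r)) (nv s.2)) := by
    have e1 : |σ + 4 * r - σ| = 4 * r := by
      rw [add_sub_cancel_left, abs_of_nonneg (by linarith)]
    have e2 : |σ - 4 * r - σ| = 4 * r := by
      rw [sub_sub_cancel_left, abs_neg, abs_of_nonneg (by linarith)]
    have a1 := (hslope (σ + 4 * r) e1.le).1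
    have a2 := (hslope (σ - 4 * r) e2.le).1
    rw [e1, add_sub_cancel_left] at a1
    rw [e2, sub_sub_cancel_left] at a2
    have b1 := abs_le.1 a1
    have b2 := abs_le.1 a2
    have b3 := abs_le.1 hz2
    constructor
    · rw [hφ]; linarith [b1.1, b3.2]
    · rw [hφ]; linarith [b2.2, b3.1]
  obtain ⟨σ', hσ', hzero⟩ := hivt h0mem
  have hσ'' : |σ' - σ| ≤ 4 * r := by
    rw [abs_le]
    constructor <;> linarith [hσ'.1, hσ'.2]
  refine ⟨σ', γ σ', wd s.2 (z - γ σ'), hσ'', hγ σ', ?_, ?_⟩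
  · have h1 := frame hV (z - γ σ')
    have hzero' : wd (z - γ σ') (nv s.2) = 0 := hzero
    rw [hzero', zero_smul, zero_add] at h1
    exact h1
  · have h1 := abs_wd_le s.2 (z - γ σ')
    rw [hV, mul_one] at h1
    have h2 : ‖z - γ σ'‖ ≤ ‖z - p‖ + ‖γ σ' - p‖ := by
      calc ‖z - γ σ'‖ = ‖(z - p) - (γ σ' - p)‖ := by rw [sub_sub_sub_cancel_right]
        _ ≤ _ := norm_sub_le _ _
    have h3 := (hslope σ' hσ'').2
    rw [← hr] at h2
    linarith

end Pool.Agent.HG
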