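import Pool.Agent.HD.Orb
import Pool.Agent.HG.Lc

set_option autoImplicit false

/-!
# Forward control of points near the local stable curve

The point `p` is on the local stable curve of the regular state `s` (cocycle bounded by `C exp (δ n + δ k)`), `q` is any
other point: the difference of the orbits grows at most like `exp (δ n)` as long as it is small.
Variation of constants (`Fc_voc`), geometric sums and strong induction.
-/

namespace Pool.Agent.HG

open Pool.Agent.HD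

variable {b c : ℝ}

private theorem Fc_act_sum (M : M2) (n : ℕ) (f : ℕ → E2) :
    act M (∑ i ∈ Finset.range n, f i) = ∑ i ∈ Finset.range n, act M (f i) := by
  induction n with
  | zero => rw [Finset.sum_range_zero, Finset.sum_range_zero, act_zero]
  | succ n ih => rw [Finset.sum_range_succ, Finset.sum_range_succ, act_add, ih]

/-- variation of constants -/
private theorem Fc_voc (x : E2) (w g : ℕ → E2)
    (h : ∀ n, w (n + 1) = act (der 1 b ((G 1 b c)^[n] x)) (w n) + g n) (n : ℕ) :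
    w n = act (co 1 b c x n) (w 0) +
      ∑ i ∈ Finset.range n, act (co 1 b c ((G 1 b c)^[i + 1] x) (n - (i + 1))) (g i) := by
  induction n with
  | zero =>
    rw [Finset.sum_range_zero, add_zero]
    exact (act_one _).symm
  | succ n ih =>
    rw [h n, Finset.sum_range_succ, Nat.sub_self]
    conv_lhs => rw [ih]
    rw [act_add, Fc_act_sum, ← act_co_succ, add_assoc]
    congr 1
    congr 1
    · refine Finset.sum_congr rfl fun i hi => ?_
      have hi' : i < n := Finset.mem_range.1 hi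
      have e : n + 1 - (i + 1) = (n - (i + 1)) + 1 := by omega
      rw [e, act_co_succ, ← Function.iterate_add_apply, Nat.sub_add_cancel hi']
    · exact (act_one _).symm

private theorem Fc_geo (r : ℝ) (hr : r < 0) (n : ℕ) :
    ∑ i ∈ Finset.range n, Real.exp (r * i) ≤ 1 / (1 - Real.exp r) := by
  have h1 : Real.exp r < 1 := Real.exp_lt_one_iff.2 hr
  have h2 : ∀ i : ℕ, Real.exp (r * i) = Real.exp r ^ i := fun i => by
    rw [mul_comm, Real.exp_nat_mul]
  rw [Finset.sum_congr rfl fun i _ => h2 i, geom_sum_eq h1.ne]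
  have h3 : 0 < 1 - Real.exp r := by linarith
  have h4 : (Real.exp r ^ n - 1) / (Real.exp r - 1) = (1 - Real.exp r ^ n) / (1 - Real.exp r) := by
    rw [← neg_div_neg_eq, neg_sub, neg_sub]
  rw [h4]
  refine div_le_div_of_nonneg_right ?_ h3.le
  have h5 : 0 < Real.exp r ^ n := pow_pos (Real.exp_pos r) n
  linarith

private theorem Fc_geo' (r : ℝ) (hr : 0 < r) (n : ℕ) :
    ∑ i ∈ Finset.range n, Real.exp (r * i) ≤ Real.exp (r * n) / (Real.exp r - 1) := by
  have h1 : 1 < Real.exp r := Real.one_lt_exp_iff.2 hr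
  have h2 : ∀ i : ℕ, Real.exp (r * i) = Real.exp r ^ i := fun i => by
    rw [mul_comm, Real.exp_nat_mul]
  rw [Finset.sum_congr rfl fun i _ => h2 i, geom_sum_eq h1.ne', h2]
  have h3 : 0 < Real.exp r - 1 := by linarith
  refine div_le_div_of_nonneg_right ?_ h3.le
  linarith

private theorem Fc_norm_g (u v : E2) : ‖((2 * u.1 * v.1 + v.1 ^ 2, 0) : E2)‖ ≤
    2 * ‖u‖ * ‖v‖ + ‖v‖ ^ 2 := by
  have hu : |u.1| ≤ ‖u‖ := norm_fst_le u
  have hv : |v.1| ≤ ‖v‖ := norm_fst_le v
  have h1 : |2 * u.1 * v.1 + v.1 ^ 2| ≤ 2 * ‖u‖ * ‖v‖ + ‖v‖ ^ 2 := by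
    refine (abs_add_le _ _).trans (add_le_add ?_ ?_)
    · rw [abs_mul, abs_mul, abs_two]
      have h2 := mul_le_mul hu hv (abs_nonneg _) (norm_nonneg _)
      nlinarith
    · rw [abs_pow]
      exact pow_le_pow_left₀ (abs_nonneg _) hv 2
  rw [Prod.norm_def]
  refine max_le h1 ?_
  have h3 : ‖(0 : ℝ)‖ = 0 := norm_zero
  exact h3.le.trans ((abs_nonneg _).trans h1)

theorem fc (hb0 : b ≠ 0) (hb1 : |b| < 1) (C : ℝ) : ∃ h0 c0 : ℝ, 0 < h0 ∧ 0 < c0 ∧
    ∀ s : E2 × E2, RS b c C s → ∀ (σ : ℝ) (p : E2), |σ| ≤ h0 → Cu b c s σ p →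
      ∀ (q : E2) (n : ℕ), ‖q - p‖ * Real.exp (2 * dl b * n) ≤ c0 →
        ‖(G 1 b c)^[n] q - (G 1 b c)^[n] p‖ ≤ 4 * C * Real.exp (dl b * n) * ‖q - p‖ := by
  obtain ⟨h1, hh1, hlc⟩ := lc (c := c) hb0 hb1 C
  have hel : 0 < el b := by
    unfold el
    have := Real.log_neg (abs_pos.2 hb0) hb1
    linarith
  have hdl : 0 < dl b := by
    unfold dl
    positivity
  obtain ⟨δ, hδ⟩ : ∃ δ, δ = dl b := ⟨_, rfl⟩
  obtain ⟨l, hl⟩ : ∃ l, l = el b := ⟨_, rfl⟩
  have hlδ : l = 1000 * δ := by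
    rw [hδ, hl]
    unfold dl
    ring
  rw [← hδ] at hdl
  simp only [← hδ, ← hl] at hlc ⊢
  have he1 : 0 < 1 - Real.exp (-(l - 5 * δ)) := by
    have : Real.exp (-(l - 5 * δ)) < 1 := Real.exp_lt_one_iff.2 (by linarith)
    linarith
  have he2 : 0 < Real.exp (2 * δ) - 1 := by
    have : 1 < Real.exp (2 * δ) := Real.one_lt_exp_iff.2 (by linarith)
    linarith
  have hC2 : 0 < 32 * (C ^ 2 + 1) := by positivity
  refine ⟨min h1 ((1 - Real.exp (-(l - 5 * δ))) / (32 * (C ^ 2 + 1))),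
    (Real.exp (2 * δ) - 1) / (32 * (C ^ 2 + 1)), lt_min hh1 (div_pos he1 hC2), div_pos he2 hC2, ?_⟩
  intro s hs σ p hσ hp q n
  have hs0 : Cu b c s 0 s.1 := by
    refine ⟨0, fun n => ?_⟩
    rw [zero_smul, sub_self, sub_zero, norm_zero, zero_mul]
  have hC0 : 0 ≤ C := by
    have h2 := hs.up 0 0
    simp only [Nat.cast_zero, mul_zero, add_zero, Real.exp_zero, mul_one] at h2
    exact (norm_nonneg _).trans h2
  obtain ⟨x, hx⟩ : ∃ x : ℕ → E2, x = fun n => (G 1 b c)^[n] s.1 := ⟨_, rfl⟩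
  obtain ⟨w, hw⟩ : ∃ w : ℕ → E2, w = fun n => (G 1 b c)^[n] q - (G 1 b c)^[n] p := ⟨_, rfl⟩
  obtain ⟨u, hu⟩ : ∃ u : ℕ → E2, u = fun n => (G 1 b c)^[n] p - (G 1 b c)^[n] s.1 := ⟨_, rfl⟩
  have hunorm : ∀ n, ‖u n‖ ≤ 2 * C * Real.exp (-(l - 4 * δ) * n) * |σ| := by
    intro n
    have h2 := (hlc s hs σ 0 p s.1 (hσ.trans (min_le_left _ _)) (by simpa using hh1.le) hp
      hs0).2.2.2.2 n
    rw [sub_zero] at h2
    rw [hu]
    exact h2
  have hstep : ∀ n, w (n + 1) = act (der 1 b ((G 1 b c)^[n] s.1)) (w n) +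
      (2 * (u n).1 * (w n).1 + (w n).1 ^ 2, 0) := by
    intro n
    have h2 : (G 1 b c)^[n + 1] q = G 1 b c ((G 1 b c)^[n] p + w n) := by
      rw [Function.iterate_succ_apply']
      congr 1
      rw [hw]
      simp
    have h3 : w (n + 1) = (G 1 b c)^[n + 1] q - (G 1 b c)^[n + 1] p := by rw [hw]
    rw [h3, h2, G_add, Function.iterate_succ_apply']
    have h4 : (G 1 b c)^[n] p = (G 1 b c)^[n] s.1 + u n := by
      rw [hu]
      simp
    rw [h4]
    refine Prod.ext ?_ ?_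
    · simp only [act, der, Prod.fst_add, Prod.snd_add, Prod.fst_sub, G]
      ring
    · simp only [act, der, Prod.fst_add, Prod.snd_add, Prod.snd_sub, G]
      ring
  have hvoc := Fc_voc s.1 w (fun n => (2 * (u n).1 * (w n).1 + (w n).1 ^ 2, 0)) hstep
  have hco : ∀ k n : ℕ, ‖co 1 b c ((G 1 b c)^[k] s.1) n‖ ≤ C * Real.exp (δ * n + δ * k) := by
    intro k n
    have h2 := hs.up k n
    have h3 : el b + Real.log |b| = 0 := by
      unfold el
      ring
    rw [h3, zero_add, ← hδ] at h2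
    exact h2
  have hw0 : w 0 = q - p := by rw [hw]; rfl
  have hwn : ∀ n, (G 1 b c)^[n] q - (G 1 b c)^[n] p = w n := fun n => by rw [hw]
  rw [hwn, ← hw0]
  induction n using Nat.strong_induction_on with
  | _ n ih =>
    intro hn
    have hi : ∀ i < n, ‖w i‖ ≤ 4 * C * Real.exp (δ * i) * ‖w 0‖ := by
      intro i hin
      refine ih i hin (le_trans ?_ hn)
      refine mul_le_mul_of_nonneg_left (Real.exp_le_exp.2 ?_) (norm_nonneg _)
      have : (i : ℝ) ≤ n := by exact_mod_cast hin.le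
      nlinarith
    -- bound of the inhomogeneities
    have hg : ∀ i < n, ‖((2 * (u i).1 * (w i).1 + (w i).1 ^ 2, 0) : E2)‖ ≤
        ‖w 0‖ * (16 * C ^ 2 * |σ|) * Real.exp (-(l - 5 * δ) * i) +
          ‖w 0‖ * (16 * C ^ 2 * ‖w 0‖) * Real.exp (2 * δ * i) := by
      intro i hin
      refine (Fc_norm_g _ _).trans (add_le_add ?_ ?_)
      · have h2 := mul_le_mul (hunorm i) (hi i hin) (norm_nonneg _)
          (by positivity)
        have h3 : Real.exp (-(l - 4 * δ) * i) * Real.exp (δ * i) = Real.exp (-(l - 5 * δ) * i) := by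
          rw [← Real.exp_add]
          congr 1
          ring
        calc 2 * ‖u i‖ * ‖w i‖ = 2 * (‖u i‖ * ‖w i‖) := by ring
          _ ≤ 2 * (2 * C * Real.exp (-(l - 4 * δ) * i) * |σ| *
              (4 * C * Real.exp (δ * i) * ‖w 0‖)) := by linarith
          _ = ‖w 0‖ * (16 * C ^ 2 * |σ|) *
              (Real.exp (-(l - 4 * δ) * i) * Real.exp (δ * i)) := by ring
          _ = _ := by rw [h3]
      · have h2 := pow_le_pow_left₀ (norm_nonneg _) (hi i hin) 2
        have h3 : Real.exp (δ * i) ^ 2 = Real.exp (2 * δ * i) := by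
          rw [← Real.exp_nat_mul]
          congr 1
          push_cast
          ring
        calc ‖w i‖ ^ 2 ≤ (4 * C * Real.exp (δ * i) * ‖w 0‖) ^ 2 := h2
          _ = ‖w 0‖ * (16 * C ^ 2 * ‖w 0‖) * Real.exp (δ * i) ^ 2 := by ring
          _ = _ := by rw [h3]
    have hsum : ∑ i ∈ Finset.range n, ‖((2 * (u i).1 * (w i).1 + (w i).1 ^ 2, 0) : E2)‖ ≤
        ‖w 0‖ := by
      refine (Finset.sum_le_sum fun i hi' => hg i (Finset.mem_range.1 hi')).trans ?_
      rw [Finset.sum_add_distrib, ← Finset.mul_sum, ← Finset.mul_sum]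
      have h2 := Fc_geo (-(l - 5 * δ)) (by linarith) n
      have h3 := Fc_geo' (2 * δ) (by linarith) n
      have h4 : 16 * C ^ 2 * |σ| * (1 / (1 - Real.exp (-(l - 5 * δ)))) ≤ 1 / 2 := by
        have h5 : |σ| ≤ (1 - Real.exp (-(l - 5 * δ))) / (32 * (C ^ 2 + 1)) :=
          hσ.trans (min_le_right _ _)
        rw [le_div_iff₀ hC2] at h5
        rw [mul_one_div, div_le_iff₀ he1]
        nlinarith [abs_nonneg σ]
      have h6 : 16 * C ^ 2 * ‖w 0‖ * (Real.exp (2 * δ * n) / (Real.exp (2 * δ) - 1)) ≤ 1 / 2 := by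
        rw [le_div_iff₀ hC2] at hn
        rw [← mul_div_assoc, div_le_iff₀ he2]
        have h7 : 0 ≤ ‖w 0‖ * Real.exp (2 * δ * n) := by positivity
        nlinarith
      have h8 : ‖w 0‖ * (16 * C ^ 2 * |σ|) * ∑ i ∈ Finset.range n, Real.exp (-(l - 5 * δ) * i) ≤
          ‖w 0‖ * (1 / 2) := by
        rw [mul_assoc]
        refine mul_le_mul_of_nonneg_left (le_trans ?_ h4) (norm_nonneg _)
        exact mul_le_mul_of_nonneg_left h2 (by positivity)
      have h9 : ‖w 0‖ * (16 * C ^ 2 * ‖w 0‖) * ∑ i ∈ Finset.range n, Real.exp (2 * δ * i) ≤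
          ‖w 0‖ * (1 / 2) := by
        rw [mul_assoc]
        refine mul_le_mul_of_nonneg_left (le_trans ?_ h6) (norm_nonneg _)
        exact mul_le_mul_of_nonneg_left h3 (by positivity)
      linarith
    have hE : 0 < Real.exp (δ * n) := Real.exp_pos _
    have hA : ‖act (co 1 b c s.1 n) (w 0)‖ ≤ 2 * C * Real.exp (δ * n) * ‖w 0‖ := by
      refine (norm_act_le _ _).trans ?_
      have h2 := hco 0 n
      rw [Nat.cast_zero, mul_zero, add_zero] at h2
      have h3 : ‖co 1 b c s.1 n‖ ≤ C * Real.exp (δ * n) := h2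
      calc 2 * ‖co 1 b c s.1 n‖ * ‖w 0‖ ≤ 2 * (C * Real.exp (δ * n)) * ‖w 0‖ := by gcongr
        _ = _ := by ring
    have hB : ‖∑ i ∈ Finset.range n, act (co 1 b c ((G 1 b c)^[i + 1] s.1) (n - (i + 1)))
        (2 * (u i).1 * (w i).1 + (w i).1 ^ 2, 0)‖ ≤ 2 * C * Real.exp (δ * n) * ‖w 0‖ := by
      refine (norm_sum_le _ _).trans ?_
      refine le_trans (Finset.sum_le_sum (g := fun i => 2 * C * Real.exp (δ * n) *
        ‖((2 * (u i).1 * (w i).1 + (w i).1 ^ 2, 0) : E2)‖) fun i hi' => ?_) ?_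
      · have hin : i < n := Finset.mem_range.1 hi'
        refine (norm_act_le _ _).trans ?_
        have h2 := hco (i + 1) (n - (i + 1))
        have h3 : δ * ((n - (i + 1) : ℕ) : ℝ) + δ * ((i + 1 : ℕ) : ℝ) = δ * n := by
          rw [← mul_add, ← Nat.cast_add, Nat.sub_add_cancel hin]
        rw [h3] at h2
        calc 2 * ‖co 1 b c ((G 1 b c)^[i + 1] s.1) (n - (i + 1))‖ * _ ≤
            2 * (C * Real.exp (δ * n)) * ‖((2 * (u i).1 * (w i).1 + (w i).1 ^ 2, 0) : E2)‖ :=
              mul_le_mul_of_nonneg_right (by linarith) (norm_nonneg _)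
          _ = _ := by ring
      · rw [← Finset.mul_sum]
        exact mul_le_mul_of_nonneg_left hsum (by positivity)
    rw [hvoc n]
    refine (norm_add_le _ _).trans ?_
    linarith

end Pool.Agent.HG
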