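import Pool.Agent.HG.Fr

set_option autoImplicit false

/-!
# Shift along the orbit for stable curves with a general rate

The statements of HG/Fr for a general rate `ρ` instead of `el b`, and uniqueness of the direction at time `n`.
-/

namespace Pool.Agent.HG

open Pool.Agent.HD

variable {b c ρ δ : ℝ}

private theorem fg_vn (hb : b ≠ 0) {p V : E2} (hV : ‖V‖ = 1) (n m : ℕ) :
    act (co 1 b c p (n + m)) V =
      lam b c (p, V) n • act (co 1 b c ((G 1 b c)^[n] p) m) (sn b c (p, V) n).2 := by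
  have hs : ‖((p, V) : E2 × E2).2‖ = 1 := hV
  have h1 : vn b c (p, V) (n + m) = lam b c (p, V) n • vn b c (sn b c (p, V) n) m := by
    rw [vn_eq hb hs (n + m), (sn_add hb hs n m).2, ← (sn_add hb hs n m).1, mul_smul,
      ← vn_eq hb (sn_unit hb hs n) m]
  exact h1

private theorem fg_dev (hb : b ≠ 0) {p V : E2} (hV : ‖V‖ = 1) (t : ℝ) (q : E2) (n m : ℕ) :
    (G 1 b c)^[m] ((G 1 b c)^[n] q) - (G 1 b c)^[m] ((G 1 b c)^[n] p) -
      (lam b c (p, V) n * t) • act (co 1 b c ((G 1 b c)^[n] p) m) (sn b c (p, V) n).2 =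
    (G 1 b c)^[n + m] q - (G 1 b c)^[n + m] p - t • act (co 1 b c p (n + m)) V := by
  rw [fg_vn hb hV, smul_smul, ← Function.iterate_add_apply, ← Function.iterate_add_apply,
    Nat.add_comm m n, mul_comm t]

theorem as_shift (hb : b ≠ 0) (hρ : 0 < ρ) {p V : E2} (hV : ‖V‖ = 1) {t : ℝ} {q : E2}
    (h : Asym 1 b c ρ p V t q) (n : ℕ) :
    Asym 1 b c ρ ((G 1 b c)^[n] p) (sn b c (p, V) n).2 (lam b c (p, V) n * t)
      ((G 1 b c)^[n] q) := by
  obtain ⟨D, hD⟩ := h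
  refine ⟨|D|, fun m => ?_⟩
  rw [fg_dev hb hV]
  refine (hD (n + m)).trans (mul_le_mul (le_abs_self D) (Real.exp_le_exp.2 ?_) (Real.exp_pos _).le
    (abs_nonneg D))
  have h2 : (0 : ℝ) ≤ n := Nat.cast_nonneg n
  push_cast
  nlinarith [mul_nonneg hρ.le h2]

theorem as_unshift (hb : b ≠ 0) (hρ : 0 < ρ) {p V : E2} (hV : ‖V‖ = 1) {t : ℝ} {q : E2} (n : ℕ)
    (h : Asym 1 b c ρ ((G 1 b c)^[n] p) (sn b c (p, V) n).2 (lam b c (p, V) n * t)
      ((G 1 b c)^[n] q)) : Asym 1 b c ρ p V t q := by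
  obtain ⟨D, hD⟩ := h
  set f : ℕ → ℝ := fun k : ℕ => ‖(G 1 b c)^[k] q - (G 1 b c)^[k] p - t • act (co 1 b c p k) V‖
    with hf
  set r : ℝ := 3 / 2 * ρ with hr
  have hf0 : ∀ k, 0 ≤ f k := fun k => norm_nonneg _
  have hfm : ∀ m : ℕ, f (n + m) ≤ |D| * Real.exp (-r * m) := by
    intro m
    have h1 := hD m
    rw [fg_dev hb hV] at h1
    exact h1.trans (mul_le_mul_of_nonneg_right (le_abs_self D) (Real.exp_pos _).le)
  have h0 : ∀ k : ℕ, 0 ≤ f k * Real.exp (r * k) := fun k => mul_nonneg (hf0 k) (Real.exp_pos _).le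
  have h1 : 0 ≤ ∑ k ∈ Finset.range n, f k * Real.exp (r * k) := Finset.sum_nonneg fun k _ => h0 k
  refine ⟨|D| * Real.exp (r * n) + ∑ k ∈ Finset.range n, f k * Real.exp (r * k), fun k => ?_⟩
  rcases lt_or_ge k n with hk | hk
  · have h2 : f k * Real.exp (r * k) ≤ ∑ k ∈ Finset.range n, f k * Real.exp (r * k) :=
      Finset.single_le_sum (f := fun k : ℕ => f k * Real.exp (r * k)) (fun k _ => h0 k)
        (Finset.mem_range.2 hk)
    have h3 : f k = f k * Real.exp (r * k) * Real.exp (-r * k) := by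
      rw [mul_assoc, ← Real.exp_add]
      have : r * (k : ℝ) + -r * k = 0 := by ring
      rw [this, Real.exp_zero, mul_one]
    change f k ≤ _
    rw [h3]
    refine mul_le_mul_of_nonneg_right ?_ (Real.exp_pos _).le
    exact h2.trans (le_add_of_nonneg_left (mul_nonneg (abs_nonneg D) (Real.exp_pos _).le))
  · obtain ⟨m, rfl⟩ := Nat.exists_eq_add_of_le hk
    refine (hfm m).trans ?_
    have h3 : |D| * Real.exp (-r * m) =
        |D| * Real.exp (r * n) * Real.exp (-r * ((n + m : ℕ) : ℝ)) := by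
      rw [mul_assoc, ← Real.exp_add]
      congr 2
      push_cast
      ring
    rw [h3]
    refine mul_le_mul_of_nonneg_right ?_ (Real.exp_pos _).le
    exact le_add_of_nonneg_right h1

theorem as_lam_pos (hb : b ≠ 0) {p V : E2} (hV : ‖V‖ = 1) (n : ℕ) : 0 < lam b c (p, V) n :=
  lam_pos hb (s := (p, V)) hV n

theorem as_lam_tendsto {R C : ℝ} {p V : E2} (hδ : 0 < δ) (hρ : 100 * δ ≤ ρ)
    (h : Reg 1 b c ρ δ R C p V) :
    Filter.Tendsto (fun n : ℕ => lam b c (p, V) n) Filter.atTop (nhds 0) := by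
  have h2 : Filter.Tendsto (fun n : ℕ => Real.exp (-(ρ - 3 * δ) * n)) Filter.atTop
      (nhds 0) := by
    refine Real.tendsto_exp_atBot.comp ?_
    exact tendsto_natCast_atTop_atTop.const_mul_atTop_of_neg (by linarith)
  have h3 : Filter.Tendsto (fun n : ℕ => C * Real.exp (-(ρ - 3 * δ) * n)) Filter.atTop
      (nhds 0) := by
    simpa using h2.const_mul C
  exact squeeze_zero (fun n => norm_nonneg _) (fun n => h.con n) h3

theorem as_dir (hb : b ≠ 0) (hδ : 0 < δ) (hρ : 100 * δ ≤ ρ) (hρ' : -Real.log |b| ≤ ρ)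
    {R R' C C' : ℝ} {p V W : E2} (h : Reg 1 b c ρ δ R C p V) (n : ℕ)
    (h' : Reg 1 b c ρ δ R' C' ((G 1 b c)^[n] p) W) :
    W = (sn b c (p, V) n).2 ∨ W = -(sn b c (p, V) n).2 := by
  have hV : ‖V‖ = 1 := h.unit
  have hl := lam_pos (c := c) hb (s := (p, V)) hV n
  have hC : 1 ≤ C := Reg.one_le h
  have hC0 : 0 ≤ C := zero_le_one.trans hC
  refine uniq_dir (a := 1) (c := c) (p := (G 1 b c)^[n] p) hb (sn_unit hb (s := (p, V)) hV n)
    h'.unit (r := ρ - 3 * δ) (r' := ρ - 3 * δ) (C := (lam b c (p, V) n)⁻¹ * C) (C' := C')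
    (fun m => ?_) (fun m => h'.con m) (by linarith)
  have h1 : act (co 1 b c ((G 1 b c)^[n] p) m) (sn b c (p, V) n).2 =
      (lam b c (p, V) n)⁻¹ • act (co 1 b c p (n + m)) V := by
    rw [fg_vn hb hV, smul_smul, inv_mul_cancel₀ hl.ne', one_smul]
  rw [h1, norm_smul, norm_inv, Real.norm_eq_abs, abs_of_pos hl]
  have h2 := mul_le_mul_of_nonneg_left (h.con (n + m)) (inv_nonneg.2 hl.le)
  refine h2.trans ?_
  rw [← mul_assoc]
  refine mul_le_mul_of_nonneg_left (Real.exp_le_exp.2 ?_)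
    (mul_nonneg (inv_nonneg.2 hl.le) hC0)
  have h3 : (0 : ℝ) ≤ n := Nat.cast_nonneg n
  have h4 : 0 ≤ ρ - 3 * δ := by linarith
  push_cast
  nlinarith [mul_nonneg h4 h3]

end Pool.Agent.HG
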