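import Mathlib

set_option autoImplicit false

/-!
# Greedy chains

A family of bounded functions `Φ i`, refined equivalence relations `R j` with limits of chains, and a uniform gain at
every point: impossible on a nonempty set.
-/

namespace Pool.Agent.HG

theorem greedy {P : Type*} (Φ : ℕ → P → ℝ) (B : ℝ) (hB : ∀ i p, Φ i p ≤ B)
    (R : ℕ → P → P → Prop) (hR : ∀ j, Equivalence (R j))
    (hΦ : ∀ j p q, R j p q → Φ j p = Φ j q)
    (hlim : ∀ u : ℕ → P, (∀ j, R j (u (j + 1)) (u j)) → ∃ q, ∀ j, R j q (u j))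
    (hext : ∀ p : P, ∃ v ε : ℝ, 0 < ε ∧ (∀ i, Φ i p + ε ≤ v) ∧
      ∀ j, ∃ q, R j q p ∧ v ≤ Φ (j + 1) q) : IsEmpty P := by
  by_contra hne
  rw [not_isEmpty_iff] at hne
  obtain ⟨p0⟩ := hne
  have step : ∀ (j : ℕ) (p : P), ∃ p', R j p' p ∧ ∀ q, R j q p → Φ (j + 1) q ≤ Φ (j + 1) p' + (1 / 2 : ℝ) ^ j := by
    intro j p
    set S : Set ℝ := {x | ∃ q, R j q p ∧ Φ (j + 1) q = x} with hS
    have hSne : S.Nonempty := ⟨_, p, (hR j).refl p, rfl⟩
    have hSb : BddAbove S := ⟨B, by rintro x ⟨q, _, rfl⟩; exact hB _ _⟩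
    have hlt : sSup S - (1 / 2 : ℝ) ^ j < sSup S := by
      have : (0 : ℝ) < (1 / 2 : ℝ) ^ j := by positivity
      linarith
    obtain ⟨x, ⟨p', hp', rfl⟩, hx⟩ := exists_lt_of_lt_csSup hSne hlt
    refine ⟨p', hp', fun q hq => ?_⟩
    have := le_csSup hSb (show Φ (j + 1) q ∈ S from ⟨q, hq, rfl⟩)
    linarith
  choose f hf1 hf2 using step
  set u : ℕ → P := fun n => Nat.rec p0 (fun j p => f j p) n with hu
  have hus : ∀ j, u (j + 1) = f j (u j) := fun j => rfl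
  obtain ⟨q, hq⟩ := hlim u (fun j => by rw [hus]; exact hf1 j (u j))
  obtain ⟨v, ε, hε, h1, h2⟩ := hext q
  obtain ⟨j, hj⟩ := exists_pow_lt_of_lt_one hε (by norm_num : (1 / 2 : ℝ) < 1)
  obtain ⟨q', hq', hv⟩ := h2 j
  have h3 : R j q' (u j) := (hR j).trans hq' (hq j)
  have h4 := hf2 j (u j) q' h3
  rw [← hus] at h4
  have h5 := hΦ (j + 1) q (u (j + 1)) (hq (j + 1))
  have h6 := h1 (j + 1)
  linarith

end Pool.Agent.HG
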