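import Pool.Agent.HD.Null
import Pool.Agent.HD.Lit
import Pool.Agent.HG.Em
import Pool.Agent.HG.Lm

set_option autoImplicit false

/-!
# No asymptotic points in the branches of two states of a block

`bad_law`: the law of the base point is ergodic, without atoms, and stable sets are null sets. `no_asym`: for almost
all pairs of states of the block, the closures of the branches are at positive distance, and by Poincare recurrence
infinitely many of their images are at least at a fixed distance.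
-/

namespace Pool.Agent.HG

open Pool.Agent.HD MeasureTheory Set Filter Topology

variable {b c : ℝ}

/-- the law of the base point of a bad measure -/
private theorem na_law (hb0 : b ≠ 0) {m : Measure (St b c)} (hm : Bad b c m) :
    Ergodic (G 1 b c) (m.map fun s => s.1.1) ∧ (∀ p, (m.map fun s => s.1.1) {p} = 0) ∧
      ∀ p : E2, m ((fun s : St b c => s.1.1) ⁻¹' {q | ExpC (G 1 b c) p q}) = 0 := by
  have hprob := hm.prob
  have hπ : Measurable (fun s : St b c => s.1.1) := measurable_fst.comp measurable_subtype_coe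
  have hG : Measurable (G 1 b c) := (continuous_G 1 b c).measurable
  have h1 : Ergodic (G 1 b c) (m.map fun s => s.1.1) :=
    ergodic_map (T := FS b c) hπ hG (fun y => by rw [FS_val hb0]; rfl) hm.erg
  have h2 : ∀ p, (m.map fun s => s.1.1) {p} = 0 := by
    intro p
    rw [Measure.map_apply hπ (measurableSet_singleton p)]
    exact hm.na p
  refine ⟨h1, h2, fun p => ?_⟩
  have hp : IsProbabilityMeasure (m.map fun s => s.1.1) := Measure.isProbabilityMeasure_map hπ.aemeasurable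
  have h3 := null (continuous_G 1 b c) h1.toMeasurePreserving h2 p
  rwa [Measure.map_apply hπ (measurableSet_ws (continuous_G 1 b c) p)] at h3

private theorem na_meas {f : E2 → E2} (hf : Continuous f) :
    MeasurableSet {x : E2 × E2 | ExpC f x.1 x.2} := by
  have : {x : E2 × E2 | ExpC f x.1 x.2} = ⋃ k : ℕ, ⋃ D : ℕ, ⋂ n : ℕ,
      {x : E2 × E2 | dist (f^[n] x.2) (f^[n] x.1) ≤ (D : ℝ) * Real.exp (-(1 / ((k : ℝ) + 1)) * n)} := by
    ext x
    simp only [Set.mem_iUnion, Set.mem_iInter]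
    constructor
    · rintro ⟨a, ha, D, hD⟩
      obtain ⟨k, hk⟩ := exists_nat_one_div_lt ha
      refine ⟨k, ⌈D⌉₊, fun n => ?_⟩
      refine (hD n).trans ?_
      have h1 : D * Real.exp (-a * n) ≤ (⌈D⌉₊ : ℝ) * Real.exp (-a * n) :=
        mul_le_mul_of_nonneg_right (Nat.le_ceil D) (Real.exp_pos _).le
      refine h1.trans (mul_le_mul_of_nonneg_left ?_ (Nat.cast_nonneg _))
      refine Real.exp_le_exp.2 (mul_le_mul_of_nonneg_right ?_ (Nat.cast_nonneg n))
      linarith
    · rintro ⟨k, D, h⟩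
      exact ⟨1 / ((k : ℝ) + 1), by positivity, D, h⟩
  rw [this]
  refine MeasurableSet.iUnion fun k => MeasurableSet.iUnion fun D => MeasurableSet.iInter fun n => ?_
  exact (isClosed_le (((hf.iterate n).comp continuous_snd).dist ((hf.iterate n).comp continuous_fst))
    continuous_const).measurableSet

/-- the distance of the closures of the branches, by rational parameters -/
private theorem na_far (hb0 : b ≠ 0) (hb1 : |b| < 1) {C C' : ℝ} {s s' : E2 × E2} (h : RS b c C s)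
    (h' : RS b c C' s') {r : ℝ}
    (hr : ∀ t t' : ℚ, (0 : ℝ) ≤ t → (0 : ℝ) ≤ t' → r ≤ dist (cuf b c s t) (cuf b c s' t')) :
    ∀ u ∈ closure (Brn b c s), ∀ v ∈ closure (Brn b c s'), r ≤ dist u v := by
  obtain ⟨hc, -, -⟩ := cuf_curve hb0 hb1 h
  obtain ⟨hc', -, -⟩ := cuf_curve hb0 hb1 h'
  have h1 : ∀ t t' : ℝ, 0 ≤ t → 0 ≤ t' → r ≤ dist (cuf b c s t) (cuf b c s' t') := by
    intro t t' ht ht'
    by_contra hcon
    rw [not_le] at hcon
    have hopen : IsOpen {x : ℝ × ℝ | dist (cuf b c s x.1) (cuf b c s' x.2) < r} :=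
      isOpen_lt ((hc.comp continuous_fst).dist (hc'.comp continuous_snd)) continuous_const
    obtain ⟨ε, hε, hball⟩ := Metric.isOpen_iff.1 hopen (t, t') hcon
    obtain ⟨u, hu1, hu2⟩ := exists_rat_btwn (show t < t + ε by linarith)
    obtain ⟨v, hv1, hv2⟩ := exists_rat_btwn (show t' < t' + ε by linarith)
    have hmem : ((u : ℝ), (v : ℝ)) ∈ Metric.ball (t, t') ε := by
      rw [Metric.mem_ball, Prod.dist_eq, Real.dist_eq, Real.dist_eq]
      refine max_lt ?_ ?_
      · rw [abs_of_pos (by linarith)]; linarith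
      · rw [abs_of_pos (by linarith)]; linarith
    have h2 : dist (cuf b c s u) (cuf b c s' v) < r := hball hmem
    exact absurd (hr u v (by linarith) (by linarith)) (not_le.2 h2)
  have hsub : closure (Brn b c s ×ˢ Brn b c s') ⊆ {x : E2 × E2 | r ≤ dist x.1 x.2} := by
    refine closure_minimal ?_ (isClosed_le continuous_const continuous_dist)
    rintro ⟨p, q⟩ ⟨hp, hq⟩
    rw [brn_eq hb0 hb1 h] at hp
    rw [brn_eq hb0 hb1 h'] at hq
    obtain ⟨t, ht, rfl⟩ := hp
    obtain ⟨t', ht', rfl⟩ := hq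
    exact h1 t t' ht ht'
  intro u hu v hv
  have : (u, v) ∈ closure (Brn b c s ×ˢ Brn b c s') := by
    rw [closure_prod_eq]
    exact ⟨hu, hv⟩
  exact hsub this

/-- the pairs of states of the block whose branches are at distance at least `1 / (j + 1)` -/
private def naE (b c : ℝ) (Q : Set (St b c)) (j : ℕ) : Set (St b c × St b c) :=
  {x | (x.1 ∈ Q ∧ x.2 ∈ Q) ∧ ∀ t t' : ℚ, (0 : ℝ) ≤ t → (0 : ℝ) ≤ t' →
    1 / ((j : ℝ) + 1) ≤ dist (cuf b c x.1.1 t) (cuf b c x.2.1 t')}

private theorem naE_meas (hb0 : b ≠ 0) (hb1 : |b| < 1) {Q : Set (St b c)} (hQ : MeasurableSet Q) (j : ℕ) :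
    MeasurableSet (naE b c Q j) := by
  have h1 : naE b c Q j = (Prod.fst ⁻¹' Q ∩ Prod.snd ⁻¹' Q) ∩ ⋂ t : ℚ, ⋂ t' : ℚ, ⋂ (_ : (0 : ℝ) ≤ t),
      ⋂ (_ : (0 : ℝ) ≤ t'), {x : St b c × St b c | 1 / ((j : ℝ) + 1) ≤ dist (cuf b c x.1.1 t) (cuf b c x.2.1 t')} := by
    ext x
    simp only [naE, mem_inter_iff, mem_iInter, mem_preimage]
    rfl
  rw [h1]
  refine ((measurable_fst hQ).inter (measurable_snd hQ)).inter (MeasurableSet.iInter fun t =>
    MeasurableSet.iInter fun t' => MeasurableSet.iInter fun _ => MeasurableSet.iInter fun _ => ?_)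
  refine measurableSet_le measurable_const ?_
  exact ((cuf_meas hb0 hb1 (t : ℝ)).comp (measurable_subtype_coe.comp measurable_fst)).dist
    ((cuf_meas hb0 hb1 (t' : ℝ)).comp (measurable_subtype_coe.comp measurable_snd))

private theorem na_iter (n : ℕ) (x : St b c × St b c) :
    (Prod.map (FS b c) (FS b c))^[n] x = ((FS b c)^[n] x.1, (FS b c)^[n] x.2) := by
  induction n generalizing x with
  | zero => rfl
  | succ n ih => rw [Function.iterate_succ_apply, ih]; rfl

private theorem na_clo (hb0 : b ≠ 0) (hb1 : |b| < 1) (s : St b c) (n : ℕ) {u : E2}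
    (hu : u ∈ closure (Brn b c s.1)) :
    (G 1 b c)^[n] u ∈ closure (Brn b c ((FS b c)^[n] s).1) := by
  rw [fs_iter hb0, brn_shift hb0 hb1 s.2.2]
  exact image_closure_subset_closure_image (continuous_G_iter 1 b c n) ⟨u, hu, rfl⟩

theorem no_asym (hb0 : b ≠ 0) (hb1 : |b| < 1) {m : Measure (St b c)} (hm : Bad b c m)
    {Q : Set (St b c)} (hQ : MeasurableSet Q) (hG : ∀ s ∈ Q, s.1 ∈ GS b c)
    (hdis : ∀ s ∈ Q, ∀ s' ∈ Q, ¬ ExpC (G 1 b c) s.1.1 s'.1.1 →
      Disjoint (closure (Brn b c s.1)) (closure (Brn b c s'.1))) :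
    ∀ᵐ x : St b c × St b c ∂(m.prod m), x.1 ∈ Q → x.2 ∈ Q →
      ∀ u ∈ closure (Brn b c x.1.1), ∀ v ∈ closure (Brn b c x.2.1),
        ¬ Tendsto (fun n : ℕ => dist ((G 1 b c)^[n] u) ((G 1 b c)^[n] v)) atTop (𝓝 0) := by
  have hprob := hm.prob
  have hT : MeasurePreserving (Prod.map (FS b c) (FS b c)) (m.prod m) (m.prod m) :=
    hm.erg.toMeasurePreserving.prod hm.erg.toMeasurePreserving
  -- pairs with asymptotic base points
  have hN : ∀ᵐ x : St b c × St b c ∂(m.prod m), ¬ ExpC (G 1 b c) x.1.1.1 x.2.1.1 := by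
    have hms : MeasurableSet {x : St b c × St b c | ExpC (G 1 b c) x.1.1.1 x.2.1.1} := by
      have hf : Measurable (fun x : St b c × St b c => ((x.1.1.1, x.2.1.1) : E2 × E2)) :=
        (measurable_fst.comp (measurable_subtype_coe.comp measurable_fst)).prodMk
          (measurable_fst.comp (measurable_subtype_coe.comp measurable_snd))
      exact hf (na_meas (continuous_G 1 b c))
    have h0 : (m.prod m) {x : St b c × St b c | ExpC (G 1 b c) x.1.1.1 x.2.1.1} = 0 := by
      rw [Measure.measure_prod_null hms]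
      exact Eventually.of_forall fun s => (na_law hb0 hm).2.2 s.1.1
    exact measure_eq_zero_iff_ae_notMem.1 h0
  have hrec : ∀ j : ℕ, ∀ᵐ x : St b c × St b c ∂(m.prod m), x ∈ naE b c Q j →
      ∃ᶠ n in atTop, (Prod.map (FS b c) (FS b c))^[n] x ∈ naE b c Q j := fun j =>
    hT.conservative.ae_mem_imp_frequently_image_mem (naE_meas hb0 hb1 hQ j).nullMeasurableSet
  filter_upwards [hN, ae_all_iff.2 hrec] with x hx hxr h1 h2 u hu v hv htend
  -- the branches are at positive distance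
  obtain ⟨j, hj⟩ : ∃ j : ℕ, x ∈ naE b c Q j := by
    obtain ⟨-, hk1, -⟩ := clo_brn hb0 hb1 (hG _ h1)
    obtain ⟨-, hk2, -⟩ := clo_brn hb0 hb1 (hG _ h2)
    have hd := hdis _ h1 _ h2 hx
    obtain ⟨δ, hδ, hmin⟩ := (hk1.prod hk2).exists_forall_le' (f := fun p : E2 × E2 => dist p.1 p.2) (a := 0)
      continuous_dist.continuousOn (by
        rintro ⟨p, q⟩ ⟨hp, hq⟩
        show 0 < dist p q
        rw [dist_pos]
        rintro rfl
        exact Set.disjoint_left.1 hd hp hq)
    obtain ⟨j, hj⟩ := exists_nat_one_div_lt hδ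
    refine ⟨j, ⟨h1, h2⟩, fun t t' ht ht' => ?_⟩
    obtain ⟨-, ⟨C, hC⟩, -⟩ := hG _ h1
    obtain ⟨-, ⟨C', hC'⟩, -⟩ := hG _ h2
    refine hj.le.trans (hmin (cuf b c x.1.1 t, cuf b c x.2.1 t') ⟨subset_closure ?_, subset_closure ?_⟩)
    · rw [brn_eq hb0 hb1 hC]; exact ⟨t, ht, rfl⟩
    · rw [brn_eq hb0 hb1 hC']; exact ⟨t', ht', rfl⟩
  have hfr := hxr j hj
  have hev : ∀ᶠ n : ℕ in atTop, dist ((G 1 b c)^[n] u) ((G 1 b c)^[n] v) < 1 / ((j : ℝ) + 1) :=
    htend.eventually (gt_mem_nhds (by positivity))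
  obtain ⟨n, hn1, hn2⟩ := (hfr.and_eventually hev).exists
  rw [na_iter] at hn1
  obtain ⟨⟨q1, q2⟩, hfar⟩ := hn1
  obtain ⟨-, ⟨C, hC⟩, -⟩ := hG _ q1
  obtain ⟨-, ⟨C', hC'⟩, -⟩ := hG _ q2
  have := na_far hb0 hb1 hC hC' hfar _ (na_clo hb0 hb1 x.1 n hu) _ (na_clo hb0 hb1 x.2 n hv)
  exact absurd hn2 (not_lt.2 this)

/-- the law of the base point of a bad measure -/
theorem bad_law (hb0 : b ≠ 0) {m : Measure (St b c)} (hm : Bad b c m) :
    Ergodic (G 1 b c) (m.map fun s => s.1.1) ∧ (∀ p, (m.map fun s => s.1.1) {p} = 0) ∧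
      ∀ p : E2, m ((fun s : St b c => s.1.1) ⁻¹' {q | ExpC (G 1 b c) p q}) = 0 :=
  na_law hb0 hm

end Pool.Agent.HG
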