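import Pool.Agent.HG.Sf
import Pool.Agent.HG.Bw
import Pool.Agent.HG.Na
import Pool.Agent.HG.Em

set_option autoImplicit false

/-!
# The limit points joined to a bad measure have no atoms

The atoms of maximal mass would be a finite set of full measure; two states of a small block
which are not asymptotic would have a common limit point, against the disjointness of the branches.
-/

namespace Pool.Agent.HG

open Pool.Agent.HD MeasureTheory Set

variable {b c : ℝ}

private theorem atoms {X : Type*} [MeasurableSpace X] [MeasurableSingletonClass X] {T : X → X}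
    (hT : Function.Injective T) {μ : Measure X} [IsProbabilityMeasure μ] (h : Ergodic T μ) {z0 : X}
    (h0 : μ {z0} ≠ 0) : ∃ O : Set X, O.Finite ∧ μ Oᶜ = 0 := by
  have hfin : {z : X | μ {z0} ≤ μ {z}}.Finite :=
    Measure.finite_const_le_meas_of_disjoint_iUnion μ (pos_iff_ne_zero.2 h0)
      (As := fun z : X => ({z} : Set X)) (fun z => measurableSet_singleton z)
      (fun z z' hzz => by
        simp only [Function.onFun, disjoint_singleton]
        exact hzz) (measure_ne_top _ _)
  refine ⟨{z : X | μ {z0} ≤ μ {z}}, hfin, ?_⟩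
  have hinv : T ⁻¹' {z : X | μ {z0} ≤ μ {z}} = {z : X | μ {z0} ≤ μ {z}} := by
    ext z
    have e : μ {T z} = μ {z} := by
      rw [← h.toMeasurePreserving.measure_preimage (measurableSet_singleton _).nullMeasurableSet]
      congr 1
      ext w
      simp only [mem_preimage, mem_singleton_iff]
      exact hT.eq_iff
    simp only [mem_preimage, mem_ofPred_eq]
    rw [e]
  rcases h.toPreErgodic.prob_eq_zero_or_one hfin.measurableSet hinv with h1 | h1
  · exfalso
    refine h0 (measure_mono_null ?_ h1)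
    intro z hz
    rw [mem_singleton_iff] at hz
    subst hz
    exact le_refl (μ {z})
  · rw [prob_compl_eq_zero_iff hfin.measurableSet]
    exact h1

theorem join_na (hb0 : b ≠ 0) (hb1 : |b| < 1) {m : Measure (St b c)} (hm : Bad b c m)
    {ν : Measure (St b c × Kt b c)} [IsProbabilityMeasure ν]
    (hν : Ergodic (Prod.map (FS b c) (fK b c)) ν) (h1 : ν.map Prod.fst = m)
    (h2 : ∀ᵐ x : St b c × Kt b c ∂ν, x.2.1 ∈ Lim b c x.1.1) (z : Kt b c) :
    ν (Prod.snd ⁻¹' {z}) = 0 := by
  classical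
  by_contra hz0
  have hpr := hm.prob
  have hinj : Function.Injective (fK b c) := by
    intro p q hpq
    have := congrArg Subtype.val hpq
    rw [fK_val hb0, fK_val hb0] at this
    exact Subtype.ext (G_injective hb0 this)
  have hprob : IsProbabilityMeasure (ν.map Prod.snd) :=
    Measure.isProbabilityMeasure_map measurable_snd.aemeasurable
  have herg : Ergodic (fK b c) (ν.map Prod.snd) :=
    ergodic_map measurable_snd (continuous_fK hb0).measurable (fun _ => rfl) hν
  obtain ⟨O, hO, hO0⟩ := atoms hinj herg (z0 := z) (by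
    rw [Measure.map_apply measurable_snd (measurableSet_singleton _)]
    exact hz0)
  rw [Measure.map_apply measurable_snd hO.measurableSet.compl] at hO0
  -- the block
  have hbk := fun C => bk_disj (c := c) hb0 hb1 C
  choose hh hh0 hbk using hbk
  obtain ⟨C, r, N0, hr, hB⟩ := blocks hb0 hb1 hm hh hh0
  obtain ⟨d0, hd0, hdis⟩ := hbk C (hh C) (hh0 C) le_rfl r hr N0
  obtain ⟨s0, hs0, hs0'⟩ := exists_mem_forall_mem_nhdsWithin_pos_measure hB
  obtain ⟨Q, hQ⟩ : ∃ Q : Set (St b c), Q = Subtype.val ⁻¹' Bk b c C (hh C) r N0 ∩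
      {s | ‖s.1.1 - s0.1.1‖ < d0 / 2} := ⟨_, rfl⟩
  have hop : IsOpen {s : St b c | ‖s.1.1 - s0.1.1‖ < d0 / 2} :=
    isOpen_lt (((continuous_fst.comp continuous_subtype_val).sub continuous_const).norm)
      continuous_const
  have hQm : MeasurableSet Q := by
    rw [hQ]
    exact (bk_meas hb0 hb1 C (hh C) r N0).inter hop.measurableSet
  have hQpos : m Q ≠ 0 := by
    have := hs0' Q (by
      rw [hQ]
      refine Filter.inter_mem self_mem_nhdsWithin (mem_nhdsWithin_of_mem_nhds (hop.mem_nhds ?_))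
      simp only [mem_ofPred_eq, sub_self, norm_zero]
      linarith)
    exact this.ne'
  have hQdis : ∀ s ∈ Q, ∀ s' ∈ Q, ¬ ExpC (G 1 b c) s.1.1 s'.1.1 →
      Disjoint (closure (Brn b c s.1)) (closure (Brn b c s'.1)) := by
    intro s hs s' hs' hne
    rw [hQ] at hs hs'
    refine hdis s.1 hs.1 s'.1 hs'.1 ?_ hne
    have e : s.1.1 - s'.1.1 = (s.1.1 - s0.1.1) - (s'.1.1 - s0.1.1) := by abel
    rw [e]
    have h3 := norm_sub_le (s.1.1 - s0.1.1) (s'.1.1 - s0.1.1)
    have h4 : ‖s.1.1 - s0.1.1‖ < d0 / 2 := hs.2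
    have h5 : ‖s'.1.1 - s0.1.1‖ < d0 / 2 := hs'.2
    linarith
  have hQG : ∀ s ∈ Q, s.1 ∈ GS b c := by
    intro s hs
    rw [hQ] at hs
    exact hs.1.1
  -- null sets of the first factor
  have hnull : ∀ A : Set (St b c), m A = 0 → ν (Prod.fst ⁻¹' A) = 0 := by
    intro A hA
    rw [← h1] at hA
    exact le_antisymm ((Measure.le_map_apply measurable_fst.aemeasurable A).trans hA.le) zero_le
  -- an atom
  obtain ⟨w, hw, hwpos⟩ : ∃ w ∈ O, ν {x | x.1 ∈ Q ∧ x.2 = w ∧ x.2.1 ∈ Lim b c x.1.1} ≠ 0 := by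
    by_contra hcon
    push Not at hcon
    have h3 : ν (Prod.fst ⁻¹' Q) = 0 := by
      refine measure_mono_null (t := (Prod.snd ⁻¹' Oᶜ) ∪ {x | ¬ x.2.1 ∈ Lim b c x.1.1} ∪
        ⋃ w ∈ O, {x : St b c × Kt b c | x.1 ∈ Q ∧ x.2 = w ∧ x.2.1 ∈ Lim b c x.1.1}) ?_ ?_
      · intro x hx
        by_cases hxO : x.2 ∈ O
        · by_cases hxL : x.2.1 ∈ Lim b c x.1.1
          · right
            simp only [mem_iUnion]
            exact ⟨x.2, hxO, hx, rfl, hxL⟩
          · left; right; exact hxL
        · left; left; exact hxO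
      · refine measure_union_null (measure_union_null hO0 h2) ?_
        exact (measure_biUnion_null_iff hO.countable).2 hcon
    have h4 : m Q = 0 := by
      rw [← h1, Measure.map_apply measurable_fst hQm]
      exact h3
    exact hQpos h4
  obtain ⟨x, hx⟩ := nonempty_of_measure_ne_zero hwpos
  obtain ⟨x', hx', hne⟩ : ∃ x' ∈ {x : St b c × Kt b c | x.1 ∈ Q ∧ x.2 = w ∧ x.2.1 ∈ Lim b c x.1.1},
      ¬ ExpC (G 1 b c) x.1.1.1 x'.1.1.1 := by
    by_contra hcon
    push Not at hcon
    refine hwpos (measure_mono_null (t := Prod.fst ⁻¹' ((fun s : St b c => s.1.1) ⁻¹'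
      {q | ExpC (G 1 b c) x.1.1.1 q})) ?_ (hnull _ ((bad_law hb0 hm).2.2 x.1.1.1)))
    intro x' hx'
    exact hcon x' hx'
  have hd := hQdis x.1 hx.1 x'.1 hx'.1 hne
  refine (Set.disjoint_left.1 hd : ∀ ⦃a : E2⦄, _ → _) (a := w.1) ?_ ?_
  · rw [(clo_brn hb0 hb1 (hQG _ hx.1)).1]
    right
    have := hx.2.2
    rw [hx.2.1] at this
    exact this
  · rw [(clo_brn hb0 hb1 (hQG _ hx'.1)).1]
    right
    have := hx'.2.2
    rw [hx'.2.1] at this
    exact this

end Pool.Agent.HG
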