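import Pool.Agent.HG.BDefs

set_option autoImplicit false

/-!
# A connected set between barriers

If a connected closed set `X` contains the point of the graph of `g` over `y0`, is not contained in the box and there are
barriers (graphs disjoint from `X`) on both sides of `g`, arbitrarily close to it, then `X` contains the upper or the lower
half of the graph. Otherwise the open set between two barriers and two heights separates `X`.
-/

namespace Pool.Agent.HG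

open Pool.Agent.HD Set

private theorem kr_pt {V0 z0 : E2} (hV0 : ‖V0‖ = 1) (w : E2) :
    pt V0 z0 (hgt V0 z0 w) (hor V0 z0 w) = w := by
  have h := frame hV0 (w - z0)
  simp only [pt, hgt, hor]
  rw [add_assoc, ← h]
  abel

private theorem kr_hgt {V0 z0 : E2} (hV0 : ‖V0‖ = 1) (Y x : ℝ) :
    hgt V0 z0 (pt V0 z0 Y x) = Y := by
  simp only [pt, hgt]
  rw [show z0 + Y • V0 + x • nv V0 - z0 = Y • V0 + x • nv V0 by abel, wd_add_left, wd_smul_left,
    wd_smul_left, wd_nv hV0, wd_self]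
  ring

private theorem kr_hor {V0 z0 : E2} (hV0 : ‖V0‖ = 1) (Y x : ℝ) :
    hor V0 z0 (pt V0 z0 Y x) = x := by
  simp only [pt, hor]
  rw [show z0 + Y • V0 + x • nv V0 - z0 = Y • V0 + x • nv V0 by abel, wd_add_right, wd_smul_right,
    wd_smul_right, wd_nv hV0, wd_self]
  ring

private theorem kr_chgt (V0 z0 : E2) : Continuous (hgt V0 z0) := by
  unfold hgt wd
  fun_prop

private theorem kr_chor (V0 z0 : E2) : Continuous (hor V0 z0) := by
  unfold hor wd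
  fun_prop

private theorem kr_cpt (V0 z0 : E2) {f g : ℝ → ℝ} (hf : Continuous f) (hg : Continuous g) :
    Continuous fun Y => pt V0 z0 (f Y) (g Y) := by
  unfold pt
  fun_prop

theorem core {X : Set E2} (hX : IsClosed X) (hc : IsPreconnected X) {V0 z0 : E2}
    (hV0 : ‖V0‖ = 1) {H y0 : ℝ} (hH : 0 < H) {g : ℝ → ℝ} (hg : Continuous g) (hy : |y0| < H)
    (hz : pt V0 z0 y0 (g y0) ∈ X)
    (hbar : ∀ Y1 Y2 : ℚ, |(Y1 : ℝ)| < H → |(Y2 : ℝ)| < H → ∀ ε : ℝ, 0 < ε →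
      ∃ g1 g2 : ℝ → ℝ, Continuous g1 ∧ Continuous g2 ∧
        (∀ Y : ℝ, |Y| ≤ H → g1 Y < g Y ∧ g Y < g2 Y ∧ pt V0 z0 Y (g1 Y) ∉ X ∧
          pt V0 z0 Y (g2 Y) ∉ X ∧ -H ≤ g1 Y ∧ g2 Y ≤ H) ∧
        g Y1 - ε < g1 Y1 ∧ g Y2 - ε < g1 Y2 ∧ g2 Y1 < g Y1 + ε ∧ g2 Y2 < g Y2 + ε)
    (hbig : ∃ w ∈ X, 3 * H ≤ ‖w - z0‖) :
    (∀ Y : ℝ, y0 ≤ Y → Y < H → pt V0 z0 Y (g Y) ∈ X) ∨
      ∀ Y : ℝ, -H < Y → Y ≤ y0 → pt V0 z0 Y (g Y) ∈ X := by
  by_contra hcon
  rw [not_or] at hcon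
  obtain ⟨h1, h2⟩ := hcon
  push Not at h1 h2
  obtain ⟨A1, hA1, hA1', hA1X⟩ := h1
  obtain ⟨A2, hA2', hA2, hA2X⟩ := h2
  have hcg : Continuous fun Y => pt V0 z0 Y (g Y) := kr_cpt V0 z0 continuous_id hg
  have hA1n : y0 ≠ A1 := by rintro rfl; exact hA1X hz
  have hA2n : A2 ≠ y0 := by rintro rfl; exact hA2X hz
  have hA1l : y0 < A1 := lt_of_le_of_ne hA1 hA1n
  have hA2l : A2 < y0 := lt_of_le_of_ne hA2 hA2n
  -- rational heights
  have hopen : IsOpen {Y : ℝ | pt V0 z0 Y (g Y) ∉ X} := by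
    have := hX.isOpen_compl.preimage hcg
    exact this
  have hy1 : -H < y0 := (abs_lt.1 hy).1
  have hy2 : y0 < H := (abs_lt.1 hy).2
  have e1 : ∃ q : ℚ, (q : ℝ) ∈ {Y : ℝ | pt V0 z0 Y (g Y) ∉ X} ∩ Ioo y0 H :=
    Rat.denseRange_cast.exists_mem_open (hopen.inter isOpen_Ioo) ⟨A1, hA1X, hA1l, hA1'⟩
  have e2 : ∃ q : ℚ, (q : ℝ) ∈ {Y : ℝ | pt V0 z0 Y (g Y) ∉ X} ∩ Ioo (-H) y0 :=
    Rat.denseRange_cast.exists_mem_open (hopen.inter isOpen_Ioo) ⟨A2, hA2X, hA2', hA2l⟩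
  obtain ⟨Y1, hY1X, hY1⟩ := e1
  obtain ⟨Y2, hY2X, hY2⟩ := e2
  have key : ∀ Y : ℝ, pt V0 z0 Y (g Y) ∉ X → ∃ ε : ℝ, 0 < ε ∧ ∀ x : ℝ, |x - g Y| ≤ ε →
      pt V0 z0 Y x ∉ X := by
    intro Y hY
    have ho : IsOpen {x : ℝ | pt V0 z0 Y x ∉ X} := by
      have := hX.isOpen_compl.preimage (kr_cpt V0 z0 (continuous_const (y := Y)) continuous_id)
      exact this
    obtain ⟨ε, hε, hb⟩ := Metric.isOpen_iff.1 ho (g Y) hY
    refine ⟨ε / 2, by linarith, fun x hx => hb ?_⟩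
    rw [Metric.mem_ball, Real.dist_eq]
    linarith
  obtain ⟨ε1, hε1, hk1⟩ := key Y1 hY1X
  obtain ⟨ε2, hε2, hk2⟩ := key Y2 hY2X
  obtain ⟨g1, g2, hc1, hc2, hall, b1, b2, b3, b4⟩ := hbar Y1 Y2
    (abs_lt.2 ⟨by linarith [hY1.1], hY1.2⟩) (abs_lt.2 ⟨hY2.1, by linarith [hY2.2]⟩)
    (min ε1 ε2) (lt_min hε1 hε2)
  have hm1 : min ε1 ε2 ≤ ε1 := min_le_left _ _
  have hm2 : min ε1 ε2 ≤ ε2 := min_le_right _ _
  set hh := hgt V0 z0 with hhdef
  set ho := hor V0 z0 with hodef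
  have ch : Continuous hh := kr_chgt V0 z0
  have co : Continuous ho := kr_chor V0 z0
  let U : Set E2 := {w | (Y2 : ℝ) < hh w ∧ hh w < Y1 ∧ g1 (hh w) < ho w ∧ ho w < g2 (hh w)}
  let U' : Set E2 := {w | hh w < Y2 ∨ (Y1 : ℝ) < hh w ∨ ho w < g1 (hh w) ∨ g2 (hh w) < ho w}
  have hU : IsOpen U := by
    refine (isOpen_lt continuous_const ch).inter ((isOpen_lt ch continuous_const).inter
      ((isOpen_lt (hc1.comp ch) co).inter (isOpen_lt co (hc2.comp ch))))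
  have hU' : IsOpen U' := by
    refine (isOpen_lt ch continuous_const).union ((isOpen_lt continuous_const ch).union
      ((isOpen_lt co (hc1.comp ch)).union (isOpen_lt (hc2.comp ch) co)))
  have hpt : ∀ w, pt V0 z0 (hh w) (ho w) = w := kr_pt hV0
  have hsub : X ⊆ U ∪ U' := by
    intro w hw
    by_cases hw' : w ∈ U'
    · exact Or.inr hw'
    · left
      have hw2 : ¬ (hh w < Y2 ∨ (Y1 : ℝ) < hh w ∨ ho w < g1 (hh w) ∨ g2 (hh w) < ho w) := hw'
      push Not at hw2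
      obtain ⟨c1, c2, c3, c4⟩ := hw2
      have hHw : |hh w| ≤ H := abs_le.2 ⟨by linarith [hY2.1], by linarith [hY1.2]⟩
      obtain ⟨d1, d2, d3, d4, d5, d6⟩ := hall _ hHw
      refine ⟨lt_of_le_of_ne c1 ?_, lt_of_le_of_ne c2 ?_, lt_of_le_of_ne c3 ?_,
        lt_of_le_of_ne c4 ?_⟩
      · intro he
        refine hk2 (ho w) ?_ ?_
        · rw [← he] at c3 c4
          rw [abs_le]
          constructor <;> linarith
        · have := hpt w
          rw [← he] at this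
          rw [this]; exact hw
      · intro he
        refine hk1 (ho w) ?_ ?_
        · rw [he] at c3 c4
          rw [abs_le]
          constructor <;> linarith
        · have := hpt w
          rw [he] at this
          rw [this]; exact hw
      · intro he
        apply d3
        rw [he, hpt w]; exact hw
      · intro he
        apply d4
        rw [← he, hpt w]; exact hw
  have hUX : (X ∩ U).Nonempty := by
    refine ⟨_, hz, ?_⟩
    have hy0 := hall y0 hy.le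
    change (Y2 : ℝ) < hgt V0 z0 _ ∧ hgt V0 z0 _ < Y1 ∧ g1 (hgt V0 z0 _) < hor V0 z0 _ ∧
      hor V0 z0 _ < g2 (hgt V0 z0 _)
    rw [kr_hgt hV0, kr_hor hV0]
    exact ⟨hY2.2, hY1.1, hy0.1, hy0.2.1⟩
  have hU'X : (X ∩ U').Nonempty := by
    obtain ⟨w, hw, hwb⟩ := hbig
    refine ⟨w, hw, ?_⟩
    rcases hsub hw with hwU | hwU'
    · exfalso
      obtain ⟨c1, c2, c3, c4⟩ := hwU
      have hHw : |hh w| ≤ H := abs_le.2 ⟨by linarith [hY2.1], by linarith [hY1.2]⟩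
      have hHw' : |hh w| < H := abs_lt.2 ⟨by linarith [hY2.1], by linarith [hY1.2]⟩
      obtain ⟨d1, d2, d3, d4, d5, d6⟩ := hall _ hHw
      have hor' : |ho w| ≤ H := abs_le.2 ⟨by linarith, by linarith⟩
      have : w - z0 = hh w • V0 + ho w • nv V0 := by
        have h7 : z0 + hh w • V0 + ho w • nv V0 = w := hpt w
        have h8 : (z0 + hh w • V0 + ho w • nv V0) - z0 = hh w • V0 + ho w • nv V0 := by abel
        rwa [h7] at h8
      rw [this] at hwb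
      have n1 : ‖hh w • V0 + ho w • nv V0‖ ≤ |hh w| * 1 + |ho w| * 1 := by
        refine (norm_add_le _ _).trans ?_
        rw [norm_smul, norm_smul, Real.norm_eq_abs, Real.norm_eq_abs, hV0]
        have := norm_nv_le hV0
        nlinarith [abs_nonneg (ho w)]
      linarith
    · exact hwU'
  obtain ⟨w, _, hwU, hwU'⟩ := hc U U' hU hU' hsub hUX hU'X
  obtain ⟨c1, c2, c3, c4⟩ := hwU
  rcases hwU' with h | h | h | h <;> linarith

end Pool.Agent.HG
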