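import Pool.Agent.HD.LocG
import Pool.Agent.HD.Cpt
import Pool.Agent.HD.Graph
import Pool.Agent.HD.Uni
import Pool.Agent.HG.BDefs

set_option autoImplicit false

/-!
# Families of local stable curves as graphs

In the frame of `V0` at `z0` the local stable curves with direction close to `V0` are Lipschitz graphs over the height (`local_curve`,
`graph`); uniqueness of the point with a given height and compactness give the continuity in the base point.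
-/

namespace Pool.Agent.HG

open Pool.Agent.HD Set

theorem qq_compact (b c ρ δ C : ℝ) (V0 z0 : E2) (η H : ℝ) :
    IsCompact (QQ b c ρ δ C V0 z0 η H) := by
  have h1 := reg_compact 1 b c ρ δ (|c| + 4) C
  have h2 : IsClosed {x : E2 × E2 | ‖x.1 - z0‖ ≤ H / 8 ∧ ‖x.2 - V0‖ ≤ η} := by
    have e1 : IsClosed {x : E2 × E2 | ‖x.1 - z0‖ ≤ H / 8} := isClosed_le (by fun_prop) continuous_const
    have e2 : IsClosed {x : E2 × E2 | ‖x.2 - V0‖ ≤ η} := isClosed_le (by fun_prop) continuous_const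
    exact e1.inter e2
  have h3 := (h1.inter_right h2).image continuous_fst
  have e : QQ b c ρ δ C V0 z0 η H = Prod.fst '' ({x : E2 × E2 | Reg 1 b c ρ δ (|c| + 4) C x.1 x.2} ∩
      {x : E2 × E2 | ‖x.1 - z0‖ ≤ H / 8 ∧ ‖x.2 - V0‖ ≤ η}) := by
    ext z
    constructor
    · rintro ⟨hz, W, hW, hR⟩
      exact ⟨(z, W), ⟨hR, hz, hW⟩, rfl⟩
    · rintro ⟨⟨z', W⟩, ⟨hR, hz, hW⟩, rfl⟩
      exact ⟨hz, W, hW, hR⟩
  rw [e]
  exact h3

private theorem pf_pt {V0 : E2} (hV0 : ‖V0‖ = 1) (z0 w : E2) :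
    w = pt V0 z0 (hgt V0 z0 w) (hor V0 z0 w) := by
  have h := frame hV0 (w - z0)
  unfold pt hgt hor
  rw [add_assoc, ← h]
  abel

private theorem pf_hgt {V0 : E2} (hV0 : ‖V0‖ = 1) (z0 : E2) (Y X : ℝ) :
    hgt V0 z0 (pt V0 z0 Y X) = Y := by
  unfold hgt pt
  have h : z0 + Y • V0 + X • nv V0 - z0 = Y • V0 + X • nv V0 := by abel
  rw [h, wd_add_left, wd_smul_left, wd_smul_left, wd_nv hV0, wd_self]
  ring

private theorem pf_hor {V0 : E2} (hV0 : ‖V0‖ = 1) (z0 : E2) (Y X : ℝ) :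
    hor V0 z0 (pt V0 z0 Y X) = X := by
  unfold hor pt
  have h : z0 + Y • V0 + X • nv V0 - z0 = Y • V0 + X • nv V0 := by abel
  rw [h, wd_add_right, wd_smul_right, wd_smul_right, wd_nv hV0, wd_self]
  ring

private theorem pf_est {V0 W q q' : E2} (hV0 : ‖V0‖ = 1) {t t' : ℝ} (hW : ‖W - V0‖ ≤ 1 / 100)
    (h : ‖q - q' - (t - t') • W‖ ≤ 1 / 100 * |t - t'|) (z0 : E2) :
    |hgt V0 z0 q - hgt V0 z0 q' - (t - t')| ≤ 1 / 25 * |t - t'| ∧
      |hor V0 z0 q - hor V0 z0 q'| ≤ 1 / 25 * |t - t'| := by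
  obtain ⟨e, he⟩ : ∃ e : E2, e = q - q' - (t - t') • V0 := ⟨_, rfl⟩
  have hn : ‖e‖ ≤ 1 / 50 * |t - t'| := by
    have h1 : e = (q - q' - (t - t') • W) + (t - t') • (W - V0) := by
      rw [he, smul_sub]; abel
    have h2 : ‖(t - t') • (W - V0)‖ ≤ |t - t'| * (1 / 100) := by
      rw [norm_smul, Real.norm_eq_abs]
      exact mul_le_mul_of_nonneg_left hW (abs_nonneg _)
    have h3 := norm_add_le (q - q' - (t - t') • W) ((t - t') • (W - V0))
    rw [h1]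
    linarith
  constructor
  · have h1 : hgt V0 z0 q - hgt V0 z0 q' - (t - t') = wd e (nv V0) := by
      have h2 : q - z0 = e + (q' - z0) + (t - t') • V0 := by rw [he]; abel
      unfold hgt
      rw [h2, wd_add_left, wd_add_left, wd_smul_left, wd_nv hV0]
      ring
    rw [h1]
    have := abs_wd_nv_le hV0 e
    linarith
  · have h1 : hor V0 z0 q - hor V0 z0 q' = wd V0 e := by
      have h2 : q - z0 = e + (q' - z0) + (t - t') • V0 := by rw [he]; abel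
      unfold hor
      rw [h2, wd_add_right, wd_add_right, wd_smul_right, wd_self]
      ring
    rw [h1]
    have := abs_wd_le V0 e
    rw [hV0] at this
    linarith

private theorem pf_uniq {b ρ δ C R : ℝ} {a c : ℝ} (hb : b ≠ 0) (hδ : 0 < δ) (hρ : 100 * δ ≤ ρ)
    (hρ' : -Real.log |b| ≤ ρ) {V0 W W' z : E2} (hV0 : ‖V0‖ = 1) (hW : ‖W - V0‖ ≤ 1 / 100)
    (hW' : ‖W' - V0‖ ≤ 1 / 100) (h : Reg a b c ρ δ R C z W) (h' : Reg a b c ρ δ R C z W') :
    W' = W := by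
  rcases uniq_dir hb h.unit h'.unit h.con h'.con (by linarith) with h1 | h1
  · exact h1
  · exfalso
    rw [h1] at hW'
    have h2 : ‖(W - V0) + (-W - V0)‖ ≤ 1 / 50 := by
      have := norm_add_le (W - V0) (-W - V0)
      linarith
    have h3 : (W - V0) + (-W - V0) = (-2 : ℝ) • V0 := by
      rw [neg_smul, two_smul]; abel
    rw [h3, norm_smul, hV0, Real.norm_eq_abs] at h2
    norm_num at h2

theorem plaques {b c ρ δ C : ℝ} (hb : b ≠ 0) (hδ : 0 < δ) (hρ : 100 * δ ≤ ρ)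
    (hρ' : -Real.log |b| ≤ ρ) {V0 : E2} (hV0 : ‖V0‖ = 1) : ∃ η H1 : ℝ, 0 < η ∧ 0 < H1 ∧
      ∀ H : ℝ, 0 < H → H ≤ H1 → ∀ z0 : E2, ∃ ξ : E2 → ℝ → ℝ,
        Plq b c ρ δ C V0 z0 η H ξ := by
  classical
  obtain ⟨s0, hs0, hloc⟩ := local_curve (a := 1) (b := b) (c := c) hb hδ hρ (|c| + 4) C
    (show (0 : ℝ) < 1 / 100 by norm_num)
  refine ⟨1 / 100, s0 / 4, by norm_num, by positivity, fun H hH hH1 z0 => ?_⟩
  -- the graph of one curve
  have hg : ∀ z : E2, z ∈ QQ b c ρ δ C V0 z0 (1 / 100) H → ∃ g : ℝ → ℝ,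
      (∀ y y', |g y - g y'| ≤ 1 / 5 * |y - y'|) ∧ g (hgt V0 z0 z) = hor V0 z0 z ∧
      ∀ W : E2, ‖W - V0‖ ≤ 1 / 100 → Reg 1 b c ρ δ (|c| + 4) C z W →
        ∀ Y, |Y - hgt V0 z0 z| ≤ s0 / 2 → ∃ t : ℝ, |t| ≤ s0 ∧
          Asym 1 b c ρ z W t (pt V0 z0 Y (g Y)) := by
    rintro z ⟨hz, W, hW, hR⟩
    obtain ⟨γ, hγc, hγi, hγ0, hγ⟩ := exists_curve hb hδ hρ hR
    obtain ⟨g, hg1, hg2, hg3⟩ := graph (σ := fun s => (hor V0 z0 (γ s), hgt V0 z0 (γ s))) hs0
      (fun s s' hs hs' => by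
        have h1 := pf_est hV0 hW (hloc z W hR s s' _ _ hs hs' (hγ s) (hγ s')).1 z0
        have h2 : ((hor V0 z0 (γ s), hgt V0 z0 (γ s)) : E2) - (hor V0 z0 (γ s'), hgt V0 z0 (γ s')) -
            (s - s') • ((0 : ℝ), (1 : ℝ)) = (hor V0 z0 (γ s) - hor V0 z0 (γ s'),
              hgt V0 z0 (γ s) - hgt V0 z0 (γ s') - (s - s')) := by
          ext <;> simp
        change ‖((hor V0 z0 (γ s), hgt V0 z0 (γ s)) : E2) - (hor V0 z0 (γ s'), hgt V0 z0 (γ s')) -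
            (s - s') • ((0 : ℝ), (1 : ℝ))‖ ≤ _
        rw [h2, Prod.norm_def, Real.norm_eq_abs, Real.norm_eq_abs]
        have h3 := abs_nonneg (s - s')
        exact max_le (h1.2.trans (by linarith)) (h1.1.trans (by linarith)))
    refine ⟨g, hg1, ?_, fun W' hW' hR' Y hY => ?_⟩
    · have h1 : g (hgt V0 z0 (γ 0)) = hor V0 z0 (γ 0) := hg2
      rwa [hγ0] at h1
    · have hWW := pf_uniq hb hδ hρ hρ' hV0 hW hW' hR hR'
      subst hWW
      obtain ⟨t, ht, hσ, -⟩ := hg3 Y (by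
        show |Y - hgt V0 z0 (γ 0)| ≤ s0 / 2
        rw [hγ0]; exact hY)
      refine ⟨t, ht, ?_⟩
      have h1 : hor V0 z0 (γ t) = g Y := congrArg Prod.fst hσ
      have h2 : hgt V0 z0 (γ t) = Y := congrArg Prod.snd hσ
      have h3 := pf_pt hV0 z0 (γ t)
      rw [h1, h2] at h3
      rw [← h3]
      exact hγ t
  -- uniqueness of the point with a given height
  have huq : ∀ z W : E2, Reg 1 b c ρ δ (|c| + 4) C z W → ‖W - V0‖ ≤ 1 / 100 → ∀ (t t' : ℝ) (q q' : E2),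
      |t| ≤ s0 → |t'| ≤ s0 → Asym 1 b c ρ z W t q → Asym 1 b c ρ z W t' q' →
      hgt V0 z0 q = hgt V0 z0 q' → q = q' := by
    intro z W hR hW t t' q q' ht ht' hq hq' hh
    have h1 := (pf_est hV0 hW (hloc z W hR t t' _ _ ht ht' hq hq').1 z0).1
    rw [hh, sub_self, zero_sub, abs_neg] at h1
    have h2 : |t - t'| = 0 := le_antisymm (by linarith [abs_nonneg (t - t')]) (abs_nonneg _)
    have h3 : t = t' := by
      rw [abs_eq_zero] at h2; linarith
    subst h3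
    exact asym_unique hb hδ hρ hR hq hq'
  obtain ⟨ξ, hξ⟩ : ∃ ξ : E2 → ℝ → ℝ, ∀ z ∈ QQ b c ρ δ C V0 z0 (1 / 100) H,
      (∀ y y', |ξ z y - ξ z y'| ≤ 1 / 5 * |y - y'|) ∧ ξ z (hgt V0 z0 z) = hor V0 z0 z ∧
      ∀ W : E2, ‖W - V0‖ ≤ 1 / 100 → Reg 1 b c ρ δ (|c| + 4) C z W →
        ∀ Y, |Y - hgt V0 z0 z| ≤ s0 / 2 → ∃ t : ℝ, |t| ≤ s0 ∧
          Asym 1 b c ρ z W t (pt V0 z0 Y (ξ z Y)) := by
    refine ⟨fun z => if h : z ∈ QQ b c ρ δ C V0 z0 (1 / 100) H then (hg z h).choose else 0,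
      fun z hz => ?_⟩
    simp only [hz, dif_pos]
    exact (hg z hz).choose_spec
  have hbase : ∀ z ∈ QQ b c ρ δ C V0 z0 (1 / 100) H, |hgt V0 z0 z| ≤ H / 4 ∧
      |hor V0 z0 z| ≤ H / 4 := by
    intro z hz
    have h1 := abs_wd_nv_le hV0 (z - z0)
    have h2 := abs_wd_le V0 (z - z0)
    rw [hV0] at h2
    have h3 := hz.1
    unfold hgt hor
    constructor <;> linarith
  have hrange : ∀ z ∈ QQ b c ρ δ C V0 z0 (1 / 100) H, ∀ Y : ℝ, |Y| ≤ H →
      |Y - hgt V0 z0 z| ≤ s0 / 2 := by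
    intro z hz Y hY
    have h1 := abs_sub Y (hgt V0 z0 z)
    have h2 := (hbase z hz).1
    linarith
  refine ⟨ξ, ?_, ?_, ?_, ?_, ?_⟩
  · -- continuity
    intro Y hY
    rw [continuousOn_iff_continuous_domRestrict, continuous_iff_seqContinuous]
    intro u z hu
    have hu' : Filter.Tendsto (fun i => (u i : E2)) Filter.atTop (nhds (z : E2)) :=
      (continuous_subtype_val.tendsto z).comp hu
    have hdat : ∀ i, ∃ (W : E2) (t : ℝ), ‖W - V0‖ ≤ 1 / 100 ∧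
        Reg 1 b c ρ δ (|c| + 4) C (u i : E2) W ∧ |t| ≤ s0 ∧
          Asym 1 b c ρ (u i : E2) W t (pt V0 z0 Y (ξ (u i : E2) Y)) := by
      intro i
      obtain ⟨hz, W, hW, hR⟩ := (u i).2
      obtain ⟨t, ht, hA⟩ := (hξ _ (u i).2).2.2 W hW hR Y (hrange _ (u i).2 Y hY)
      exact ⟨W, t, hW, hR, ht, hA⟩
    choose W t hW hR ht hA using hdat
    apply Filter.tendsto_of_subseq_tendsto
    intro ns hns
    obtain ⟨x, hx, φ, hφ, hlim⟩ := (asym_compact (a := 1) (c := c) hb hδ hρ (|c| + 4) C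
      s0).tendsto_subseq (x := fun i => (((u (ns i) : E2), W (ns i)), (t (ns i),
        pt V0 z0 Y (ξ (u (ns i) : E2) Y)))) fun i => ⟨hR _, ht _, hA _⟩
    refine ⟨φ, ?_⟩
    have h1 : Filter.Tendsto (fun i => (u (ns (φ i)) : E2)) Filter.atTop (nhds x.1.1) :=
      ((continuous_fst.comp continuous_fst).tendsto x).comp hlim
    have h2 : x.1.1 = (z : E2) := tendsto_nhds_unique h1 (hu'.comp (hns.comp hφ.tendsto_atTop))
    have h3 : Filter.Tendsto (fun i => W (ns (φ i))) Filter.atTop (nhds x.1.2) :=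
      ((continuous_snd.comp continuous_fst).tendsto x).comp hlim
    have h4 : ‖x.1.2 - V0‖ ≤ 1 / 100 :=
      le_of_tendsto (h3.sub_const V0).norm (Filter.Eventually.of_forall fun i => hW _)
    have h5 : Filter.Tendsto (fun i => pt V0 z0 Y (ξ (u (ns (φ i)) : E2) Y)) Filter.atTop
        (nhds x.2.2) := ((continuous_snd.comp continuous_snd).tendsto x).comp hlim
    have hch : Continuous (hgt V0 z0) := by unfold hgt wd; fun_prop
    have hco : Continuous (hor V0 z0) := by unfold hor wd; fun_prop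
    have h6 : hgt V0 z0 x.2.2 = Y := by
      have h7 : Filter.Tendsto (fun i => hgt V0 z0 (pt V0 z0 Y (ξ (u (ns (φ i)) : E2) Y)))
          Filter.atTop (nhds (hgt V0 z0 x.2.2)) := (hch.tendsto _).comp h5
      simp only [pf_hgt hV0] at h7
      exact tendsto_nhds_unique h7 tendsto_const_nhds
    have h8 : Filter.Tendsto (fun i => hor V0 z0 (pt V0 z0 Y (ξ (u (ns (φ i)) : E2) Y)))
          Filter.atTop (nhds (hor V0 z0 x.2.2)) := (hco.tendsto _).comp h5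
    simp only [pf_hor hV0] at h8
    obtain ⟨hx1, hx2, hx3⟩ := hx
    have hx1' : Reg 1 b c ρ δ (|c| + 4) C (z : E2) x.1.2 := by rw [← h2]; exact hx1
    have hx3' : Asym 1 b c ρ (z : E2) x.1.2 x.2.1 x.2.2 := by rw [← h2]; exact hx3
    obtain ⟨t', ht', hA'⟩ := (hξ _ z.2).2.2 x.1.2 h4 hx1' Y (hrange _ z.2 Y hY)
    have h9 := huq z x.1.2 hx1' h4 x.2.1 t' _ _ hx2 ht' hx3' hA' (by rw [h6, pf_hgt hV0])
    rw [h9, pf_hor hV0] at h8
    exact h8
  · intro z hz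
    exact (hξ z hz).1
  · intro z hz
    exact ⟨(hbase z hz).1, (hbase z hz).2, (hξ z hz).2.1⟩
  · intro z hz Y hY
    obtain ⟨-, W, hW, hR⟩ := id hz
    obtain ⟨t, ht, hA⟩ := (hξ z hz).2.2 W hW hR Y (hrange z hz Y hY)
    exact Asym.expC hρ hδ hR hA
  · intro z hz W hW hR t q ht hq
    have hb0 := (hbase z hz).1
    have hts : |t| ≤ s0 := by linarith
    have h1 := (pf_est hV0 hW (hloc z W hR t 0 _ _ hts (by rw [abs_zero]; exact hs0.le) hq
      (asym_zero 1 b c ρ z W)).1 z0).1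
    rw [sub_zero] at h1
    have h2 := abs_le.1 h1
    have h3 := abs_le.1 hb0
    have h4 := abs_le.1 ht
    have hY : |hgt V0 z0 q| < H := by
      have h5 : |t| ≤ H / 4 := ht
      rw [abs_lt]
      constructor <;> linarith [h2.1, h2.2, h3.1, h3.2, h4.1, h4.2]
    refine ⟨hgt V0 z0 q, hY, ?_, fun h0 => ?_, fun h0 => ?_⟩
    · obtain ⟨t', ht', hA⟩ := (hξ z hz).2.2 W hW hR _ (hrange z hz _ hY.le)
      exact huq z W hR hW t t' _ _ hts ht' hq hA (pf_hgt hV0 _ _ _).symm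
    · rw [abs_of_nonneg h0] at h2
      linarith [h2.1]
    · rw [abs_of_nonpos h0] at h2
      linarith [h2.2]

end Pool.Agent.HG
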