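import Pool.Agent.HG.Ja
import Pool.Agent.HG.Pf
import Pool.Agent.HG.Kr
import Pool.Agent.HG.Br

set_option autoImplicit false

/-!
# A half of the local stable curve of a joined limit point is in the limit set

The closure of a branch is connected and meets no graph of the family except the one through the
limit point; barriers on both sides force a half of this graph into the closure of the branch, and
by isolation of the base point into the limit set.
-/

namespace Pool.Agent.HG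

open Pool.Agent.HD MeasureTheory Set

variable {b c : ℝ}

private theorem jb_el_pos (hb0 : b ≠ 0) (hb1 : |b| < 1) : 0 < el b := by
  unfold el
  have := Real.log_neg (abs_pos.2 hb0) hb1
  linarith

/-- the limit points in the closure of the branch which are asymptotic to a limit point -/
private theorem jb_lim (hb0 : b ≠ 0) (hb1 : |b| < 1) {C1 h r : ℝ} {N0 : ℕ} (hr : 0 < r)
    {s : E2 × E2} (hs : s ∈ Bk b c C1 h r N0) {z u : E2} (hz : z ∈ Lim b c s)
    (hzu : ExpC (G 1 b c) z u) (hu : u ∈ closure (Brn b c s)) : u ∈ Lim b c s := by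
  have hgs : s ∈ GS b c := hs.1
  obtain ⟨hclo, -, -⟩ := clo_brn hb0 hb1 hgs
  rw [hclo] at hu
  rcases hu with hu | hu
  · exfalso
    obtain ⟨t, -, ht⟩ := hu
    have hel := jb_el_pos hb0 hb1
    have hdl : 0 < dl b := by unfold dl; linarith
    have h100 : 100 * dl b ≤ el b := by unfold dl; linarith
    have hRS : RS b c C1 s := hs.2.1
    have h1 : ExpC (G 1 b c) s.1 u := Asym.expC h100 hdl hRS ht
    have h2 : ExpC (G 1 b c) s.1 z := h1.trans hzu.symm
    have h3 := h2.tendsto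
    have hunit : ‖s.2‖ = 1 := hRS.unit
    have h4 := h3.eventually (gt_mem_nhds hr)
    obtain ⟨n, hn1, hn2⟩ := ((iso_freq hb0 hb1 hs).and_eventually h4).exists
    have h5 : (G 1 b c)^[n] z ∈ Lim b c (sn b c s n) := by
      rw [lim_shift hb0 hb1 hunit n]
      exact ⟨z, hz, rfl⟩
    have h6 := lim_far hn1 _ h5
    have h7 : (sn b c s n).1 = (G 1 b c)^[n] s.1 := rfl
    rw [h7, ← dist_eq_norm] at h6
    exact absurd hn2 (not_lt.2 h6)
  · exact hu

private theorem jb_pt {V0 z0 z : E2} (hV0 : ‖V0‖ = 1) :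
    pt V0 z0 (hgt V0 z0 z) (hor V0 z0 z) = z := by
  unfold pt hgt hor
  have h := frame hV0 (z - z0)
  rw [add_assoc, ← h]
  abel

theorem half_arc (hb0 : b ≠ 0) (hb1 : |b| < 1) {m : Measure (St b c)} (hm : Bad b c m)
    {ν : Measure (St b c × Kt b c)} [IsProbabilityMeasure ν]
    (hν : Ergodic (Prod.map (FS b c) (fK b c)) ν) (h1 : ν.map Prod.fst = m)
    (h2 : ∀ᵐ x : St b c × Kt b c ∂ν, x.2.1 ∈ Lim b c x.1.1)
    {ρ δ C : ℝ} (hδ : 0 < δ) (hρ : 100 * δ ≤ ρ) (hρ' : -Real.log |b| ≤ ρ) {V0 z0 : E2}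
    (hV0 : ‖V0‖ = 1) {η H : ℝ} (hH : 0 < H) {ξ : E2 → ℝ → ℝ}
    (hpl : Plq b c ρ δ C V0 z0 η H ξ) {C1 h r : ℝ} {N0 : ℕ} (hr : 0 < r) {Q : Set (St b c)}
    (hQ : MeasurableSet Q) (hQB : ∀ s ∈ Q, s.1 ∈ Bk b c C1 h r N0)
    (hdis : ∀ s ∈ Q, ∀ s' ∈ Q, ¬ ExpC (G 1 b c) s.1.1 s'.1.1 →
      Disjoint (closure (Brn b c s.1)) (closure (Brn b c s'.1)))
    (hsm : ∀ s ∈ Q, ∃ w ∈ closure (Brn b c s.1), 3 * H ≤ ‖w - z0‖) :
    ∀ᵐ x : St b c × Kt b c ∂ν, x.1 ∈ Q → x.2.1 ∈ QQ b c ρ δ C V0 z0 η H →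
      ∃ W : E2, Reg 1 b c ρ δ (|c| + 4) C x.2.1 W ∧ ∀ (t : ℝ) (q : E2), 0 ≤ t → t ≤ H / 4 →
        Asym 1 b c ρ x.2.1 W t q → q ∈ Lim b c x.1.1 := by
  have hprob := hm.prob
  have hφ : Measurable (fun x : St b c × Kt b c => (x.2 : E2)) :=
    measurable_subtype_coe.comp measurable_snd
  have hQQ : MeasurableSet (QQ b c ρ δ C V0 z0 η H) :=
    (qq_compact b c ρ δ C V0 z0 η H).isClosed.measurableSet
  obtain ⟨D, hDdef⟩ : ∃ D : Set (St b c × Kt b c),
      D = {x | x.1 ∈ Q ∧ (x.2 : E2) ∈ QQ b c ρ δ C V0 z0 η H} := ⟨_, rfl⟩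
  have hmemD : ∀ x, x ∈ D ↔ x.1 ∈ Q ∧ (x.2 : E2) ∈ QQ b c ρ δ C V0 z0 η H := by
    intro x
    rw [hDdef]
    exact Iff.rfl
  have hD : MeasurableSet D := by
    rw [hDdef]
    exact (measurable_fst hQ).inter (hφ hQQ)
  -- the law of the second component
  have hnull : ∀ z : E2, ν {x | ExpC (G 1 b c) z (x.2 : E2)} = 0 := by
    intro z
    have hp : IsProbabilityMeasure (ν.map fun x : St b c × Kt b c => (x.2 : E2)) :=
      Measure.isProbabilityMeasure_map hφ.aemeasurable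
    have hmp : MeasurePreserving (G 1 b c) (ν.map fun x : St b c × Kt b c => (x.2 : E2))
        (ν.map fun x : St b c × Kt b c => (x.2 : E2)) := by
      refine ⟨(continuous_G 1 b c).measurable, ?_⟩
      have hT := hν.toMeasurePreserving
      rw [Measure.map_map (continuous_G 1 b c).measurable hφ]
      have he : (G 1 b c ∘ fun x : St b c × Kt b c => (x.2 : E2)) =
          (fun x : St b c × Kt b c => (x.2 : E2)) ∘ Prod.map (FS b c) (fK b c) := by
        funext x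
        exact (fK_val hb0 x.2).symm
      rw [he, ← Measure.map_map hφ hT.measurable, hT.map_eq]
    have hna : ∀ p : E2, (ν.map fun x : St b c × Kt b c => (x.2 : E2)) {p} = 0 := by
      intro p
      rw [Measure.map_apply hφ (measurableSet_singleton p)]
      by_cases hp : p ∈ KK b c
      · have h3 := join_na hb0 hb1 hm hν h1 h2 ⟨p, hp⟩
        refine le_antisymm (le_trans (measure_mono ?_) h3.le) (zero_le)
        intro x hx
        have hx' : (x.2 : E2) = p := hx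
        exact Subtype.ext hx'
      · have : (fun x : St b c × Kt b c => (x.2 : E2)) ⁻¹' {p} = ∅ := by
          rw [Set.eq_empty_iff_forall_notMem]
          intro x hx
          have hx' : (x.2 : E2) = p := hx
          exact hp (hx' ▸ x.2.2)
        rw [this, measure_empty]
    have h3 := null (continuous_G 1 b c) hmp hna z
    exact le_antisymm ((Measure.le_map_apply hφ.aemeasurable _).trans h3.le) (zero_le)
  -- the hypotheses of `barrier`
  have hκS : ∀ᵐ x ∂(ν.restrict D), x ∈ D ∧ (x.2 : E2) ∈ Lim b c x.1.1 := by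
    filter_upwards [ae_restrict_mem hD, ae_restrict_of_ae h2] with x hx1 hx2
    exact ⟨hx1, hx2⟩
  have hmeas : ∀ Y : ℝ, |Y| ≤ H →
      AEMeasurable (fun x : St b c × Kt b c => ξ (x.2 : E2) Y) (ν.restrict D) := by
    intro Y hY
    have h3 : AEMeasurable (fun z => ξ z Y)
        ((ν.restrict D).map fun x : St b c × Kt b c => (x.2 : E2)) := by
      have h4 : ((ν.restrict D).map fun x : St b c × Kt b c => (x.2 : E2)).restrict
          (QQ b c ρ δ C V0 z0 η H) =
          (ν.restrict D).map fun x : St b c × Kt b c => (x.2 : E2) := by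
        refine Measure.restrict_eq_self_of_ae_mem ?_
        refine (ae_map_iff hφ.aemeasurable hQQ).2 ?_
        filter_upwards [ae_restrict_mem hD] with x hx
        exact ((hmemD x).1 hx).2
      rw [← h4]
      exact (hpl.cont Y hY).aemeasurable hQQ
    exact h3.comp_aemeasurable hφ.aemeasurable
  have hcont : ∀ z ∈ QQ b c ρ δ C V0 z0 η H, Continuous (ξ z) := by
    intro z hz
    have h3 : LipschitzWith (1 / 5) (ξ z) := by
      refine LipschitzWith.of_dist_le_mul fun Y Y' => ?_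
      rw [Real.dist_eq, Real.dist_eq]
      have h4 := hpl.lip z hz Y Y'
      simpa using h4
    exact h3.continuous
  have hdis' : ∀ x : St b c × Kt b c, x ∈ D ∧ (x.2 : E2) ∈ Lim b c x.1.1 →
      ∀ᵐ x' ∂(ν.restrict D), ∀ Y : ℝ, |Y| ≤ H → ξ (x.2 : E2) Y ≠ ξ (x'.2 : E2) Y := by
    intro x hx
    have h3 : ∀ᵐ x' ∂ν, ¬ ExpC (G 1 b c) (x.2 : E2) (x'.2 : E2) := by
      rw [ae_iff]
      simpa using hnull (x.2 : E2)
    filter_upwards [ae_restrict_mem hD, ae_restrict_of_ae h3] with x' hx'1 hx'2 Y hY he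
    have hz := ((hmemD x).1 hx.1).2
    have hz' := ((hmemD x').1 hx'1).2
    have h4 := hpl.stab _ hz Y hY
    have h5 := hpl.stab _ hz' Y hY
    rw [← he] at h5
    exact hx'2 (h4.trans h5.symm)
  have hR : ∀ᵐ x ∂(ν.restrict D), ∀ᵐ x' ∂(ν.restrict D), ∀ Y : ℝ, |Y| ≤ H →
      pt V0 z0 Y (ξ (x'.2 : E2) Y) ∉ closure (Brn b c x.1.1) := by
    have h3 := no_asym hb0 hb1 hm hQ (fun s hs => (hQB s hs).1) hdis
    have h4 : m.prod m = (ν.prod ν).map (Prod.map Prod.fst Prod.fst) := by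
      rw [← Measure.map_prod_map ν ν measurable_fst measurable_fst, h1]
    rw [h4] at h3
    have h5 := Measure.ae_ae_of_ae_prod
      (ae_of_ae_map (measurable_fst.prodMap measurable_fst).aemeasurable h3)
    filter_upwards [ae_restrict_mem hD, ae_restrict_of_ae h5] with x hx1 hx2
    filter_upwards [hκS, ae_restrict_of_ae hx2] with x' hx'1 hx'2 Y hY hmem
    have hq := ((hmemD x).1 hx1).1
    have hq' := ((hmemD x').1 hx'1.1).1
    have hz' := ((hmemD x').1 hx'1.1).2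
    have hv : (x'.2 : E2) ∈ closure (Brn b c x'.1.1) := by
      rw [(clo_brn hb0 hb1 (hQB _ hq').1).1]
      exact Or.inr hx'1.2
    exact hx'2 hq hq' _ hmem _ hv (hpl.stab _ hz' Y hY).tendsto
  have hbarr := barrier (κ := ν.restrict D) (ξ := fun x Y => ξ (x.2 : E2) Y) hH
    (S := {x | x ∈ D ∧ (x.2 : E2) ∈ Lim b c x.1.1}) hκS hmeas
    (fun x hx => hcont _ ((hmemD x).1 hx.1).2) hdis' hR
  have hfin : ∀ᵐ x ∂(ν.restrict D),
      ∃ W : E2, Reg 1 b c ρ δ (|c| + 4) C (x.2 : E2) W ∧ ∀ (t : ℝ) (q : E2), 0 ≤ t →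
        t ≤ H / 4 → Asym 1 b c ρ (x.2 : E2) W t q → q ∈ Lim b c x.1.1 := by
    filter_upwards [hκS, hbarr] with x hx hxb
    have hxQ := ((hmemD x).1 hx.1).1
    have hz := ((hmemD x).1 hx.1).2
    have hBk := hQB _ hxQ
    obtain ⟨hclo, hcpt, hconn⟩ := clo_brn hb0 hb1 hBk.1
    have hbase := hpl.base _ hz
    have hbd : ∀ x' : St b c × Kt b c, x' ∈ D → ∀ Y : ℝ, |Y| ≤ H → |ξ (x'.2 : E2) Y| ≤ H := by
      intro x' hx' Y hY
      have hz' := ((hmemD x').1 hx').2
      obtain ⟨e1, e2, e3⟩ := hpl.base _ hz'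
      have e4 := hpl.lip _ hz' Y (hgt V0 z0 (x'.2 : E2))
      rw [e3] at e4
      have e5 : |Y - hgt V0 z0 (x'.2 : E2)| ≤ H + H / 4 := by
        have := abs_sub Y (hgt V0 z0 (x'.2 : E2))
        linarith
      have e6 : |ξ (x'.2 : E2) Y| ≤ |ξ (x'.2 : E2) Y - hor V0 z0 (x'.2 : E2)| +
          |hor V0 z0 (x'.2 : E2)| := by
        have := abs_add_le (ξ (x'.2 : E2) Y - hor V0 z0 (x'.2 : E2)) (hor V0 z0 (x'.2 : E2))
        rwa [sub_add_cancel] at this
      linarith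
    have hcore := core (X := closure (Brn b c x.1.1)) isClosed_closure hconn.isPreconnected
      (z0 := z0) hV0 hH (hcont _ hz) (y0 := hgt V0 z0 (x.2 : E2)) (by linarith [hbase.1])
      (by
        rw [hbase.2.2, jb_pt hV0, hclo]
        exact Or.inr hx.2)
      (by
        intro Y1 Y2 hY1 hY2 ε hε
        obtain ⟨x1, hx1, x2, hx2, hR1, hR2, hord, e1, e2, e3, e4⟩ :=
          hxb Y1 Y2 hY1.le hY2.le ε hε
        refine ⟨ξ (x1.2 : E2), ξ (x2.2 : E2), hcont _ ((hmemD x1).1 hx1.1).2,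
          hcont _ ((hmemD x2).1 hx2.1).2, ?_, e1, e2, e3, e4⟩
        intro Y hY
        exact ⟨(hord Y hY).1, (hord Y hY).2, hR1 Y hY, hR2 Y hY,
          (abs_le.1 (hbd x1 hx1.1 Y hY)).1, (abs_le.1 (hbd x2 hx2.1 Y hY)).2⟩)
      (hsm _ hxQ)
    obtain ⟨-, W, hW, hReg⟩ := id hz
    have hlim : ∀ Y : ℝ, |Y| < H →
        pt V0 z0 Y (ξ (x.2 : E2) Y) ∈ closure (Brn b c x.1.1) →
        pt V0 z0 Y (ξ (x.2 : E2) Y) ∈ Lim b c x.1.1 := fun Y hY hcl =>
      jb_lim hb0 hb1 hr hBk hx.2 (hpl.stab _ hz Y hY.le) hcl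
    rcases hcore with hup | hlow
    · refine ⟨W, hReg, fun t q ht0 ht1 hq => ?_⟩
      obtain ⟨Y, hY, rfl, hY1, -⟩ := hpl.arc _ hz W hW hReg t q
        (by rw [abs_of_nonneg ht0]; exact ht1) hq
      exact hlim Y hY (hup Y (hY1 ht0) (abs_lt.1 hY).2)
    · refine ⟨-W, hReg.neg, fun t q ht0 ht1 hq => ?_⟩
      have hq' := hq.neg
      rw [neg_neg] at hq'
      obtain ⟨Y, hY, rfl, -, hY2⟩ := hpl.arc _ hz W hW hReg (-t) q
        (by rw [abs_neg, abs_of_nonneg ht0]; exact ht1) hq'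
      exact hlim Y hY (hlow Y (abs_lt.1 hY).1 (hY2 (by linarith)))
  have hfin2 := (ae_restrict_iff' hD).1 hfin
  filter_upwards [hfin2] with x hx hx1 hx2
  exact hx ((hmemD x).2 ⟨hx1, hx2⟩)

end Pool.Agent.HG
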