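import Pool.Agent.HD.Birk
import Pool.Agent.HG.Em

set_option autoImplicit false

/-!
# Existence of invariant lifts of an ergodic measure

`ne_birk_all`: at almost every point the Birkhoff averages of all continuous functions converge (separability of `C(X, ℝ)`). `exists_lift`:
for such a point `x` and a point `y ∈ F` above it, every limit (along an ultrafilter) of the empirical measures of the orbit of `y` is an
invariant measure carried by `F` which projects to `m`.
-/

namespace Pool.Agent.HG

open MeasureTheory Filter Topology Pool.Agent.HD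

open scoped BoundedContinuousFunction

private theorem ne_bsum_sub {X : Type*} (S : X → X) (f g : X → ℝ) {ε : ℝ} (h : ∀ x, |f x - g x| ≤ ε) (n : ℕ)
    (x : X) : |birkhoffSum S f n x - birkhoffSum S g n x| ≤ n * ε := by
  unfold birkhoffSum
  rw [← Finset.sum_sub_distrib]
  refine (Finset.abs_sum_le_sum_abs _ _).trans ?_
  refine (Finset.sum_le_sum fun i _ => h _).trans ?_
  simp

private theorem ne_birk_all {X : Type*} [TopologicalSpace X] [CompactSpace X]
    [TopologicalSpace.MetrizableSpace X] [MeasurableSpace X] [BorelSpace X] {S : X → X}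
    {m : Measure X} [IsProbabilityMeasure m] (hm : Ergodic S m) :
    ∀ᵐ x ∂m, ∀ g : C(X, ℝ), Tendsto (fun n : ℕ => birkhoffSum S g n x / n) atTop (𝓝 (∫ x, g x ∂m)) := by
  let _ : MetricSpace X := TopologicalSpace.metrizableSpaceMetric X
  have h1 : ∀ᵐ x ∂m, ∀ i : ℕ, Tendsto (fun n : ℕ => birkhoffSum S (TopologicalSpace.denseSeq C(X, ℝ) i) n x / n)
      atTop (𝓝 (∫ x, TopologicalSpace.denseSeq C(X, ℝ) i x ∂m)) := by
    rw [ae_all_iff]
    intro i
    refine birk hm (TopologicalSpace.denseSeq C(X, ℝ) i).continuous.measurable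
      (C := ‖TopologicalSpace.denseSeq C(X, ℝ) i‖) (Eventually.of_forall fun x => ?_)
    exact (TopologicalSpace.denseSeq C(X, ℝ) i).norm_coe_le_norm x
  filter_upwards [h1] with x hx
  intro g
  rw [Metric.tendsto_atTop]
  intro ε hε
  obtain ⟨i, hi⟩ := (TopologicalSpace.denseRange_denseSeq C(X, ℝ)).exists_dist_lt g (ε := ε / 4) (by linarith)
  set f := TopologicalSpace.denseSeq C(X, ℝ) i with hf
  have h2 : ∀ z, |g z - f z| ≤ ε / 4 := by
    intro z
    have h3 := ContinuousMap.dist_apply_le_dist (f := g) (g := f) z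
    rw [Real.dist_eq] at h3
    exact h3.trans hi.le
  have h4 : |(∫ z, g z ∂m) - ∫ z, f z ∂m| ≤ ε / 4 := by
    have ig : Integrable (fun z => g z) m := g.continuous.integrable_of_hasCompactSupport (HasCompactSupport.of_compactSpace _)
    have if' : Integrable (fun z => f z) m := f.continuous.integrable_of_hasCompactSupport (HasCompactSupport.of_compactSpace _)
    rw [← integral_sub ig if']
    have h5 := norm_integral_le_of_norm_le_const (μ := m) (f := fun z => g z - f z) (C := ε / 4)
      (Eventually.of_forall fun z => h2 z)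
    simpa using h5
  obtain ⟨N, hN⟩ := (Metric.tendsto_atTop.1 (hx i)) (ε / 4) (by linarith)
  refine ⟨N + 1, fun n hn => ?_⟩
  have h6 := hN n (by omega)
  have hn0 : (0 : ℝ) < n := by
    have : 0 < n := by omega
    exact_mod_cast this
  have h7 : |birkhoffSum S g n x / n - birkhoffSum S f n x / n| ≤ ε / 4 := by
    rw [← sub_div, abs_div, abs_of_pos hn0, div_le_iff₀ hn0]
    refine (ne_bsum_sub S g f h2 n x).trans ?_
    linarith
  rw [Real.dist_eq] at h6 ⊢
  have h8 : birkhoffSum S g n x / n - ∫ z, g z ∂m = (birkhoffSum S g n x / n - birkhoffSum S f n x / n) +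
      (birkhoffSum S f n x / n - ∫ z, f z ∂m) - ((∫ z, g z ∂m) - ∫ z, f z ∂m) := by ring
  rw [h8]
  refine (abs_sub _ _).trans_lt ?_
  have h9 := abs_add_le (birkhoffSum S g n x / n - birkhoffSum S f n x / n) (birkhoffSum S f n x / n - ∫ z, f z ∂m)
  linarith

/-- empirical measures. -/
private noncomputable def ne_em {Y : Type*} [MeasurableSpace Y] (T : Y → Y) (y : Y) (n : ℕ) : Measure Y :=
  ENNReal.ofReal (((n : ℝ) + 1)⁻¹) • ∑ j ∈ Finset.range (n + 1), Measure.dirac (T^[j] y)

private theorem ne_prob {Y : Type*} [MeasurableSpace Y] (T : Y → Y) (y : Y) (n : ℕ) :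
    IsProbabilityMeasure (ne_em T y n) := by
  constructor
  have h : (0 : ℝ) < (n : ℝ) + 1 := by positivity
  simp only [ne_em, Measure.smul_apply, Measure.finsetSum_apply, measure_univ, Finset.sum_const, Finset.card_range,
    smul_eq_mul, nsmul_eq_mul, mul_one]
  rw [ENNReal.ofReal_inv_of_pos h, ENNReal.ofReal_add (by positivity) (by norm_num), ENNReal.ofReal_natCast,
    ENNReal.ofReal_one]
  push_cast
  exact ENNReal.inv_mul_cancel (by simp) (by simp)

private theorem ne_int {Y : Type*} [MeasurableSpace Y] [MeasurableSingletonClass Y] (T : Y → Y) (y : Y) (n : ℕ)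
    (f : Y → ℝ) : ∫ z, f z ∂(ne_em T y n) = birkhoffSum T f (n + 1) y / ((n : ℝ) + 1) := by
  have h : (0 : ℝ) < (n : ℝ) + 1 := by positivity
  unfold ne_em
  rw [integral_smul_measure, integral_finsetSum_measure]
  · simp only [integral_dirac]
    rw [ENNReal.toReal_ofReal (by positivity), smul_eq_mul, birkhoffSum, div_eq_inv_mul]
  · intro i _
    exact integrable_dirac (by simp)

private theorem ne_F {Y : Type*} [MeasurableSpace Y] (T : Y → Y) (y : Y) (n : ℕ) {F : Set Y} (hF : MeasurableSet F)
    (hTF : Set.MapsTo T F F) (hy : y ∈ F) : ne_em T y n F = 1 := by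
  have := ne_prob T y n
  have h1 : ∀ j, T^[j] y ∈ F := fun j => hTF.iterate j hy
  have h2 : ne_em T y n Fᶜ = 0 := by
    simp only [ne_em, Measure.smul_apply, Measure.finsetSum_apply, smul_eq_mul]
    rw [Finset.sum_eq_zero, mul_zero]
    intro j _
    rw [Measure.dirac_apply' _ hF.compl]
    simp [h1 j]
  exact (prob_compl_eq_zero_iff hF).1 h2

theorem exists_lift {X Y : Type*} [TopologicalSpace X] [CompactSpace X]
    [TopologicalSpace.MetrizableSpace X] [MeasurableSpace X] [BorelSpace X] [TopologicalSpace Y]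
    [CompactSpace Y] [TopologicalSpace.MetrizableSpace Y] [MeasurableSpace Y] [BorelSpace Y]
    {T : Y → Y} {S : X → X} {π : Y → X} (hT : Continuous T) (hS : Continuous S)
    (hπ : Continuous π) (hc : ∀ y, π (T y) = S (π y)) {m : Measure X} [IsProbabilityMeasure m]
    (hm : Ergodic S m) {F : Set Y} (hF : IsClosed F) (hTF : Set.MapsTo T F F)
    (hsur : ∀ᵐ x ∂m, ∃ y ∈ F, π y = x) :
    ∃ ν : Measure Y, IsProbabilityMeasure ν ∧ MeasurePreserving T ν ν ∧ ν.map π = m ∧ ν F = 1 := by
  obtain ⟨x, hx1, y, hyF, hyx⟩ := ((ne_birk_all hm).and hsur).exists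
  let _ : MetricSpace Y := TopologicalSpace.metrizableSpaceMetric Y
  let _ : MetricSpace X := TopologicalSpace.metrizableSpaceMetric X
  let L : Ultrafilter ℕ := Ultrafilter.of atTop
  have hL : (L : Filter ℕ) ≤ atTop := Ultrafilter.of_le atTop
  let pm : ℕ → ProbabilityMeasure Y := fun n => ⟨ne_em T y n, ne_prob T y n⟩
  obtain ⟨ν, -, hν⟩ := (isCompact_univ (X := ProbabilityMeasure Y)).ultrafilter_le_nhds' (L.map pm) Filter.univ_mem
  have hlim : Tendsto pm L (𝓝 ν) := hν
  have hint := ProbabilityMeasure.tendsto_iff_forall_integral_tendsto.1 hlim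
  have hint' : ∀ f : Y →ᵇ ℝ, Tendsto (fun n : ℕ => birkhoffSum T f (n + 1) y / ((n : ℝ) + 1)) L
      (𝓝 (∫ z, f z ∂(ν : Measure Y))) := by
    intro f
    have h1 := hint f
    have h2 : (fun n => ∫ z, f z ∂(pm n : Measure Y)) = fun n : ℕ => birkhoffSum T f (n + 1) y / ((n : ℝ) + 1) := by
      funext n
      exact ne_int T y n f
    rw [h2] at h1
    exact h1
  refine ⟨(ν : Measure Y), inferInstance, ⟨hT.measurable, ?_⟩, ?_, ?_⟩
  · have : IsProbabilityMeasure ((ν : Measure Y).map T) := Measure.isProbabilityMeasure_map hT.measurable.aemeasurable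
    refine ext_of_forall_integral_eq_of_IsFiniteMeasure fun f => ?_
    rw [integral_map hT.measurable.aemeasurable f.continuous.aestronglyMeasurable]
    have h1 := hint' (f.compContinuous ⟨T, hT⟩)
    have h2 := hint' f
    have h3 : Tendsto (fun n : ℕ => birkhoffSum T (f.compContinuous ⟨T, hT⟩) (n + 1) y / ((n : ℝ) + 1) -
        birkhoffSum T f (n + 1) y / ((n : ℝ) + 1)) L (𝓝 0) := by
      refine Tendsto.mono_left ?_ hL
      have h4 : ∀ n : ℕ, birkhoffSum T (f.compContinuous ⟨T, hT⟩) (n + 1) y / ((n : ℝ) + 1) -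
          birkhoffSum T f (n + 1) y / ((n : ℝ) + 1) = (f (T^[n + 1] y) - f y) / ((n : ℝ) + 1) := by
        intro n
        rw [← sub_div, ← birkhoffSum_apply_sub_birkhoffSum T f (n + 1) y]
        congr 2
        unfold birkhoffSum
        refine Finset.sum_congr rfl fun j _ => ?_
        show f (T (T^[j] y)) = f (T^[j] (T y))
        rw [← Function.iterate_succ_apply' T, Function.iterate_succ_apply T]
      simp only [h4]
      refine squeeze_zero_norm (a := fun n : ℕ => (2 * ‖f‖) / ((n : ℝ) + 1)) (fun n => ?_) ?_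
      · have hn : (0 : ℝ) < (n : ℝ) + 1 := by positivity
        rw [norm_div, Real.norm_of_nonneg hn.le]
        refine div_le_div_of_nonneg_right ?_ hn.le
        refine (norm_sub_le _ _).trans ?_
        have h5 := f.norm_coe_le_norm (T^[n + 1] y)
        have h6 := f.norm_coe_le_norm y
        linarith
      · have := tendsto_one_div_add_atTop_nhds_zero_nat (𝕜 := ℝ)
        have h7 := this.const_mul (2 * ‖f‖)
        simpa [div_eq_mul_inv] using h7
    have h4 := h1.sub h2
    have h5 := tendsto_nhds_unique h4 h3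
    have h6 : ∫ z, (f.compContinuous ⟨T, hT⟩) z ∂(ν : Measure Y) = ∫ z, f (T z) ∂(ν : Measure Y) := rfl
    rw [h6] at h5
    linarith
  · have : IsProbabilityMeasure ((ν : Measure Y).map π) := Measure.isProbabilityMeasure_map hπ.measurable.aemeasurable
    refine ext_of_forall_integral_eq_of_IsFiniteMeasure fun f => ?_
    rw [integral_map hπ.measurable.aemeasurable f.continuous.aestronglyMeasurable]
    have h1 := hint' (f.compContinuous ⟨π, hπ⟩)
    have h2 : Tendsto (fun n : ℕ => birkhoffSum T (f.compContinuous ⟨π, hπ⟩) (n + 1) y / ((n : ℝ) + 1)) L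
        (𝓝 (∫ z, f z ∂m)) := by
      refine Tendsto.mono_left ?_ hL
      have h3 := hx1 f.toContinuousMap
      have h4 := (tendsto_add_atTop_iff_nat 1).2 h3
      refine h4.congr fun n => ?_
      have h5 : birkhoffSum S f.toContinuousMap (n + 1) x = birkhoffSum T (f.compContinuous ⟨π, hπ⟩) (n + 1) y := by
        unfold birkhoffSum
        refine Finset.sum_congr rfl fun j _ => ?_
        show f (S^[j] x) = f (π (T^[j] y))
        congr 1
        rw [← hyx]
        have h6 : Function.Semiconj π T S := hc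
        exact (h6.iterate_right j y).symm
      rw [h5]
      push_cast
      rfl
    exact tendsto_nhds_unique h1 h2
  · have h1 := ProbabilityMeasure.limsup_measure_closed_le_of_tendsto hlim hF
    have h2 : (fun n => (pm n : Measure Y) F) = fun _ => 1 := by
      funext n
      exact ne_F T y n hF.measurableSet hTF hyF
    rw [h2, limsup_const] at h1
    exact le_antisymm prob_le_one h1

end Pool.Agent.HG
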