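import Pool.Agent.HG.El
import Pool.Agent.HG.Ne

set_option autoImplicit false

/-!
# Existence of ergodic lifts

`exists_ergodic` applied to the set of all invariant probability measures carried by `F` which project to `m`.
-/

namespace Pool.Agent.HG

open MeasureTheory Filter Topology

private theorem le_closed {Y : Type*} [TopologicalSpace Y] [CompactSpace Y]
    [TopologicalSpace.MetrizableSpace Y] [MeasurableSpace Y] [BorelSpace Y] {F : Set Y} (hF : IsClosed F) :
    IsClosed {ν : ProbabilityMeasure Y | (ν : Measure Y) F = 1} := by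
  rw [isClosed_iff_ultrafilter]
  intro ν u hu hs
  have hlim : Tendsto (fun μ : ProbabilityMeasure Y => μ) (u : Filter (ProbabilityMeasure Y)) (𝓝 ν) := hu
  have h1 := ProbabilityMeasure.limsup_measure_closed_le_of_tendsto hlim hF
  have h2 : limsup (fun μ : ProbabilityMeasure Y => (μ : Measure Y) F) (u : Filter (ProbabilityMeasure Y)) = 1 := by
    have h3 : (fun μ : ProbabilityMeasure Y => (μ : Measure Y) F) =ᶠ[(u : Filter (ProbabilityMeasure Y))] fun _ => 1 := hs
    rw [limsup_congr h3, limsup_const]
  rw [h2] at h1
  exact le_antisymm prob_le_one h1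

theorem ergodic_lift {X Y : Type*} [TopologicalSpace X] [CompactSpace X]
    [TopologicalSpace.MetrizableSpace X] [MeasurableSpace X] [BorelSpace X] [TopologicalSpace Y]
    [CompactSpace Y] [TopologicalSpace.MetrizableSpace Y] [MeasurableSpace Y] [BorelSpace Y]
    {T : Y → Y} {S : X → X} {π : Y → X} (hT : Continuous T) (hS : Continuous S)
    (hπ : Continuous π) (hc : ∀ y, π (T y) = S (π y)) {m : Measure X} [IsProbabilityMeasure m]
    (hm : Ergodic S m) {F : Set Y} (hF : IsClosed F) (hTF : Set.MapsTo T F F)
    (hsur : ∀ᵐ x ∂m, ∃ y ∈ F, π y = x) :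
    ∃ ν : Measure Y, IsProbabilityMeasure ν ∧ Ergodic T ν ∧ ν.map π = m ∧ ν F = 1 := by
  let _ : MetricSpace Y := TopologicalSpace.metrizableSpaceMetric Y
  let _ : MetricSpace X := TopologicalSpace.metrizableSpaceMetric X
  let LL : Set (ProbabilityMeasure Y) := {ν | (ν : Measure Y).map T = ν ∧ (ν : Measure Y).map π = m ∧
    (ν : Measure Y) F = 1}
  have hne : LL.Nonempty := by
    obtain ⟨ν, h1, h2, h3, h4⟩ := exists_lift hT hS hπ hc hm hF hTF hsur
    exact ⟨⟨ν, h1⟩, h2.map_eq, h3, h4⟩
  have hcl : IsClosed LL := by
    have c1 : IsClosed {ν : ProbabilityMeasure Y | (ν : Measure Y).map T = ν} := by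
      have h1 : IsClosed {ν : ProbabilityMeasure Y | ν.map hT.measurable.aemeasurable = ν} :=
        isClosed_eq (ProbabilityMeasure.continuous_map hT) continuous_id
      have h2 : {ν : ProbabilityMeasure Y | (ν : Measure Y).map T = ν} =
          {ν : ProbabilityMeasure Y | ν.map hT.measurable.aemeasurable = ν} := by
        ext ν
        simp only [Set.mem_ofPred_eq]
        constructor
        · intro h
          exact Subtype.ext h
        · intro h
          exact congrArg (fun μ : ProbabilityMeasure Y => (μ : Measure Y)) h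
      rw [h2]
      exact h1
    have c2 : IsClosed {ν : ProbabilityMeasure Y | (ν : Measure Y).map π = m} := by
      have h1 : IsClosed {ν : ProbabilityMeasure Y | ν.map hπ.measurable.aemeasurable =
          (⟨m, inferInstance⟩ : ProbabilityMeasure X)} :=
        isClosed_eq (ProbabilityMeasure.continuous_map hπ) continuous_const
      have h2 : {ν : ProbabilityMeasure Y | (ν : Measure Y).map π = m} =
          {ν : ProbabilityMeasure Y | ν.map hπ.measurable.aemeasurable =
          (⟨m, inferInstance⟩ : ProbabilityMeasure X)} := by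
        ext ν
        simp only [Set.mem_ofPred_eq]
        constructor
        · intro h
          exact Subtype.ext h
        · intro h
          exact congrArg (fun μ : ProbabilityMeasure X => (μ : Measure X)) h
      rw [h2]
      exact h1
    exact c1.inter (c2.inter (le_closed hF))
  obtain ⟨ν, hν, he⟩ := exists_ergodic (T := T) hne hcl (fun ν h => ⟨hT.measurable, h.1⟩) (by
    intro ν hν E hE hTE h0
    have hmp : MeasurePreserving T (ν : Measure Y) (ν : Measure Y) := ⟨hT.measurable, hν.1⟩
    obtain ⟨i1, i2, i3⟩ := cond_inv hmp hE hTE h0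
    refine ⟨⟨ProbabilityTheory.cond (ν : Measure Y) E, i1⟩, ⟨i2.map_eq, ?_, ?_⟩, rfl⟩
    · change (ProbabilityTheory.cond (ν : Measure Y) E).map π = m
      have i4 : IsProbabilityMeasure ((ProbabilityTheory.cond (ν : Measure Y) E).map π) :=
        Measure.isProbabilityMeasure_map hπ.measurable.aemeasurable
      refine eq_of_ac hm ⟨hS.measurable, ?_⟩ ?_
      · rw [Measure.map_map hS.measurable hπ.measurable]
        have h5 : S ∘ π = π ∘ T := by
          funext y
          exact (hc y).symm
        rw [h5, ← Measure.map_map hπ.measurable hT.measurable, i2.map_eq]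
      · have h6 := i3.map hπ.measurable
        rw [hν.2.1] at h6
        exact h6
    · have h7 : (ν : Measure Y) Fᶜ = 0 := (prob_compl_eq_zero_iff hF.measurableSet).2 hν.2.2
      exact (prob_compl_eq_zero_iff hF.measurableSet).1 (i3 h7))
  exact ⟨(ν : Measure Y), inferInstance, he, hν.2.1, hν.2.2⟩

end Pool.Agent.HG
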