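import Pool.Agent.HD.Volt
import Pool.Agent.HD.Loc
import Pool.Agent.HD.LocG
import Pool.Agent.HD.Uni

set_option autoImplicit false

/-!
# Local stable curve, quantitative form

The argument of HD/LocG with the scale `s0 = m`: the difference of two nonlinear orbits is compared with the difference of the
linear ones by the Volterra estimate, all bounds are linear in `m`.
-/

namespace Pool.Agent.HG

open Pool.Agent.HD

variable {a b c ρ δ : ℝ}

private lemma exp_mono {x y : ℝ} (h : y ≤ x) (k : ℕ) :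
    Real.exp (-x * k) ≤ Real.exp (-y * k) := by
  apply Real.exp_le_exp.2
  have hk : (0 : ℝ) ≤ k := Nat.cast_nonneg k
  nlinarith

private lemma CV_nonneg {C : ℝ} (hδ : 0 < δ) (hρ : 100 * δ ≤ ρ) (hC : 0 ≤ C) : 0 ≤ CV ρ δ C := by
  have h : Real.exp (-(ρ - 9 * δ)) < 1 := by
    rw [Real.exp_lt_one_iff]; linarith
  have h' : 0 < 1 - Real.exp (-(ρ - 9 * δ)) := by linarith
  rw [CV]
  positivity

private lemma main_loc {R C s0 : ℝ} (hb : b ≠ 0) (hδ : 0 < δ) (hρ : 100 * δ ≤ ρ) (hs0 : 0 < s0)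
    {p V : E2} (h : Reg a b c ρ δ R C p V) (hU : 8 * |a| * CV ρ δ C * (C * s0) ≤ 1)
    {s : ℝ} {q : E2} (hs : |s| ≤ s0) (hq : Asym a b c ρ p V s q) :
    ∃ z : ℕ → E2, (∀ k : ℕ, ‖z k‖ ≤ 2 * (C * s0) * Real.exp (-(ρ - 4 * δ) * k)) ∧
      (∀ k, (G a b c)^[k] q = (G a b c)^[k] p + z k) ∧
      (∀ k : ℕ, ‖z k - s • act (co a b c p k) V‖ ≤
        4 * |a| * CV ρ δ C * (C * s0) ^ 2 * Real.exp (-(2 * ρ - 9 * δ) * k)) ∧
      q = p + z 0 ∧
      ∀ k, z (k + 1) = act (der a b ((G a b c)^[k] p)) (z k) + (a * (z k).1 ^ 2, 0) := by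
  have hC1 : 1 ≤ C := h.one_le
  have hC0 : 0 ≤ C := by linarith
  have hU0 : 0 ≤ C * s0 := by positivity
  obtain ⟨z, hz1, hz2, hz3⟩ := loc (u := fun k => s • act (co a b c p k) V) hb hδ hρ hC0 h.up
    (fun k => by
      rw [act_co_succ, act_smul]) hU0
    (fun k => by
      rw [norm_smul, Real.norm_eq_abs]
      calc |s| * ‖act (co a b c p k) V‖ ≤ s0 * (C * Real.exp (-(ρ - 3 * δ) * k)) := by
            have := h.con k
            gcongr
        _ ≤ s0 * (C * Real.exp (-(ρ - 4 * δ) * k)) := by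
            have := exp_mono (x := ρ - 3 * δ) (y := ρ - 4 * δ) (by linarith) k
            gcongr
        _ = C * s0 * Real.exp (-(ρ - 4 * δ) * k) := by ring) hU
  have hA : Asym a b c ρ p V s (p + z 0) := by
    refine ⟨4 * |a| * CV ρ δ C * (C * s0) ^ 2, fun n => ?_⟩
    rw [hz2 n, add_sub_cancel_left]
    refine (hz3 n).trans ?_
    have hCV := CV_nonneg (ρ := ρ) (δ := δ) hδ hρ hC0
    have := exp_mono (x := 2 * ρ - 9 * δ) (y := 3 / 2 * ρ) (by linarith) n
    gcongr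
  have hqz : q = p + z 0 := asym_unique hb hδ hρ h hq hA
  refine ⟨z, hz1, fun k => by rw [hqz, hz2], hz3, hqz, fun k => ?_⟩
  have e1 := hz2 (k + 1)
  rw [Function.iterate_succ_apply', hz2 k, G_add, ← Function.iterate_succ_apply' (G a b c) k p,
    add_assoc] at e1
  exact (add_left_cancel e1).symm

private lemma lq_pos (hb : b ≠ 0) (hδ : 0 < δ) (hρ : 100 * δ ≤ ρ) {R C s0 : ℝ} (hs0 : 0 < s0) {p V : E2}
    (h : Reg a b c ρ δ R C p V) (c1 : 8 * |a| * CV ρ δ C * (C * s0) ≤ 1) {s s' : ℝ} {q q' : E2}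
    (hs : |s| ≤ s0) (hs' : |s'| ≤ s0) (hq : Asym a b c ρ p V s q) (hq' : Asym a b c ρ p V s' q') :
    ‖q - q' - (s - s') • V‖ ≤ 8 * |a| * CV ρ δ C * C ^ 2 * s0 * |s - s'| ∧
      ∀ n : ℕ, ‖(G a b c)^[n] q - (G a b c)^[n] q'‖ ≤
        2 * C * Real.exp (-(ρ - 4 * δ) * n) * |s - s'| := by
  have hC1 : 1 ≤ C := h.one_le
  have hC0 : 0 ≤ C := by linarith
  have hCV := CV_nonneg (ρ := ρ) (δ := δ) hδ hρ hC0
  set κ := CV ρ δ C with hκ
  obtain ⟨z, hz1, hz2, hz3, hz4, hz5⟩ := main_loc hb hδ hρ hs0 h c1 hs hq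
  obtain ⟨z', hz1', hz2', hz3', hz4', hz5'⟩ := main_loc hb hδ hρ hs0 h c1 hs' hq'
  have hU0 : 0 ≤ C * s0 := by positivity
  -- the supremum
  set ω : ℕ → ℝ := fun k => Real.exp (-(ρ - 4 * δ) * k) with hω
  have hω0 : ∀ k, 0 < ω k := fun k => Real.exp_pos _
  have hw4 : ∀ k, ‖z k - z' k‖ ≤ 4 * (C * s0) * ω k := by
    intro k
    refine (norm_sub_le _ _).trans ?_
    have e1 := hz1 k
    have e2 := hz1' k
    rw [show Real.exp (-(ρ - 4 * δ) * k) = ω k from rfl] at e1 e2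
    linarith
  set Z : ℝ := ⨆ k, ‖z k - z' k‖ / ω k with hZ
  have hbd : BddAbove (Set.range fun k => ‖z k - z' k‖ / ω k) := by
    refine ⟨4 * (C * s0), ?_⟩
    rintro _ ⟨k, rfl⟩
    simp only
    rw [div_le_iff₀ (hω0 k)]
    exact hw4 k
  have hZle : ∀ k, ‖z k - z' k‖ ≤ Z * ω k := by
    intro k
    rw [← div_le_iff₀ (hω0 k)]
    exact le_ciSup hbd k
  have hZ0 : 0 ≤ Z := by
    refine le_trans ?_ (le_ciSup hbd 0)
    exact div_nonneg (norm_nonneg _) (hω0 0).le
  set y : ℕ → E2 := fun k => (z k - z' k) - (s • act (co a b c p k) V - s' • act (co a b c p k) V)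
    with hy
  set g : ℕ → E2 := fun k => (a * ((z k).1 ^ 2 - (z' k).1 ^ 2), 0) with hg
  have hyrec : ∀ k, y (k + 1) = act (der a b ((G a b c)^[k] p)) (y k) + g k := by
    intro k
    simp only [hy, hg]
    rw [hz5 k, hz5' k, act_co_succ, act_sub, act_sub, act_sub, act_smul, act_smul]
    have : ((a * ((z k).1 ^ 2 - (z' k).1 ^ 2), 0) : E2) =
        (a * (z k).1 ^ 2, 0) - (a * (z' k).1 ^ 2, 0) := by
      ext <;> simp [mul_sub]
    rw [this]
    abel
  have hgk : ∀ k, ‖g k‖ ≤ (|a| * (4 * (C * s0)) * Z) * Real.exp (-(2 * (ρ - 4 * δ)) * k) := by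
    intro k
    have e0 : Real.exp (-(2 * (ρ - 4 * δ)) * k) = ω k * ω k := by
      simp only [hω]
      rw [← Real.exp_add]; congr 1; ring
    have e1 : ‖g k‖ = |a| * (|(z k).1 + (z' k).1| * |(z k).1 - (z' k).1|) := by
      simp only [hg, Prod.norm_def, Real.norm_eq_abs, abs_zero]
      rw [max_eq_left (abs_nonneg _), abs_mul, sq_sub_sq, abs_mul]
    have e2 : |(z k).1 + (z' k).1| ≤ 4 * (C * s0) * ω k := by
      have t1 : |(z k).1| ≤ ‖z k‖ := norm_fst_le (z k)
      have t2 : |(z' k).1| ≤ ‖z' k‖ := norm_fst_le (z' k)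
      have t3 := hz1 k
      have t4 := hz1' k
      rw [show Real.exp (-(ρ - 4 * δ) * k) = ω k from rfl] at t3 t4
      refine (abs_add_le _ _).trans ?_
      linarith
    have e3 : |(z k).1 - (z' k).1| ≤ Z * ω k := by
      have t1 : |(z k - z' k).1| ≤ ‖z k - z' k‖ := norm_fst_le (z k - z' k)
      exact t1.trans (hZle k)
    rw [e1, e0]
    calc |a| * (|(z k).1 + (z' k).1| * |(z k).1 - (z' k).1|)
        ≤ |a| * ((4 * (C * s0) * ω k) * (Z * ω k)) := by gcongr
      _ = |a| * (4 * (C * s0)) * Z * (ω k * ω k) := by ring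
  have hyD : ∀ k : ℕ, ‖y k‖ ≤ (8 * |a| * κ * (C * s0) ^ 2) * Real.exp (-(ρ + 2 * δ) * k) := by
    intro k
    have e1 : y k = (z k - s • act (co a b c p k) V) - (z' k - s' • act (co a b c p k) V) := by
      simp only [hy]; abel
    rw [e1]
    refine (norm_sub_le _ _).trans ?_
    have t3 := hz3 k
    have t4 := hz3' k
    have t5 := exp_mono (x := 2 * ρ - 9 * δ) (y := ρ + 2 * δ) (by linarith) k
    have t6 : 8 * |a| * κ * (C * s0) ^ 2 * Real.exp (-(2 * ρ - 9 * δ) * k) ≤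
        8 * |a| * κ * (C * s0) ^ 2 * Real.exp (-(ρ + 2 * δ) * k) := by gcongr
    linarith
  have hv := volt hb hδ hρ hC0 h.up (N := 0) (y := y) (g := g) (fun k _ => hyrec k)
    (fun k _ => hgk k) (fun k _ => hyD k)
  have hduu : ∀ k : ℕ, ‖s • act (co a b c p k) V - s' • act (co a b c p k) V‖ ≤
      (C * |s - s'|) * ω k := by
    intro k
    rw [← sub_smul, norm_smul, Real.norm_eq_abs]
    have t1 := h.con k
    have t2 := exp_mono (x := ρ - 3 * δ) (y := ρ - 4 * δ) (by linarith) k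
    calc |s - s'| * ‖act (co a b c p k) V‖ ≤ |s - s'| * (C * Real.exp (-(ρ - 3 * δ) * k)) := by
          gcongr
      _ ≤ |s - s'| * (C * ω k) := by
          simp only [hω]
          gcongr
      _ = (C * |s - s'|) * ω k := by ring
  have hZ2 : Z ≤ 2 * (C * |s - s'|) := by
    have hstep : Z ≤ C * |s - s'| + Z / 2 := by
      refine ciSup_le fun k => ?_
      rw [div_le_iff₀ (hω0 k)]
      have e1 : z k - z' k = y k + (s • act (co a b c p k) V - s' • act (co a b c p k) V) := by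
        simp only [hy]; abel
      rw [e1]
      refine (norm_add_le _ _).trans ?_
      have t1 := hv k (Nat.zero_le k)
      have t2 := hduu k
      have t3 := exp_mono (x := 2 * ρ - 9 * δ) (y := ρ - 4 * δ) (by linarith) k
      have t4 : κ * (|a| * (4 * (C * s0)) * Z) * Real.exp (-(2 * ρ - 9 * δ) * k) ≤
          (Z / 2) * ω k := by
        calc κ * (|a| * (4 * (C * s0)) * Z) * Real.exp (-(2 * ρ - 9 * δ) * k)
            ≤ κ * (|a| * (4 * (C * s0)) * Z) * ω k := by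
              simp only [hω]; gcongr
          _ = (8 * |a| * κ * (C * s0)) * (Z / 2 * ω k) := by ring
          _ ≤ 1 * (Z / 2 * ω k) := by
              apply mul_le_mul_of_nonneg_right c1
              have := (hω0 k).le
              positivity
          _ = (Z / 2) * ω k := by ring
      linarith
    linarith
  refine ⟨?_, fun n => ?_⟩
  · have hy0 := hv 0 le_rfl
    have e0 : q - q' - (s - s') • V = y 0 := by
      simp only [hy, hz4, hz4']
      have : co a b c p 0 = ((1, 0), (0, 1)) := rfl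
      rw [this, act_one, sub_smul]
      abel
    rw [e0]
    refine hy0.trans ?_
    simp only [Nat.cast_zero, mul_zero, Real.exp_zero, mul_one]
    calc κ * (|a| * (4 * (C * s0)) * Z) ≤ κ * (|a| * (4 * (C * s0)) * (2 * (C * |s - s'|))) := by
          gcongr
      _ = (8 * |a| * κ * C ^ 2) * s0 * |s - s'| := by ring
  · have e1 : (G a b c)^[n] q - (G a b c)^[n] q' = z n - z' n := by
      rw [hz2 n, hz2' n]
      abel
    rw [e1]
    refine (hZle n).trans ?_
    have := (hω0 n).le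
    calc Z * ω n ≤ 2 * (C * |s - s'|) * ω n := by gcongr
      _ = 2 * C * Real.exp (-(ρ - 4 * δ) * n) * |s - s'| := by simp only [hω]; ring

theorem lq {a b c ρ δ : ℝ} (hb : b ≠ 0) (hδ : 0 < δ) (hρ : 100 * δ ≤ ρ) (R C : ℝ) :
    ∃ h0 K : ℝ, 0 < h0 ∧ 0 < K ∧ ∀ p V : E2, Reg a b c ρ δ R C p V →
      ∀ (m s s' : ℝ) (q q' : E2), m ≤ h0 → |s| ≤ m → |s'| ≤ m → Asym a b c ρ p V s q →
        Asym a b c ρ p V s' q' →
        ‖q - q' - (s - s') • V‖ ≤ K * m * |s - s'| ∧
          ∀ n : ℕ, ‖(G a b c)^[n] q - (G a b c)^[n] q'‖ ≤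
            2 * C * Real.exp (-(ρ - 4 * δ) * n) * |s - s'| := by
  by_cases hC1 : 1 ≤ C
  swap
  · exact ⟨1, 1, one_pos, one_pos, fun p V h => absurd h.one_le hC1⟩
  have hC0 : 0 ≤ C := by linarith
  have hCV := CV_nonneg (ρ := ρ) (δ := δ) hδ hρ hC0
  have hX : 0 ≤ 8 * |a| * CV ρ δ C * C := by positivity
  have hY : 0 ≤ 8 * |a| * CV ρ δ C * C ^ 2 := by positivity
  refine ⟨1 / (8 * |a| * CV ρ δ C * C + 1), 8 * |a| * CV ρ δ C * C ^ 2 + 1, by positivity, by linarith,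
    fun p V h m s s' q q' hm hs hs' hq hq' => ?_⟩
  have hm0 : 0 ≤ m := (abs_nonneg s).trans hs
  rcases hm0.eq_or_lt with hm0 | hm0
  · have e1 : s = 0 := abs_eq_zero.1 (le_antisymm (hm0 ▸ hs) (abs_nonneg s))
    have e2 : s' = 0 := abs_eq_zero.1 (le_antisymm (hm0 ▸ hs') (abs_nonneg s'))
    subst e1 e2
    have e3 : q = q' := asym_unique hb hδ hρ h hq hq'
    subst e3
    simp
  · have hD : m * (8 * |a| * CV ρ δ C * C + 1) ≤ 1 := by
      rwa [le_div_iff₀ (by linarith)] at hm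
    have c1 : 8 * |a| * CV ρ δ C * (C * m) ≤ 1 := by
      have : 8 * |a| * CV ρ δ C * (C * m) = m * (8 * |a| * CV ρ δ C * C + 1) - m := by ring
      linarith
    obtain ⟨h1, h2⟩ := lq_pos hb hδ hρ hm0 h c1 hs hs' hq hq'
    refine ⟨h1.trans ?_, h2⟩
    have h3 : 0 ≤ m * |s - s'| := by positivity
    have h4 : (8 * |a| * CV ρ δ C * C ^ 2 + 1) * m * |s - s'| =
      8 * |a| * CV ρ δ C * C ^ 2 * m * |s - s'| + m * |s - s'| := by ring
    linarith

end Pool.Agent.HG
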