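import Pool.Agent.HG.Ex3
import Pool.Agent.HG.Ex4
import Pool.Agent.HG.Gr

set_option autoImplicit false

/-!
# There are no bad measures

The constant sequences over a bad measure form a chain law; the greedy argument of HG/Gr applied to the chain
laws (with `chain_limit` and `ext_chain`) shows that there are none.
-/

namespace Pool.Agent.HG

open Pool.Agent.HD MeasureTheory Set

variable {b c : ℝ}

private theorem ph_comp_meas (hb0 : b ≠ 0) (hb1 : |b| < 1) (i : ℕ) :
    Measurable fun ω : ℕ → St b c => ph b c (ω i).1 :=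
  (ph_meas hb0 hb1).comp (measurable_subtype_coe.comp (measurable_pi_apply i))

private theorem TS_meas (hb0 : b ≠ 0) : Measurable (TS b c) :=
  measurable_pi_lambda _ fun i =>
    (continuous_FS hb0).measurable.comp (measurable_pi_apply i)

private theorem trunc_meas (j : ℕ) : Measurable (trunc j : (ℕ → St b c) → (ℕ → St b c)) :=
  measurable_pi_lambda _ fun i => measurable_pi_apply (min i j)

private theorem const_chain (hb0 : b ≠ 0) {m : Measure (St b c)} (hm : Bad b c m) :
    Chain b c (m.map fun (s : St b c) (_ : ℕ) => s) := by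
  have hφ : Measurable (fun (s : St b c) (_ : ℕ) => s) :=
    measurable_pi_lambda _ fun _ => measurable_id
  have hp := hm.prob
  refine ⟨Measure.isProbabilityMeasure_map hφ.aemeasurable, ?_, ?_, ?_⟩
  · exact ergodic_map hφ (TS_meas hb0) (fun s => rfl) hm.erg
  · intro i
    have h1 : (m.map fun (s : St b c) (_ : ℕ) => s).map (fun ω => ω i) = m := by
      rw [Measure.map_map (measurable_pi_apply i) hφ]
      have h2 : ((fun ω : ℕ → St b c => ω i) ∘ fun (s : St b c) (_ : ℕ) => s) = id := rfl
      rw [h2, Measure.map_id]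
    rw [h1]
    exact hm
  · intro i
    have h1 : MeasurableSet {ω : ℕ → St b c | ω (i + 1) = ω i} :=
      measurableSet_eq_fun (measurable_pi_apply (i + 1)) (measurable_pi_apply i)
    have h2 : ∀ᵐ ω ∂(m.map fun (s : St b c) (_ : ℕ) => s), ω (i + 1) = ω i := by
      rw [ae_map_iff hφ.aemeasurable h1]
      exact Filter.Eventually.of_forall fun s => rfl
    filter_upwards [h2] with ω hω
    rw [hω]

theorem no_bad (hb0 : b ≠ 0) (hb1 : |b| < 1) {m : Measure (St b c)} : ¬ Bad b c m := by
  intro hm
  have hne : IsEmpty {P : Measure (ℕ → St b c) // Chain b c P} := by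
    refine greedy (P := {P : Measure (ℕ → St b c) // Chain b c P})
      (fun i P => ∫ ω, ph b c (ω i).1 ∂P.1) 2 ?_
      (fun j P P' => P.1.map (trunc j) = P'.1.map (trunc j)) ?_ ?_ ?_ ?_
    · intro i P
      have hp := P.2.prob
      have h1 := norm_integral_le_of_norm_le_const (μ := P.1) (C := 2)
        (f := fun ω : ℕ → St b c => ph b c (ω i).1) (Filter.Eventually.of_forall fun ω => by
          rw [Real.norm_eq_abs, abs_of_nonneg (ph_le _).1]
          exact (ph_le _).2)
      rw [probReal_univ, mul_one] at h1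
      exact (le_abs_self _).trans h1
    · intro j
      exact ⟨fun _ => rfl, fun h => h.symm, fun h h' => h.trans h'⟩
    · intro j P Q h
      have key : ∀ ν : Measure (ℕ → St b c), (∫ ω, ph b c (ω j).1 ∂ν) =
          (∫ ω, ph b c (ω j).1 ∂(ν.map (trunc j))) := by
        intro ν
        rw [integral_map (trunc_meas j).aemeasurable
          (ph_comp_meas hb0 hb1 j).aestronglyMeasurable]
        simp only [trunc, min_self]
      show (∫ ω, ph b c (ω j).1 ∂P.1) = (∫ ω, ph b c (ω j).1 ∂Q.1)
      rw [key P.1, key Q.1]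
      exact congrArg (fun ν : Measure (ℕ → St b c) => ∫ ω, ph b c (ω j).1 ∂ν) h
    · intro u hu
      obtain ⟨Q, hQ, hQ'⟩ := chain_limit hb0 hb1 (fun j => (u j).1) (fun j => (u j).2) hu
      exact ⟨⟨Q, hQ⟩, hQ'⟩
    · intro P
      obtain ⟨v, ε, hε, h1, h2⟩ := ext_chain hb0 hb1 P.2
      refine ⟨v, ε, hε, h1, fun j => ?_⟩
      obtain ⟨P', hP', h3, h4⟩ := h2 j
      exact ⟨⟨P', hP'⟩, h3, h4⟩
  exact hne.false ⟨_, const_chain hb0 hm⟩

end Pool.Agent.HG
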