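import Pool.Agent.HG.Tp
import Pool.Agent.HG.Dp
import Pool.Agent.HG.Lm

set_option autoImplicit false

/-!
# Existence of a bad measure

The set of the base points of the good states is invariant and has full measure; the lift of the
measure to the states is given by `two_point`.
-/

namespace Pool.Agent.HG

open Pool.Agent.HD MeasureTheory Set

variable {b c : ℝ}

private theorem zi_act_smul (M : M2) (r : ℝ) (v : E2) : act M (r • v) = r • act M v := by
  simp only [act, Prod.smul_fst, Prod.smul_snd, smul_eq_mul, Prod.smul_mk]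
  refine Prod.ext ?_ ?_
  · show _ = _; ring
  · show _ = _; ring

private theorem zi_act_inj (hb : b ≠ 0) (z : E2) {v w : E2}
    (h : act (der 1 b z) v = act (der 1 b z) w) : v = w := by
  have h2 : v.1 = w.1 := by
    have := congrArg Prod.snd h
    simpa [act, der] using this
  have h1 : v.2 = w.2 := by
    have := congrArg Prod.fst h
    simp only [act, der, h2] at this
    have h3 : b * v.2 = b * w.2 := by linarith
    exact mul_left_cancel₀ hb h3
  exact Prod.ext h2 h1

private theorem zi_ne {v : E2} (h : ‖v‖ = 1) : v ≠ 0 := by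
  intro h'
  rw [h', norm_zero] at h
  exact zero_ne_one h

private theorem zi_surj (hb : b ≠ 0) (z : E2) {W : E2} (hW : ‖W‖ = 1) :
    ∃ V : E2, ‖V‖ = 1 ∧ F1 b c (z, V) = (G 1 b c z, W) := by
  set U : E2 := (W.2, (2 * 1 * z.1 * W.2 - W.1) / b) with hU
  have h1 : act (der 1 b z) U = W := by
    refine Prod.ext ?_ ?_
    · show 2 * 1 * z.1 * W.2 + -b * ((2 * 1 * z.1 * W.2 - W.1) / b) = W.1
      field_simp
      ring
    · show 1 * W.2 + 0 * _ = W.2
      ring
  have h2 : U ≠ 0 := by
    intro h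
    rw [h] at h1
    apply zi_ne hW
    rw [← h1]
    simp [act]
  have h3 : ‖U‖ ≠ 0 := norm_ne_zero_iff.2 h2
  have h4 : act (der 1 b z) (‖U‖⁻¹ • U) = ‖U‖⁻¹ • W := by rw [zi_act_smul, h1]
  refine ⟨‖U‖⁻¹ • U, ?_, ?_⟩
  · rw [norm_smul, norm_inv, norm_norm, inv_mul_cancel₀ h3]
  · refine Prod.ext rfl ?_
    show ‖act (der 1 b z) (‖U‖⁻¹ • U)‖⁻¹ • act (der 1 b z) (‖U‖⁻¹ • U) = W
    rw [h4, norm_smul, norm_inv, norm_norm, hW, mul_one, inv_inv, smul_smul,
      mul_inv_cancel₀ h3, one_smul]

private theorem zi_inj (hb : b ≠ 0) (z : E2) {V V' : E2} (hV : ‖V‖ = 1) (hV' : ‖V'‖ = 1)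
    (h : F1 b c (z, V) = F1 b c (z, V')) : V = V' := by
  have h1 : ‖act (der 1 b z) V‖⁻¹ • act (der 1 b z) V =
      ‖act (der 1 b z) V'‖⁻¹ • act (der 1 b z) V' := congrArg Prod.snd h
  rw [← zi_act_smul, ← zi_act_smul] at h1
  have h2 := zi_act_inj hb z h1
  have h3 := congrArg norm h2
  rw [norm_smul, norm_smul, hV, hV', mul_one, mul_one, norm_inv, norm_inv, norm_norm,
    norm_norm] at h3
  rw [h3] at h2
  have h4 : ‖act (der 1 b z) V'‖⁻¹ ≠ 0 :=
    inv_ne_zero (norm_ne_zero_iff.2 (act_der_ne hb (zi_ne hV')))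
  exact (smul_right_injective E2 h4) h2

private theorem zi_unit {s : E2 × E2} (h : s ∈ GS b c) : ‖s.2‖ = 1 := by
  obtain ⟨-, ⟨C, h2⟩, -⟩ := h
  exact Reg.unit h2

private theorem zi_F1 (hb0 : b ≠ 0) (hb1 : |b| < 1) {s : E2 × E2} (hs : ‖s.2‖ = 1) :
    F1 b c s ∈ GS b c ↔ s ∈ GS b c := by
  rw [← sn_one]
  exact gs_shift hb0 hb1 hs 1

theorem exists_bad (hb0 : b ≠ 0) (hb1 : |b| < 1) {μ : Measure E2} [IsProbabilityMeasure μ]
    (hμ : Ergodic (G 1 b c) μ) (hna : ∀ p, μ {p} = 0) (hK : ∀ᵐ p ∂μ, p ∈ KK b c)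
    (hbd : ¬ ∀ᵐ p ∂μ, ∀ V : E2, (p, V) ∉ GS b c) : ∃ m : Measure (St b c), Bad b c m := by
  have hKm : MeasurableSet (KK b c) := (kk_closed b c).measurableSet
  have hj : MeasurableEmbedding (Subtype.val : Kt b c → E2) := MeasurableEmbedding.subtype_coe hKm
  set μ' : Measure (Kt b c) := μ.comap Subtype.val with hμ'
  have hmap : μ'.map Subtype.val = μ := by
    rw [hμ', hj.map_comap, Subtype.range_coe]
    exact Measure.restrict_eq_self_of_ae_mem hK
  have hprob : IsProbabilityMeasure μ' := by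
    refine ⟨?_⟩
    have h1 : (μ'.map Subtype.val) univ = 1 := by rw [hmap]; exact measure_univ
    rwa [Measure.map_apply hj.measurable MeasurableSet.univ, preimage_univ] at h1
  have hfm : Measurable (fK b c) := (continuous_fK hb0).measurable
  have hGm : Measurable (G 1 b c) := (continuous_G 1 b c).measurable
  have hcomm : (Subtype.val : Kt b c → E2) ∘ fK b c = G 1 b c ∘ Subtype.val := by
    funext q
    exact fK_val hb0 q
  have herg : Ergodic (fK b c) μ' := by
    refine ⟨⟨hfm, ?_⟩, ⟨fun s hs hinv => ?_⟩⟩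
    · have h1 : (μ'.map (fK b c)).map Subtype.val = μ := by
        rw [Measure.map_map hj.measurable hfm, hcomm, ← Measure.map_map hGm hj.measurable, hmap]
        exact hμ.toMeasurePreserving.map_eq
      rw [← hj.comap_map (μ'.map (fK b c)), h1]
    · have hB : MeasurableSet (Subtype.val '' s : Set E2) := hj.measurableSet_image.2 hs
      have hGB : G 1 b c ⁻¹' (Subtype.val '' s) = Subtype.val '' s := by
        ext x
        constructor
        · rintro ⟨y, hy, hyx⟩
          have hx : x ∈ KK b c := by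
            rw [← kk_G_iff hb0, ← hyx]
            exact y.2
          refine ⟨⟨x, hx⟩, ?_, rfl⟩
          rw [← hinv]
          show fK b c ⟨x, hx⟩ ∈ s
          have : fK b c ⟨x, hx⟩ = y := Subtype.ext (by rw [fK_val hb0, hyx])
          rw [this]
          exact hy
        · rintro ⟨y, hy, rfl⟩
          refine ⟨fK b c y, ?_, fK_val hb0 y⟩
          rw [← hinv] at hy
          exact hy
      have h1 := hμ.toPreErgodic.aeconst_set hB hGB
      rw [Filter.eventuallyConst_set'] at h1 ⊢
      rcases h1 with h1 | h1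
      · left
        rw [ae_eq_empty] at h1 ⊢
        rw [hμ', hj.comap_apply]
        exact h1
      · right
        rw [ae_eq_univ] at h1 ⊢
        rw [hμ', hj.comap_apply]
        refine measure_mono_null ?_ h1
        rintro x ⟨y, hy, rfl⟩ ⟨y', hy', hyy⟩
        exact hy (Subtype.ext hyy ▸ hy')
  -- the set of the base points
  set Z : Set E2 := {z | ∃ V, (z, V) ∈ GS b c} with hZ
  have hspec : ∀ z V : E2, (z, V) ∈ GS b c → V = dirp b c z ∨ V = -dirp b c z := by
    rintro z V ⟨-, ⟨C, h2⟩, -⟩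
    exact dirp_spec hb0 hb1 h2
  have hZm : MeasurableSet Z := by
    have e : Z = (fun z => (z, dirp b c z)) ⁻¹' GS b c ∪ (fun z => (z, -dirp b c z)) ⁻¹' GS b c := by
      ext z
      constructor
      · rintro ⟨V, hV⟩
        rcases hspec z V hV with h | h
        · left; rw [h] at hV; exact hV
        · right; rw [h] at hV; exact hV
      · rintro (h | h)
        · exact ⟨_, h⟩
        · exact ⟨_, h⟩
    rw [e]
    have hd := dirp_meas (c := c) hb0 hb1
    exact ((measurable_id.prodMk hd) (gs_meas hb0 hb1)).union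
      ((measurable_id.prodMk hd.neg) (gs_meas hb0 hb1))
  have hZG : G 1 b c ⁻¹' Z = Z := by
    ext z
    constructor
    · rintro ⟨W, hW⟩
      obtain ⟨V, hV, hF⟩ := zi_surj (c := c) hb0 z (zi_unit hW)
      refine ⟨V, (zi_F1 hb0 hb1 (s := (z, V)) hV).1 ?_⟩
      rw [hF]
      exact hW
    · rintro ⟨V, hV⟩
      exact ⟨_, (zi_F1 hb0 hb1 (s := (z, V)) (zi_unit hV)).2 hV⟩
  have hZae : ∀ᵐ p ∂μ, p ∈ Z := by
    have h1 := hμ.toPreErgodic.aeconst_set hZm hZG
    rw [Filter.eventuallyConst_set'] at h1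
    rcases h1 with h1 | h1
    · exfalso
      apply hbd
      rw [ae_eq_empty] at h1
      have h2 : ∀ᵐ p ∂μ, p ∉ Z := by
        rw [ae_iff]
        simpa using h1
      filter_upwards [h2] with p hp V hV
      exact hp ⟨V, hV⟩
    · rw [ae_eq_univ] at h1
      rw [ae_iff]
      exact h1
  have hZae' : ∀ᵐ ω : Kt b c ∂μ', (ω : E2) ∈ Z := by
    rw [← hmap] at hZae
    exact ae_of_ae_map hj.measurable.aemeasurable hZae
  -- the two points in the fibres
  have hd := dirp_meas (c := c) hb0 hb1
  set π : St b c → Kt b c := fun s => ⟨s.1.1, s.2.1⟩ with hπdef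
  set a1 : Kt b c → St b c := fun z => ⟨((z : E2), dirp b c z), z.2, dirp_norm _⟩ with ha1def
  set a2 : Kt b c → St b c := fun z => ⟨((z : E2), -dirp b c z), z.2, by
    rw [norm_neg]; exact dirp_norm _⟩ with ha2def
  have hπ : Measurable π := (measurable_fst.comp measurable_subtype_coe).subtype_mk
  have ha1 : Measurable a1 :=
    (measurable_subtype_coe.prodMk (hd.comp measurable_subtype_coe)).subtype_mk
  have ha2 : Measurable a2 :=
    (measurable_subtype_coe.prodMk (hd.comp measurable_subtype_coe).neg).subtype_mk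
  have hc : ∀ y, π (FS b c y) = fK b c (π y) := by
    intro y
    refine Subtype.ext ?_
    rw [fK_val hb0]
    show ((FS b c y : St b c) : E2 × E2).1 = G 1 b c (y : E2 × E2).1
    rw [FS_val hb0]
    rfl
  have hne : ∀ ω, a1 ω ≠ a2 ω := by
    intro ω h
    have h1 : dirp b c (ω : E2) = -dirp b c (ω : E2) :=
      congrArg (fun s : St b c => (s : E2 × E2).2) h
    exact zi_ne (dirp_norm (b := b) (c := c) (ω : E2)) (self_eq_neg.1 h1)
  obtain ⟨ν, hν1, hν2, hν3, hν4⟩ := two_point (S := FS b c) (π := π) (T := fK b c) hfm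
    (continuous_FS hb0).measurable hπ hc herg ha1 ha2 (fun ω => rfl) (fun ω => rfl) hne
    (E := Subtype.val ⁻¹' GS b c) (measurable_subtype_coe (gs_meas hb0 hb1)) (by
      filter_upwards [hZae'] with ω hω
      refine ⟨?_, ?_, ?_, ?_, ?_⟩
      · obtain ⟨V, hV⟩ := hω
        exact ⟨⟨((ω : E2), V), ω.2, zi_unit hV⟩, hV, rfl⟩
      · rintro y hy rfl
        rcases hspec _ _ hy with h | h
        · left
          exact Subtype.ext (Prod.ext rfl h)
        · right
          exact Subtype.ext (Prod.ext rfl h)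
      · intro y hy _
        show ((FS b c y : St b c) : E2 × E2) ∈ GS b c
        rw [FS_val hb0]
        exact (zi_F1 hb0 hb1 y.2.2).2 hy
      · intro y _ y' _ h1 h2 h3
        have h4 : (y : E2 × E2).1 = (y' : E2 × E2).1 :=
          congrArg (fun q : Kt b c => (q : E2)) (h1.trans h2.symm)
        have h5 : F1 b c (y : E2 × E2) = F1 b c (y' : E2 × E2) := by
          rw [← FS_val hb0, ← FS_val hb0, h3]
        refine Subtype.ext (Prod.ext h4 ?_)
        refine zi_inj (c := c) hb0 (y : E2 × E2).1 y.2.2 y'.2.2 ?_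
        have h6 : ((y : E2 × E2).1, (y' : E2 × E2).2) = (y' : E2 × E2) := Prod.ext h4 rfl
        rw [h6]
        exact h5
      · intro y' hy' h1
        have h2 : (y' : E2 × E2).1 = G 1 b c (ω : E2) := by
          rw [← fK_val hb0]
          exact congrArg (fun q : Kt b c => (q : E2)) h1
        obtain ⟨V, hV, hF⟩ := zi_surj (c := c) hb0 (ω : E2) (W := (y' : E2 × E2).2) y'.2.2
        have h3 : F1 b c ((ω : E2), V) = (y' : E2 × E2) := by
          rw [hF, ← h2]
        refine ⟨⟨((ω : E2), V), ω.2, hV⟩, ?_, rfl, ?_⟩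
        · refine (zi_F1 hb0 hb1 (s := ((ω : E2), V)) hV).1 ?_
          rw [h3]
          exact hy'
        · refine Subtype.ext ?_
          rw [FS_val hb0]
          exact h3)
  refine ⟨ν, hν1, hν2, fun p => ?_, hν4⟩
  have hp : MeasurableSet ({p} : Set E2) := measurableSet_singleton p
  have h1 : (ν.map π).map Subtype.val = μ := by rw [hν3, hmap]
  have h2 := hna p
  rw [← h1, Measure.map_apply hj.measurable hp, Measure.map_apply hπ (hj.measurable hp)] at h2
  exact h2

end Pool.Agent.HG
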