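import Pool.Agent.HD.Lit
import Pool.Agent.HD.Main
import Pool.Agent.HG.Zi
import Pool.Agent.HG.Nbad
import Pool.Agent.HG.Gd0
import Pool.Agent.HG.Bn0
import Pool.Agent.HG.Bt2
import Pool.Agent.HG.Ng

set_option autoImplicit false

/-!
# Nonatomic ergodic measures with zero exponent: both branches are unbounded

The exponent is zero (`exp_nonneg` and the hypothesis), so almost every point is regular with contraction
rate `el b`; a bounded branch of the stable curve would give a state in `GS` (`bnd0`), hence a bad measure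
(`exists_bad`), but there are none (`no_bad`).
-/

namespace Pool.Agent.HG

open Pool.Agent.HD MeasureTheory Set Filter

variable {b c : ℝ}

/-- a bounded half of the stable curve gives a bounded branch -/
private lemma zf_br_of_bounded {b c ρ δ R C : ℝ} {p V : E2} (hb : b ≠ 0) (hδ : 0 < δ)
    (hρ : 100 * δ ≤ ρ) (h : Reg 1 b c ρ δ R C p V) {γ : ℝ → E2}
    (hγ : ∀ s : ℝ, 0 ≤ s → Asym 1 b c ρ p V s (γ s)) (h0 : γ 0 = p)
    (hB : Bornology.IsBounded (γ '' Set.Ioi 0)) :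
    ∃ M : ℝ, Br 1 b c ρ (Metric.closedBall 0 M) p V := by
  obtain ⟨M, hM⟩ := hB.exists_norm_le
  refine ⟨max M ‖p‖, fun s hs q hq => ?_⟩
  have hqs : q = γ s := asym_unique hb hδ hρ h hq (hγ s hs)
  rw [mem_closedBall_zero_iff, hqs]
  rcases eq_or_lt_of_le hs with h1 | h1
  · rw [← h1, h0]
    exact le_max_right _ _
  · exact (hM _ ⟨s, h1, rfl⟩).trans (le_max_left _ _)

private lemma zf_lim {b c χ : ℝ} (hb : b ≠ 0) {p : E2}
    (hp : Tendsto (fun n : ℕ => Real.log ‖co 1 b c p n‖ / n) atTop (nhds χ)) :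
    Tendsto (fun n : ℕ => Real.log ‖fderiv ℝ ((G 1 b c)^[n]) p‖ / n) atTop (nhds χ) := by
  have hup : Tendsto (fun n : ℕ => Real.log 2 / n + Real.log ‖co 1 b c p n‖ / n) atTop
      (nhds χ) := by
    have h0 : Tendsto (fun n : ℕ => Real.log 2 / (n : ℝ)) atTop (nhds 0) :=
      tendsto_const_div_atTop_nhds_zero_nat _
    simpa using h0.add hp
  refine tendsto_of_tendsto_of_tendsto_of_le_of_le hp hup (fun n => ?_) (fun n => ?_)
  · have := Real.log_le_log (co_ne_zero hb p n) (norm_co_le_fderiv 1 b c n p)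
    exact div_le_div_of_nonneg_right this (Nat.cast_nonneg n)
  · have h1 : 0 < ‖fderiv ℝ ((G 1 b c)^[n]) p‖ :=
      (co_ne_zero hb p n).trans_le (norm_co_le_fderiv 1 b c n p)
    have h2 := Real.log_le_log h1 (norm_fderiv_le_co 1 b c n p)
    rw [Real.log_mul two_ne_zero (co_ne_zero hb p n).ne'] at h2
    have h3 := div_le_div_of_nonneg_right h2 (Nat.cast_nonneg n : (0 : ℝ) ≤ n)
    rw [add_div] at h3
    exact h3

theorem zero_main (hb0 : b ≠ 0) (hb1 : |b| < 1) {μ : Measure E2} [IsProbabilityMeasure μ]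
    (hμ : Ergodic (G 1 b c) μ) (hna : ∀ p, μ {p} = 0)
    (hzero : μ {p | 0 < limsup (fun n : ℕ =>
      Real.log ‖fderiv ℝ ((G 1 b c)^[n]) p‖ / n) atTop} = 0) :
    ∀ᵐ p ∂μ, ∃ γ : ℝ → E2, Continuous γ ∧ Function.Injective γ ∧ γ 0 = p ∧
      Set.range γ = Ws (G 1 b c) p ∧ ¬ Bornology.IsBounded (γ '' Set.Ioi 0) ∧
      ¬ Bornology.IsBounded (γ '' Set.Iio 0) := by
  obtain ⟨χ, h1, h2, h3⟩ := ergF (c := c) hb0 hb1 hμ
  have hχ0 : 0 ≤ χ := exp_nonneg hμ.toMeasurePreserving hna h3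
  have hχ1 : χ ≤ 0 := by
    by_contra hχ
    push Not at hχ
    have k1 : ∀ᵐ p ∂μ, p ∉ {p | 0 < limsup (fun n : ℕ =>
        Real.log ‖fderiv ℝ ((G 1 b c)^[n]) p‖ / n) atTop} :=
      measure_eq_zero_iff_ae_notMem.1 hzero
    obtain ⟨p, hp1, hp2⟩ := (k1.and h1).exists
    apply hp1
    show 0 < limsup (fun n : ℕ => Real.log ‖fderiv ℝ ((G 1 b c)^[n]) p‖ / n) atTop
    rw [(zf_lim hb0 hp2).limsup_eq]
    exact hχ
  have hχ : χ = 0 := le_antisymm hχ1 hχ0
  subst hχ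
  have hlog : Real.log |b| < 0 := Real.log_neg (abs_pos.2 hb0) hb1
  have hel : 0 < el b := by
    unfold el
    linarith
  have hδ : 0 < dl b := by
    unfold dl
    linarith
  have hρ : 100 * dl b ≤ el b := by
    unfold dl
    linarith
  have hg := good0 hb0 hb1 hμ le_rfl h1 h3
  have hKK : ∀ᵐ p ∂μ, p ∈ KK b c := hg.mono fun p hp => hp.1
  have hgs : ∀ᵐ p ∂μ, ∀ V : E2, (p, V) ∉ GS b c := by
    by_contra h
    obtain ⟨m, hm⟩ := exists_bad hb0 hb1 hμ hna hKK h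
    exact no_bad hb0 hb1 hm
  have hbnd := bnd0 (c := c) (ρ := el b) (δ := dl b) hb0 hb1 hδ hρ le_rfl hμ.toMeasurePreserving
  filter_upwards [hg, hgs, hbnd] with p hp1 hp2 hp3
  obtain ⟨hpK, V, hV⟩ := hp1
  have hV' : ∀ δ : ℝ, 0 < δ → 100 * δ ≤ el b → ∃ C : ℝ, Reg 1 b c (el b) δ (|c| + 4) C p V := by
    intro δ k1 k2
    have e : (0 : ℝ) - Real.log |b| = el b := by
      unfold el
      ring
    have k3 := hV δ k1 (by rw [e]; exact k2)
    rw [e] at k3
    exact k3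
  obtain ⟨C, hR⟩ := hV' (dl b) hδ hρ
  obtain ⟨γ, hγc, hγi, hγ0, hγ⟩ := exists_curve hb0 hδ hρ hR
  have key : ∀ W : E2, Reg 1 b c (el b) (dl b) (|c| + 4) C p W → ∀ M : ℝ,
      ¬ Br 1 b c (el b) (Metric.closedBall 0 M) p W := by
    intro W hW M hM
    refine hp2 W ⟨hpK, ⟨C, hW⟩, ?_⟩
    rintro q ⟨t, ht, hq⟩
    exact hp3 C W hW M hM t ht q hq
  refine ⟨γ, hγc, hγi, hγ0, ?_, ?_, ?_⟩
  · ext q
    rw [ws_iff]
    constructor
    · rintro ⟨s, rfl⟩
      exact Asym.expC hρ hδ hR (hγ s)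
    · intro hq
      obtain ⟨s, hs⟩ := expC_asym0 (R := |c| + 4) (V := V) (δ0 := dl b) hb0 hel
        (by unfold el; linarith) hδ (fun δ k1 k2 => hV' δ k1 (by linarith)) hq
      exact ⟨s, (asym_unique hb0 hδ hρ hR hs (hγ s)).symm⟩
  · intro hB
    obtain ⟨M, hM⟩ := zf_br_of_bounded hb0 hδ hρ hR (fun s _ => hγ s) hγ0 hB
    exact key V hR M hM
  · intro hB
    have k1 : ∀ s : ℝ, 0 ≤ s → Asym 1 b c (el b) p (-V) s (γ (-s)) := by
      intro s _
      have := (hγ (-s)).neg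
      rwa [neg_neg] at this
    have k2 : Bornology.IsBounded ((fun s => γ (-s)) '' Set.Ioi 0) := by
      refine hB.subset ?_
      rintro _ ⟨s, hs, rfl⟩
      exact ⟨-s, Set.mem_Iio.2 (neg_lt_zero.2 (Set.mem_Ioi.1 hs)), rfl⟩
    obtain ⟨M, hM⟩ := zf_br_of_bounded (γ := fun s => γ (-s)) hb0 hδ hρ hR.neg k1
      (by simpa using hγ0) k2
    exact key (-V) hR.neg M hM

end Pool.Agent.HG
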