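import Pool.Agent.HF.FErg
import Pool.Agent.HG.Zf

set_option autoImplicit false

/-!
# Mild dissipation of all dissipative real Henon maps

Plan. If `μ` has no atoms and the upper exponent is positive on a null set only: `zero_main`. Otherwise `HF.erg` (HF/FErg).
-/

namespace Pool.Agent.HG

open Pool.Agent.HD MeasureTheory Set Filter

theorem mild {b c : ℝ} (hb0 : b ≠ 0) (hb1 : |b| < 1) {μ : Measure E2} [IsProbabilityMeasure μ]
    (hμ : Ergodic (G 1 b c) μ)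
    (hsink : ∀ (p : E2) (n : ℕ), 1 ≤ n → (G 1 b c)^[n] p = p → μ {p} ≠ 0 →
      ∃ m : ℝ, 1 ≤ |m| ∧ ∃ v : E2, v ≠ 0 ∧ fderiv ℝ ((G 1 b c)^[n]) p v = m • v) :
    ∀ᵐ p ∂μ, ∃ γ : ℝ → E2, Continuous γ ∧ Function.Injective γ ∧ γ 0 = p ∧
      Set.range γ = Ws (G 1 b c) p ∧ ¬ Bornology.IsBounded (γ '' Set.Ioi 0) ∧
      ¬ Bornology.IsBounded (γ '' Set.Iio 0) := by
  by_cases hna : ∀ p, μ {p} = 0
  · by_cases h0 : μ {p | 0 < limsup (fun n : ℕ =>
        Real.log ‖fderiv ℝ ((G 1 b c)^[n]) p‖ / n) atTop} = 0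
    · exact zero_main hb0 hb1 hμ hna h0
    · exact Pool.Agent.HF.erg hb0 hb1 hμ hsink fun _ => h0
  · exact Pool.Agent.HF.erg hb0 hb1 hμ hsink fun h => absurd h hna

end Pool.Agent.HG
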