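import Pool.Agent.HG.Co
import Pool.Agent.HG.Lc
import Pool.Agent.HG.Cm

set_option autoImplicit false

/-!
# Neighbours of the local curve in a closed curve

Collar lemma for a closed curve which consists of the arc `cuf u '' [0, T]` of the stable curve of a regular state `u` and of
a connected set `A` which joins its ends: some other point of the closed curve is very close to the local curve.
-/

namespace Pool.Agent.HG

open Pool.Agent.HD Set

private theorem nb_conn {P : ℝ → E2} (hc : Continuous P) (hi : Function.Injective P) {T u0 : ℝ}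
    {A : Set E2} (h0 : 0 < u0) (h1 : u0 < T) (hA : IsPreconnected A) (hA0 : P 0 ∈ A)
    (hAT : P T ∈ A) (hAu : P u0 ∉ A) : IsPreconnected ((P '' Icc 0 T ∪ A) \ {P u0}) := by
  have hE : (P '' Icc 0 T ∪ A) \ {P u0} = (P '' Ico 0 u0 ∪ A) ∪ P '' Ioc u0 T := by
    ext z
    simp only [mem_sdiff, mem_union, mem_image, mem_Icc, mem_Ico, mem_Ioc, mem_singleton_iff]
    constructor
    · rintro ⟨h | h, hz⟩
      · obtain ⟨t, ⟨ht0, ht1⟩, rfl⟩ := h
        rcases lt_trichotomy t u0 with h2 | h2 | h2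
        · exact Or.inl (Or.inl ⟨t, ⟨ht0, h2⟩, rfl⟩)
        · exact absurd (congrArg P h2) hz
        · exact Or.inr ⟨t, ⟨h2, ht1⟩, rfl⟩
      · exact Or.inl (Or.inr h)
    · rintro ((⟨t, ⟨ht0, ht1⟩, rfl⟩ | h) | ⟨t, ⟨ht0, ht1⟩, rfl⟩)
      · exact ⟨Or.inl ⟨t, ⟨ht0, by linarith⟩, rfl⟩, fun h3 => ht1.ne (hi h3)⟩
      · exact ⟨Or.inr h, fun h3 => hAu (h3 ▸ h)⟩
      · exact ⟨Or.inl ⟨t, ⟨by linarith, ht1⟩, rfl⟩, fun h3 => ht0.ne' (hi h3)⟩
  rw [hE]
  have c1 : IsPreconnected (P '' Ico 0 u0) := isPreconnected_Ico.image P hc.continuousOn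
  have c2 : IsPreconnected (P '' Ioc u0 T) := isPreconnected_Ioc.image P hc.continuousOn
  refine IsPreconnected.union (P T) ?_ ?_ (IsPreconnected.union (P 0) ?_ hA0 c1 hA) c2
  · exact Or.inr hAT
  · exact ⟨T, ⟨h1, le_refl T⟩, rfl⟩
  · exact ⟨0, ⟨le_refl 0, h0⟩, rfl⟩

theorem nbr {b c : ℝ} (hb0 : b ≠ 0) (hb1 : |b| < 1) (C : ℝ) : ∃ h1 : ℝ, 0 < h1 ∧
    ∀ h : ℝ, 0 < h → h ≤ h1 → ∀ M : ℝ, ∃ E : ℝ, 0 < E ∧ ∀ (k : ℕ) (u : E2 × E2), RS b c C u →
      ∀ (T : ℝ) (A : Set E2), h ≤ T → IsCompact A → IsPreconnected A → cuf b c u 0 ∈ A →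
        cuf b c u T ∈ A →
        (∀ z ∈ cuf b c u '' Icc 0 T ∪ A, ‖(Gi 1 b c)^[k] z‖ ≤ M) →
        ∃ σ β : ℝ, h / 4 < σ ∧ σ < h / 2 ∧ |β| ≤ E * |b| ^ k ∧
          (cuf b c u σ + β • nv u.2 ∈ A ∨
            ∃ t : ℝ, h < t ∧ t ≤ T ∧ cuf b c u t = cuf b c u σ + β • nv u.2) := by
  obtain ⟨ha, ha0, hlc⟩ := lc (c := c) hb0 hb1 C
  obtain ⟨hb, hbp, hle⟩ := lc_eq (c := c) hb0 hb1 C
  refine ⟨min ha hb, lt_min ha0 hbp, ?_⟩
  intro h hh hh1 M
  have hha : h ≤ ha := hh1.trans (min_le_left _ _)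
  have hhb : h ≤ hb := hh1.trans (min_le_right _ _)
  refine ⟨64 * M ^ 2 / h + 1, by positivity, ?_⟩
  intro k u hu T A hT hAc hAp hA0 hAT hM
  obtain ⟨hPc, hPi, -⟩ := cuf_curve hb0 hb1 hu
  have hS := cuf_spec hb0 hb1 hu
  have hbk : 0 < |b| ^ k := pow_pos (abs_pos.2 hb0) k
  have hE : 0 < 64 * M ^ 2 / h + 1 := by positivity
  by_contra hcon
  have hno : ∀ σ β : ℝ, h / 4 < σ → σ < h / 2 → |β| ≤ (64 * M ^ 2 / h + 1) * |b| ^ k →
      cuf b c u σ + β • nv u.2 ∉ A ∧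
      ∀ t : ℝ, h < t → t ≤ T → cuf b c u t ≠ cuf b c u σ + β • nv u.2 := by
    intro σ β h1 h2 h3
    refine ⟨fun h4 => hcon ⟨σ, β, h1, h2, h3, Or.inl h4⟩, fun t h4 h5 h6 => ?_⟩
    exact hcon ⟨σ, β, h1, h2, h3, Or.inr ⟨t, h4, h5, h6⟩⟩
  clear hcon
  have hYc : IsCompact (cuf b c u '' Icc 0 T ∪ A) := (isCompact_Icc.image hPc).union hAc
  have hY0c : IsCompact ((Gi 1 b c)^[k] '' (cuf b c u '' Icc 0 T ∪ A)) :=
    hYc.image (continuous_Gi_iter 1 b c k)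
  have himg : (G 1 b c)^[k] '' ((Gi 1 b c)^[k] '' (cuf b c u '' Icc 0 T ∪ A)) =
      cuf b c u '' Icc 0 T ∪ A := by
    rw [← image_comp]
    have : (G 1 b c)^[k] ∘ (Gi 1 b c)^[k] = id := funext fun p => G_iter_Gi_iter hb0 k p
    rw [this, image_id]
  have hM0 : ∀ z ∈ (Gi 1 b c)^[k] '' (cuf b c u '' Icc 0 T ∪ A), ‖z‖ ≤ M := by
    rintro z ⟨w, hw, rfl⟩
    exact hM w hw
  have hA38 : cuf b c u (3 * h / 8) ∉ A := by
    have h1 := (hno (3 * h / 8) 0 (by linarith) (by linarith) (by rw [abs_zero]; positivity)).1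
    simpa using h1
  have hnv : nv u.2 ≠ 0 := by
    intro h1
    have h2 := le_norm_nv hu.unit
    rw [h1, norm_zero] at h2
    norm_num at h2
  have key := collar (c := c) hb0 (M := M) (k := k) hY0c hM0 (V := u.2) hu.unit (g := cuf b c u)
    (a1 := h / 4) (a2 := h / 2) (ε := (64 * M ^ 2 / h + 1) * |b| ^ k) (by linarith)
    (by positivity) ?_ ?_ ?_ (u0 := 3 * h / 8) ⟨by linarith, by linarith⟩ ?_
  · have h1 : (64 * M ^ 2 / h + 1) * |b| ^ k * (h / 2 - h / 4) =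
        16 * M ^ 2 * |b| ^ k + |b| ^ k * h / 4 := by
      field_simp
      ring
    rw [h1] at key
    have h2 : 0 < |b| ^ k * h / 4 := by positivity
    linarith
  · intro v hv w hw
    have hv1 : |v| ≤ ha := by
      rw [abs_le]; constructor <;> linarith [hv.1, hv.2]
    have hw1 : |w| ≤ ha := by
      rw [abs_le]; constructor <;> linarith [hw.1, hw.2]
    exact (hlc u hu v w _ _ hv1 hw1 (hS v) (hS w)).1
  · intro v hv
    rw [himg]
    exact Or.inl ⟨v, ⟨by linarith [hv.1], by linarith [hv.2]⟩, rfl⟩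
  · intro v hv β hβ hβ0 hz
    rw [himg] at hz
    obtain ⟨n1, n2⟩ := hno v β hv.1 hv.2 hβ.le
    rcases hz with ⟨t, ⟨ht0, ht1⟩, hz⟩ | hz
    · by_cases hth : t ≤ h
      · have hv1 : |v| ≤ hb := by
          rw [abs_le]; constructor <;> linarith [hv.1, hv.2]
        have ht2 : |t| ≤ hb := by
          rw [abs_le]; constructor <;> linarith
        have h3 : cuf b c u t - cuf b c u v = β • nv u.2 := by
          rw [hz]; abel
        obtain ⟨-, h4⟩ := hle u hu t v β _ _ ht2 hv1 (hS t) (hS v) h3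
        rw [h4, sub_self] at h3
        rcases smul_eq_zero.1 h3.symm with h5 | h5
        · exact hβ0 h5
        · exact hnv h5
      · exact n2 t (not_le.1 hth) ht1 hz
    · exact n1 hz
  · rw [himg]
    exact nb_conn hPc hPi (by linarith) (by linarith) hAp hA0 hAT hA38

end Pool.Agent.HG
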