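import Mathlib

set_option autoImplicit false

/-!
# One-sided density of nonatomic measures on the line

Almost every point of a nonatomic finite measure is approached by mass from both sides: the points `t` with
`μ (Ioo q t) = 0` for a rational `q < t` are covered by countably many null intervals and at most one further point.
-/

namespace Pool.Agent.HG

open MeasureTheory Set

private theorem left_null {μ : Measure ℝ} [NullSingletonClass μ] (q : ℝ) : μ {t | q < t ∧ μ (Ioo q t) = 0} = 0 := by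
  set B : Set ℝ := {t | q < t ∧ μ (Ioo q t) = 0} with hB
  set U : Set ℝ := ⋃ r : ℚ, ⋃ _ : (r : ℝ) ∈ B, Ioo q (r : ℝ) with hU
  have hU0 : μ U = 0 := by
    rw [hU, measure_iUnion_null_iff]
    intro r
    rw [measure_iUnion_null_iff]
    intro hr
    exact hr.2
  have hS : (B \ U).Subsingleton := by
    have key : ∀ t t' : ℝ, t ∈ B \ U → t' ∈ B → ¬ t < t' := by
      intro t t' ht ht' hlt
      obtain ⟨r, hr1, hr2⟩ := exists_rat_btwn hlt
      refine ht.2 ?_
      rw [hU, mem_iUnion]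
      refine ⟨r, ?_⟩
      rw [mem_iUnion]
      refine ⟨⟨ht.1.1.trans hr1, measure_mono_null (Ioo_subset_Ioo_right hr2.le) ht'.2⟩, ht.1.1, hr1⟩
    intro t ht t' ht'
    have h1 := key t t' ht ht'.1
    have h2 := key t' t ht' ht.1
    exact le_antisymm (not_lt.1 h2) (not_lt.1 h1)
  refine measure_mono_null ?_ (measure_union_null hU0 (hS.measure_zero μ))
  intro t ht
  by_cases hu : t ∈ U
  · exact Or.inl hu
  · exact Or.inr ⟨ht, hu⟩

private theorem right_null {μ : Measure ℝ} [NullSingletonClass μ] (q : ℝ) : μ {t | t < q ∧ μ (Ioo t q) = 0} = 0 := by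
  set B : Set ℝ := {t | t < q ∧ μ (Ioo t q) = 0} with hB
  set U : Set ℝ := ⋃ r : ℚ, ⋃ _ : (r : ℝ) ∈ B, Ioo (r : ℝ) q with hU
  have hU0 : μ U = 0 := by
    rw [hU, measure_iUnion_null_iff]
    intro r
    rw [measure_iUnion_null_iff]
    intro hr
    exact hr.2
  have hS : (B \ U).Subsingleton := by
    have key : ∀ t t' : ℝ, t ∈ B \ U → t' ∈ B → ¬ t' < t := by
      intro t t' ht ht' hlt
      obtain ⟨r, hr1, hr2⟩ := exists_rat_btwn hlt
      refine ht.2 ?_
      rw [hU, mem_iUnion]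
      refine ⟨r, ?_⟩
      rw [mem_iUnion]
      refine ⟨⟨hr2.trans ht.1.1, measure_mono_null (Ioo_subset_Ioo_left hr1.le) ht'.2⟩, hr2, ht.1.1⟩
    intro t ht t' ht'
    have h1 := key t t' ht ht'.1
    have h2 := key t' t ht' ht.1
    exact le_antisymm (not_lt.1 h1) (not_lt.1 h2)
  refine measure_mono_null ?_ (measure_union_null hU0 (hS.measure_zero μ))
  intro t ht
  by_cases hu : t ∈ U
  · exact Or.inl hu
  · exact Or.inr ⟨ht, hu⟩

theorem one_side {μ : Measure ℝ} [IsFiniteMeasure μ] (h : ∀ t, μ {t} = 0) :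
    ∀ᵐ t ∂μ, ∀ ε : ℝ, 0 < ε → 0 < μ (Ioo (t - ε) t) ∧ 0 < μ (Ioo t (t + ε)) := by
  have hN : NullSingletonClass μ := ⟨h⟩
  have h1 : ∀ᵐ t ∂μ, ∀ q : ℚ, ¬ ((q : ℝ) < t ∧ μ (Ioo (q : ℝ) t) = 0) := by
    rw [ae_all_iff]
    intro q
    rw [ae_iff]
    simp only [not_not]
    exact left_null (q : ℝ)
  have h2 : ∀ᵐ t ∂μ, ∀ q : ℚ, ¬ (t < (q : ℝ) ∧ μ (Ioo t (q : ℝ)) = 0) := by
    rw [ae_all_iff]
    intro q
    rw [ae_iff]
    simp only [not_not]
    exact right_null (q : ℝ)
  filter_upwards [h1, h2] with t ht1 ht2 ε hε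
  constructor
  · rw [pos_iff_ne_zero]
    intro h0
    obtain ⟨r, hr1, hr2⟩ := exists_rat_btwn (sub_lt_self t hε)
    exact ht1 r ⟨hr2, measure_mono_null (Ioo_subset_Ioo_left hr1.le) h0⟩
  · rw [pos_iff_ne_zero]
    intro h0
    obtain ⟨r, hr1, hr2⟩ := exists_rat_btwn (lt_add_of_pos_right t hε)
    exact ht2 r ⟨hr1, measure_mono_null (Ioo_subset_Ioo_right hr2.le) h0⟩

end Pool.Agent.HG
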