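import Pool.Agent.HG.Wl
import Pool.Agent.HG.Fr

set_option autoImplicit false

/-!
# Points of the stable curve which are close to the local curve are on the local curve

The point `q` of the stable curve of `s` is in the local curve at time `n` (`lam n |t| ≤ h0`) and its transversal distance
`|β|` to the point `p` of the local curve at time `0` is much smaller than `exp (-9 δ n)`: then `q = p`. Proof: `wl` (lower bound
for the transversal distance at time `n`) against `fc`, `lc` and `lq` at the state `sn b c s n`.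
-/

namespace Pool.Agent.HG

open Pool.Agent.HD

variable {b c : ℝ}

theorem tf (hb0 : b ≠ 0) (hb1 : |b| < 1) (C : ℝ) : ∃ (h0 c0 : ℝ) (k0 : ℕ), 0 < h0 ∧ 0 < c0 ∧
    ∀ s : E2 × E2, RS b c C s → ∀ n : ℕ, k0 ≤ n → RS b c C (sn b c s n) →
      ∀ (t σ β : ℝ) (q p : E2), Cu b c s t q → Cu b c s σ p → |σ| ≤ h0 →
        lam b c s n * |t| ≤ h0 → q - p = β • nv s.2 → |β| * Real.exp (9 * dl b * n) ≤ c0 →
        q = p := by
  have hδ := dl_pos hb0 hb1
  have hle := dl_le hb0 hb1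
  obtain ⟨hw, cw, hw0, cw0, hwl⟩ := wl (c := c) hb0 hb1 C
  obtain ⟨hf, cf, hf0, cf0, hfc⟩ := fc (c := c) hb0 hb1 C
  obtain ⟨hl, hl0, hlc⟩ := lc (c := c) hb0 hb1 C
  obtain ⟨hq, K, hq0, hK0, hlq⟩ := lq (a := 1) (c := c) hb0 hδ hle (|c| + 4) C
  obtain ⟨C1, hC1⟩ : ∃ C1, C1 = max C 1 := ⟨_, rfl⟩
  have hC11 : 1 ≤ C1 := by
    rw [hC1]
    exact le_max_right _ _
  have hC10 : 0 < C1 := by linarith
  obtain ⟨h0, hh0⟩ : ∃ h0, h0 = min (min hw hf) (min (hl / C1) (min (hq / (2 * C1))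
    (1 / (128 * C1 ^ 3 * K)))) := ⟨_, rfl⟩
  obtain ⟨c0, hc0⟩ : ∃ c0, c0 = min (min cw cf) (min (hq / (16 * C1)) (1 / (1024 * C1 ^ 3 * K))) :=
    ⟨_, rfl⟩
  have h0w : h0 ≤ hw := by
    rw [hh0]
    exact (min_le_left _ _).trans (min_le_left _ _)
  have h0f : h0 ≤ hf := by
    rw [hh0]
    exact (min_le_left _ _).trans (min_le_right _ _)
  have h0l : h0 ≤ hl / C1 := by
    rw [hh0]
    exact (min_le_right _ _).trans (min_le_left _ _)
  have h0q : h0 ≤ hq / (2 * C1) := by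
    rw [hh0]
    exact (min_le_right _ _).trans ((min_le_right _ _).trans (min_le_left _ _))
  have h0K : h0 ≤ 1 / (128 * C1 ^ 3 * K) := by
    rw [hh0]
    exact (min_le_right _ _).trans ((min_le_right _ _).trans (min_le_right _ _))
  have h0pos : 0 < h0 := by
    rw [hh0]
    exact lt_min (lt_min hw0 hf0) (lt_min (by positivity) (lt_min (by positivity) (by positivity)))
  have c0w : c0 ≤ cw := by
    rw [hc0]
    exact (min_le_left _ _).trans (min_le_left _ _)
  have c0f : c0 ≤ cf := by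
    rw [hc0]
    exact (min_le_left _ _).trans (min_le_right _ _)
  have c0q : c0 ≤ hq / (16 * C1) := by
    rw [hc0]
    exact (min_le_right _ _).trans (min_le_left _ _)
  have c0K : c0 ≤ 1 / (1024 * C1 ^ 3 * K) := by
    rw [hc0]
    exact (min_le_right _ _).trans (min_le_right _ _)
  have c0pos : 0 < c0 := by
    rw [hc0]
    exact lt_min (lt_min cw0 cf0) (lt_min (by positivity) (by positivity))
  refine ⟨h0, c0, 0, h0pos, c0pos, ?_⟩
  intro s hs n _ hsn t σ β q p hcq hcp hσ ht hqp hβ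
  by_contra hne
  have hV : ‖s.2‖ = 1 := hs.unit
  have hCge : 1 ≤ C := Reg.one_le hs
  have hCC : C1 = C := by
    rw [hC1]
    exact max_eq_left hCge
  rw [hCC] at h0l h0q h0K c0q c0K hC10 hC11
  have hβ0 : β ≠ 0 := by
    rintro rfl
    rw [zero_smul] at hqp
    exact hne (sub_eq_zero.1 hqp)
  have hβp : 0 < |β| := abs_pos.2 hβ0
  have hn0 : (0 : ℝ) ≤ n := Nat.cast_nonneg n
  have hδn : 0 ≤ dl b * n := mul_nonneg hδ.le hn0
  -- exponentials
  have e9 : ∀ k : ℝ, k ≤ 9 → |β| * Real.exp (k * (dl b * n)) ≤ c0 := by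
    intro k hk
    refine le_trans (mul_le_mul_of_nonneg_left (Real.exp_le_exp.2 ?_) hβp.le) hβ
    nlinarith
  obtain ⟨W, hW⟩ : ∃ W, W = (G 1 b c)^[n] q - (G 1 b c)^[n] p := ⟨_, rfl⟩
  obtain ⟨u, hu⟩ : ∃ u, u = (sn b c s n).2 := ⟨_, rfl⟩
  obtain ⟨L, hL⟩ : ∃ L, L = lam b c s n := ⟨_, rfl⟩
  have hLpos : 0 < L := by
    rw [hL]
    exact lam_pos hb0 hV n
  have hLle : L ≤ C * Real.exp (-(el b - 3 * dl b) * n) := by
    rw [hL]
    exact lam_le hs n
  have hLC : L ≤ C := by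
    refine hLle.trans (mul_le_of_le_one_right hC10.le (Real.exp_le_one_iff.2 ?_))
    rw [el_eq]
    nlinarith
  have huu : ‖u‖ = 1 := by
    rw [hu]
    exact sn_unit hb0 hV n
  -- (1)
  have h1 : |b| ^ n * |β| ≤ 2 * (L * |wd u W|) := by
    have h2 := (hwl s hs σ p (hσ.trans h0w) hcp q β n hqp (by
      have := (e9 5 (by norm_num)).trans c0w
      rwa [← mul_assoc] at this)).1
    rw [vn_eq hb0 hV n, ← hW, ← hu, ← hL, wd_smul_left, abs_mul, abs_of_pos hLpos] at h2
    exact h2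
  -- (2)
  have hqpn : ‖q - p‖ ≤ |β| := by
    rw [hqp, norm_smul, Real.norm_eq_abs]
    exact mul_le_of_le_one_right hβp.le (norm_nv_le hV)
  have h2 : ‖W‖ ≤ 4 * C * Real.exp (dl b * n) * |β| := by
    have h3 := hfc s hs σ p (hσ.trans h0f) hcp q n (by
      have h4 := (e9 2 (by norm_num)).trans c0f
      rw [← mul_assoc 2] at h4
      exact (mul_le_mul_of_nonneg_right hqpn (Real.exp_pos _).le).trans h4)
    rw [← hW] at h3
    exact h3.trans (mul_le_mul_of_nonneg_left hqpn (by positivity))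
  -- (3)
  have k1 : Cu b c (sn b c s n) (L * t) ((G 1 b c)^[n] q) := by
    rw [hL]
    exact cu_shift hb0 hb1 hV hcq n
  have k2 : Cu b c (sn b c s n) (L * σ) ((G 1 b c)^[n] p) := by
    rw [hL]
    exact cu_shift hb0 hb1 hV hcp n
  have ht' : |L * t| ≤ h0 := by
    rw [abs_mul, abs_of_pos hLpos, hL]
    exact ht
  have hσ' : |L * σ| ≤ L * h0 := by
    rw [abs_mul, abs_of_pos hLpos]
    exact mul_le_mul_of_nonneg_left hσ hLpos.le
  have hLh : L * h0 ≤ C * h0 := mul_le_mul_of_nonneg_right hLC h0pos.le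
  have hCl : C * h0 ≤ hl := by
    have := mul_le_mul_of_nonneg_left h0l hC10.le
    rwa [mul_div_cancel₀ _ hC10.ne'] at this
  have hCq : C * h0 ≤ hq / 2 := by
    have := mul_le_mul_of_nonneg_left h0q hC10.le
    refine this.trans (le_of_eq ?_)
    field_simp
  have h0C : h0 ≤ C * h0 := le_mul_of_one_le_left h0pos.le hC11
  -- (4)
  have h4 : |L * t - L * σ| ≤ 2 * ‖W‖ := by
    have := (hlc _ hsn (L * t) (L * σ) _ _ (ht'.trans (h0C.trans hCl))
      (hσ'.trans (hLh.trans hCl)) k1 k2).2.2.1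
    rwa [← hW] at this
  -- (5)
  obtain ⟨m, hm⟩ : ∃ m, m = L * h0 + 8 * C * Real.exp (dl b * n) * |β| := ⟨_, rfl⟩
  have hW2 : 2 * ‖W‖ ≤ 8 * C * Real.exp (dl b * n) * |β| := by
    linarith
  have h8 : 8 * C * Real.exp (dl b * n) * |β| ≤ hq / 2 := by
    have h9 := (e9 1 (by norm_num)).trans c0q
    rw [one_mul] at h9
    have h10 := mul_le_mul_of_nonneg_left h9 (show 0 ≤ 8 * C by linarith)
    calc 8 * C * Real.exp (dl b * n) * |β| = 8 * C * (|β| * Real.exp (dl b * n)) := by ring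
      _ ≤ 8 * C * (hq / (16 * C)) := h10
      _ = hq / 2 := by
          field_simp
          ring
  have hmq : m ≤ hq := by
    rw [hm]
    linarith
  have hm1 : |L * t| ≤ m := by
    have h9 : |L * t| ≤ |L * t - L * σ| + |L * σ| := by
      have := abs_add_le (L * t - L * σ) (L * σ)
      rwa [sub_add_cancel] at this
    rw [hm]
    linarith
  have hm2 : |L * σ| ≤ m := by
    rw [hm]
    have : 0 ≤ 8 * C * Real.exp (dl b * n) * |β| := by positivity
    linarith
  have hm0 : 0 ≤ m := (abs_nonneg _).trans hm1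
  -- (6)
  have h6 : ‖W - (L * t - L * σ) • u‖ ≤ K * m * |L * t - L * σ| := by
    have := (hlq _ _ hsn m (L * t) (L * σ) _ _ hmq hm1 hm2 k1 k2).1
    rwa [← hW, ← hu] at this
  -- (7)
  have h7 : |wd u W| ≤ 4 * K * m * ‖W‖ := by
    have h8 : wd u W = wd u (W - (L * t - L * σ) • u) := by
      rw [wd_sub_right, wd_smul_right, wd_self, mul_zero, sub_zero]
    rw [h8]
    have h9 := abs_wd_le u (W - (L * t - L * σ) • u)
    rw [huu, mul_one] at h9
    have h10 : K * m * |L * t - L * σ| ≤ K * m * (2 * ‖W‖) :=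
      mul_le_mul_of_nonneg_left h4 (by positivity)
    calc |wd u (W - (L * t - L * σ) • u)| ≤ 2 * ‖W - (L * t - L * σ) • u‖ := h9
      _ ≤ 2 * (K * m * (2 * ‖W‖)) := by linarith
      _ = 4 * K * m * ‖W‖ := by ring
  -- (8)
  obtain ⟨E, hE⟩ : ∃ E, E = Real.exp (dl b * n) := ⟨_, rfl⟩
  have hE1 : 1 ≤ E := by
    rw [hE]
    exact Real.one_le_exp hδn
  have hEpow : ∀ k : ℕ, Real.exp ((k : ℝ) * (dl b * n)) = E ^ k := by
    intro k
    rw [hE, ← Real.exp_nat_mul]
  rw [← hE] at h2 hm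
  have hbn : 0 < |b| ^ n := pow_pos (abs_pos.2 hb0) n
  have hLb : L ≤ C * (E ^ 3 * |b| ^ n) := by
    refine hLle.trans (le_of_eq ?_)
    rw [pow_eq hb0, ← hEpow 3, ← Real.exp_add]
    congr 2
    push_cast
    ring
  have h9 : |b| ^ n * |β| ≤ 32 * C ^ 2 * K * E ^ 4 * m * |b| ^ n * |β| := by
    calc |b| ^ n * |β| ≤ 2 * (L * |wd u W|) := h1
      _ ≤ 2 * (L * (4 * K * m * ‖W‖)) := by
          have := mul_le_mul_of_nonneg_left h7 hLpos.le
          linarith
      _ = (8 * K * m) * (L * ‖W‖) := by ring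
      _ ≤ (8 * K * m) * ((C * (E ^ 3 * |b| ^ n)) * (4 * C * E * |β|)) := by
          refine mul_le_mul_of_nonneg_left ?_ (by positivity)
          exact mul_le_mul hLb h2 (norm_nonneg _) (by positivity)
      _ = 32 * C ^ 2 * K * E ^ 4 * m * |b| ^ n * |β| := by ring
  have h10 : 1 ≤ 32 * C ^ 2 * K * E ^ 4 * m := by
    have h11 : 0 < |b| ^ n * |β| := mul_pos hbn hβp
    have h12 : 1 * (|b| ^ n * |β|) ≤ (32 * C ^ 2 * K * E ^ 4 * m) * (|b| ^ n * |β|) := by
      rw [one_mul]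
      linarith
    exact le_of_mul_le_mul_right h12 h11
  have h11 : E ^ 4 * L ≤ C := by
    have h12 : E ^ 7 * |b| ^ n ≤ 1 := by
      rw [pow_eq hb0, ← hEpow 7, ← Real.exp_add]
      refine Real.exp_le_one_iff.2 ?_
      rw [el_eq]
      push_cast
      nlinarith
    calc E ^ 4 * L ≤ E ^ 4 * (C * (E ^ 3 * |b| ^ n)) :=
          mul_le_mul_of_nonneg_left hLb (by positivity)
      _ = C * (E ^ 7 * |b| ^ n) := by ring
      _ ≤ C * 1 := mul_le_mul_of_nonneg_left h12 hC10.le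
      _ = C := mul_one C
  have h12 : 128 * C ^ 3 * K * h0 ≤ 1 := by
    have := mul_le_mul_of_nonneg_left h0K (show 0 ≤ 128 * C ^ 3 * K by positivity)
    refine this.trans (le_of_eq ?_)
    field_simp
  have h13 : 1024 * C ^ 3 * K * (|β| * E ^ 5) ≤ 1 := by
    have h14 := (e9 5 (by norm_num)).trans c0K
    have h15 : Real.exp (5 * (dl b * n)) = E ^ 5 := by
      have := hEpow 5
      push_cast at this
      exact this
    rw [h15] at h14
    have := mul_le_mul_of_nonneg_left h14 (show 0 ≤ 1024 * C ^ 3 * K by positivity)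
    refine this.trans (le_of_eq ?_)
    field_simp
  have h16 : 32 * C ^ 2 * K * E ^ 4 * m ≤ 1 / 2 := by
    calc 32 * C ^ 2 * K * E ^ 4 * m
        = 32 * C ^ 2 * K * h0 * (E ^ 4 * L) + 256 * C ^ 3 * K * (|β| * E ^ 5) := by
          rw [hm]
          ring
      _ ≤ 32 * C ^ 2 * K * h0 * C + 256 * C ^ 3 * K * (|β| * E ^ 5) := by
          have := mul_le_mul_of_nonneg_left h11 (show 0 ≤ 32 * C ^ 2 * K * h0 by positivity)
          linarith
      _ = (128 * C ^ 3 * K * h0) / 4 + (1024 * C ^ 3 * K * (|β| * E ^ 5)) / 4 := by ring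
      _ ≤ 1 / 2 := by linarith
  linarith

end Pool.Agent.HG
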