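import Pool.Agent.HG.Nb
import Pool.Agent.HG.Tf
import Pool.Agent.HG.Lm

set_option autoImplicit false

/-!
# Non-recurrence, one step

If the point `γ T` of the branch is (after `i` steps) nonlocal and exponentially close to the base
point, then there is a point `γ T'`, `T' ≤ T`, which is nonlocal and close to the base point at all
good times `i + k + n`, `k / 2 ≤ n ≤ 2 k`.
-/

namespace Pool.Agent.HG

open Pool.Agent.HD Set

private theorem exp_small {δ η : ℝ} (hδ : 0 < δ) (hη : 0 < η) :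
    ∃ k1 : ℕ, ∀ k : ℕ, k1 ≤ k → Real.exp (-(δ * k)) ≤ η := by
  obtain ⟨k1, hk1⟩ := exists_nat_ge (-Real.log η / δ)
  refine ⟨k1, fun k hk => ?_⟩
  rw [← Real.le_log_iff_exp_le hη]
  have h1 : (k1 : ℝ) ≤ k := Nat.cast_le.2 hk
  have h2 : -Real.log η / δ ≤ k := hk1.trans h1
  rw [div_le_iff₀ hδ] at h2
  linarith

private theorem tr {b c : ℝ} (hb0 : b ≠ 0) (hb1 : |b| < 1) {C0 C : ℝ} {s : E2 × E2}
    (h0 : RS b c C0 s) {j : ℕ} (hj : RS b c C (sn b c s j)) (t : ℝ) :
    (G 1 b c)^[j] (cuf b c s t) = cuf b c (sn b c s j) (lam b c s j * t) :=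
  cuf_eq hb0 hb1 hj (cu_shift hb0 hb1 h0.unit (cuf_spec hb0 hb1 h0 t) j)

private theorem eta {hf ht ct h cg C E : ℝ} (h1 : 0 < hf) (h2 : 0 < ht) (h3 : 0 < ct) (h4 : 0 < h)
    (h5 : 0 < cg) (h6 : 0 < E) : ∃ η : ℝ, 0 < η ∧ η ≤ hf ∧ 4 * η ≤ ht ∧ 20 * η ≤ ct ∧ 4 * η < h ∧
      η ≤ cg ∧ 4 * |C| * η + E * η < h / 8 ∧ E * η ≤ ct ∧ E * η ≤ cg ∧
      4 * |C| * E * η + |C| * h * η ≤ 1 := by
  obtain ⟨m, hm⟩ : ∃ m, m = min (min hf ht) (min (min ct h) (min cg 1)) := ⟨_, rfl⟩
  have m1 : m ≤ hf := hm.le.trans ((min_le_left _ _).trans (min_le_left _ _))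
  have m2 : m ≤ ht := hm.le.trans ((min_le_left _ _).trans (min_le_right _ _))
  have m3 : m ≤ ct := hm.le.trans ((min_le_right _ _).trans ((min_le_left _ _).trans
    (min_le_left _ _)))
  have m4 : m ≤ h := hm.le.trans ((min_le_right _ _).trans ((min_le_left _ _).trans
    (min_le_right _ _)))
  have m5 : m ≤ cg := hm.le.trans ((min_le_right _ _).trans ((min_le_right _ _).trans
    (min_le_left _ _)))
  have m6 : m ≤ 1 := hm.le.trans ((min_le_right _ _).trans ((min_le_right _ _).trans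
    (min_le_right _ _)))
  have m0 : 0 < m := by
    rw [hm]
    exact lt_min (lt_min h1 h2) (lt_min (lt_min h3 h4) (lt_min h5 one_pos))
  have hC : 0 ≤ |C| := abs_nonneg C
  obtain ⟨P, hP⟩ : ∃ P, P = (|C| + 1) * (E + 1) * (h + 1) := ⟨_, rfl⟩
  have p0 : 0 < P := by rw [hP]; positivity
  have q1 : 0 ≤ |C| * E := mul_nonneg hC h6.le
  have q2 : 0 ≤ |C| * h := mul_nonneg hC h4.le
  have q3 : 0 ≤ E * h := mul_nonneg h6.le h4.le
  have q4 : 0 ≤ |C| * E * h := mul_nonneg q1 h4.le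
  have hP' : P = |C| * E * h + |C| * E + |C| * h + |C| + E * h + E + h + 1 := by
    rw [hP]; ring
  have p1 : 1 ≤ P := by rw [hP']; linarith
  have p2 : |C| ≤ P := by rw [hP']; linarith
  have p3 : E ≤ P := by rw [hP']; linarith
  have p4 : |C| * E ≤ P := by rw [hP']; linarith
  have p5 : |C| * h ≤ P := by rw [hP']; linarith
  obtain ⟨η, hη⟩ : ∃ η, η = m / (64 * P) := ⟨_, rfl⟩
  have e0 : 0 < η := by rw [hη]; positivity
  have e1 : 64 * (η * P) = m := by
    rw [hη]; field_simp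
  have r : ∀ x, x ≤ P → 64 * (η * x) ≤ m := fun x hx => by
    rw [← e1]
    exact mul_le_mul_of_nonneg_left (mul_le_mul_of_nonneg_left hx e0.le) (by norm_num)
  have r1 := r 1 p1
  have r2 := r _ p2
  have r3 := r _ p3
  have r4 := r _ p4
  have r5 := r _ p5
  have s2 : |C| * η = η * |C| := mul_comm _ _
  refine ⟨η, e0, by linarith, by linarith, by linarith, by linarith, by linarith, ?_, ?_, ?_, ?_⟩
  · have t1 : 4 * |C| * η + E * η = 4 * (η * |C|) + η * E := by ring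
    rw [t1]; linarith
  · rw [mul_comm]; linarith
  · rw [mul_comm]; linarith
  · have t1 : 4 * |C| * E * η + |C| * h * η = 4 * (η * (|C| * E)) + η * (|C| * h) := by ring
    rw [t1]; linarith

private theorem core {b c : ℝ} (hb0 : b ≠ 0) (hb1 : |b| < 1) (C : ℝ) : ∃ h1 : ℝ, 0 < h1 ∧
    ∀ h : ℝ, 0 < h → h ≤ h1 → ∃ k0 : ℕ, ∀ v ∈ GS b c, ∀ (k : ℕ) (τ : ℝ), k0 ≤ k →
      RS b c C v → RS b c C (sn b c v k) → h ≤ τ →
      ‖cuf b c v τ - v.1‖ * Real.exp (10 * dl b * k) ≤ 1 →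
      ∃ τ' : ℝ, τ' ≤ τ ∧ ∀ n : ℕ, k ≤ 2 * n → n ≤ 2 * k → RS b c C (sn b c v (k + n)) →
        h ≤ lam b c v (k + n) * τ' ∧
        ‖(G 1 b c)^[k + n] (cuf b c v τ') - (G 1 b c)^[k + n] v.1‖ *
          Real.exp (40 * dl b * k) ≤ 1 := by
  obtain ⟨ha, ha0, Ha⟩ := lc (c := c) hb0 hb1 C
  obtain ⟨hf, hf0, Hf⟩ := foot (c := c) hb0 hb1 C
  obtain ⟨hg, cg, hg0, cg0, Hg⟩ := fc (c := c) hb0 hb1 C
  obtain ⟨ht, ct, kt, ht0, ct0, Ht⟩ := tf (c := c) hb0 hb1 C
  obtain ⟨hn, hn0, Hn⟩ := nbr (c := c) hb0 hb1 C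
  refine ⟨min (min ha hf) (min hg (min ht hn)),
    lt_min (lt_min ha0 hf0) (lt_min hg0 (lt_min ht0 hn0)), fun h h0 hh => ?_⟩
  have hha : h ≤ ha := hh.trans ((min_le_left _ _).trans (min_le_left _ _))
  have hhg : h ≤ hg := hh.trans ((min_le_right _ _).trans (min_le_left _ _))
  have hht : h ≤ ht := hh.trans ((min_le_right _ _).trans ((min_le_right _ _).trans
    (min_le_left _ _)))
  have hhn : h ≤ hn := hh.trans ((min_le_right _ _).trans ((min_le_right _ _).trans
    (min_le_right _ _)))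
  obtain ⟨E, hE, HE⟩ := Hn h h0 hhn (|c| + 4)
  obtain ⟨η, hη, n1, n2, n3, n4, n5, n6, n7, n8, n9⟩ :=
    eta (C := C) hf0 ht0 ct0 h0 cg0 hE
  have hδ := dl_pos hb0 hb1
  obtain ⟨k1, hk1⟩ := exp_small hδ hη
  refine ⟨max k1 (2 * kt), fun v hv k τ hk hRv hRu hτ hD => ?_⟩
  have hkk1 : k1 ≤ k := (le_max_left _ _).trans hk
  have hkk2 : 2 * kt ≤ k := (le_max_right _ _).trans hk
  have hC1 : 1 ≤ C := Reg.one_le hRv
  have hCabs : |C| = C := abs_of_nonneg (by linarith)
  rw [hCabs] at n6 n9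
  obtain ⟨X, hX⟩ : ∃ X, X = dl b * k := ⟨_, rfl⟩
  have hX0 : 0 ≤ X := by rw [hX]; positivity
  have he1 : Real.exp (-X) ≤ η := by
    rw [hX]; exact hk1 k hkk1
  have hea : ∀ a : ℝ, 1 ≤ a → Real.exp (-(a * X)) ≤ η := fun a ha' =>
    (Real.exp_le_exp.2 (by nlinarith)).trans he1
  have hbk : |b| ^ k = Real.exp (-(1000 * X)) := by
    rw [pow_eq hb0, el_eq, hX]; ring_nf
  obtain ⟨w, hw⟩ : ∃ w, w = cuf b c v τ := ⟨_, rfl⟩
  rw [← hw] at hD
  have hD1 : ‖w - v.1‖ ≤ Real.exp (-(10 * X)) := by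
    rw [Real.exp_neg, ← one_div, le_div_iff₀ (Real.exp_pos _)]
    have : 10 * X = 10 * dl b * k := by rw [hX]; ring
    rw [this]; exact hD
  have hD2 : ‖w - v.1‖ ≤ η := hD1.trans (hea 10 (by norm_num))
  have hv1 : ‖v.2‖ = 1 := hRv.unit
  have hτ0 : 0 < τ := lt_of_lt_of_le h0 hτ
  obtain ⟨hcv1, hcv2, hcv3⟩ := cuf_curve hb0 hb1 hRv
  have hCu0 : Cu b c v 0 v.1 := by
    have := cuf_spec hb0 hb1 hRv 0
    rwa [hcv3] at this
  have hlk := lam_pos (b := b) (c := c) hb0 hv1 k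
  -- step 1
  have hTu : h < lam b c v k * τ := by
    by_contra hcon
    rw [not_lt] at hcon
    obtain ⟨σ', p', β, g1, g2, g3, g4⟩ := Hf v hRv 0 v.1 w (by rw [abs_zero]; exact hf0.le) hCu0
      (hD2.trans n1)
    rw [sub_zero] at g1
    have hCw : Cu b c v τ w := by
      rw [hw]; exact cuf_spec hb0 hb1 hRv τ
    have g5 : w = p' := by
      refine Ht v hRv k (by omega) hRu τ σ' β w p' hCw g2 ?_ ?_ g3 ?_
      · linarith
      · rw [abs_of_pos hτ0]; exact hcon.trans hht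
      · have g6 : Real.exp (9 * dl b * k) = Real.exp (9 * X) := by rw [hX]; ring_nf
        rw [g6]
        calc |β| * Real.exp (9 * X) ≤ 20 * Real.exp (-(10 * X)) * Real.exp (9 * X) := by
              refine mul_le_mul_of_nonneg_right ?_ (Real.exp_pos _).le
              linarith
          _ = 20 * Real.exp (-X) := by
              rw [mul_assoc, ← Real.exp_add]; ring_nf
          _ ≤ 20 * η := by linarith
          _ ≤ ct := n3
    have g7 : cuf b c v τ = cuf b c v σ' := by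
      rw [← hw, g5]; exact cuf_eq hb0 hb1 hRv g2
    have g8 := hcv2 g7
    have g9 : τ ≤ |σ'| := by rw [g8]; exact le_abs_self _
    linarith
  -- step 2
  obtain ⟨u, hu⟩ : ∃ u, u = sn b c v k := ⟨_, rfl⟩
  rw [← hu] at hRu
  have hu1 : u.1 = (G 1 b c)^[k] v.1 := by rw [hu]; rfl
  obtain ⟨hcu1, hcu2, hcu3⟩ := cuf_curve hb0 hb1 hRu
  have htr : ∀ t, (G 1 b c)^[k] (cuf b c v t) = cuf b c u (lam b c v k * t) := by
    intro t
    rw [hu] at hRu ⊢
    exact tr hb0 hb1 hRv hRu t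
  obtain ⟨A, hA⟩ : ∃ A : Set E2, A = (fun r : ℝ => (G 1 b c)^[k] ((1 - r) • v.1 + r • w)) ''
    Icc 0 1 := ⟨_, rfl⟩
  have hcont : Continuous fun r : ℝ => (G 1 b c)^[k] ((1 - r) • v.1 + r • w) :=
    (continuous_G_iter 1 b c k).comp (((continuous_const.sub continuous_id).smul
      continuous_const).add (continuous_id.smul continuous_const))
  have hvK : ‖v.1‖ ≤ |c| + 4 := hv.1.1 0
  have hwK : ‖w‖ ≤ |c| + 4 := by
    have h3 : w ∈ KK b c := hv.2.2 ⟨τ, hτ0.le, by rw [hw]; exact cuf_spec hb0 hb1 hRv τ⟩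
    exact h3.1 0
  obtain ⟨σ, β, f1, f2, f3, f4⟩ := HE k u hRu (lam b c v k * τ) A hTu.le
    (by rw [hA]; exact isCompact_Icc.image hcont)
    (by rw [hA]; exact isPreconnected_Icc.image _ hcont.continuousOn)
    (by
      rw [hA, hcu3, hu1]
      exact ⟨0, ⟨le_rfl, zero_le_one⟩, by simp⟩)
    (by
      rw [hA, ← htr, ← hw]
      exact ⟨1, ⟨zero_le_one, le_rfl⟩, by simp⟩)
    (by
      rintro z (⟨t, ht', rfl⟩ | hz)
      · have h3 : cuf b c u t = (G 1 b c)^[k] (cuf b c v (t / lam b c v k)) := by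
          rw [htr, mul_div_cancel₀ t hlk.ne']
        rw [h3, Gi_iter_G_iter hb0]
        have h4 : cuf b c v (t / lam b c v k) ∈ KK b c :=
          hv.2.2 ⟨t / lam b c v k, div_nonneg ht'.1 hlk.le, cuf_spec hb0 hb1 hRv _⟩
        exact h4.1 0
      · rw [hA] at hz
        obtain ⟨r, hr, rfl⟩ := hz
        show ‖(Gi 1 b c)^[k] ((G 1 b c)^[k] ((1 - r) • v.1 + r • w))‖ ≤ |c| + 4
        rw [Gi_iter_G_iter hb0]
        calc ‖(1 - r) • v.1 + r • w‖ ≤ ‖(1 - r) • v.1‖ + ‖r • w‖ := norm_add_le _ _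
          _ = (1 - r) * ‖v.1‖ + r * ‖w‖ := by
              rw [norm_smul, norm_smul, Real.norm_of_nonneg (sub_nonneg.2 hr.2),
                Real.norm_of_nonneg hr.1]
          _ ≤ (1 - r) * (|c| + 4) + r * (|c| + 4) :=
              add_le_add (mul_le_mul_of_nonneg_left hvK (sub_nonneg.2 hr.2))
                (mul_le_mul_of_nonneg_left hwK hr.1)
          _ = |c| + 4 := by ring)
  have hu2 : ‖u.2‖ = 1 := hRu.unit
  rw [hbk] at f3
  have hσ0 : 0 < σ := by linarith
  have hσa : |σ| = σ := abs_of_pos hσ0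
  have hCuσ := cuf_spec hb0 hb1 hRu σ
  have hCu0' : Cu b c u 0 u.1 := by
    have := cuf_spec hb0 hb1 hRu 0
    rwa [hcu3] at this
  have hlcσ := Ha u hRu σ 0 (cuf b c u σ) u.1 (by rw [hσa]; linarith)
    (by rw [abs_zero]; exact ha0.le) hCuσ hCu0'
  rw [sub_zero, hσa] at hlcσ
  have hβN : ‖β • nv u.2‖ ≤ E * Real.exp (-(1000 * X)) := by
    rw [norm_smul, Real.norm_eq_abs]
    calc |β| * ‖nv u.2‖ ≤ |β| * 1 := mul_le_mul_of_nonneg_left (norm_nv_le hu2) (abs_nonneg _)
      _ = |β| := mul_one _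
      _ ≤ _ := f3
  rcases f4 with f4 | ⟨t, t1, t2, t3⟩
  · exfalso
    rw [hA] at f4
    obtain ⟨r, hr, hry⟩ := f4
    have hry' : (G 1 b c)^[k] ((1 - r) • v.1 + r • w) = cuf b c u σ + β • nv u.2 := hry
    have y1 : ‖(1 - r) • v.1 + r • w - v.1‖ ≤ Real.exp (-(10 * X)) := by
      have y2 : (1 - r) • v.1 + r • w - v.1 = r • (w - v.1) := by
        rw [sub_smul, one_smul, smul_sub]; abel
      rw [y2, norm_smul, Real.norm_of_nonneg hr.1]
      calc r * ‖w - v.1‖ ≤ 1 * ‖w - v.1‖ := mul_le_mul_of_nonneg_right hr.2 (norm_nonneg _)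
        _ = ‖w - v.1‖ := one_mul _
        _ ≤ _ := hD1
    have y3 := Hg v hRv 0 v.1 (by rw [abs_zero]; exact hg0.le) hCu0
      ((1 - r) • v.1 + r • w) k (by
        have y4 : Real.exp (2 * dl b * k) = Real.exp (2 * X) := by rw [hX]; ring_nf
        rw [y4]
        calc ‖(1 - r) • v.1 + r • w - v.1‖ * Real.exp (2 * X)
            ≤ Real.exp (-(10 * X)) * Real.exp (2 * X) :=
              mul_le_mul_of_nonneg_right y1 (Real.exp_pos _).le
          _ = Real.exp (-(8 * X)) := by rw [← Real.exp_add]; ring_nf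
          _ ≤ η := hea 8 (by norm_num)
          _ ≤ cg := n5)
    have y5 : ‖(G 1 b c)^[k] ((1 - r) • v.1 + r • w) - (G 1 b c)^[k] v.1‖ ≤ 4 * C * η := by
      refine y3.trans ?_
      have y6 : Real.exp (dl b * k) = Real.exp X := by rw [hX]
      rw [y6]
      calc 4 * C * Real.exp X * ‖(1 - r) • v.1 + r • w - v.1‖
          ≤ 4 * C * Real.exp X * Real.exp (-(10 * X)) :=
            mul_le_mul_of_nonneg_left y1 (by positivity)
        _ = 4 * C * Real.exp (-(9 * X)) := by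
            rw [mul_assoc, ← Real.exp_add]; ring_nf
        _ ≤ 4 * C * η := mul_le_mul_of_nonneg_left (hea 9 (by norm_num)) (by positivity)
    rw [← hu1, hry'] at y5
    have y7 : E * Real.exp (-(1000 * X)) ≤ E * η :=
      mul_le_mul_of_nonneg_left (hea 1000 (by norm_num)) hE.le
    have y8 : ‖cuf b c u σ - u.1‖ ≤ 4 * C * η + E * η := by
      calc ‖cuf b c u σ - u.1‖ = ‖(cuf b c u σ + β • nv u.2 - u.1) - β • nv u.2‖ := by
            congr 1; abel
        _ ≤ ‖cuf b c u σ + β • nv u.2 - u.1‖ + ‖β • nv u.2‖ := norm_sub_le _ _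
        _ ≤ _ := add_le_add y5 (hβN.trans y7)
    have y9 := hlcσ.2.2.1
    linarith
  · have hTt : t / lam b c v k ≤ τ := by
      rw [div_le_iff₀ hlk, mul_comm]; exact t2
    refine ⟨t / lam b c v k, hTt, fun n hn1 hn2 hRn => ?_⟩
    obtain ⟨Xn, hXn⟩ : ∃ Xn, Xn = dl b * n := ⟨_, rfl⟩
    have c1 : (k : ℝ) ≤ 2 * n := by exact_mod_cast hn1
    have c2 : (n : ℝ) ≤ 2 * k := by exact_mod_cast hn2
    have x1 : X ≤ 2 * Xn := by
      rw [hX, hXn]; nlinarith
    have x2 : Xn ≤ 2 * X := by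
      rw [hX, hXn]; nlinarith
    obtain ⟨a1, a2⟩ := sn_add (c := c) hb0 hv1 k n
    rw [← hu] at a1 a2
    rw [← a1] at hRn
    have ht0' : 0 < t := by linarith
    have hqp : cuf b c u t - cuf b c u σ = β • nv u.2 := by
      rw [t3]; abel
    have hlt : lam b c v (k + n) * (t / lam b c v k) = lam b c u n * t := by
      rw [a2]; field_simp
    constructor
    · rw [hlt]
      by_contra hcon
      rw [not_le] at hcon
      have z1 := Ht u hRu n (by omega) hRn t σ β (cuf b c u t) (cuf b c u σ)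
        (cuf_spec hb0 hb1 hRu t) hCuσ (by rw [hσa]; linarith)
        (by rw [abs_of_pos ht0']; linarith) hqp (by
          have z2 : Real.exp (9 * dl b * n) ≤ Real.exp (18 * X) := by
            refine Real.exp_le_exp.2 ?_
            have : 9 * dl b * n = 9 * Xn := by rw [hXn]; ring
            rw [this]; linarith
          calc |β| * Real.exp (9 * dl b * n)
              ≤ (E * Real.exp (-(1000 * X))) * Real.exp (18 * X) :=
                mul_le_mul f3 z2 (Real.exp_pos _).le (by positivity)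
            _ = E * Real.exp (-(982 * X)) := by
                rw [mul_assoc, ← Real.exp_add]; ring_nf
            _ ≤ E * η := mul_le_mul_of_nonneg_left (hea 982 (by norm_num)) hE.le
            _ ≤ ct := n7)
      have z3 := hcu2 z1
      linarith
    · have w1 : (G 1 b c)^[k + n] (cuf b c v (t / lam b c v k)) = (G 1 b c)^[n] (cuf b c u t) := by
        rw [add_comm k n, Function.iterate_add_apply, htr, mul_div_cancel₀ t hlk.ne']
      have w2 : (G 1 b c)^[k + n] v.1 = (G 1 b c)^[n] u.1 := by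
        rw [add_comm k n, Function.iterate_add_apply, ← hu1]
      rw [w1, w2]
      have w3 : ‖cuf b c u t - cuf b c u σ‖ ≤ E * Real.exp (-(1000 * X)) := by
        rw [hqp]; exact hβN
      have w4 := Hg u hRu σ (cuf b c u σ) (by rw [hσa]; linarith) hCuσ (cuf b c u t) n (by
        have z2 : Real.exp (2 * dl b * n) ≤ Real.exp (4 * X) := by
          refine Real.exp_le_exp.2 ?_
          have : 2 * dl b * n = 2 * Xn := by rw [hXn]; ring
          rw [this]; linarith
        calc ‖cuf b c u t - cuf b c u σ‖ * Real.exp (2 * dl b * n)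
            ≤ (E * Real.exp (-(1000 * X))) * Real.exp (4 * X) :=
              mul_le_mul w3 z2 (Real.exp_pos _).le (by positivity)
          _ = E * Real.exp (-(996 * X)) := by
              rw [mul_assoc, ← Real.exp_add]; ring_nf
          _ ≤ E * η := mul_le_mul_of_nonneg_left (hea 996 (by norm_num)) hE.le
          _ ≤ cg := n8)
      have w5 : ‖(G 1 b c)^[n] (cuf b c u t) - (G 1 b c)^[n] (cuf b c u σ)‖ ≤
          4 * C * E * Real.exp (-(998 * X)) := by
        refine w4.trans ?_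
        have z2 : Real.exp (dl b * n) ≤ Real.exp (2 * X) := by
          refine Real.exp_le_exp.2 ?_
          rw [← hXn]; linarith
        calc 4 * C * Real.exp (dl b * n) * ‖cuf b c u t - cuf b c u σ‖
            ≤ 4 * C * Real.exp (2 * X) * (E * Real.exp (-(1000 * X))) :=
              mul_le_mul (mul_le_mul_of_nonneg_left z2 (by positivity)) w3 (norm_nonneg _)
                (by positivity)
          _ = 4 * C * E * (Real.exp (2 * X) * Real.exp (-(1000 * X))) := by ring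
          _ = 4 * C * E * Real.exp (-(998 * X)) := by
              rw [← Real.exp_add]; ring_nf
      have w6 : ‖(G 1 b c)^[n] (cuf b c u σ) - (G 1 b c)^[n] u.1‖ ≤
          C * h * Real.exp (-(498 * X)) := by
        refine (hlcσ.2.2.2.2 n).trans ?_
        have z2 : Real.exp (-(el b - 4 * dl b) * n) ≤ Real.exp (-(498 * X)) := by
          refine Real.exp_le_exp.2 ?_
          have : -(el b - 4 * dl b) * n = -(996 * Xn) := by rw [el_eq, hXn]; ring
          rw [this]; linarith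
        calc 2 * C * Real.exp (-(el b - 4 * dl b) * n) * σ
            ≤ 2 * C * Real.exp (-(498 * X)) * (h / 2) :=
              mul_le_mul (mul_le_mul_of_nonneg_left z2 (by positivity)) f2.le hσ0.le
                (by positivity)
          _ = C * h * Real.exp (-(498 * X)) := by ring
      have w7 : ‖(G 1 b c)^[n] (cuf b c u t) - (G 1 b c)^[n] u.1‖ ≤
          4 * C * E * Real.exp (-(998 * X)) + C * h * Real.exp (-(498 * X)) := by
        calc ‖(G 1 b c)^[n] (cuf b c u t) - (G 1 b c)^[n] u.1‖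
            = ‖((G 1 b c)^[n] (cuf b c u t) - (G 1 b c)^[n] (cuf b c u σ)) +
              ((G 1 b c)^[n] (cuf b c u σ) - (G 1 b c)^[n] u.1)‖ := by
              rw [sub_add_sub_cancel]
          _ ≤ _ := (norm_add_le _ _).trans (add_le_add w5 w6)
      have w8 : Real.exp (40 * dl b * k) = Real.exp (40 * X) := by rw [hX]; ring_nf
      rw [w8]
      calc ‖(G 1 b c)^[n] (cuf b c u t) - (G 1 b c)^[n] u.1‖ * Real.exp (40 * X)
          ≤ (4 * C * E * Real.exp (-(998 * X)) + C * h * Real.exp (-(498 * X))) *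
            Real.exp (40 * X) := mul_le_mul_of_nonneg_right w7 (Real.exp_pos _).le
        _ = 4 * C * E * (Real.exp (-(998 * X)) * Real.exp (40 * X)) +
            C * h * (Real.exp (-(498 * X)) * Real.exp (40 * X)) := by ring
        _ = 4 * C * E * Real.exp (-(958 * X)) + C * h * Real.exp (-(458 * X)) := by
            rw [← Real.exp_add, ← Real.exp_add]; ring_nf
        _ ≤ 4 * C * E * η + C * h * η :=
            add_le_add
              (mul_le_mul_of_nonneg_left (hea 958 (by norm_num)) (by positivity))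
              (mul_le_mul_of_nonneg_left (hea 458 (by norm_num)) (by positivity))
        _ ≤ 1 := n9

theorem nonrec_step {b c : ℝ} (hb0 : b ≠ 0) (hb1 : |b| < 1) (C : ℝ) : ∃ h1 : ℝ, 0 < h1 ∧
    ∀ h : ℝ, 0 < h → h ≤ h1 → ∃ k0 : ℕ, ∀ s ∈ GS b c, ∀ (i k : ℕ) (T : ℝ), k0 ≤ k →
      RS b c C (sn b c s i) → RS b c C (sn b c s (i + k)) → h ≤ lam b c s i * T →
      ‖(G 1 b c)^[i] (cuf b c s T) - (G 1 b c)^[i] s.1‖ * Real.exp (10 * dl b * k) ≤ 1 →
      ∃ T' : ℝ, T' ≤ T ∧ ∀ n : ℕ, k ≤ 2 * n → n ≤ 2 * k → RS b c C (sn b c s (i + k + n)) →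
        h ≤ lam b c s (i + k + n) * T' ∧
        ‖(G 1 b c)^[i + k + n] (cuf b c s T') - (G 1 b c)^[i + k + n] s.1‖ *
          Real.exp (40 * dl b * k) ≤ 1 := by
  obtain ⟨h1, h10, H⟩ := core (c := c) hb0 hb1 C
  refine ⟨h1, h10, fun h h0 hh => ?_⟩
  obtain ⟨k0, H⟩ := H h h0 hh
  refine ⟨k0, fun s hs i k T hk hRi hRik hT hD => ?_⟩
  obtain ⟨C0, hC0⟩ := hs.2.1
  have hs1 : ‖s.2‖ = 1 := hC0.unit
  have hl := lam_pos (b := b) (c := c) hb0 hs1 i
  obtain ⟨v, hv⟩ : ∃ v, v = sn b c s i := ⟨_, rfl⟩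
  have hvG : v ∈ GS b c := by
    rw [hv]; exact (gs_shift hb0 hb1 hs1 i).2 hs
  have hadd : ∀ m, sn b c v m = sn b c s (i + m) ∧
      lam b c s (i + m) = lam b c s i * lam b c v m := fun m => by
    rw [hv]; exact sn_add hb0 hs1 i m
  have htr : ∀ t, (G 1 b c)^[i] (cuf b c s t) = cuf b c v (lam b c s i * t) := fun t => by
    rw [hv] at *
    exact tr hb0 hb1 hC0 hRi t
  have hv1 : v.1 = (G 1 b c)^[i] s.1 := by rw [hv]; rfl
  have hRv : RS b c C v := by rw [hv]; exact hRi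
  have hRu : RS b c C (sn b c v k) := by rw [(hadd k).1]; exact hRik
  rw [htr, ← hv1] at hD
  obtain ⟨τ', h2, h3⟩ := H v hvG k (lam b c s i * T) hk hRv hRu hT hD
  refine ⟨τ' / lam b c s i, ?_, fun n hn1 hn2 hRn => ?_⟩
  · rw [div_le_iff₀ hl, mul_comm]; exact h2
  · rw [add_assoc] at hRn ⊢
    rw [← (hadd (k + n)).1] at hRn
    obtain ⟨h4, h5⟩ := h3 n hn1 hn2 hRn
    constructor
    · have h6 : lam b c s (i + (k + n)) * (τ' / lam b c s i) = lam b c v (k + n) * τ' := by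
        rw [(hadd (k + n)).2]; field_simp
      rw [h6]; exact h4
    · have h7 : (G 1 b c)^[i + (k + n)] (cuf b c s (τ' / lam b c s i)) =
          (G 1 b c)^[k + n] (cuf b c v τ') := by
        rw [add_comm i (k + n), Function.iterate_add_apply, htr, mul_div_cancel₀ τ' hl.ne']
      have h8 : (G 1 b c)^[i + (k + n)] s.1 = (G 1 b c)^[k + n] v.1 := by
        rw [add_comm i (k + n), Function.iterate_add_apply, ← hv1]
      rw [h7, h8]; exact h5

end Pool.Agent.HG
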