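import Pool.Agent.HG.Tf
import Pool.Agent.HG.Cm

set_option autoImplicit false

/-!
# Nonlocal points of the stable curve are not exponentially close to the local curve

`u` is a regular state, regular and isolated at time `m`, `k / 8 ≤ m ≤ k / 4`. A nonlocal point at distance less than
`E |b| ^ k` from the local curve would be nonlocal at time `m` (`tf`) and close to the base point at that time.
-/

namespace Pool.Agent.HG

open Pool.Agent.HD Set

private theorem sd_small {r K a : ℝ} (hr : 0 < r) (ha : 0 < a) :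
    ∃ k0 : ℕ, ∀ k : ℕ, k0 ≤ k → K * Real.exp (-r * k) < a := by
  have h1 : Filter.Tendsto (fun n : ℕ => Real.exp (-r * n)) Filter.atTop (nhds 0) := by
    refine Real.tendsto_exp_atBot.comp ?_
    exact tendsto_natCast_atTop_atTop.const_mul_atTop_of_neg (by linarith)
  have h2 : Filter.Tendsto (fun n : ℕ => K * Real.exp (-r * n)) Filter.atTop (nhds 0) := by
    simpa using h1.const_mul K
  obtain ⟨k0, hk0⟩ := Filter.eventually_atTop.1 (h2.eventually (gt_mem_nhds ha))
  exact ⟨k0, fun k hk => hk0 k hk⟩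

theorem self_far {b c : ℝ} (hb0 : b ≠ 0) (hb1 : |b| < 1) (C : ℝ) : ∃ h1 : ℝ, 0 < h1 ∧
    ∀ h : ℝ, 0 < h → h ≤ h1 → ∀ r E : ℝ, 0 < r → ∃ k0 : ℕ, ∀ (u : E2 × E2) (k m : ℕ),
      RS b c C u → k0 ≤ k → k ≤ 8 * m → 4 * m ≤ k → RS b c C (sn b c u m) →
      Iso b c h r (sn b c u m) → ∀ σ t : ℝ, 0 ≤ σ → σ ≤ h / 2 → h ≤ t →
        E * |b| ^ k < ‖cuf b c u t - cuf b c u σ‖ := by
  obtain ⟨h_lc, hlc0, hlc⟩ := lc (c := c) hb0 hb1 C
  obtain ⟨h_ft, hft0, hft⟩ := foot (c := c) hb0 hb1 C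
  obtain ⟨h_fc, c_fc, hfc0, cfc0, hfc⟩ := fc (c := c) hb0 hb1 C
  obtain ⟨h_tf, c_tf, k_tf, htf0, ctf0, htf⟩ := tf (c := c) hb0 hb1 C
  refine ⟨min (min h_lc h_ft) (min h_fc h_tf), lt_min (lt_min hlc0 hft0) (lt_min hfc0 htf0), ?_⟩
  intro h h0 hh r E hr
  have hh1 : h ≤ h_lc := hh.trans ((min_le_left _ _).trans (min_le_left _ _))
  have hh2 : h ≤ h_ft := hh.trans ((min_le_left _ _).trans (min_le_right _ _))
  have hh3 : h ≤ h_fc := hh.trans ((min_le_right _ _).trans (min_le_left _ _))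
  have hh4 : h ≤ h_tf := hh.trans ((min_le_right _ _).trans (min_le_right _ _))
  have hd0 := dl_pos hb0 hb1
  have hl0 := el_pos hb0 hb1
  have hld := el_eq b
  rcases lt_or_ge C 1 with hC | hC
  · exact ⟨0, fun u k m hu => absurd (Reg.one_le hu) (not_le.2 hC)⟩
  have hC0 : 0 < C := by linarith
  have ha : 0 < min (min (c_tf / 20) h_ft) (min (min (h / 16) c_fc) (r / (16 * C))) := by
    refine lt_min (lt_min (by linarith) hft0) (lt_min (lt_min (by linarith) cfc0) ?_)
    exact div_pos hr (by linarith)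
  obtain ⟨k1, hk1⟩ := sd_small (K := |E|) (r := el b / 2) (by linarith) ha
  obtain ⟨k2, hk2⟩ := sd_small (K := 2 * C * h) (r := el b / 16) (a := r / 2) (by linarith)
    (by linarith)
  refine ⟨max (8 * k_tf) (max k1 k2), ?_⟩
  intro u k m hu hk hkm hmk hum hiso σ t hσ0 hσ ht
  by_contra hcon
  rw [not_lt] at hcon
  have hk' : 8 * k_tf ≤ k := (le_max_left _ _).trans hk
  have hkk1 : k1 ≤ k := (le_max_left _ _).trans ((le_max_right _ _).trans hk)
  have hkk2 : k2 ≤ k := (le_max_right _ _).trans ((le_max_right _ _).trans hk)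
  have hmk' : (4 : ℝ) * m ≤ k := by exact_mod_cast hmk
  have hkm' : (k : ℝ) ≤ 8 * m := by exact_mod_cast hkm
  have hm0 : (0 : ℝ) ≤ m := Nat.cast_nonneg m
  have hk0 : (0 : ℝ) ≤ k := Nat.cast_nonneg k
  obtain ⟨d, hd⟩ : ∃ d : ℝ, d = ‖cuf b c u t - cuf b c u σ‖ := ⟨_, rfl⟩
  have hdn : 0 ≤ d := by rw [hd]; exact norm_nonneg _
  have hdE : d ≤ |E| * Real.exp (-(el b) * k) := by
    rw [hd, ← pow_eq hb0]
    exact hcon.trans (mul_le_mul_of_nonneg_right (le_abs_self E) (pow_nonneg (abs_nonneg b) k))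
  -- `d` is very small
  have hdA : d * Real.exp (9 * dl b * m) ≤ |E| * Real.exp (-(el b / 2) * k) := by
    refine (mul_le_mul_of_nonneg_right hdE (Real.exp_pos _).le).trans ?_
    rw [mul_assoc, ← Real.exp_add]
    refine mul_le_mul_of_nonneg_left (Real.exp_le_exp.2 ?_) (abs_nonneg E)
    have e1 : 9 * dl b * m ≤ 9 * dl b * (k / 4) :=
      mul_le_mul_of_nonneg_left (by linarith) (by linarith)
    have e2 : 0 ≤ dl b * k := mul_nonneg hd0.le hk0
    rw [hld]
    nlinarith
  have hA := (hdA.trans_lt (hk1 k hkk1))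
  have a1 : d * Real.exp (9 * dl b * m) < c_tf / 20 :=
    hA.trans_le ((min_le_left _ _).trans (min_le_left _ _))
  have a2 : d * Real.exp (9 * dl b * m) < h_ft :=
    hA.trans_le ((min_le_left _ _).trans (min_le_right _ _))
  have a3 : d * Real.exp (9 * dl b * m) < h / 16 :=
    hA.trans_le ((min_le_right _ _).trans ((min_le_left _ _).trans (min_le_left _ _)))
  have a4 : d * Real.exp (9 * dl b * m) < c_fc :=
    hA.trans_le ((min_le_right _ _).trans ((min_le_left _ _).trans (min_le_right _ _)))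
  have a5 : d * Real.exp (9 * dl b * m) < r / (16 * C) :=
    hA.trans_le ((min_le_right _ _).trans (min_le_right _ _))
  have hexp1 : (1 : ℝ) ≤ Real.exp (9 * dl b * m) := Real.one_le_exp (by positivity)
  have b1 : d ≤ d * Real.exp (9 * dl b * m) := le_mul_of_one_le_right hdn hexp1
  have b2 : d * Real.exp (2 * dl b * m) ≤ d * Real.exp (9 * dl b * m) := by
    refine mul_le_mul_of_nonneg_left (Real.exp_le_exp.2 ?_) hdn
    have : 0 ≤ dl b * m := mul_nonneg hd0.le hm0
    nlinarith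
  have b3 : d * Real.exp (dl b * m) ≤ d * Real.exp (9 * dl b * m) := by
    refine mul_le_mul_of_nonneg_left (Real.exp_le_exp.2 ?_) hdn
    have : 0 ≤ dl b * m := mul_nonneg hd0.le hm0
    nlinarith
  have hσa : |σ| = σ := abs_of_nonneg hσ0
  have ht0 : 0 < t := h0.trans_le ht
  -- the foot
  obtain ⟨σ', p', β, f1, f2, f3, f4⟩ := hft u hu σ (cuf b c u σ) (cuf b c u t)
    (by rw [hσa]; linarith) (cuf_spec hb0 hb1 hu σ) (by rw [← hd]; linarith)
  rw [← hd] at f1 f4
  have hσ' : |σ'| < h := by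
    have e1 : |σ'| ≤ |σ' - σ| + |σ| := by
      have := abs_add_le (σ' - σ) σ
      rwa [sub_add_cancel] at this
    rw [hσa] at e1
    linarith
  have hp' : p' = cuf b c u σ' := cuf_eq hb0 hb1 hu f2
  -- nonlocal at time `m`
  have hnl : h < lam b c u m * t := by
    by_contra hc
    rw [not_lt] at hc
    have e1 : cuf b c u t = p' := by
      refine htf u hu m (by omega) hum t σ' β (cuf b c u t) p' (cuf_spec hb0 hb1 hu t) f2
        (hσ'.le.trans hh4) ?_ f3 ?_
      · rw [abs_of_pos ht0]; exact hc.trans hh4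
      · refine (mul_le_mul_of_nonneg_right f4 (Real.exp_pos _).le).trans ?_
        have : 20 * d * Real.exp (9 * dl b * m) = 20 * (d * Real.exp (9 * dl b * m)) := by ring
        rw [this]
        linarith
    rw [hp'] at e1
    have e2 : t = σ' := (cuf_curve hb0 hb1 hu).2.1 e1
    have e3 := le_abs_self σ'
    linarith
  -- contradiction with isolation
  have hI := hiso (lam b c u m * t) ((G 1 b c)^[m] (cuf b c u t)) hnl.le
    (cu_shift hb0 hb1 hu.unit (cuf_spec hb0 hb1 hu t) m)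
  have g1 := hfc u hu σ (cuf b c u σ) (by rw [hσa]; linarith) (cuf_spec hb0 hb1 hu σ) (cuf b c u t) m
    (by rw [← hd]; linarith)
  rw [← hd] at g1
  have g2 := (hlc u hu σ 0 (cuf b c u σ) u.1 (by rw [hσa]; linarith) (by rw [abs_zero]; exact hlc0.le)
    (cuf_spec hb0 hb1 hu σ) (asym_zero 1 b c (el b) u.1 u.2)).2.2.2.2 m
  rw [sub_zero, hσa] at g2
  have g3 : 4 * C * Real.exp (dl b * m) * d < r / 2 := by
    have e1 : 4 * C * Real.exp (dl b * m) * d = 4 * C * (d * Real.exp (dl b * m)) := by ring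
    have e2 : d * Real.exp (dl b * m) < r / (16 * C) := b3.trans_lt a5
    rw [lt_div_iff₀ (by linarith)] at e2
    rw [e1]
    nlinarith [mul_nonneg hdn (Real.exp_pos (dl b * m)).le]
  have g4 : 2 * C * Real.exp (-(el b - 4 * dl b) * m) * σ < r / 2 := by
    have e1 : Real.exp (-(el b - 4 * dl b) * m) ≤ Real.exp (-(el b / 16) * k) := by
      refine Real.exp_le_exp.2 ?_
      rw [hld]
      have e3 : dl b * k ≤ dl b * (8 * m) := mul_le_mul_of_nonneg_left hkm' hd0.le
      have e4 : 0 ≤ dl b * m := mul_nonneg hd0.le hm0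
      nlinarith
    have e2 : 2 * C * Real.exp (-(el b - 4 * dl b) * m) * σ ≤
        2 * C * Real.exp (-(el b / 16) * k) * h := by
      refine mul_le_mul (mul_le_mul_of_nonneg_left e1 (by linarith)) (by linarith) hσ0 ?_
      exact mul_nonneg (by linarith) (Real.exp_pos _).le
    refine e2.trans_lt ?_
    have e5 := hk2 k hkk2
    have e6 : 2 * C * Real.exp (-(el b / 16) * k) * h = 2 * C * h * Real.exp (-(el b / 16) * k) := by
      ring
    rw [e6]
    exact e5
  have g5 : ‖(G 1 b c)^[m] (cuf b c u t) - (sn b c u m).1‖ ≤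
      ‖(G 1 b c)^[m] (cuf b c u t) - (G 1 b c)^[m] (cuf b c u σ)‖ +
      ‖(G 1 b c)^[m] (cuf b c u σ) - (G 1 b c)^[m] u.1‖ := by
    have : (G 1 b c)^[m] (cuf b c u t) - (sn b c u m).1 =
        ((G 1 b c)^[m] (cuf b c u t) - (G 1 b c)^[m] (cuf b c u σ)) +
        ((G 1 b c)^[m] (cuf b c u σ) - (G 1 b c)^[m] u.1) := by
      show (G 1 b c)^[m] (cuf b c u t) - (G 1 b c)^[m] u.1 = _
      abel
    rw [this]
    exact norm_add_le _ _
  linarith

end Pool.Agent.HG
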