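import Pool.Agent.HG.Wl
import Pool.Agent.HG.Fr
import Pool.Agent.HG.Cm

set_option autoImplicit false

/-!
# The stable curve of a close point is not exponentially close to the local curve

`q` is on the local curve of `s'`, on the transversal line of the base point of `s`, at the small distance `|β0|`, and
`L = -log |β0|`, `2 L ≤ l k ≤ 3 L`, `k / 8 ≤ m ≤ k / 4`. If the curves were exponentially close then, if the point
`cuf s' T'` is on the local curve at time `k + m`, the orbits of `q` and of the base point of `s` would be too close at the time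
`2 k + m` (`wl`); otherwise the branch of `s'` at time `k + m` would come back to its base point (`Iso`).
-/

namespace Pool.Agent.HG

open Pool.Agent.HD Set

private theorem se_tri4 (a b c d e : E2) : ‖a - e‖ ≤ ‖a - b‖ + ‖b - c‖ + ‖c - d‖ + ‖d - e‖ := by
  have h : a - e = (a - b) + (b - c) + (c - d) + (d - e) := by abel
  rw [h]
  refine (norm_add_le _ _).trans (add_le_add ?_ le_rfl)
  refine (norm_add_le _ _).trans (add_le_add ?_ le_rfl)
  exact norm_add_le _ _

private theorem se_small {ε : ℝ} (hε : 0 < ε) :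
    ∃ L0 : ℝ, 0 ≤ L0 ∧ ∀ L : ℝ, L0 ≤ L → Real.exp (-L / 8) < ε := by
  refine ⟨max 0 (8 * (-Real.log ε) + 8), le_max_left _ _, fun L hL => ?_⟩
  have h1 : 8 * (-Real.log ε) + 8 ≤ L := (le_max_right _ _).trans hL
  calc Real.exp (-L / 8) < Real.exp (Real.log ε) := Real.exp_lt_exp.2 (by linarith)
    _ = ε := Real.exp_log hε

theorem pair_far {b c : ℝ} (hb0 : b ≠ 0) (hb1 : |b| < 1) (C : ℝ) : ∃ h1 : ℝ, 0 < h1 ∧
    ∀ h : ℝ, 0 < h → h ≤ h1 → ∀ r E : ℝ, 0 < r → ∃ L0 : ℝ,
      ∀ (s s' : E2 × E2) (σ0 β0 : ℝ) (q : E2) (k m : ℕ), RS b c C s → RS b c C s' →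
        Cu b c s' σ0 q → |σ0| ≤ h → q - s.1 = β0 • nv s.2 → β0 ≠ 0 →
        L0 ≤ -Real.log |β0| → 2 * -Real.log |β0| ≤ el b * k → el b * k ≤ 3 * -Real.log |β0| →
        k ≤ 8 * m → 4 * m ≤ k → RS b c C (sn b c s k) → RS b c C (sn b c s' (k + m)) →
        Iso b c h r (sn b c s' (k + m)) → ∀ σ T' : ℝ, 0 ≤ σ → σ ≤ h / 2 → -h ≤ T' →
          E * |b| ^ k < ‖(G 1 b c)^[k] (cuf b c s' T') - cuf b c (sn b c s k) σ‖ := by
  obtain ⟨ha, ha0, lc'⟩ := lc (c := c) hb0 hb1 C
  obtain ⟨hf, cf, hf0, cf0, fc'⟩ := fc (c := c) hb0 hb1 C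
  obtain ⟨hw, cw, hw0, cw0, wl'⟩ := wl (c := c) hb0 hb1 C
  refine ⟨min ha (min hf hw), lt_min ha0 (lt_min hf0 hw0), ?_⟩
  intro h hh hle r E hr
  have hha : h ≤ ha := hle.trans (min_le_left _ _)
  have hhf : h ≤ hf := hle.trans ((min_le_right _ _).trans (min_le_left _ _))
  have hhw : h ≤ hw := hle.trans ((min_le_right _ _).trans (min_le_right _ _))
  set E' : ℝ := |E| + 1 with hE'
  have hE1 : 0 < E' := by positivity
  have hE2 : 1 ≤ E' := by
    rw [hE']
    linarith [abs_nonneg E]
  set K : ℝ := 24 * C ^ 2 * h + 16 * C ^ 2 * E' with hK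
  have hK0 : 0 ≤ K := by positivity
  set K2 : ℝ := 4 * |C| * E' + 4 * |C| * h + 4 * |C| with hK2
  have hK20 : 0 ≤ K2 := by positivity
  have hc0 : 0 < min cf cw := lt_min cf0 cw0
  obtain ⟨L0, hL00, hL0⟩ := se_small (ε := min (min (1 / (K + 1)) (1 / (|C| + 1)))
    (min (min cf cw / E') (r / (K2 + 1))))
    (lt_min (lt_min (by positivity) (by positivity)) (lt_min (by positivity) (by positivity)))
  refine ⟨L0, ?_⟩
  intro s s' σ0 β0 q k m hs hs' hq hσ0 hβ hβ0 hLL h2L h3L hkm hmk hsk hskm hiso σ T' hσ hσh hT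
  set L : ℝ := -Real.log |β0| with hL
  have hL0' : 0 ≤ L := hL00.trans hLL
  have hβexp : |β0| = Real.exp (-L) := by
    rw [hL, neg_neg, Real.exp_log (abs_pos.2 hβ0)]
  have hC1 : 1 ≤ C := Reg.one_le hs
  have hC0 : 0 < C := zero_lt_one.trans_le hC1
  have hCabs : |C| = C := abs_of_pos hC0
  set y : ℝ := Real.exp (-L / 8) with hy
  have hy0 : 0 < y := Real.exp_pos _
  have hyε := hL0 L hLL
  have hy1 : y < 1 / (K + 1) := hyε.trans_le ((min_le_left _ _).trans (min_le_left _ _))
  have hy2 : y < 1 / (|C| + 1) := hyε.trans_le ((min_le_left _ _).trans (min_le_right _ _))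
  have hy3 : y < min cf cw / E' := hyε.trans_le ((min_le_right _ _).trans (min_le_left _ _))
  have hy4 : y < r / (K2 + 1) := hyε.trans_le ((min_le_right _ _).trans (min_le_right _ _))
  rw [lt_div_iff₀ (by positivity)] at hy1 hy2 hy3 hy4
  rw [hCabs] at hy2
  have hKy : K * y < 1 := by linarith
  have hCy : C * y < 1 := by linarith
  have hEy : E' * y ≤ min cf cw := by linarith
  have hK2y : K2 * y < r := by linarith
  have hyc : y ≤ min cf cw := by nlinarith
  -- the variables of the exponents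
  have hl := el_pos hb0 hb1
  obtain ⟨X, hX⟩ : ∃ X : ℝ, X = el b * (k : ℝ) := ⟨_, rfl⟩
  obtain ⟨Y, hY⟩ : ∃ Y : ℝ, Y = el b * (m : ℝ) := ⟨_, rfl⟩
  have hX2 : 2 * L ≤ X := by rw [hX]; exact h2L
  have hX3 : X ≤ 3 * L := by rw [hX]; exact h3L
  have hXY : X ≤ 8 * Y := by
    have h1 : (k : ℝ) ≤ 8 * m := by exact_mod_cast hkm
    rw [hX, hY]
    nlinarith
  have hYX : 4 * Y ≤ X := by
    have h1 : 4 * (m : ℝ) ≤ k := by exact_mod_cast hmk
    rw [hX, hY]
    nlinarith
  have hY0 : 0 ≤ Y := by
    rw [hY]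
    positivity
  by_contra hcon
  rw [not_lt] at hcon
  have hbk : |b| ^ k = Real.exp (-X) := by
    rw [pow_eq hb0 k, hX]
    congr 1
    ring
  set g : E2 → E2 := G 1 b c with hg
  set P : E2 := cuf b c (sn b c s k) σ with hP
  set y' : E2 := cuf b c s' T' with hy'
  have hZP : ‖g^[k] y' - P‖ ≤ E' * Real.exp (-X) := by
    refine hcon.trans ?_
    rw [hbk]
    refine mul_le_mul_of_nonneg_right ?_ (Real.exp_pos _).le
    rw [hE']
    linarith [le_abs_self E]
  have hPc : Cu b c (sn b c s k) σ P := cuf_spec hb0 hb1 hsk σ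
  have hyc' : Cu b c s' T' y' := cuf_spec hb0 hb1 hs' T'
  have cu0 : ∀ u : E2 × E2, RS b c C u → Cu b c u 0 u.1 := by
    intro u hu
    have h1 := cuf_spec hb0 hb1 hu 0
    rw [(cuf_curve hb0 hb1 hu).2.2] at h1
    exact h1
  have hσabs : |σ| ≤ h := by
    rw [abs_of_nonneg hσ]
    linarith
  have h00 : |(0 : ℝ)| ≤ ha := by rw [abs_zero]; exact ha0.le
  -- the estimates from lc
  have l1 : ∀ n : ℕ, ‖g^[n] q - g^[n] s'.1‖ ≤
      2 * C * Real.exp (-(el b - 4 * dl b) * n) * h := by
    intro n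
    have h1 := (lc' s' hs' σ0 0 q s'.1 (hσ0.trans hha) h00 hq (cu0 s' hs')).2.2.2.2 n
    rw [sub_zero] at h1
    exact h1.trans (mul_le_mul_of_nonneg_left hσ0 (by positivity))
  have l2 : ∀ n : ℕ, ‖g^[n] P - g^[n] (g^[k] s.1)‖ ≤
      2 * C * Real.exp (-(el b - 4 * dl b) * n) * h := by
    intro n
    have h1 := (lc' (sn b c s k) hsk σ 0 P (sn b c s k).1 (hσabs.trans hha) h00 hPc
      (cu0 _ hsk)).2.2.2.2 n
    rw [sub_zero] at h1
    exact h1.trans (mul_le_mul_of_nonneg_left hσabs (by positivity))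
  have hshift : Cu b c (sn b c s' (k + m)) (lam b c s' (k + m) * T') (g^[k + m] y') :=
    cu_shift hb0 hb1 hs'.unit hyc' (k + m)
  have hlam0 : 0 < lam b c s' (k + m) := lam_pos (c := c) hb0 hs'.unit (k + m)
  have hqs : ‖q - s.1‖ ≤ |β0| := by
    rw [hβ, norm_smul, Real.norm_eq_abs]
    have h1 := norm_nv_le (V := s.2) hs.unit
    nlinarith [abs_nonneg β0]
  have e8 : ∀ x : ℝ, x ≤ -L / 8 → Real.exp x ≤ y := fun x hx => Real.exp_le_exp.2 hx
  rcases le_or_gt (lam b c s' (k + m) * |T'|) h with hcase | hcase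
  · -- the point is on the local curve
    obtain ⟨n, hn⟩ : ∃ n : ℕ, n = (k + m) + k := ⟨_, rfl⟩
    have hnR : (n : ℝ) = 2 * (k : ℝ) + m := by
      rw [hn]
      push_cast
      ring
    have w1 : |β0| * Real.exp (5 * dl b * n) ≤ cw := by
      rw [hβexp, ← Real.exp_add]
      refine (e8 _ ?_).trans (hyc.trans (min_le_right _ _))
      have h1 : 5 * dl b * (n : ℝ) = (10 * X + 5 * Y) / 1000 := by
        rw [hnR, hX, hY]
        unfold dl
        ring
      rw [h1]
      linarith
    have w2 := (wl' s hs 0 s.1 (by rw [abs_zero]; exact hw0.le) (cu0 s hs) q β0 n hβ w1).2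
    have t2 : ‖g^[n] s'.1 - g^[k + m] (g^[k] y')‖ ≤
        2 * C * Real.exp (-(el b - 4 * dl b) * k) * h := by
      have h1 : |lam b c s' (k + m) * T'| ≤ h := by
        rw [abs_mul, abs_of_pos hlam0]
        exact hcase
      have h2 := (lc' (sn b c s' (k + m)) hskm (lam b c s' (k + m) * T') 0 (g^[k + m] y')
        (sn b c s' (k + m)).1 (h1.trans hha) h00 hshift (cu0 _ hskm)).2.2.2.2 k
      rw [sub_zero] at h2
      have h3 : g^[k] (g^[k + m] y') = g^[k + m] (g^[k] y') := by
        rw [← Function.iterate_add_apply, ← Function.iterate_add_apply, Nat.add_comm k (k + m)]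
      have h4 : g^[k] (sn b c s' (k + m)).1 = g^[n] s'.1 := by
        show g^[k] (g^[k + m] s'.1) = _
        rw [← Function.iterate_add_apply, hn, Nat.add_comm k (k + m)]
      rw [h3, h4] at h2
      rw [norm_sub_rev]
      exact h2.trans (mul_le_mul_of_nonneg_left h1 (by positivity))
    have t3 : ‖g^[k + m] (g^[k] y') - g^[k + m] P‖ ≤
        4 * C * Real.exp (dl b * ((k + m : ℕ) : ℝ)) * (E' * Real.exp (-X)) := by
      have h1 : ‖g^[k] y' - P‖ * Real.exp (2 * dl b * ((k + m : ℕ) : ℝ)) ≤ cf := by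
        have h2 : ‖g^[k] y' - P‖ * Real.exp (2 * dl b * ((k + m : ℕ) : ℝ)) ≤
            E' * Real.exp (-X) * Real.exp (2 * dl b * ((k + m : ℕ) : ℝ)) :=
          mul_le_mul_of_nonneg_right hZP (Real.exp_pos _).le
        refine h2.trans ?_
        rw [mul_assoc, ← Real.exp_add]
        have h3 : 2 * dl b * ((k + m : ℕ) : ℝ) = (2 * X + 2 * Y) / 1000 := by
          rw [hX, hY]
          unfold dl
          push_cast
          ring
        rw [h3]
        have h4 : Real.exp (-X + (2 * X + 2 * Y) / 1000) ≤ y := e8 _ (by linarith)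
        exact (mul_le_mul_of_nonneg_left h4 hE1.le).trans (hEy.trans (min_le_left _ _))
      have h2 := fc' (sn b c s k) hsk σ P (hσabs.trans hhf) hPc (g^[k] y') (k + m) h1
      exact h2.trans (mul_le_mul_of_nonneg_left hZP (by positivity))
    have t4 : ‖g^[k + m] P - g^[n] s.1‖ ≤
        2 * C * Real.exp (-(el b - 4 * dl b) * ((k + m : ℕ) : ℝ)) * h := by
      have h1 := l2 (k + m)
      rw [← Function.iterate_add_apply] at h1
      rw [hn]
      exact h1
    have t1 := l1 n
    have htri := se_tri4 (g^[n] q) (g^[n] s'.1) (g^[k + m] (g^[k] y')) (g^[k + m] P) (g^[n] s.1)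
    -- compare the exponentials
    obtain ⟨w, hw⟩ : ∃ w : ℝ, w = Real.exp (-(996 / 1000) * X) := ⟨_, rfl⟩
    have x1 : Real.exp (-(el b - 4 * dl b) * n) ≤ w := by
      rw [hw]
      refine Real.exp_le_exp.2 ?_
      have h1 : -(el b - 4 * dl b) * (n : ℝ) = -(996 / 1000) * (2 * X + Y) := by
        rw [hnR, hX, hY]
        unfold dl
        ring
      rw [h1]
      nlinarith
    have x2 : Real.exp (-(el b - 4 * dl b) * k) ≤ w := by
      rw [hw]
      refine Real.exp_le_exp.2 (le_of_eq ?_)
      rw [hX]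
      unfold dl
      ring
    have x3 : Real.exp (dl b * ((k + m : ℕ) : ℝ)) * Real.exp (-X) ≤ w := by
      rw [hw, ← Real.exp_add]
      refine Real.exp_le_exp.2 ?_
      have h1 : dl b * ((k + m : ℕ) : ℝ) = (X + Y) / 1000 := by
        rw [hX, hY]
        unfold dl
        push_cast
        ring
      rw [h1]
      linarith
    have x4 : Real.exp (-(el b - 4 * dl b) * ((k + m : ℕ) : ℝ)) ≤ w := by
      rw [hw]
      refine Real.exp_le_exp.2 ?_
      have h1 : -(el b - 4 * dl b) * ((k + m : ℕ) : ℝ) = -(996 / 1000) * (X + Y) := by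
        rw [hX, hY]
        unfold dl
        push_cast
        ring
      rw [h1]
      nlinarith
    have hsum : 4 * C * ‖g^[n] q - g^[n] s.1‖ ≤ K * w := by
      have g1 : ‖g^[n] q - g^[n] s'.1‖ ≤ 2 * C * h * w := by
        refine t1.trans ?_
        have := mul_le_mul_of_nonneg_left x1 (show 0 ≤ 2 * C * h by positivity)
        linarith
      have g2 : ‖g^[n] s'.1 - g^[k + m] (g^[k] y')‖ ≤ 2 * C * h * w := by
        refine t2.trans ?_
        have := mul_le_mul_of_nonneg_left x2 (show 0 ≤ 2 * C * h by positivity)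
        linarith
      have g3 : ‖g^[k + m] (g^[k] y') - g^[k + m] P‖ ≤ 4 * C * E' * w := by
        refine t3.trans ?_
        have := mul_le_mul_of_nonneg_left x3 (show 0 ≤ 4 * C * E' by positivity)
        linarith
      have g4 : ‖g^[k + m] P - g^[n] s.1‖ ≤ 2 * C * h * w := by
        refine t4.trans ?_
        have := mul_le_mul_of_nonneg_left x4 (show 0 ≤ 2 * C * h by positivity)
        linarith
      have g5 : ‖g^[n] q - g^[n] s.1‖ ≤ 6 * C * h * w + 4 * C * E' * w := by linarith
      have g6 := mul_le_mul_of_nonneg_left g5 (show 0 ≤ 4 * C by positivity)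
      refine g6.trans (le_of_eq ?_)
      rw [hK]
      ring
    have hexp : Real.exp (-(3 * dl b) * n) * |β0| = Real.exp (-(6 * X + 3 * Y) / 1000 - L) := by
      rw [hβexp, ← Real.exp_add]
      congr 1
      rw [hnR, hX, hY]
      unfold dl
      ring
    rw [hexp] at w2
    have hwy : w ≤ y * Real.exp (-(6 * X + 3 * Y) / 1000 - L) := by
      rw [hw, hy, ← Real.exp_add]
      refine Real.exp_le_exp.2 ?_
      linarith
    have hfin : K * w ≤ K * (y * Real.exp (-(6 * X + 3 * Y) / 1000 - L)) :=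
      mul_le_mul_of_nonneg_left hwy hK0
    have hpos := Real.exp_pos (-(6 * X + 3 * Y) / 1000 - L)
    have hlt : K * y * Real.exp (-(6 * X + 3 * Y) / 1000 - L) <
        1 * Real.exp (-(6 * X + 3 * Y) / 1000 - L) := mul_lt_mul_of_pos_right hKy hpos
    linarith
  · -- the branch comes back to its base point
    have hlam1 : lam b c s' (k + m) ≤ 1 := by
      have h1 := lam_le hs' (k + m)
      have h2 : Real.exp (-(el b - 3 * dl b) * ((k + m : ℕ) : ℝ)) ≤ y := by
        refine e8 _ ?_
        have h3 : -(el b - 3 * dl b) * ((k + m : ℕ) : ℝ) = -(997 / 1000) * (X + Y) := by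
          rw [hX, hY]
          unfold dl
          push_cast
          ring
        rw [h3]
        linarith
      have h3 := mul_le_mul_of_nonneg_left h2 hC0.le
      linarith
    have hTpos : 0 < T' := by
      by_contra hT0
      rw [not_lt] at hT0
      rw [abs_of_nonpos hT0] at hcase
      nlinarith
    rw [abs_of_pos hTpos] at hcase
    have hr1 := hiso (lam b c s' (k + m) * T') (g^[k + m] y') hcase.le hshift
    have e1 : (sn b c s' (k + m)).1 = g^[k + m] s'.1 := rfl
    rw [e1] at hr1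
    have e2 : g^[k + m] y' = g^[m] (g^[k] y') := by
      rw [← Function.iterate_add_apply, Nat.add_comm m k]
    have t1 : ‖g^[m] (g^[k] y') - g^[m] P‖ ≤
        4 * C * Real.exp (dl b * m) * (E' * Real.exp (-X)) := by
      have h1 : ‖g^[k] y' - P‖ * Real.exp (2 * dl b * m) ≤ cf := by
        have h2 : ‖g^[k] y' - P‖ * Real.exp (2 * dl b * m) ≤
            E' * Real.exp (-X) * Real.exp (2 * dl b * m) :=
          mul_le_mul_of_nonneg_right hZP (Real.exp_pos _).le
        refine h2.trans ?_
        rw [mul_assoc, ← Real.exp_add]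
        have h3 : 2 * dl b * (m : ℝ) = (2 * Y) / 1000 := by
          rw [hY]
          unfold dl
          ring
        rw [h3]
        have h4 : Real.exp (-X + (2 * Y) / 1000) ≤ y := e8 _ (by linarith)
        exact (mul_le_mul_of_nonneg_left h4 hE1.le).trans (hEy.trans (min_le_left _ _))
      have h2 := fc' (sn b c s k) hsk σ P (hσabs.trans hhf) hPc (g^[k] y') m h1
      exact h2.trans (mul_le_mul_of_nonneg_left hZP (by positivity))
    have t2 : ‖g^[m] P - g^[k + m] s.1‖ ≤
        2 * C * Real.exp (-(el b - 4 * dl b) * m) * h := by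
      have h1 := l2 m
      rw [← Function.iterate_add_apply, Nat.add_comm m k] at h1
      exact h1
    have t3 : ‖g^[k + m] s.1 - g^[k + m] q‖ ≤
        4 * C * Real.exp (dl b * ((k + m : ℕ) : ℝ)) * |β0| := by
      have h1 : ‖q - s.1‖ * Real.exp (2 * dl b * ((k + m : ℕ) : ℝ)) ≤ cf := by
        have h2 : ‖q - s.1‖ * Real.exp (2 * dl b * ((k + m : ℕ) : ℝ)) ≤
            |β0| * Real.exp (2 * dl b * ((k + m : ℕ) : ℝ)) :=
          mul_le_mul_of_nonneg_right hqs (Real.exp_pos _).le
        refine h2.trans ?_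
        rw [hβexp, ← Real.exp_add]
        refine (e8 _ ?_).trans (hyc.trans (min_le_left _ _))
        have h3 : 2 * dl b * ((k + m : ℕ) : ℝ) = (2 * X + 2 * Y) / 1000 := by
          rw [hX, hY]
          unfold dl
          push_cast
          ring
        rw [h3]
        linarith
      have h2 := fc' s hs 0 s.1 (by rw [abs_zero]; exact hf0.le) (cu0 s hs) q (k + m) h1
      rw [norm_sub_rev]
      exact h2.trans (mul_le_mul_of_nonneg_left hqs (by positivity))
    have t4 := l1 (k + m)
    have htri := se_tri4 (g^[m] (g^[k] y')) (g^[m] P) (g^[k + m] s.1) (g^[k + m] q)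
      (g^[k + m] s'.1)
    rw [e2] at hr1
    have g1 : ‖g^[m] (g^[k] y') - g^[m] P‖ ≤ 4 * C * E' * y := by
      refine t1.trans ?_
      have h1 : Real.exp (dl b * m) * Real.exp (-X) ≤ y := by
        rw [← Real.exp_add]
        refine e8 _ ?_
        have h3 : dl b * (m : ℝ) = Y / 1000 := by
          rw [hY]
          unfold dl
          ring
        rw [h3]
        linarith
      have := mul_le_mul_of_nonneg_left h1 (show 0 ≤ 4 * C * E' by positivity)
      linarith
    have g2 : ‖g^[m] P - g^[k + m] s.1‖ ≤ 2 * C * h * y := by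
      refine t2.trans ?_
      have h1 : Real.exp (-(el b - 4 * dl b) * m) ≤ y := by
        refine e8 _ ?_
        have h3 : -(el b - 4 * dl b) * (m : ℝ) = -(996 / 1000) * Y := by
          rw [hY]
          unfold dl
          ring
        rw [h3]
        linarith
      have := mul_le_mul_of_nonneg_left h1 (show 0 ≤ 2 * C * h by positivity)
      linarith
    have g3 : ‖g^[k + m] s.1 - g^[k + m] q‖ ≤ 4 * C * y := by
      refine t3.trans ?_
      have h1 : Real.exp (dl b * ((k + m : ℕ) : ℝ)) * |β0| ≤ y := by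
        rw [hβexp, ← Real.exp_add]
        refine e8 _ ?_
        have h3 : dl b * ((k + m : ℕ) : ℝ) = (X + Y) / 1000 := by
          rw [hX, hY]
          unfold dl
          push_cast
          ring
        rw [h3]
        linarith
      have := mul_le_mul_of_nonneg_left h1 (show 0 ≤ 4 * C by positivity)
      linarith
    have g4 : ‖g^[k + m] q - g^[k + m] s'.1‖ ≤ 2 * C * h * y := by
      refine t4.trans ?_
      have h1 : Real.exp (-(el b - 4 * dl b) * ((k + m : ℕ) : ℝ)) ≤ y := by
        refine e8 _ ?_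
        have h3 : -(el b - 4 * dl b) * ((k + m : ℕ) : ℝ) = -(996 / 1000) * (X + Y) := by
          rw [hX, hY]
          unfold dl
          push_cast
          ring
        rw [h3]
        linarith
      have := mul_le_mul_of_nonneg_left h1 (show 0 ≤ 2 * C * h by positivity)
      linarith
    have g5 : K2 * y = 4 * C * E' * y + 2 * C * h * y + 4 * C * y + 2 * C * h * y := by
      rw [hK2, hCabs]
      ring
    linarith

end Pool.Agent.HG
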