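import Pool.Agent.HD.Lit
import Pool.Agent.HG.Sd
import Pool.Agent.HG.Se
import Pool.Agent.HG.Nb
import Pool.Agent.HG.Cd
import Pool.Agent.HG.Lm
import Pool.Agent.HG.Wn
import Pool.Agent.HG.BDefs

set_option autoImplicit false

/-!
# Disjointness of the branches of close states

If the limit set of the branch of `s` meets the closure of the branch of a close state `s'`, the image under `G^k` (`k` comparable to
the logarithm of the distance) of the two branches and two short segments is a connected set to which `nbr` applies, and all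
possible positions of the neighbour are excluded by `self_far`, `pair_far` and `fc`.
-/

namespace Pool.Agent.HG

open Pool.Agent.HD Set

private theorem sf_small {η L : ℝ} (hη : 0 < η) (hL : 2 / η ≤ L) :
    Real.exp (-(9 / 10) * L) ≤ η := by
  have h0 : 0 < 1 / η := by positivity
  have h1 := Real.add_one_le_exp (9 / 10 * L)
  have h2 : 1 / η ≤ Real.exp (9 / 10 * L) := by
    have h3 : 2 / η = 2 * (1 / η) := by ring
    linarith
  have h3 : -(9 / 10) * L = -(9 / 10 * L) := by ring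
  rw [h3, Real.exp_neg, inv_le_comm₀ (Real.exp_pos _) hη, ← one_div]
  exact h2

private theorem sf_win {S S' : Set ℕ} {N0 : ℕ} (h : Win S N0) (h' : Win S' N0) {x : ℝ}
    (hx : 60 ≤ x) (hN : (N0 : ℝ) ≤ x) :
    ∃ k m : ℕ, k ∈ S ∧ k ∈ S' ∧ k + m ∈ S ∧ k + m ∈ S' ∧ 2 * x ≤ k ∧ (k : ℝ) ≤ 3 * x ∧
      k ≤ 8 * m ∧ 4 * m ≤ k := by
  have hu := Nat.le_ceil (2 * x)
  have hu' := Nat.ceil_lt_add_one (show 0 ≤ 2 * x by linarith)
  have hv := Nat.floor_le (show 0 ≤ 3 * x by linarith)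
  have hv' := Nat.lt_floor_add_one (3 * x)
  obtain ⟨u, hudef⟩ : ∃ u : ℕ, ⌈2 * x⌉₊ = u := ⟨_, rfl⟩
  obtain ⟨w, hwdef⟩ : ∃ w : ℕ, ⌊3 * x⌋₊ = w := ⟨_, rfl⟩
  rw [hudef] at hu hu'
  rw [hwdef] at hv hv'
  have huw : u < w + 1 := by
    have : (u : ℝ) < ((w + 1 : ℕ) : ℝ) := by push_cast; linarith
    exact_mod_cast this
  have hNw : N0 ≤ w + 1 := by
    have : (N0 : ℝ) ≤ ((w + 1 : ℕ) : ℝ) := by push_cast; linarith
    exact_mod_cast this
  have hl : w + 1 < 25 * (w + 1 - u) := by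
    have h3 : w + 1 + 25 * u < 25 * (w + 1) := by
      have : ((w + 1 + 25 * u : ℕ) : ℝ) < ((25 * (w + 1) : ℕ) : ℝ) := by push_cast; linarith
      exact_mod_cast this
    omega
  obtain ⟨k, hk1, hk2, hkS, hkS'⟩ := win_two h h' huw hNw hl
  have hk3 : (u : ℝ) ≤ k := by exact_mod_cast hk1
  have hk4 : (k : ℝ) ≤ w := by exact_mod_cast Nat.lt_succ_iff.1 hk2
  have hk5 : 120 ≤ k := by
    have : ((120 : ℕ) : ℝ) ≤ k := by push_cast; linarith
    exact_mod_cast this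
  have hk6 : N0 ≤ k := by
    have : (N0 : ℝ) ≤ k := by linarith
    exact_mod_cast this
  obtain ⟨n, hn1, hn2, hnS, hnS'⟩ := win_two h h' (u := k + (k + 7) / 8) (v := k + k / 4 + 1)
    (by omega) (by omega) (by omega)
  have e : k + (n - k) = n := by omega
  refine ⟨k, n - k, hkS, hkS', ?_, ?_, by linarith, by linarith, by omega, by omega⟩
  · rw [e]; exact hnS
  · rw [e]; exact hnS'

private theorem sf_kk {b c : ℝ} {p : E2} (h : p ∈ KK b c) : ‖p‖ ≤ |c| + 4 := h.1 0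

private theorem sf_seg {M : ℝ} {x y w : E2} (hx : ‖x‖ ≤ M) (hy : ‖y‖ ≤ M)
    (hw : w ∈ segment ℝ x y) : ‖w‖ ≤ M := by
  have h := (convex_closedBall (0 : E2) M).segment_subset
    (by rwa [mem_closedBall_zero_iff]) (by rwa [mem_closedBall_zero_iff]) hw
  rwa [mem_closedBall_zero_iff] at h

private theorem sf_segc (x y : E2) : IsCompact (segment ℝ x y) := by
  rw [segment_eq_image_lineMap]
  exact isCompact_Icc.image AffineMap.lineMap_continuous

theorem bk_disj_aux {b c : ℝ} (hb0 : b ≠ 0) (hb1 : |b| < 1) (C : ℝ) : ∃ h1 : ℝ, 0 < h1 ∧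
    ∀ h : ℝ, 0 < h → h ≤ h1 → ∀ r : ℝ, 0 < r → ∀ N0 : ℕ, ∃ d0 : ℝ, 0 < d0 ∧
      ∀ s ∈ Bk b c C h r N0, ∀ s' ∈ Bk b c C h r N0, ‖s.1 - s'.1‖ ≤ d0 →
        ¬ ExpC (G 1 b c) s.1 s'.1 → Disjoint (Lim b c s) (closure (Brn b c s')) := by
  obtain ⟨a1, ha1, hnbr⟩ := nbr (c := c) hb0 hb1 C
  obtain ⟨a2, ha2, hself⟩ := self_far (c := c) hb0 hb1 C
  obtain ⟨a3, ha3, hpair⟩ := pair_far (c := c) hb0 hb1 C
  obtain ⟨a4, ha4, hlc⟩ := lc (c := c) hb0 hb1 C
  obtain ⟨a5, c0, ha5, hc0, hfc⟩ := fc (c := c) hb0 hb1 C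
  obtain ⟨df, hdf, hfoot⟩ := foot2 (c := c) hb0 hb1 C
  refine ⟨min (min a1 a2) (min a3 a4), lt_min (lt_min ha1 ha2) (lt_min ha3 ha4),
    fun h hh hh1 r hr N0 => ?_⟩
  have hA1 : h ≤ a1 := hh1.trans ((min_le_left _ _).trans (min_le_left _ _))
  have hA2 : h ≤ a2 := hh1.trans ((min_le_left _ _).trans (min_le_right _ _))
  have hA3 : h ≤ a3 := hh1.trans ((min_le_right _ _).trans (min_le_left _ _))
  have hA4 : h ≤ a4 := hh1.trans ((min_le_right _ _).trans (min_le_right _ _))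
  obtain ⟨E, hE, hn⟩ := hnbr h hh hA1 (|c| + 5)
  obtain ⟨k0, hs⟩ := hself h hh hA2 r (3 * E) hr
  obtain ⟨L0, hp⟩ := hpair h hh hA3 r E hr
  have hel := el_pos hb0 hb1
  obtain ⟨C', hC'⟩ : ∃ C' : ℝ, C' = |C| + 1 := ⟨_, rfl⟩
  have hC'0 : 0 < C' := by rw [hC']; positivity
  have hCC' : C ≤ C' := by rw [hC']; linarith [le_abs_self C]
  obtain ⟨η, hηdef⟩ : ∃ η : ℝ, η = min c0 (h / (16 * (4 * C' + E))) := ⟨_, rfl⟩
  have hη : 0 < η := by rw [hηdef]; exact lt_min hc0 (by positivity)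
  have hη1 : η ≤ c0 := by rw [hηdef]; exact min_le_left _ _
  have hη2 : (4 * C' + E) * η ≤ h / 16 := by
    have h1 : η ≤ h / (16 * (4 * C' + E)) := by rw [hηdef]; exact min_le_right _ _
    rw [le_div_iff₀ (by positivity)] at h1
    linarith
  obtain ⟨Lm, hLmdef⟩ : ∃ Lm : ℝ, Lm = max L0 (max (el b * (60 + N0 + k0)) (max (2 / η) 1)) :=
    ⟨_, rfl⟩
  have hLm1 : L0 ≤ Lm := by rw [hLmdef]; exact le_max_left _ _
  have hLm2 : el b * (60 + N0 + k0) ≤ Lm := by
    rw [hLmdef]; exact (le_max_left _ _).trans (le_max_right _ _)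
  have hLm3 : 2 / η ≤ Lm := by
    rw [hLmdef]; exact (le_max_left _ _).trans ((le_max_right _ _).trans (le_max_right _ _))
  have hLm4 : 1 ≤ Lm := by
    rw [hLmdef]; exact (le_max_right _ _).trans ((le_max_right _ _).trans (le_max_right _ _))
  refine ⟨min (min df (h / 4)) (min (1 / 8) (Real.exp (-Lm) / 20)),
    lt_min (lt_min hdf (by positivity)) (lt_min (by norm_num) (by positivity)),
    fun s hsB s' hsB' hd hne => ?_⟩
  have hd1 : ‖s.1 - s'.1‖ ≤ df := hd.trans ((min_le_left _ _).trans (min_le_left _ _))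
  have hd2 : ‖s.1 - s'.1‖ ≤ h / 4 := hd.trans ((min_le_left _ _).trans (min_le_right _ _))
  have hd3 : ‖s.1 - s'.1‖ ≤ 1 / 8 := hd.trans ((min_le_right _ _).trans (min_le_left _ _))
  have hd4 : ‖s.1 - s'.1‖ ≤ Real.exp (-Lm) / 20 :=
    hd.trans ((min_le_right _ _).trans (min_le_right _ _))
  rw [Set.disjoint_left]
  intro z hz hz'
  obtain ⟨hG, hR, hW⟩ := hsB
  obtain ⟨hG', hR', hW'⟩ := hsB'
  have hu1 : ‖s.2‖ = 1 := hR.unit
  have hu1' : ‖s'.2‖ = 1 := hR'.unit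
  -- the foot
  obtain ⟨σ0, q, β0, hσ0, hq, hqs, hβ0⟩ := hfoot s s' hR hR' hd1
  have hσh : |σ0| ≤ h := hσ0.trans (by linarith)
  have hσ1 : |σ0| ≤ 1 / 2 := hσ0.trans (by linarith)
  have hβne : β0 ≠ 0 := by
    rintro rfl
    rw [zero_smul, sub_eq_zero] at hqs
    rw [hqs] at hq
    exact hne (ExpC.symm (Asym.expC (dl_le hb0 hb1) (dl_pos hb0 hb1) hR' hq))
  obtain ⟨L, hLdef⟩ : ∃ L : ℝ, L = -Real.log |β0| := ⟨_, rfl⟩
  have hβabs : |β0| = Real.exp (-L) := by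
    rw [hLdef, neg_neg, Real.exp_log (abs_pos.2 hβne)]
  have hLm : Lm ≤ L := by
    have h1 : |β0| ≤ Real.exp (-Lm) := hβ0.trans (by linarith)
    rw [hβabs] at h1
    have := Real.exp_le_exp.1 h1
    linarith
  have hL1 : 1 ≤ L := hLm4.trans hLm
  have hx : (60 + N0 + k0 : ℝ) ≤ L / el b := by
    rw [le_div_iff₀ hel]
    linarith
  have hN00 : (0 : ℝ) ≤ N0 := Nat.cast_nonneg _
  have hk00 : (0 : ℝ) ≤ k0 := Nat.cast_nonneg _
  -- the times
  obtain ⟨k, m, hk, hk', hkm, hkm', hkl, hku, hm8, hm4⟩ :=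
    sf_win hW hW' (x := L / el b) (by linarith) (by linarith)
  have e0 : el b * (L / el b) = L := by field_simp
  have e1 : 2 * L ≤ el b * k := by
    have h1 := mul_le_mul_of_nonneg_left hkl hel.le
    have h2 : el b * (2 * (L / el b)) = 2 * L := by rw [← e0]; field_simp
    linarith only [h1, h2]
  have e2 : el b * k ≤ 3 * L := by
    have h1 := mul_le_mul_of_nonneg_left hku hel.le
    have h2 : el b * (3 * (L / el b)) = 3 * L := by rw [← e0]; field_simp
    linarith only [h1, h2]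
  have hkk0 : k0 ≤ k := by
    have : (k0 : ℝ) ≤ k := by linarith
    exact_mod_cast this
  obtain ⟨u, hu⟩ : ∃ u : E2 × E2, u = sn b c s k := ⟨_, rfl⟩
  have hRu : RS b c C u := by rw [hu]; exact hk.1
  have huu : ‖u.2‖ = 1 := hRu.unit
  have hsnm : sn b c u m = sn b c s (k + m) := by rw [hu]; exact (sn_add hb0 hu1 k m).1
  have hfar : ∀ σ t : ℝ, 0 ≤ σ → σ ≤ h / 2 → h ≤ t →
      3 * E * |b| ^ k < ‖cuf b c u t - cuf b c u σ‖ :=
    hs u k m hRu hkk0 hm8 hm4 (by rw [hsnm]; exact hkm.1) (by rw [hsnm]; exact hkm.2)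
  have hpf := hp s s' σ0 β0 q k m hR hR' hq hσh hqs hβne (by rw [← hLdef]; linarith)
    (by rw [← hLdef]; exact e1) (by rw [← hLdef]; exact e2) hm8 hm4 hk.1 hkm'.1 hkm'.2
  rw [← hu] at hpf
  have hbk : 0 < |b| ^ k := pow_pos (abs_pos.2 hb0) k
  have hε : 0 < E * |b| ^ k := mul_pos hE hbk
  -- points of the two branches close to `z`
  obtain ⟨δ, hδ, hδ'⟩ : ∃ δ > 0, ∀ w : E2, ‖w - z‖ < δ →
      ‖(G 1 b c)^[k] w - (G 1 b c)^[k] z‖ < E * |b| ^ k / 2 := by
    have hc := (continuous_G_iter 1 b c k).continuousAt (x := z)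
    rw [Metric.continuousAt_iff] at hc
    obtain ⟨δ, hδ, h1⟩ := hc (E * |b| ^ k / 2) (by positivity)
    refine ⟨δ, hδ, fun w hw => ?_⟩
    rw [← dist_eq_norm] at hw ⊢
    exact h1 hw
  have hlam := lam_pos (c := c) hb0 hu1 k
  obtain ⟨t1, q1, ht1, hq1, hq1z⟩ := hz (max 0 (h / lam b c s k)) δ hδ
  have ht10 : 0 ≤ t1 := (le_max_left _ _).trans ht1
  have hT : h ≤ lam b c s k * t1 := by
    have h1 : h / lam b c s k ≤ t1 := (le_max_right _ _).trans ht1
    rw [div_le_iff₀ hlam] at h1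
    linarith
  obtain ⟨q2, ⟨t2, ht2, hq2⟩, hq2z⟩ := Metric.mem_closure_iff.1 hz' δ hδ
  rw [dist_comm, dist_eq_norm] at hq2z
  have hγ0 := (cuf_curve hb0 hb1 hR).2.2
  obtain ⟨hγ'c, -, hγ'0⟩ := cuf_curve hb0 hb1 hR'
  have hq2' := cuf_eq hb0 hb1 hR' hq2
  have hq' := cuf_eq hb0 hb1 hR' hq
  have hu0 : cuf b c u 0 = (G 1 b c)^[k] s.1 := by
    rw [(cuf_curve hb0 hb1 hRu).2.2, hu]
    rfl
  have huT : cuf b c u (lam b c s k * t1) = (G 1 b c)^[k] q1 := by
    have h1 := cu_shift hb0 hb1 hu1 hq1 k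
    rw [← hu] at h1
    exact (cuf_eq hb0 hb1 hRu h1).symm
  have hGc := continuous_G_iter 1 b c k
  -- the connected set
  obtain ⟨A0, hA0⟩ : ∃ A0 : Set E2, A0 = segment ℝ q1 q2 ∪ cuf b c s' '' uIcc σ0 t2 ∪
    segment ℝ q s.1 := ⟨_, rfl⟩
  have hA0c : IsCompact A0 := by
    rw [hA0]
    exact ((sf_segc q1 q2).union (isCompact_uIcc.image hγ'c)).union (sf_segc q s.1)
  have hA0p : IsPreconnected A0 := by
    rw [hA0]
    refine IsPreconnected.union q (Or.inr ⟨σ0, left_mem_uIcc, hq'.symm⟩) (left_mem_segment ℝ q s.1)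
      (IsPreconnected.union q2 (right_mem_segment ℝ q1 q2) ⟨t2, right_mem_uIcc, hq2'.symm⟩
        (convex_segment q1 q2).isPreconnected
        (isPreconnected_uIcc.image _ hγ'c.continuousOn)) (convex_segment q s.1).isPreconnected
  have hs1A : s.1 ∈ A0 := by rw [hA0]; exact Or.inr (right_mem_segment ℝ q s.1)
  have hq1A : q1 ∈ A0 := by rw [hA0]; exact Or.inl (Or.inl (left_mem_segment ℝ q1 q2))
  -- the norms
  have hcurve : ∀ T' ∈ uIcc σ0 t2, ‖cuf b c s' T'‖ ≤ |c| + 5 := by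
    intro T' hT'
    rcases le_or_gt 0 T' with h0 | h0
    · have := sf_kk (hG'.2.2 ⟨T', h0, cuf_spec hb0 hb1 hR' T'⟩)
      linarith
    · have h1 : min σ0 t2 ≤ T' := hT'.1
      have h2 : σ0 ≤ T' := by
        rcases min_choice σ0 t2 with h3 | h3
        · rwa [h3] at h1
        · rw [h3] at h1; linarith
      have h3 : |T'| ≤ |σ0| := by
        rw [abs_of_neg h0, abs_of_neg (by linarith)]; linarith
      have h4 := (hlc s' hR' T' 0 _ _ (h3.trans (hσh.trans hA4)) (by rw [abs_zero]; exact ha4.le)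
        (cuf_spec hb0 hb1 hR' T') (cuf_spec hb0 hb1 hR' 0)).2.2.2.1
      rw [hγ'0, sub_zero] at h4
      have h5 := sf_kk hG'.1
      have h6 : ‖cuf b c s' T'‖ ≤ ‖cuf b c s' T' - s'.1‖ + ‖s'.1‖ := by
        have := norm_add_le (cuf b c s' T' - s'.1) s'.1
        rwa [sub_add_cancel] at this
      linarith
  have hA0n : ∀ w ∈ A0, ‖w‖ ≤ |c| + 5 := by
    intro w hw
    rw [hA0] at hw
    rcases hw with (hw | hw) | hw
    · have h1 := sf_kk (hG.2.2 ⟨t1, ht10, hq1⟩)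
      have h2 := sf_kk (hG'.2.2 ⟨t2, ht2, hq2⟩)
      have := sf_seg h1 h2 hw
      linarith
    · obtain ⟨T', hT', rfl⟩ := hw
      exact hcurve T' hT'
    · have h1 := hcurve σ0 left_mem_uIcc
      rw [← hq'] at h1
      have h2 := sf_kk hG.1
      exact sf_seg h1 (by linarith) hw
  have hbd : ∀ z' ∈ cuf b c u '' Icc 0 (lam b c s k * t1) ∪ (G 1 b c)^[k] '' A0,
      ‖(Gi 1 b c)^[k] z'‖ ≤ |c| + 5 := by
    intro z' hz'
    rcases hz' with hz' | hz'
    · obtain ⟨t, ht, rfl⟩ := hz'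
      have h1 := cu_shift hb0 hb1 hu1 (cuf_spec hb0 hb1 hR (t / lam b c s k)) k
      rw [← hu, mul_div_cancel₀ _ hlam.ne'] at h1
      rw [← cuf_eq hb0 hb1 hRu h1, Gi_iter_G_iter hb0]
      have h2 := sf_kk (hG.2.2 ⟨t / lam b c s k, div_nonneg ht.1 hlam.le,
        cuf_spec hb0 hb1 hR (t / lam b c s k)⟩)
      linarith
    · obtain ⟨w, hw, rfl⟩ := hz'
      rw [Gi_iter_G_iter hb0]
      exact hA0n w hw
  obtain ⟨σ, β, hσa, hσb, hβ, hcase⟩ := hn k u hRu (lam b c s k * t1) ((G 1 b c)^[k] '' A0) hT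
    (hA0c.image hGc) (hA0p.image _ hGc.continuousOn) ⟨s.1, hs1A, hu0.symm⟩ ⟨q1, hq1A, huT.symm⟩ hbd
  have hβn : ‖β • nv u.2‖ ≤ E * |b| ^ k := by
    rw [norm_smul, Real.norm_eq_abs]
    calc |β| * ‖nv u.2‖ ≤ |β| * 1 := mul_le_mul_of_nonneg_left (norm_nv_le huu) (abs_nonneg _)
      _ ≤ _ := by rw [mul_one]; exact hβ
  have hσ0' : 0 ≤ σ := by linarith
  rcases hcase with hA | ⟨t, ht, htT, hteq⟩
  · obtain ⟨w, hw, hweq⟩ := hA
    rw [hA0] at hw
    rcases hw with (hw | hw) | hw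
    · -- the segment near `z`
      have h1 : w ∈ Metric.ball z δ := (convex_ball z δ).segment_subset
        (by rw [mem_ball_iff_norm]; exact hq1z) (by rw [mem_ball_iff_norm]; exact hq2z) hw
      rw [mem_ball_iff_norm] at h1
      have h2 := hδ' w h1
      have h3 := hδ' q1 hq1z
      have h4 := hfar σ (lam b c s k * t1) hσ0' hσb.le hT
      rw [huT] at h4
      have h5 : (G 1 b c)^[k] q1 - cuf b c u σ =
          ((G 1 b c)^[k] q1 - (G 1 b c)^[k] z) - ((G 1 b c)^[k] w - (G 1 b c)^[k] z) +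
            β • nv u.2 := by
        rw [hweq]; abel
      rw [h5] at h4
      have h6 := norm_add_le (((G 1 b c)^[k] q1 - (G 1 b c)^[k] z) -
        ((G 1 b c)^[k] w - (G 1 b c)^[k] z)) (β • nv u.2)
      have h7 := norm_sub_le ((G 1 b c)^[k] q1 - (G 1 b c)^[k] z)
        ((G 1 b c)^[k] w - (G 1 b c)^[k] z)
      linarith
    · -- the curve of `s'`
      obtain ⟨T', hT', rfl⟩ := hw
      have h1 : -h ≤ T' := by
        have h2 : min σ0 t2 ≤ T' := hT'.1
        have h3 := (abs_le.1 hσh).1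
        rcases min_choice σ0 t2 with h4 | h4
        · rw [h4] at h2; linarith
        · rw [h4] at h2; linarith
      have h2 := hpf σ T' hσ0' hσb.le h1
      rw [hweq, add_sub_cancel_left] at h2
      linarith
    · -- the short segment
      have h1 : ‖w - s.1‖ ≤ |β0| := by
        have h2 : ‖q - s.1‖ ≤ |β0| := by
          rw [hqs, norm_smul, Real.norm_eq_abs]
          calc |β0| * ‖nv s.2‖ ≤ |β0| * 1 :=
                mul_le_mul_of_nonneg_left (norm_nv_le hu1) (abs_nonneg _)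
            _ = _ := mul_one _
        have h3 := (convex_closedBall s.1 |β0|).segment_subset
          (by rw [mem_closedBall_iff_norm]; exact h2)
          (Metric.mem_closedBall_self (abs_nonneg _)) hw
        rwa [mem_closedBall_iff_norm] at h3
      have hζ : Real.exp (-(9 / 10) * L) ≤ η := sf_small hη (hLm3.trans hLm)
      have hdk : dl b * k ≤ 3 / 1000 * L := by
        have h2 : el b * k = 1000 * (dl b * k) := by rw [el_eq b]; ring
        linarith only [h2, e2]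
      have h2 : ‖w - s.1‖ * Real.exp (2 * dl b * k) ≤ c0 := by
        calc ‖w - s.1‖ * Real.exp (2 * dl b * k) ≤ Real.exp (-L) * Real.exp (2 * dl b * k) := by
              rw [← hβabs]
              exact mul_le_mul_of_nonneg_right h1 (Real.exp_pos _).le
          _ = Real.exp (-L + 2 * dl b * k) := (Real.exp_add _ _).symm
          _ ≤ Real.exp (-(9 / 10) * L) := Real.exp_le_exp.2 (by linarith only [hdk, hL1])
          _ ≤ c0 := hζ.trans hη1
      have h3 := hfc s hR 0 s.1 (by rw [abs_zero]; exact ha5.le)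
        (by have := cuf_spec hb0 hb1 hR 0; rwa [hγ0] at this) w k h2
      have h4 : 4 * C * Real.exp (dl b * k) * ‖w - s.1‖ ≤ 4 * C' * Real.exp (-(9 / 10) * L) := by
        calc 4 * C * Real.exp (dl b * k) * ‖w - s.1‖
            ≤ 4 * C' * Real.exp (dl b * k) * Real.exp (-L) := by
              rw [hβabs] at h1
              refine mul_le_mul ?_ h1 (norm_nonneg _) (by positivity)
              exact mul_le_mul_of_nonneg_right (by linarith) (Real.exp_pos _).le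
          _ = 4 * C' * Real.exp (dl b * k + -L) := by rw [mul_assoc, ← Real.exp_add]
          _ ≤ 4 * C' * Real.exp (-(9 / 10) * L) :=
              mul_le_mul_of_nonneg_left (Real.exp_le_exp.2 (by linarith only [hdk, hL1])) (by positivity)
      have h5 : |b| ^ k ≤ Real.exp (-(9 / 10) * L) := by
        rw [pow_eq hb0]
        exact Real.exp_le_exp.2 (by linarith only [e1, hL1])
      have h6 := (hlc u hRu σ 0 _ _ (by rw [abs_of_nonneg hσ0']; linarith)
        (by rw [abs_zero]; exact ha4.le) (cuf_spec hb0 hb1 hRu σ) (cuf_spec hb0 hb1 hRu 0)).2.2.1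
      rw [sub_zero, abs_of_nonneg hσ0', hu0] at h6
      have h7 : cuf b c u σ - (G 1 b c)^[k] s.1 =
          ((G 1 b c)^[k] w - (G 1 b c)^[k] s.1) - β • nv u.2 := by
        rw [hweq]; abel
      rw [h7] at h6
      have h8 := norm_sub_le ((G 1 b c)^[k] w - (G 1 b c)^[k] s.1) (β • nv u.2)
      have h9 : E * |b| ^ k ≤ E * Real.exp (-(9 / 10) * L) := mul_le_mul_of_nonneg_left h5 hE.le
      have h10 : 4 * C' * Real.exp (-(9 / 10) * L) + E * Real.exp (-(9 / 10) * L) ≤ h / 16 := by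
        rw [← add_mul]
        exact (mul_le_mul_of_nonneg_left hζ (by positivity)).trans hη2
      linarith only [h3, h4, h6, h8, h9, h10, hβn, hσa, hh]
  · have h1 := hfar σ t hσ0' hσb.le ht.le
    rw [hteq, add_sub_cancel_left] at h1
    linarith

theorem bk_disj {b c : ℝ} (hb0 : b ≠ 0) (hb1 : |b| < 1) (C : ℝ) : ∃ h1 : ℝ, 0 < h1 ∧
    ∀ h : ℝ, 0 < h → h ≤ h1 → ∀ r : ℝ, 0 < r → ∀ N0 : ℕ, ∃ d0 : ℝ, 0 < d0 ∧
      ∀ s ∈ Bk b c C h r N0, ∀ s' ∈ Bk b c C h r N0, ‖s.1 - s'.1‖ ≤ d0 →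
        ¬ ExpC (G 1 b c) s.1 s'.1 →
        Disjoint (closure (Brn b c s)) (closure (Brn b c s')) := by
  obtain ⟨h1, hh1, H⟩ := bk_disj_aux (c := c) hb0 hb1 C
  refine ⟨h1, hh1, fun h hh hle r hr N0 => ?_⟩
  obtain ⟨d0, hd0, H'⟩ := H h hh hle r hr N0
  refine ⟨d0, hd0, fun s hs s' hs' hd hne => ?_⟩
  rw [Set.disjoint_left]
  intro z hz hz'
  have hz1 := hz
  have hz2 := hz'
  rw [(clo_brn hb0 hb1 hs.1).1] at hz1
  rw [(clo_brn hb0 hb1 hs'.1).1] at hz2
  rcases hz1 with hz1 | hz1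
  · rcases hz2 with hz2 | hz2
    · obtain ⟨t, -, ht⟩ := hz1
      obtain ⟨t', -, ht'⟩ := hz2
      have e1 := Asym.expC (dl_le hb0 hb1) (dl_pos hb0 hb1) hs.2.1 ht
      have e2 := Asym.expC (dl_le hb0 hb1) (dl_pos hb0 hb1) hs'.2.1 ht'
      exact hne (ExpC.trans e1 (ExpC.symm e2))
    · exact Set.disjoint_left.1 (H' s' hs' s hs (by rw [norm_sub_rev]; exact hd)
        (fun h => hne (ExpC.symm h))) hz2 hz
  · exact Set.disjoint_left.1 (H' s hs s' hs' hd hne) hz1 hz'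

end Pool.Agent.HG
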