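import Pool.Agent.HG.Fc

set_option autoImplicit false

/-!
# Lower bound for the distance of points which are transversal to the stable curve

The determinant of the contracted vector and the difference of the orbits is `b ^ n` times the
transversal coordinate, up to an error given by the quadratic terms.
-/

namespace Pool.Agent.HG

open Pool.Agent.HD

variable {b c : ℝ}

private theorem wl_geom {x : ℝ} (h0 : 0 ≤ x) (h1 : x < 1) (n : ℕ) :
    ∑ i ∈ Finset.range n, x ^ i ≤ (1 - x)⁻¹ := by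
  have h2 := geom_sum_mul_neg x n
  have h3 : 0 < 1 - x := by linarith
  rw [← one_div, le_div_iff₀ h3, h2]
  have := pow_nonneg h0 n
  linarith

private theorem wl_geom2 {x : ℝ} (h1 : 1 < x) (n : ℕ) :
    ∑ i ∈ Finset.range n, x ^ i ≤ x ^ n * (x - 1)⁻¹ := by
  have h2 := geom_sum_mul x n
  have h3 : 0 < x - 1 := by linarith
  rw [← div_eq_mul_inv, le_div_iff₀ h3, h2]
  linarith

/-- one step of the difference of two orbits, in terms of the derivative along a third orbit -/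
private theorem wl_step (b c : ℝ) (x p q : E2) (n : ℕ) :
    (G 1 b c)^[n + 1] q - (G 1 b c)^[n + 1] p =
      act (der 1 b ((G 1 b c)^[n] x)) ((G 1 b c)^[n] q - (G 1 b c)^[n] p) +
      ((2 * ((G 1 b c)^[n] p - (G 1 b c)^[n] x).1 * ((G 1 b c)^[n] q - (G 1 b c)^[n] p).1 +
        ((G 1 b c)^[n] q - (G 1 b c)^[n] p).1 ^ 2, 0) : E2) := by
  rw [Function.iterate_succ_apply', Function.iterate_succ_apply']
  generalize (G 1 b c)^[n] q = q'
  generalize (G 1 b c)^[n] p = p'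
  generalize (G 1 b c)^[n] x = x'
  ext
  · simp only [G, act, der, Prod.fst_add, Prod.fst_sub, Prod.snd_sub]
    ring
  · simp only [G, act, der, Prod.snd_add, Prod.fst_sub, Prod.snd_sub]
    ring

private theorem wl_wd (a b : ℝ) (p u v : E2) (t : ℝ) :
    wd (act (der a b p) u) (act (der a b p) v + (t, 0)) = b * wd u v - t * u.1 := by
  simp only [wd, act, der, Prod.fst_add, Prod.snd_add]
  ring

private theorem wl_main (hb0 : b ≠ 0) {C : ℝ} {s : E2 × E2} (h : RS b c C s) (hC : 1 ≤ C)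
    {h0 : ℝ} (hh0 : 0 ≤ h0) {p q : E2} {β : ℝ} {n : ℕ} (hqp : q - p = β • nv s.2)
    (hp : ∀ m : ℕ, ‖(G 1 b c)^[m] p - (G 1 b c)^[m] s.1‖ ≤
      2 * C * Real.exp (-(el b - 4 * dl b) * m) * h0)
    (hq : ∀ m : ℕ, m ≤ n → ‖(G 1 b c)^[m] q - (G 1 b c)^[m] p‖ ≤
      4 * C * Real.exp (dl b * m) * |β|) :
    ∀ m : ℕ, m ≤ n → |wd (vn b c s m) ((G 1 b c)^[m] q - (G 1 b c)^[m] p) - b ^ m * β| ≤
      |b| ^ m * ∑ i ∈ Finset.range m, 16 * C ^ 3 / |b| * |β| *
        (h0 * Real.exp (-(el b - 8 * dl b)) ^ i + |β| * Real.exp (5 * dl b) ^ i) := by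
  intro m
  induction m with
  | zero =>
    intro _
    have e1 : vn b c s 0 = s.2 := act_one s.2
    rw [e1, Function.iterate_zero, id, id, hqp, wd_smul_right, wd_nv h.unit, pow_zero, pow_zero,
      Finset.range_zero, Finset.sum_empty]
    simp
  | succ m ih =>
    intro hm
    have ih' := ih (by omega)
    have hbp : 0 < |b| := abs_pos.2 hb0
    have hw := hq m (by omega)
    have hpm := hp m
    have hcon := h.con m
    have e1 : vn b c s (m + 1) = act (der 1 b ((G 1 b c)^[m] s.1)) (vn b c s m) :=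
      act_co_succ 1 b c s.1 s.2 m
    rw [e1, wl_step b c s.1 p q m, wl_wd]
    obtain ⟨γ, hγ⟩ : ∃ γ : ℝ, γ = 2 * ((G 1 b c)^[m] p - (G 1 b c)^[m] s.1).1 *
        ((G 1 b c)^[m] q - (G 1 b c)^[m] p).1 + ((G 1 b c)^[m] q - (G 1 b c)^[m] p).1 ^ 2 :=
      ⟨_, rfl⟩
    rw [← hγ]
    have hγ' : |γ| ≤ (4 * C * Real.exp (-(el b - 4 * dl b) * m) * h0 +
        4 * C * Real.exp (dl b * m) * |β|) * (4 * C * Real.exp (dl b * m) * |β|) := by
      rw [hγ]
      refine (abs_add_le _ _).trans ?_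
      rw [abs_mul, abs_mul, abs_two, abs_pow]
      have a1 : |((G 1 b c)^[m] p - (G 1 b c)^[m] s.1).1| ≤
          2 * C * Real.exp (-(el b - 4 * dl b) * m) * h0 := (norm_fst_le _).trans hpm
      have a2 : |((G 1 b c)^[m] q - (G 1 b c)^[m] p).1| ≤
          4 * C * Real.exp (dl b * m) * |β| := (norm_fst_le _).trans hw
      calc _ ≤ 2 * (2 * C * Real.exp (-(el b - 4 * dl b) * m) * h0) *
            (4 * C * Real.exp (dl b * m) * |β|) + (4 * C * Real.exp (dl b * m) * |β|) ^ 2 := by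
            gcongr
        _ = _ := by ring
    have hv1 : |(vn b c s m).1| ≤ C * Real.exp (-(el b - 3 * dl b) * m) :=
      (norm_fst_le _).trans hcon
    have x1 : Real.exp (-(el b - 4 * dl b) * m) * Real.exp (dl b * m) *
        Real.exp (-(el b - 3 * dl b) * m) = |b| ^ m * Real.exp (-(el b - 8 * dl b)) ^ m := by
      rw [pow_eq hb0, ← Real.exp_nat_mul, ← Real.exp_add, ← Real.exp_add, ← Real.exp_add]
      congr 1
      ring
    have x2 : Real.exp (dl b * m) * Real.exp (dl b * m) *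
        Real.exp (-(el b - 3 * dl b) * m) = |b| ^ m * Real.exp (5 * dl b) ^ m := by
      rw [pow_eq hb0, ← Real.exp_nat_mul, ← Real.exp_add, ← Real.exp_add, ← Real.exp_add]
      congr 1
      ring
    have hprod : |γ| * |(vn b c s m).1| ≤ |b| ^ (m + 1) * (16 * C ^ 3 / |b| * |β| *
        (h0 * Real.exp (-(el b - 8 * dl b)) ^ m + |β| * Real.exp (5 * dl b) ^ m)) := by
      calc |γ| * |(vn b c s m).1| ≤ ((4 * C * Real.exp (-(el b - 4 * dl b) * m) * h0 +
            4 * C * Real.exp (dl b * m) * |β|) * (4 * C * Real.exp (dl b * m) * |β|)) *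
            (C * Real.exp (-(el b - 3 * dl b) * m)) := by
            gcongr
        _ = 16 * C ^ 3 * |β| * (h0 * (Real.exp (-(el b - 4 * dl b) * m) *
              Real.exp (dl b * m) * Real.exp (-(el b - 3 * dl b) * m)) +
              |β| * (Real.exp (dl b * m) * Real.exp (dl b * m) *
                Real.exp (-(el b - 3 * dl b) * m))) := by ring
        _ = 16 * C ^ 3 * |β| * (h0 * (|b| ^ m * Real.exp (-(el b - 8 * dl b)) ^ m) +
              |β| * (|b| ^ m * Real.exp (5 * dl b) ^ m)) := by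
            rw [x1, x2]
        _ = _ := by
            field_simp
            ring
    rw [Finset.sum_range_succ, mul_add]
    have e2 : b * wd (vn b c s m) ((G 1 b c)^[m] q - (G 1 b c)^[m] p) - γ * (vn b c s m).1 -
        b ^ (m + 1) * β = b * (wd (vn b c s m) ((G 1 b c)^[m] q - (G 1 b c)^[m] p) -
        b ^ m * β) + -(γ * (vn b c s m).1) := by
      rw [pow_succ]
      ring
    rw [e2]
    refine (abs_add_le _ _).trans (add_le_add ?_ ?_)
    · rw [abs_mul, pow_succ, mul_comm (|b| ^ m) |b|, mul_assoc]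
      exact mul_le_mul_of_nonneg_left ih' (abs_nonneg b)
    · rw [abs_neg, abs_mul]
      exact hprod

theorem wl (hb0 : b ≠ 0) (hb1 : |b| < 1) (C : ℝ) : ∃ h0 c0 : ℝ, 0 < h0 ∧ 0 < c0 ∧
    ∀ s : E2 × E2, RS b c C s → ∀ (σ : ℝ) (p : E2), |σ| ≤ h0 → Cu b c s σ p →
      ∀ (q : E2) (β : ℝ) (n : ℕ), q - p = β • nv s.2 → |β| * Real.exp (5 * dl b * n) ≤ c0 →
        |b| ^ n * |β| ≤ 2 * |wd (vn b c s n) ((G 1 b c)^[n] q - (G 1 b c)^[n] p)| ∧
        Real.exp (-(3 * dl b) * n) * |β| ≤ 4 * C * ‖(G 1 b c)^[n] q - (G 1 b c)^[n] p‖ := by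
  rcases lt_or_ge C 1 with hC | hC
  · refine ⟨1, 1, one_pos, one_pos, fun s hs => ?_⟩
    exact absurd hs.one_le (not_le.2 hC)
  have hbp : 0 < |b| := abs_pos.2 hb0
  have hl := el_pos hb0 hb1
  have hd := dl_pos hb0 hb1
  have hld := dl_le hb0 hb1
  obtain ⟨h1, c1, hh1, hc1, H1⟩ := fc (c := c) hb0 hb1 C
  obtain ⟨h2, hh2, H2⟩ := lc (c := c) hb0 hb1 C
  obtain ⟨r, hr⟩ : ∃ r : ℝ, r = Real.exp (-(el b - 8 * dl b)) := ⟨_, rfl⟩
  obtain ⟨E, hE⟩ : ∃ E : ℝ, E = Real.exp (5 * dl b) := ⟨_, rfl⟩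
  have hr0 : 0 < r := by
    rw [hr]
    exact Real.exp_pos _
  have hr1 : r < 1 := by
    rw [hr, Real.exp_lt_one_iff]
    linarith
  have hE1 : 1 < E := by
    rw [hE, Real.one_lt_exp_iff]
    linarith
  have hr2 : 0 < 1 - r := by linarith
  have hE2 : 0 < E - 1 := by linarith
  have hC0 : 0 < C := by linarith
  obtain ⟨h3, hh3⟩ : ∃ h3 : ℝ, h3 = |b| * (1 - r) / (64 * C ^ 3) := ⟨_, rfl⟩
  obtain ⟨c3, hc3⟩ : ∃ c3 : ℝ, c3 = |b| * (E - 1) / (64 * C ^ 3) := ⟨_, rfl⟩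
  have hh3' : 0 < h3 := by
    rw [hh3]
    positivity
  have hc3' : 0 < c3 := by
    rw [hc3]
    positivity
  refine ⟨min h1 (min h2 h3), min c1 c3, lt_min hh1 (lt_min hh2 hh3'), lt_min hc1 hc3', ?_⟩
  intro s hs σ p hσ hp q β n hqp hβ
  have hσ1 : |σ| ≤ h1 := hσ.trans (min_le_left _ _)
  have hσ2 : |σ| ≤ h2 := hσ.trans ((min_le_right _ _).trans (min_le_left _ _))
  have hσ3 : |σ| ≤ h3 := hσ.trans ((min_le_right _ _).trans (min_le_right _ _))
  have hβ1 : |β| * Real.exp (5 * dl b * n) ≤ c1 := hβ.trans (min_le_left _ _)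
  have hβ3 : |β| * Real.exp (5 * dl b * n) ≤ c3 := hβ.trans (min_le_right _ _)
  have hnorm : ‖q - p‖ ≤ |β| := by
    rw [hqp, norm_smul, Real.norm_eq_abs]
    have := norm_nv_le hs.unit
    have h0 := abs_nonneg β
    nlinarith
  have hCu0 : Cu b c s 0 s.1 := ⟨0, fun m => by simp⟩
  have hpx := (H2 s hs σ 0 p s.1 hσ2 (by rw [abs_zero]; exact hh2.le) hp hCu0).2.2.2.2
  have hp' : ∀ m : ℕ, ‖(G 1 b c)^[m] p - (G 1 b c)^[m] s.1‖ ≤
      2 * C * Real.exp (-(el b - 4 * dl b) * m) * h3 := by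
    intro m
    refine (hpx m).trans ?_
    rw [sub_zero]
    gcongr
  have hq' : ∀ m : ℕ, m ≤ n → ‖(G 1 b c)^[m] q - (G 1 b c)^[m] p‖ ≤
      4 * C * Real.exp (dl b * m) * |β| := by
    intro m hm
    have a1 : ‖q - p‖ * Real.exp (2 * dl b * m) ≤ c1 := by
      refine le_trans ?_ hβ1
      have a2 : (m : ℝ) ≤ n := by exact_mod_cast hm
      have a3 : 2 * dl b * m ≤ 5 * dl b * n := by
        have : (0 : ℝ) ≤ m := Nat.cast_nonneg m
        nlinarith
      have a4 := Real.exp_le_exp.2 a3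
      gcongr
    refine (H1 s hs σ p hσ1 hp q m a1).trans ?_
    gcongr
  have key := wl_main hb0 hs hC hh3'.le hqp hp' hq' n le_rfl
  rw [← hr, ← hE] at key
  have hsum : ∑ i ∈ Finset.range n, 16 * C ^ 3 / |b| * |β| * (h3 * r ^ i + |β| * E ^ i) ≤
      |β| / 2 := by
    rw [← Finset.mul_sum, Finset.sum_add_distrib, ← Finset.mul_sum, ← Finset.mul_sum]
    have b1 := wl_geom hr0.le hr1 n
    have b2 := wl_geom2 hE1 n
    have b3 : E ^ n = Real.exp (5 * dl b * n) := by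
      rw [hE, ← Real.exp_nat_mul]
      congr 1
      ring
    have b4 : h3 * ∑ i ∈ Finset.range n, r ^ i ≤ |b| / (64 * C ^ 3) := by
      calc h3 * ∑ i ∈ Finset.range n, r ^ i ≤ h3 * (1 - r)⁻¹ := by gcongr
        _ = |b| / (64 * C ^ 3) := by
          rw [hh3]
          field_simp
    have b5 : |β| * ∑ i ∈ Finset.range n, E ^ i ≤ |b| / (64 * C ^ 3) := by
      calc |β| * ∑ i ∈ Finset.range n, E ^ i ≤ |β| * (E ^ n * (E - 1)⁻¹) := by gcongr
        _ = (|β| * Real.exp (5 * dl b * n)) * (E - 1)⁻¹ := by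
          rw [b3]
          ring
        _ ≤ c3 * (E - 1)⁻¹ := by gcongr
        _ = |b| / (64 * C ^ 3) := by
          rw [hc3]
          field_simp
    calc 16 * C ^ 3 / |b| * |β| * (h3 * ∑ i ∈ Finset.range n, r ^ i +
          |β| * ∑ i ∈ Finset.range n, E ^ i)
        ≤ 16 * C ^ 3 / |b| * |β| * (|b| / (64 * C ^ 3) + |b| / (64 * C ^ 3)) := by
          gcongr
      _ = |β| / 2 := by
          field_simp
          ring
  have hpn : 0 < |b| ^ n := pow_pos hbp n
  have hkey2 : |wd (vn b c s n) ((G 1 b c)^[n] q - (G 1 b c)^[n] p) - b ^ n * β| ≤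
      |b| ^ n * (|β| / 2) := key.trans (mul_le_mul_of_nonneg_left hsum hpn.le)
  have first : |b| ^ n * |β| ≤
      2 * |wd (vn b c s n) ((G 1 b c)^[n] q - (G 1 b c)^[n] p)| := by
    have d1 : |b ^ n * β| = |b| ^ n * |β| := by rw [abs_mul, abs_pow]
    have d2 : |b ^ n * β| ≤ |wd (vn b c s n) ((G 1 b c)^[n] q - (G 1 b c)^[n] p)| +
        |wd (vn b c s n) ((G 1 b c)^[n] q - (G 1 b c)^[n] p) - b ^ n * β| := by
      have := abs_sub_abs_le_abs_sub (b ^ n * β)
        (wd (vn b c s n) ((G 1 b c)^[n] q - (G 1 b c)^[n] p))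
      rw [abs_sub_comm] at this
      linarith
    rw [d1] at d2
    linarith
  refine ⟨first, ?_⟩
  have e1 := abs_wd_le (vn b c s n) ((G 1 b c)^[n] q - (G 1 b c)^[n] p)
  have e2 : ‖vn b c s n‖ ≤ C * Real.exp (-(el b - 3 * dl b) * n) := hs.con n
  have e3 : |b| ^ n * |β| ≤ 4 * C * Real.exp (-(el b - 3 * dl b) * n) *
      ‖(G 1 b c)^[n] q - (G 1 b c)^[n] p‖ := by
    have e4 : 2 * ‖vn b c s n‖ * ‖(G 1 b c)^[n] q - (G 1 b c)^[n] p‖ ≤
        2 * (C * Real.exp (-(el b - 3 * dl b) * n)) * ‖(G 1 b c)^[n] q - (G 1 b c)^[n] p‖ := by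
      gcongr
    linarith
  have e5 : |b| ^ n = Real.exp (-(3 * dl b) * n) * Real.exp (-(el b - 3 * dl b) * n) := by
    rw [pow_eq hb0, ← Real.exp_add]
    congr 1
    ring
  rw [e5] at e3
  have e6 := Real.exp_pos (-(el b - 3 * dl b) * n)
  refine le_of_mul_le_mul_left ?_ e6
  linarith

end Pool.Agent.HG
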